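import Mathlib

/-!
Definitions for MP_e511d7_ag: projective morphisms, tori, toric varieties, rational varieties.
-/

open CategoryTheory Limits AlgebraicGeometry

universe u

namespace TOD

noncomputable section

attribute [local instance] MvPolynomial.gradedAlgebra

/-- Projective `n`-space over `S`: the base change to `S` of `Proj ℤ[x_0, …, x_n]`. -/
def PSpace (n : ℕ) (S : Scheme.{u}) : Scheme.{u} :=
  pullback (terminal.from S)
    (terminal.from (Proj (MvPolynomial.homogeneousSubmodule (Fin (n + 1)) (ULift.{u} ℤ))))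

/-- The structure morphism of projective `n`-space over `S`. -/
def PSpace.toBase (n : ℕ) (S : Scheme.{u}) : PSpace n S ⟶ S := pullback.fst _ _

/-- A morphism `π : X ⟶ S` is projective (in the weakest sense used in the literature, covering the
definitions of Hartshorne and of EGA) if every point of `S` has an open neighbourhood `U` such that
`π⁻¹ U ⟶ U` factors as a closed immersion into some projective space `ℙⁿ_U` followed by
the projection. -/
def IsProjective {X S : Scheme.{u}} (π : X ⟶ S) : Prop :=
  ∀ s : S, ∃ U : S.Opens, s ∈ U ∧ ∃ (n : ℕ) (i : (π ⁻¹ᵁ U).toScheme ⟶ PSpace n U.toScheme),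
    IsClosedImmersion i ∧ i ≫ PSpace.toBase n U.toScheme = π ∣_ U

variable (K : Type u) [Field K]

/-- The `n`-dimensional split torus `T = Spec K[ℤⁿ]` over a field `K`. -/
abbrev Torus (n : ℕ) : Scheme.{u} := Spec (.of (AddMonoidAlgebra K (Fin n → ℤ)))

namespace Torus

variable (n : ℕ)

/-- The structure morphism `T ⟶ Spec K` of the torus. -/
abbrev toBase : Torus K n ⟶ Spec (.of K) :=
  Spec.map (CommRingCat.ofHom (algebraMap K (AddMonoidAlgebra K (Fin n → ℤ))))

/-- The group law `T ×_K T ⟶ T` of the torus: `Spec` of the comultiplication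
`χ^u ↦ χ^u ⊗ χ^u` of the Hopf algebra `K[ℤⁿ]`. -/
def mul : pullback (toBase K n) (toBase K n) ⟶ Torus K n :=
  (pullbackSpecIso K (AddMonoidAlgebra K (Fin n → ℤ)) (AddMonoidAlgebra K (Fin n → ℤ))).hom ≫
    Spec.map (CommRingCat.ofHom
      (Bialgebra.comulAlgHom K (AddMonoidAlgebra K (Fin n → ℤ))).toRingHom)

/-- The unit `Spec K ⟶ T` of the torus: `Spec` of the counit `χ^u ↦ 1`. -/
def one : Spec (.of K) ⟶ Torus K n :=
  Spec.map (CommRingCat.ofHom (Bialgebra.counitAlgHom K (AddMonoidAlgebra K (Fin n → ℤ))).toRingHom)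

lemma mul_toBase : mul K n ≫ toBase K n = pullback.fst _ _ ≫ toBase K n := by
  have h1 := pullbackSpecIso_hom_base K (AddMonoidAlgebra K (Fin n → ℤ))
    (AddMonoidAlgebra K (Fin n → ℤ))
  rw [mul, Category.assoc, ← Spec.map_comp, ← CommRingCat.ofHom_comp, ← h1]
  congr 3
  exact (Bialgebra.comulAlgHom K (AddMonoidAlgebra K (Fin n → ℤ))).comp_algebraMap

lemma one_toBase : one K n ≫ toBase K n = 𝟙 _ := by
  rw [one, ← Spec.map_comp, ← CommRingCat.ofHom_comp]
  have : (Bialgebra.counitAlgHom K (AddMonoidAlgebra K (Fin n → ℤ))).toRingHom.comp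
      (algebraMap K (AddMonoidAlgebra K (Fin n → ℤ))) = RingHom.id K :=
    (Bialgebra.counitAlgHom K (AddMonoidAlgebra K (Fin n → ℤ))).comp_algebraMap
  rw [this]
  simp

end Torus

variable {K}

/-- A toric structure on a scheme `f : X ⟶ Spec K` over `K`: the torus `T` of dimension `n` as a
dense open subscheme `j : T ⟶ X`, and an algebraic action `act : T ×_K X ⟶ X` of the group scheme
`T` on `X` which extends the translation action of `T` on itself. (The axioms are written with
`Y`-valued points, `Y` an arbitrary scheme; the hypotheses `h₁`, `h₂`, `h` in them hold automatically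
and only say that the points are points over `K`.) -/
structure ToricStructure {X : Scheme.{u}} (f : X ⟶ Spec (.of K)) (n : ℕ) where
  /-- the torus inside `X` -/
  j : Torus K n ⟶ X
  j_over : j ≫ f = Torus.toBase K n
  isOpenImmersion_j : IsOpenImmersion j
  isDominant_j : IsDominant j
  /-- the action `T ×_K X ⟶ X` -/
  act : pullback (Torus.toBase K n) f ⟶ X
  act_over : act ≫ f = pullback.snd _ _ ≫ f
  /-- the unit acts trivially: `1 · x = x` -/
  one_act : pullback.lift (f ≫ Torus.one K n) (𝟙 X)
    (by rw [Category.assoc, Torus.one_toBase, Category.comp_id, Category.id_comp]) ≫ act = 𝟙 X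
  /-- associativity: `s · (t · x) = (s t) · x` -/
  mul_act : ∀ {Y : Scheme.{u}} (s t : Y ⟶ Torus K n) (x : Y ⟶ X)
    (hst : s ≫ Torus.toBase K n = t ≫ Torus.toBase K n) (ht : t ≫ Torus.toBase K n = x ≫ f)
    (h₁ : s ≫ Torus.toBase K n = (pullback.lift t x ht ≫ act) ≫ f)
    (h₂ : (pullback.lift s t hst ≫ Torus.mul K n) ≫ Torus.toBase K n = x ≫ f),
    pullback.lift s (pullback.lift t x ht ≫ act) h₁ ≫ act =
      pullback.lift (pullback.lift s t hst ≫ Torus.mul K n) x h₂ ≫ act
  /-- the action extends the translation action: `s · j(t) = j(s t)` -/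
  act_j : ∀ {Y : Scheme.{u}} (s t : Y ⟶ Torus K n)
    (hst : s ≫ Torus.toBase K n = t ≫ Torus.toBase K n)
    (h : s ≫ Torus.toBase K n = (t ≫ j) ≫ f),
    pullback.lift s (t ≫ j) h ≫ act = (pullback.lift s t hst ≫ Torus.mul K n) ≫ j

/-- A smooth projective toric variety over a field `K`: a smooth projective normal variety
(integral scheme, of finite type and separated over `K` because it is projective) containing
a torus as a dense open subset such that the translation action extends to the variety. -/
structure IsSmoothProjectiveToric {X : Scheme.{u}} (f : X ⟶ Spec (.of K)) : Prop where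
  smooth : Smooth f
  projective : IsProjective f
  integral : IsIntegral X
  normal : ∀ x : X, IsIntegrallyClosed (X.presheaf.stalk x)
  toric : ∃ n : ℕ, Nonempty (ToricStructure f n)

/-- A scheme `f : X ⟶ Spec K` is a rational variety over `K` if it is birational over `K` to
an affine space `𝔸ⁿ_K`. -/
def IsRational {X : Scheme.{u}} (f : X ⟶ Spec (.of K)) : Prop :=
  ∃ n : ℕ, Scheme.BirationalOver f (𝔸(ULift.{u} (Fin n); Spec (.of K)) ↘ Spec (.of K))

end

end TOD
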