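import Pool.Agent.TD.Main

/-!
[TOR] MP_e511d7_ag: the conditional form for all geometric fibres.
-/

open CategoryTheory Limits AlgebraicGeometry

universe u

namespace TOD

noncomputable section

/-- Rationality specialises (theorem of Kontsevich and Tschinkel, 2017; here only for complete
discrete valuation rings with algebraically closed residue field of characteristic zero): if all
geometric generic fibres of a smooth projective family over `Spec R` are rational then the special fibre
is rational. -/
def RationalitySpecializes : Prop :=
  ∀ (R K : Type u) [CommRing R] [IsDomain R] [IsDiscreteValuationRing R]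
    [IsAdicComplete (IsLocalRing.maximalIdeal R) R] [Field K] [IsAlgClosed K] [CharZero K]
    [Algebra R K], Function.Surjective (algebraMap R K) →
    ∀ (X : Scheme.{u}) (f : X ⟶ Spec (.of R)) [Smooth f], IsProjective f →
      (∀ (L : Type u) [Field L] [IsAlgClosed L] (s : Spec (.of L) ⟶ Spec (.of R)),
        (∀ x, s x = (⟨⊥, Ideal.isPrime_bot⟩ : PrimeSpectrum R)) →
          IsRational (pullback.snd f s)) →
      IsRational (pullback.snd f (Spec.map (CommRingCat.ofHom (algebraMap R K))))

theorem IsRational.of_iso {K : Type u} [Field K] {X Y : Scheme.{u}} {f : X ⟶ Spec (.of K)}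
    {g : Y ⟶ Spec (.of K)} (e : X ≅ Y) (he : e.hom ≫ g = f) (h : IsRational g) :
    IsRational f := by
  obtain ⟨n, hn⟩ := h
  exact ⟨n, (Scheme.Hom.birationalOver e.hom g f he).trans hn⟩

/-- If rationality specialises then all geometric fibres are rational. -/
theorem all_fibres (hKT : RationalitySpecializes.{u}) {k : Type u} [Field k] [CharZero k]
    {S X : Scheme.{u}} [IrreducibleSpace S]
    (p : S ⟶ Spec (.of k)) [LocallyOfFiniteType p]
    (π : X ⟶ S) [Smooth π] (hπ : IsProjective π) (U : S.Opens) (hU : Dense (U : Set S))
    (hrat : ∀ (K : Type u) [Field K] [IsAlgClosed K]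
      (s : Spec (.of K) ⟶ S), Set.range s ⊆ U → IsRational (pullback.snd π s))
    (K : Type u) [Field K] [IsAlgClosed K] (s : Spec (.of K) ⟶ S) :
    IsRational (pullback.snd π s) := by
  obtain ⟨R, _, _, _, _, _, g, hRK, hs, hg⟩ := Pool.Agent.TORE.tod_arc p s
  have hcK : CharZero K := by
    let φ : k →+* K := (Spec.preimage (s ≫ p)).hom
    exact charZero_of_injective_ringHom φ.injective
  subst hs
  -- the family over `R`
  have hY : IsPullback (pullback.fst π g) (pullback.snd π g) π g := IsPullback.of_hasPullback π g
  have hfproj : IsProjective (pullback.snd π g) := hπ.baseChange hY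
  have key := hKT R K hRK (pullback π g) (pullback.snd π g) hfproj (by
    intro L _ _ s' hs'
    have h1 : IsRational (pullback.snd π (s' ≫ g)) := by
      refine hrat L (s' ≫ g) ?_
      rintro _ ⟨x, rfl⟩
      have : (s' ≫ g) x = genericPoint S := by
        rw [Scheme.Hom.comp_apply, hs' x, hg]
      rw [this]
      obtain ⟨y, hy⟩ := hU.nonempty
      exact ((genericPoint_spec S).specializes (Set.mem_univ y)).mem_open U.isOpen hy
    have h2 : IsPullback (pullback.fst (pullback.snd π g) s' ≫ pullback.fst π g)
        (pullback.snd (pullback.snd π g) s') π (s' ≫ g) :=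
      (IsPullback.of_hasPullback (pullback.snd π g) s').paste_horiz hY
    exact h1.of_iso h2.isoPullback h2.isoPullback_hom_snd)
  have h2 : IsPullback (pullback.fst (pullback.snd π g)
        (Spec.map (CommRingCat.ofHom (algebraMap R K))) ≫ pullback.fst π g)
      (pullback.snd (pullback.snd π g) (Spec.map (CommRingCat.ofHom (algebraMap R K)))) π
        (Spec.map (CommRingCat.ofHom (algebraMap R K)) ≫ g) :=
    (IsPullback.of_hasPullback (pullback.snd π g) _).paste_horiz hY
  exact key.of_iso h2.isoPullback.symm (by simp [h2.isoPullback_inv_snd])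

end

end TOD
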