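import Pool.Agent.TD.SD

open CategoryTheory Limits AlgebraicGeometry

universe u

namespace TOD

noncomputable section

attribute [local instance] MvPolynomial.gradedAlgebra

/-- the constants are the degree zero part of the polynomial ring -/
theorem SP8_bij (N : ℕ) : Function.Bijective (algebraMap (ULift.{u} ℤ)
    (MvPolynomial.homogeneousSubmodule (Fin (N + 1)) (ULift.{u} ℤ) 0)) := by
  constructor
  · intro a b hab
    have h := congrArg (fun x : MvPolynomial.homogeneousSubmodule (Fin (N + 1)) (ULift.{u} ℤ) 0 =>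
      (x : MvPolynomial (Fin (N + 1)) (ULift.{u} ℤ))) hab
    exact MvPolynomial.C_injective _ _ h
  · rintro ⟨p, hp⟩
    have h1 : p.totalDegree = 0 := Nat.le_zero.1 (MvPolynomial.IsHomogeneous.totalDegree_le hp)
    rw [MvPolynomial.totalDegree_eq_zero_iff_eq_C] at h1
    exact ⟨_, Subtype.ext h1.symm⟩

theorem SP8_finiteType (N : ℕ) : Algebra.FiniteType
    (MvPolynomial.homogeneousSubmodule (Fin (N + 1)) (ULift.{u} ℤ) 0)
    (MvPolynomial (Fin (N + 1)) (ULift.{u} ℤ)) := by
  have : IsScalarTower (ULift.{u} ℤ) (MvPolynomial.homogeneousSubmodule (Fin (N + 1)) (ULift.{u} ℤ) 0)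
    (MvPolynomial (Fin (N + 1)) (ULift.{u} ℤ)) :=
    ⟨fun a b c => by
      change ((a • b : MvPolynomial.homogeneousSubmodule (Fin (N + 1)) (ULift.{u} ℤ) 0) :
        MvPolynomial (Fin (N + 1)) (ULift.{u} ℤ)) * c = a • ((b :
        MvPolynomial (Fin (N + 1)) (ULift.{u} ℤ)) * c)
      rw [Submodule.coe_smul, smul_mul_assoc]⟩
  exact Algebra.FiniteType.of_restrictScalars_finiteType (ULift.{u} ℤ) _ _

/-- the ring of constants -/
abbrev SP8_A (N : ℕ) : Type u := MvPolynomial.homogeneousSubmodule (Fin (N + 1)) (ULift.{u} ℤ) 0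

/-- the constants in the degree zero part -/
def SP8_hom (N : ℕ) : ULift.{u} ℤ →+* SP8_A.{u} N := algebraMap _ _

/-- the constants in the degree zero part -/
def SP8_map (N : ℕ) : CommRingCat.of (ULift.{u} ℤ) ⟶ CommRingCat.of (SP8_A.{u} N) :=
  CommRingCat.ofHom (R := ULift.{u} ℤ) (S := SP8_A.{u} N) (SP8_hom N)

theorem SP8_isIso (N : ℕ) : IsIso (SP8_map.{u} N) :=
  (ConcreteCategory.isIso_iff_bijective (SP8_map.{u} N)).2 (SP8_bij.{u} N)

theorem SP8_proper (N : ℕ) : IsProper (terminal.from (PP.{u} N)) := by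
  have := SP8_finiteType.{u} N
  have h1 : IsProper
    (Proj.toSpecZero (MvPolynomial.homogeneousSubmodule (Fin (N + 1)) (ULift.{u} ℤ))) := inferInstance
  have h2 := SP8_isIso.{u} N
  have h3 : IsIso (Spec.map (SP8_map.{u} N)) := inferInstance
  have h4 : terminal.from (PP.{u} N) = (Proj.toSpecZero
      (MvPolynomial.homogeneousSubmodule (Fin (N + 1)) (ULift.{u} ℤ)) ≫
      Spec.map (SP8_map.{u} N)) ≫
      terminal.from (Spec (.of (ULift.{u} ℤ))) := terminal.hom_ext _ _
  have h5 : IsIso (terminal.from (Spec (.of (ULift.{u} ℤ)))) :=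
    isIso_of_isTerminal specULiftZIsTerminal terminalIsTerminal _
  rw [h4]
  infer_instance

/-- [TS-P8] Projective morphisms are proper. Properness is local on the target
(`IsZariskiLocalAtTarget`, or `IsProper` via `morphismRestrict`); closed immersions are proper; `PSpace.toBase` is the
base change of `PP n ⟶ ⊤_`; `PP n ⟶ Spec (𝒜 0)` is proper (Mathlib `ProjectiveSpectrum/Proper.lean`,
`Proj.toSpecZero`, needs `Algebra.FiniteType (𝒜 0) A`), and `Spec (𝒜 0) ≅ Spec (ULift ℤ)` is terminal: the degree `0` part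
of the polynomial ring consists of the constants. -/
theorem IsProjective.isProper {X S : Scheme.{u}} {π : X ⟶ S} (hπ : IsProjective π) :
    IsProper π := by
  choose U hU n i hi h using hπ
  have h1 : (⨆ s, U s) = ⊤ := by
    refine top_le_iff.1 fun s _ => ?_
    exact TopologicalSpace.Opens.mem_iSup.2 ⟨s, hU s⟩
  refine IsZariskiLocalAtTarget.of_iSup_eq_top (P := @IsProper) U h1 fun s => ?_
  rw [← h s]
  have h2 := hi s
  have h3 := SP8_proper.{u} (n s)
  have h4 : IsProper (PSpace.toBase (n s) (U s).toScheme) :=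
    MorphismProperty.pullback_fst (P := @IsProper) _ _ h3
  infer_instance

end

end TOD
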