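import Mathlib

/-!
Block D of [TOR] MP_e511d7_ag: the graded toric data which a smooth projective family over a complete
discrete valuation ring with toric special fibre produces (output of block D, input of block C).
-/

universe u

namespace TOD

noncomputable section

/-- the real vector space spanned by a group of integral vectors -/
def rspan {r : ℕ} (M : AddSubgroup (Fin r → ℤ)) : Submodule ℝ (Fin r → ℝ) :=
  Submodule.span ℝ ((fun (m : Fin r → ℤ) (i : Fin r) => (m i : ℝ)) '' (M : Set (Fin r → ℤ)))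

/-- the polytope `{p ∈ a + M_ℝ : p ≥ 0}` -/
def poly {r : ℕ} (M : AddSubgroup (Fin r → ℤ)) (a : Fin r → ℤ) : Set (Fin r → ℝ) :=
  {p | (fun i => p i - (a i : ℝ)) ∈ rspan M ∧ ∀ i, 0 ≤ p i}

/-- Graded toric data in a field `κ` over a ring `R` with element `t` (a uniformiser) and
residue field `K`. -/
structure TData (R K κ : Type u) [CommRing R] [Field K] [Algebra R K] [Field κ] [Algebra R κ]
    (t : R) where
  /-- number of the torus invariant divisors -/
  r : ℕ
  /-- the character group inside `ℤ^r` -/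
  M : AddSubgroup (Fin r → ℤ)
  /-- the divisor of the polarisation -/
  a : Fin r → ℤ
  /-- sections of the `m`-th power of the polarisation -/
  H : ℕ → Submodule R κ
  H_fg : ∀ m, (H m).FG
  one_mem : (1 : κ) ∈ H 0
  mul_mem : ∀ {m m' : ℕ} {f g : κ}, f ∈ H m → g ∈ H m' → f * g ∈ H (m + m')
  frac : ∀ x : κ, ∃ m, ∃ f ∈ H m, ∃ g ∈ H m, g ≠ 0 ∧ x = f / g
  /-- restriction to the special fibre, in Cox coordinates -/
  th : ∀ m, H m →ₗ[R] AddMonoidAlgebra K (Fin r → ℤ)
  th_one : th 0 ⟨1, one_mem⟩ = 1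
  th_mul : ∀ (m m' : ℕ) (f : H m) (g : H m'),
    th (m + m') ⟨f * g, mul_mem f.2 g.2⟩ = th m f * th m' g
  th_ker : ∀ (m : ℕ) (f : H m), th m f = 0 → ∃ g : H m, f = t • g
  th_supp : ∀ (m : ℕ) (f : H m) (u : Fin r → ℤ), (th m f).coeff u ≠ 0 → u - m • a ∈ M ∧ ∀ i, 0 ≤ u i
  th_surj : ∀ (m : ℕ) (u : Fin r → ℤ), u - m • a ∈ M → (∀ i, 0 ≤ u i) →
    ∃ f : H m, th m f = AddMonoidAlgebra.single u 1
  /-- the polytope is nonempty -/
  poly_nonempty : (poly M a).Nonempty
  poly_bdd : Bornology.IsBounded (poly M a)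
  /-- every divisor gives a facet (touches the polytope) -/
  poly_zero : ∀ i, ∃ p ∈ poly M a, p i = 0
  /-- the polytope is Delzant -/
  delzant : ∀ p ∈ poly M a, ∀ v : Fin r → ℤ, ∃ m ∈ M, ∀ i, p i = 0 → m i = v i

end

end TOD
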