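import Mathlib
import Pool.Agent.TD.Dat

/-!
[TOR] block D, algebra part: basic definitions.

`K` algebraically closed field of characteristic zero, `L` the function field of the special fibre,
`z j` (`j : J`, finite) its homogeneous coordinates (elements of `L`), `chart K z i = K[z_j / z_i]` the
ring of functions of the chart `z_i ≠ 0`, `Φ : K[ℤⁿ] → L` the functions on the torus.
Local rings of the variety are subalgebras of `L`.
-/

universe u

namespace TOD

noncomputable section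

/-- The ring of functions of the chart `z_i ≠ 0`: the `k`-subalgebra of `L` generated by the
quotients `z_j / z_i`. -/
def chart (k : Type u) {L : Type u} [CommRing k] [Field L] [Algebra k L] {J : Type} (z : J → L)
    (i : J) : Subalgebra k L :=
  Algebra.adjoin k (Set.range fun j => z j / z i)

/-- `O` is a localisation of `A` at a prime ideal (inside the field `L`). -/
def IsLocOf {k L : Type u} [CommRing k] [Field L] [Algebra k L] (A O : Subalgebra k L) : Prop :=
  IsLocalRing O ∧ A ≤ O ∧ ∀ x ∈ O, ∃ a ∈ A, ∃ b ∈ A, b ≠ 0 ∧ b⁻¹ ∈ O ∧ x = a / b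

/-- `L` is the field of fractions of `A`. -/
def HasFrac {k L : Type u} [CommRing k] [Field L] [Algebra k L] (A : Subalgebra k L) : Prop :=
  ∀ x : L, ∃ a ∈ A, ∃ b ∈ A, b ≠ 0 ∧ x = a / b

/-- `w` is the normalised discrete valuation (on nonzero elements; the value `w 0` is irrelevant)
with valuation ring `O`. -/
structure IsOrd {k L : Type u} [CommRing k] [Field L] [Algebra k L] (O : Subalgebra k L)
    (w : L → ℤ) : Prop where
  mul : ∀ x y, x ≠ 0 → y ≠ 0 → w (x * y) = w x + w y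
  add : ∀ x y, x ≠ 0 → y ≠ 0 → x + y ≠ 0 → min (w x) (w y) ≤ w (x + y)
  mem : ∀ x, x ≠ 0 → (x ∈ O ↔ 0 ≤ w x)
  surj : ∃ x, x ≠ 0 ∧ w x = 1

/-- The `k`-submodule of `L` spanned by the coordinates. -/
def Vz (k : Type u) {L : Type u} [CommRing k] [Field L] [Algebra k L] {J : Type} (z : J → L) :
    Submodule k L :=
  Submodule.span k (Set.range z)

/-- Sections of `O(m)`: the elements `g` of `L` with `g / z_i^m` in the ring of functions of the chart
`z_i ≠ 0`, for all `i`. -/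
def Sec (k : Type u) {L : Type u} [CommRing k] [Field L] [Algebra k L] {J : Type} (z : J → L)
    (m : ℕ) : Submodule k L where
  carrier := {g | ∀ i, z i ≠ 0 → g / z i ^ m ∈ chart k z i}
  add_mem' := by
    intro a b ha hb i hi
    rw [add_div]
    exact add_mem (ha i hi) (hb i hi)
  zero_mem' := by
    intro i _
    rw [zero_div]
    exact zero_mem _
  smul_mem' := by
    intro c x hx i hi
    rw [smul_div_assoc]
    exact Subalgebra.smul_mem _ (hx i hi) c

theorem mem_Sec {k : Type u} {L : Type u} [CommRing k] [Field L] [Algebra k L] {J : Type}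
    {z : J → L} {m : ℕ} {g : L} : g ∈ Sec k z m ↔ ∀ i, z i ≠ 0 → g / z i ^ m ∈ chart k z i :=
  Iff.rfl

variable {K L : Type u} [Field K] [Field L] [Algebra K L] {n : ℕ}

/-- The character `χ^u` as an element of `L`. -/
def ch (Φ : AddMonoidAlgebra K (Fin n → ℤ) →ₐ[K] L) (u : Fin n → ℤ) : L :=
  Φ (AddMonoidAlgebra.single u 1)

theorem ch_add (Φ : AddMonoidAlgebra K (Fin n → ℤ) →ₐ[K] L) (u v : Fin n → ℤ) :
    ch Φ (u + v) = ch Φ u * ch Φ v := by
  rw [ch, ch, ch, ← map_mul, AddMonoidAlgebra.single_mul_single, one_mul]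

theorem ch_zero (Φ : AddMonoidAlgebra K (Fin n → ℤ) →ₐ[K] L) : ch Φ 0 = 1 := by
  rw [ch, ← AddMonoidAlgebra.one_def, map_one]

theorem ch_ne_zero (Φ : AddMonoidAlgebra K (Fin n → ℤ) →ₐ[K] L) (u : Fin n → ℤ) :
    ch Φ u ≠ 0 := by
  intro h
  have h1 : ch Φ u * ch Φ (-u) = 1 := by rw [← ch_add, add_neg_cancel, ch_zero]
  rw [h, zero_mul] at h1
  exact zero_ne_one h1

theorem ch_neg (Φ : AddMonoidAlgebra K (Fin n → ℤ) →ₐ[K] L) (u : Fin n → ℤ) :
    ch Φ (-u) = (ch Φ u)⁻¹ := by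
  have h1 : ch Φ (-u) * ch Φ u = 1 := by rw [← ch_add, neg_add_cancel, ch_zero]
  exact eq_inv_of_mul_eq_one_left h1

theorem ch_nsmul (Φ : AddMonoidAlgebra K (Fin n → ℤ) →ₐ[K] L) (u : Fin n → ℤ) (m : ℕ) :
    ch Φ (m • u) = ch Φ u ^ m := by
  induction m with
  | zero => rw [zero_smul, ch_zero, pow_zero]
  | succ m ih => rw [succ_nsmul, ch_add, ih, pow_succ]

/-- the value `t^u` of the character `χ^u` at the point `t` of the torus -/
def tpow (t : Fin n → Kˣ) (u : Fin n → ℤ) : K := ((∏ i, t i ^ u i : Kˣ) : K)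

/-- `σ` is the translation by the point `t` of the torus (acting on the function field) -/
def IsTrans (Φ : AddMonoidAlgebra K (Fin n → ℤ) →ₐ[K] L) (t : Fin n → Kˣ) (σ : L ≃ₐ[K] L) : Prop :=
  ∀ u, σ (ch Φ u) = algebraMap K L (tpow t u) * ch Φ u

/-- Toric chart data: the algebraic content of 'the variety with homogeneous coordinates `z` is a
smooth projective toric variety with torus `Φ`'. -/
structure TC {J : Type} (z : J → L) (n : ℕ) (Φ : AddMonoidAlgebra K (Fin n → ℤ) →ₐ[K] L) :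
    Prop where
  Φ_inj : Function.Injective Φ
  Φ_frac : ∀ x : L, ∃ f g, Φ g ≠ 0 ∧ x = Φ f / Φ g
  z_ne : ∃ i, z i ≠ 0
  frac : ∀ i, z i ≠ 0 → HasFrac (chart K z i)
  normal : ∀ i, z i ≠ 0 → IsIntegrallyClosed (chart K z i)
  smooth : ∀ i, z i ≠ 0 → Algebra.FormallySmooth K (chart K z i)
  /-- every point of the torus is a point of the variety -/
  tmap : ∀ Q : Ideal (AddMonoidAlgebra K (Fin n → ℤ)), Q.IsPrime → ∃ i, z i ≠ 0 ∧
    ∀ j, ∃ f g, g ∉ Q ∧ z j / z i = Φ f / Φ g
  /-- translations by points of the torus permute the points of the variety -/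
  inv : ∀ t : Fin n → Kˣ, ∃ σ : L ≃ₐ[K] L, IsTrans Φ t σ ∧
    ∀ i, z i ≠ 0 → ∀ O, IsLocOf (chart K z i) O →
      ∃ i', z i' ≠ 0 ∧ IsLocOf (chart K z i') (O.map (σ : L →ₐ[K] L))

/-- Normalised toric chart data: the coordinates `z j` are functions on the torus without common
zero. -/
structure NTC {J : Type} [Fintype J] (z : J → L) (n : ℕ) (Φ : AddMonoidAlgebra K (Fin n → ℤ) →ₐ[K] L) : Prop
    extends TC z n Φ where
  z_mem : ∀ j, ∃ f, z j = Φ f
  unit : ∃ g : J → AddMonoidAlgebra K (Fin n → ℤ), ∑ j, Φ (g j) * z j = 1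

/-- The boundary divisors: discrete valuation rings which are local rings of the variety and do not
contain the functions on the torus. -/
def bdry {J : Type} (z : J → L) (Φ : AddMonoidAlgebra K (Fin n → ℤ) →ₐ[K] L) :
    Set (Subalgebra K L) :=
  {O | (∃ i, z i ≠ 0 ∧ IsLocOf (chart K z i) O) ∧ (∃ w, IsOrd O w) ∧ ¬ Φ.range ≤ O}

/-- The boundary divisors, enumerated, with their valuations `w l`, the homomorphisms
`nn l : ℤⁿ → ℤ` given by `w l` on characters, and the multiplicities `a l` of the hyperplane section. -/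
structure BD {J : Type} (z : J → L) (Φ : AddMonoidAlgebra K (Fin n → ℤ) →ₐ[K] L) where
  r : ℕ
  O : Fin r → Subalgebra K L
  w : Fin r → L → ℤ
  nn : Fin r → (Fin n → ℤ) →+ ℤ
  a : Fin r → ℤ
  O_inj : Function.Injective O
  O_range : Set.range O = bdry z Φ
  ord : ∀ l, IsOrd (O l) (w l)
  w_ch : ∀ l u, w l (ch Φ u) = nn l u
  min_le : ∀ l f, f ≠ 0 → ∀ u, f.coeff u ≠ 0 → w l (Φ f) ≤ nn l u
  min_eq : ∀ l f, f ≠ 0 → ∃ u, f.coeff u ≠ 0 ∧ nn l u = w l (Φ f)
  a_le : ∀ l j, z j ≠ 0 → - a l ≤ w l (z j)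
  a_eq : ∀ l, ∃ j, z j ≠ 0 ∧ w l (z j) = - a l

/-- Tangent vectors at the point `x : A → K` of `Spec A`. -/
def tanSub {A : Subalgebra K L} (x : A →ₐ[K] K) : Submodule K (A →ₗ[K] K) where
  carrier := {D | ∀ a b : A, D (a * b) = x a * D b + x b * D a}
  add_mem' := by
    intro D D' hD hD' a b
    simp only [LinearMap.add_apply, hD a b, hD' a b]
    ring
  zero_mem' := by
    intro a b
    simp
  smul_mem' := by
    intro c D hD a b
    simp only [LinearMap.smul_apply, smul_eq_mul, hD a b]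
    ring

/-- The points `x` of `Spec A` and `x'` of `Spec A'` have the same local ring in `L` (and the same
residue map). -/
def SameLoc {A A' : Subalgebra K L} (x : A →ₐ[K] K) (x' : A' →ₐ[K] K) : Prop :=
  (∀ a' : A', ∃ a b : A, x b ≠ 0 ∧ (a' : L) * b = a ∧ x' a' * x b = x a) ∧
  (∀ a : A, ∃ c d : A', x' d ≠ 0 ∧ (a : L) * d = c ∧ x a * x' d = x' c)

/-- The cone of the face of the polytope containing `q / k` in its relative interior. -/
def faceM {r : ℕ} (nn : Fin r → (Fin n → ℤ) →+ ℤ) (a : Fin r → ℤ) (q : Fin n → ℤ) (k : ℕ) :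
    AddSubmonoid (Fin n → ℤ) where
  carrier := {u | ∀ l, nn l q + k * a l = 0 → 0 ≤ nn l u}
  add_mem' := by
    intro u v hu hv l hl
    rw [map_add]
    exact add_nonneg (hu l hl) (hv l hl)
  zero_mem' := by
    intro l _
    rw [map_zero]

/-- The monoid algebra of a submonoid of `ℤⁿ`, as a subalgebra of `L`. -/
def faceAlg (Φ : AddMonoidAlgebra K (Fin n → ℤ) →ₐ[K] L) (C : AddSubmonoid (Fin n → ℤ)) :
    Subalgebra K L :=
  Algebra.adjoin K (ch Φ '' (C : Set (Fin n → ℤ)))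

/-- The monoid `{w ∈ range φ | w ≥ 0}`. -/
def posM {n : ℕ} {τ : Type} (φ : (Fin n → ℤ) →+ (τ → ℤ)) : AddSubmonoid (τ → ℤ) where
  carrier := {w | w ∈ φ.range ∧ ∀ l, 0 ≤ w l}
  add_mem' := by
    intro a b ha hb
    exact ⟨add_mem ha.1 hb.1, fun l => add_nonneg (ha.2 l) (hb.2 l)⟩
  zero_mem' := ⟨zero_mem _, fun _ => le_refl _⟩

/-- Irreducible elements of the monoid `posM φ`. -/
def irr {n : ℕ} {τ : Type} (φ : (Fin n → ℤ) →+ (τ → ℤ)) : Set (τ → ℤ) :=
  {w | w ∈ posM φ ∧ w ≠ 0 ∧ ∀ w₁ ∈ posM φ, ∀ w₂ ∈ posM φ, w = w₁ + w₂ → w₁ = 0 ∨ w₂ = 0}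

/-- The counting hypothesis: at most `n` linearly independent 'tangent vectors' of the monoid
`{u | φ u ≥ 0}` at its distinguished point. -/
def TanBound (K : Type u) [Field K] {n : ℕ} {τ : Type} (φ : (Fin n → ℤ) →+ (τ → ℤ)) : Prop :=
  ∀ (e : (Fin n → ℤ) → K), (∀ u, φ u = 0 → e u = 1) → (∀ u, φ u ≠ 0 → e u = 0) →
    ∀ (s : ℕ) (D : Fin s → (Fin n → ℤ) → K),
      (∀ i, ∀ u, (∀ l, 0 ≤ φ u l) → ∀ v, (∀ l, 0 ≤ φ v l) →
        D i (u + v) = e u * D i v + e v * D i u) →
      (∀ c : Fin s → K, (∀ u, (∀ l, 0 ≤ φ u l) → ∑ i, c i * D i u = 0) → c = 0) → s ≤ n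

/-- the lattice of the characters in Cox coordinates -/
def latM {n r : ℕ} (nn : Fin r → (Fin n → ℤ) →+ ℤ) : AddSubgroup (Fin r → ℤ) where
  carrier := {m | ∃ u, ∀ l, m l = nn l u}
  add_mem' := by
    rintro m m' ⟨u, hu⟩ ⟨u', hu'⟩
    exact ⟨u + u', fun l => by rw [map_add, ← hu l, ← hu' l]; rfl⟩
  zero_mem' := ⟨0, fun l => by rw [map_zero]; rfl⟩
  neg_mem' := by
    rintro m ⟨u, hu⟩
    exact ⟨-u, fun l => by rw [map_neg, ← hu l]; rfl⟩

section family

variable {R K κ L : Type u} [CommRing R] [Field K] [Algebra R K] [Field κ] [Algebra R κ]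
  [Field L] [Algebra K L] {J : Type}

/-- Relative chart data: the algebraic content of 'a projective integral scheme over `R`, flat, with
integral special fibre'. `κ` is the function field of the family, `V ⊆ κ` the local ring at the
generic point of the special fibre, `ρ : V → L` the residue map onto the function field of the special fibre,
`z j ∈ κ` the homogeneous coordinates, normalised by `z i₀ = 1` where the chart `i₀` meets the special
fibre. -/
structure RC (t : R) (z : J → κ) (i₀ : J) (V : Subalgebra R κ) (ρ : V →+* L) : Prop where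
  ρ_alg : ∀ r : R, ρ (algebraMap R V r) = algebraMap K L (algebraMap R K r)
  /-- `V` is separated for the `t`-adic topology -/
  sep : ∀ x : κ, (∀ n : ℕ, ∃ y ∈ V, x = algebraMap R κ t ^ n * y) → x = 0
  /-- the kernel of `ρ` is the maximal ideal of the local ring `V` -/
  loc : ∀ x : V, ρ x ≠ 0 → (x : κ)⁻¹ ∈ V
  z_mem : ∀ j, z j ∈ V
  z_one : z i₀ = 1
  frac : HasFrac (chart R z i₀)
  /-- charts meeting the special fibre: the kernel of the restriction to the special fibre is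
  generated by `t` -/
  kerA : ∀ i (x : V), ρ ⟨z i, z_mem i⟩ ≠ 0 → (x : κ) ∈ chart R z i → ρ x = 0 →
    ∃ y ∈ chart R z i, (x : κ) = algebraMap R κ t * y
  /-- charts not meeting the special fibre: `t` is a unit -/
  unitA : ∀ i, z i ≠ 0 → ρ ⟨z i, z_mem i⟩ = 0 → (algebraMap R κ t)⁻¹ ∈ chart R z i

/-- The homogeneous coordinates of the special fibre. -/
def RC.zbar {t : R} {z : J → κ} {i₀ : J} {V : Subalgebra R κ} {ρ : V →+* L}
    (h : RC (K := K) t z i₀ V ρ) (j : J) : L := ρ ⟨z j, h.z_mem j⟩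

/-- The map `K[ℤⁿ] → K[ℤ^r]`, `X^u ↦ X^{(nn l u + b_l)_l}`. -/
def coxMap {n r : ℕ} (K : Type u) [Field K] (nn : Fin r → (Fin n → ℤ) →+ ℤ) (b : Fin r → ℤ) :
    AddMonoidAlgebra K (Fin n → ℤ) →ₗ[K] AddMonoidAlgebra K (Fin r → ℤ) :=
  (AddMonoidAlgebra.coeffLinearEquiv K).symm.toLinearMap ∘ₗ
    Finsupp.lmapDomain K K (fun u (l : Fin r) => nn l u + b l) ∘ₗ
      (AddMonoidAlgebra.coeffLinearEquiv K).toLinearMap

end family

end

end TOD
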