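import Mathlib

/-!
The function field of an integral scheme over an affine scheme, purely transcendental extensions.
-/

open CategoryTheory Limits AlgebraicGeometry

universe u

namespace TOD

noncomputable section

/-- The ring homomorphism `R → κ(X)` for an integral scheme `X` over `Spec R`. -/
def toFF {R : Type u} [CommRing R] {X : Scheme.{u}} (f : X ⟶ Spec (.of R)) [IsIntegral X] :
    R →+* X.functionField :=
  ((Scheme.ΓSpecIso (.of R)).inv ≫ f.appTop ≫ X.presheaf.germ ⊤ (genericPoint X) trivial).hom

/-- `κ` is purely transcendental (of finite degree) over the fraction field of `R`. -/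
def IsPurelyTranscendental (R κ : Type u) [CommRing R] [Field κ] [Algebra R κ] : Prop :=
  ∃ (d : ℕ) (y : Fin d → κ), AlgebraicIndependent R y ∧
    ∀ x : κ, ∃ p q : MvPolynomial (Fin d) R, MvPolynomial.aeval y q ≠ 0 ∧
      x = MvPolynomial.aeval y p / MvPolynomial.aeval y q

end

end TOD
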