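import Pool.Agent.TD.Nbhd

/-!
[TOR] MP_e511d7_ag: the final theorem.
-/

open CategoryTheory Limits AlgebraicGeometry TopologicalSpace

universe u

namespace TOD

/-- A neighbourhood of a geometric point with toric fibre, for an arbitrary base locally of finite
type over a field of characteristic zero. -/
theorem exists_nbhd_good {k : Type u} [Field k] [CharZero k]
    {S X : Scheme.{u}} (p : S ⟶ Spec (.of k)) [LocallyOfFiniteType p]
    (π : X ⟶ S) [Smooth π] (hπ : IsProjective π)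
    {K : Type u} [Field K] [IsAlgClosed K] (s : Spec (.of K) ⟶ S)
    (hs : IsSmoothProjectiveToric (pullback.snd π s)) :
    ∃ W : S.Opens, Set.range s ⊆ W ∧ ∀ x ∈ W, GoodPt π x := by
  obtain ⟨b⟩ : Nonempty (Spec (.of K)) := inferInstance
  obtain ⟨V, hV, hbV⟩ : ∃ V : S.Opens, IsAffineOpen V ∧ s b ∈ V := by
    obtain ⟨_, ⟨V, hV, rfl⟩, hbV, -⟩ :=
      S.isBasis_affineOpens.exists_subset_of_mem_open (Set.mem_univ (s b)) isOpen_univ
    exact ⟨V, hV, hbV⟩
  have hsV : Set.range s ⊆ Set.range V.ι := by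
    rintro _ ⟨a, rfl⟩
    rw [spec_field_point a b, Scheme.Opens.range_ι]
    exact hbV
  have hVaff : IsAffine V.toScheme := hV
  have hN : IsLocallyNoetherian V.toScheme :=
    LocallyOfFiniteType.isLocallyNoetherian (V.ι ≫ p)
  have hN' : IsNoetherian V.toScheme := ⟨⟩
  have hNS : NoetherianSpace V.toScheme := inferInstance
  have hX : IsPullback (pullback.fst π V.ι) (pullback.snd π V.ι) π V.ι :=
    IsPullback.of_hasPullback π V.ι
  have hlift : ∀ (L : Type u) [Field L] (s : Spec (.of L) ⟶ S), Set.range s ⊆ Set.range V.ι →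
      ∃ s' : Spec (.of L) ⟶ V.toScheme, s' ≫ V.ι = s := fun L _ s h =>
    ⟨IsOpenImmersion.lift V.ι s h, IsOpenImmersion.lift_fac _ _ _⟩
  obtain ⟨s', rfl⟩ := hlift K s hsV
  have h0 : IsPullback (pullback.fst π (s' ≫ V.ι)) (pullback.snd π (s' ≫ V.ι)) π (s' ≫ V.ι) :=
    IsPullback.of_hasPullback π (s' ≫ V.ι)
  let g0 : pullback π (s' ≫ V.ι) ⟶ pullback π V.ι :=
    pullback.lift (pullback.fst _ _) (pullback.snd _ _ ≫ s') (by
      rw [h0.w, Category.assoc])
  have h1 : IsPullback g0 (pullback.snd π (s' ≫ V.ι)) (pullback.snd π V.ι) s' := by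
    have e1 : g0 ≫ pullback.fst π V.ι = pullback.fst π (s' ≫ V.ι) := pullback.lift_fst _ _ _
    have e2 : g0 ≫ pullback.snd π V.ι = pullback.snd π (s' ≫ V.ι) ≫ s' :=
      pullback.lift_snd _ _ _
    refine IsPullback.of_right (t := hX) ?_ e2
    rw [e1]
    exact h0
  obtain ⟨W, hsW, hW⟩ := exists_nbhd (V.ι ≫ p) (pullback.snd π V.ι) (hπ.baseChange hX) s'
    g0 _ h1 hs ⊤
  refine ⟨V.ι ''ᵁ W, ?_, ?_⟩
  · rintro _ ⟨a, rfl⟩
    exact ⟨s' a, hsW ⟨a, rfl⟩, rfl⟩
  · rintro _ ⟨y, hy, rfl⟩ K₂ _ _ s₂ hx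
    have hs₂ : Set.range s₂ ⊆ Set.range V.ι := by
      rintro _ ⟨c, rfl⟩
      obtain ⟨a, ha⟩ := hx
      rw [spec_field_point c a, ha]
      exact ⟨y, rfl⟩
    obtain ⟨s₃, rfl⟩ := hlift K₂ s₂ hs₂
    have h3 : y ∈ Set.range s₃ := by
      obtain ⟨a, ha⟩ := hx
      refine ⟨a, ?_⟩
      rw [Scheme.Hom.comp_apply] at ha
      exact V.ι.isOpenEmbedding.injective ha
    have h4 := hW y ⟨hy, trivial⟩ K₂ s₃ h3
    have h2 : IsPullback (pullback.fst (pullback.snd π V.ι) s₃ ≫ pullback.fst π V.ι)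
        (pullback.snd (pullback.snd π V.ι) s₃) π (s₃ ≫ V.ι) :=
      (IsPullback.of_hasPullback (pullback.snd π V.ι) s₃).paste_horiz hX
    exact h4.of_iso h2.isoPullback.symm (by simp [h2.isoPullback_inv_snd])

/-- The final theorem. -/
theorem final {k : Type u} [Field k] [CharZero k] {S X : Scheme.{u}}
    (p : S ⟶ Spec (.of k)) [LocallyOfFiniteType p]
    (π : X ⟶ S) [Smooth π] (hπ : IsProjective π) :
    ∃ U : S.Opens,
      (∀ (K : Type u) [Field K] [IsAlgClosed K] (s : Spec (.of K) ⟶ S),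
        IsSmoothProjectiveToric (pullback.snd π s) → Set.range s ⊆ U) ∧
      ∀ (K : Type u) [Field K] [IsAlgClosed K] (s : Spec (.of K) ⟶ S),
        Set.range s ⊆ U → IsRational (pullback.snd π s) := by
  refine ⟨⟨interior {x | GoodPt π x}, isOpen_interior⟩, ?_, ?_⟩
  · intro K _ _ s hs
    obtain ⟨W, hsW, hW⟩ := exists_nbhd_good p π hπ s hs
    have : (W : Set S) ⊆ interior {x | GoodPt π x} :=
      interior_maximal (fun x hx => hW x hx) W.isOpen
    exact hsW.trans this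
  · intro K _ _ s hs
    obtain ⟨b⟩ : Nonempty (Spec (.of K)) := inferInstance
    have : GoodPt π (s b) := interior_subset (hs ⟨b, rfl⟩)
    exact this K s ⟨b, rfl⟩

end TOD
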