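import Pool.Agent.TD.Fin2
import Pool.Agent.TD.Final

/-!
[TOR] MP_e511d7_ag: the final theorem, with density and the conditional clause.
-/

open CategoryTheory Limits AlgebraicGeometry TopologicalSpace

universe u

namespace TOD

theorem final_all {k : Type u} [Field k] [CharZero k] {S X : Scheme.{u}}
    (p : S ⟶ Spec (.of k)) [LocallyOfFiniteType p]
    (π : X ⟶ S) [Smooth π] (hπ : IsProjective π) :
    ∃ U : S.Opens,
      (∀ (K : Type u) [Field K] [IsAlgClosed K] (s : Spec (.of K) ⟶ S),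
        IsSmoothProjectiveToric (pullback.snd π s) → Set.range s ⊆ U) ∧
      (∀ (K : Type u) [Field K] [IsAlgClosed K] (s : Spec (.of K) ⟶ S),
        Set.range s ⊆ U → IsRational (pullback.snd π s)) ∧
      ∀ [IrreducibleSpace S] (K₀ : Type u) [Field K₀] [IsAlgClosed K₀] (s₀ : Spec (.of K₀) ⟶ S),
        IsSmoothProjectiveToric (pullback.snd π s₀) →
          Dense (U : Set S) ∧
          (RationalitySpecializes.{u} →
            ∀ (K : Type u) [Field K] [IsAlgClosed K] (s : Spec (.of K) ⟶ S),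
              IsRational (pullback.snd π s)) := by
  obtain ⟨U, h1, h2⟩ := final p π hπ
  refine ⟨U, h1, h2, ?_⟩
  intro _ K₀ _ _ s₀ hs₀
  obtain ⟨b⟩ : Nonempty (Spec (.of K₀)) := inferInstance
  have hne : (U : Set S).Nonempty := ⟨s₀ b, h1 K₀ s₀ hs₀ ⟨b, rfl⟩⟩
  have hd : Dense (U : Set S) := U.isOpen.dense hne
  exact ⟨hd, fun hKT K _ _ s => all_fibres hKT p π hπ U hd h2 K s⟩

end TOD
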