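import Pool.Agent.TD.A0

universe u

namespace TOD

variable {K L : Type u} [Field K] [Field L] [Algebra K L]

/-- [TD-A2] Elementary properties of `w`: value of `1`, of inverses, quotients, powers and of
nonzero constants; units of `O` are the elements of value `0`. -/
theorem IsOrd.basic {O : Subalgebra K L} {w : L → ℤ} (h : IsOrd O w) :
    w 1 = 0 ∧ (∀ x, x ≠ 0 → w x⁻¹ = - w x) ∧ (∀ x y, x ≠ 0 → y ≠ 0 → w (x / y) = w x - w y) ∧
    (∀ x (m : ℕ), x ≠ 0 → w (x ^ m) = m * w x) ∧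
    (∀ c : K, c ≠ 0 → w (algebraMap K L c) = 0) ∧
    (∀ (c : K) x, c ≠ 0 → x ≠ 0 → w (algebraMap K L c * x) = w x) ∧
    (∀ x, x ≠ 0 → x ∈ O → x⁻¹ ∈ O → w x = 0) := by
  have h1 : w 1 = 0 := by
    have := h.mul 1 1 one_ne_zero one_ne_zero
    rw [mul_one] at this
    omega
  have hinv : ∀ x, x ≠ 0 → w x⁻¹ = - w x := by
    intro x hx
    have := h.mul x x⁻¹ hx (inv_ne_zero hx)
    rw [mul_inv_cancel₀ hx, h1] at this
    omega
  have hunit : ∀ x, x ≠ 0 → x ∈ O → x⁻¹ ∈ O → w x = 0 := by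
    intro x hx h2 h3
    have h4 := (h.mem x hx).1 h2
    have h5 := (h.mem _ (inv_ne_zero hx)).1 h3
    rw [hinv x hx] at h5
    omega
  have hc : ∀ c : K, c ≠ 0 → w (algebraMap K L c) = 0 := by
    intro c hc
    refine hunit _ ?_ (O.algebraMap_mem c) ?_
    · rw [Ne, FaithfulSMul.algebraMap_eq_zero_iff]; exact hc
    · rw [← map_inv₀]; exact O.algebraMap_mem _
  refine ⟨h1, hinv, ?_, ?_, hc, ?_, hunit⟩
  · intro x y hx hy
    rw [div_eq_mul_inv, h.mul x _ hx (inv_ne_zero hy), hinv y hy]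
    omega
  · intro x m hx
    induction m with
    | zero => rw [pow_zero, h1]; simp
    | succ m ih =>
      rw [pow_succ, h.mul _ x (pow_ne_zero m hx) hx, ih]
      push_cast
      ring
  · intro c x hc0 hx
    rw [h.mul _ x (by rw [Ne, FaithfulSMul.algebraMap_eq_zero_iff]; exact hc0) hx, hc c hc0, zero_add]

end TOD
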