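import Pool.Agent.TD.A0

universe u

namespace TOD

variable {K L : Type u} [Field K] [Field L] [Algebra K L]

private theorem RA7_ne {A : Subalgebra K L} {P : Ideal A} {b : A} (hb : b ∉ P) : (b : L) ≠ 0 := by
  intro h
  apply hb
  have : b = 0 := Subtype.ext h
  rw [this]
  exact P.zero_mem

private def RA7_loc (A : Subalgebra K L) (P : Ideal A) [hP : P.IsPrime] : Subalgebra K L where
  carrier := {x | ∃ a b : A, b ∉ P ∧ x = (a : L) / b}
  mul_mem' := by
    rintro x y ⟨a, b, hb, rfl⟩ ⟨c, d, hd, rfl⟩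
    refine ⟨a * c, b * d, fun h => (hP.mem_or_mem h).elim hb hd, ?_⟩
    push_cast
    rw [div_mul_div_comm]
  add_mem' := by
    rintro x y ⟨a, b, hb, rfl⟩ ⟨c, d, hd, rfl⟩
    refine ⟨a * d + b * c, b * d, fun h => (hP.mem_or_mem h).elim hb hd, ?_⟩
    push_cast
    rw [div_add_div _ _ (RA7_ne hb) (RA7_ne hd)]
  algebraMap_mem' := by
    intro r
    refine ⟨algebraMap K A r, 1, fun h => hP.ne_top ((Ideal.eq_top_iff_one P).mpr h), ?_⟩
    rw [Subalgebra.coe_one, div_one]
    rfl

private theorem RA7_mem {A : Subalgebra K L} {P : Ideal A} [P.IsPrime] {x : L} :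
    x ∈ RA7_loc A P ↔ ∃ a b : A, b ∉ P ∧ x = (a : L) / b := Iff.rfl

private theorem RA7_nonunit {A : Subalgebra K L} {P : Ideal A} [hP : P.IsPrime] {a b : A}
    (hb : b ∉ P) {x : RA7_loc A P} (hx : (x : L) = (a : L) / b) : x ∈ nonunits (RA7_loc A P) ↔ a ∈ P := by
  constructor
  · intro h
    by_contra ha
    apply h
    have ha0 := RA7_ne ha
    have hb0 := RA7_ne hb
    refine IsUnit.of_mul_eq_one ⟨(b : L) / a, ⟨b, a, ha, rfl⟩⟩ ?_
    apply Subtype.ext
    change (x : L) * ((b : L) / a) = 1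
    rw [hx]
    field_simp
  · intro ha h
    obtain ⟨y, hy⟩ := h.exists_right_inv
    obtain ⟨c, d, hd, he⟩ := RA7_mem.mp y.2
    have h1 : (x : L) * (y : L) = 1 := congrArg Subtype.val hy
    rw [hx, he] at h1
    have hb0 := RA7_ne hb
    have hd0 := RA7_ne hd
    have h2 : (a : L) * c = b * d := by
      field_simp at h1
      exact h1
    have h3 : a * c = b * d := Subtype.ext h2
    have h4 : b * d ∈ P := by
      rw [← h3]
      exact P.mul_mem_right _ ha
    exact (hP.mem_or_mem h4).elim hb hd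

/-- [TD-A7] Localisation of a subalgebra `A` of `L` at a prime ideal `P` of `A`, as a subalgebra. -/
theorem exists_locOf (A : Subalgebra K L) (P : Ideal A) [P.IsPrime] :
    ∃ O : Subalgebra K L, IsLocOf A O ∧
      (∀ x, x ∈ O ↔ ∃ a b : A, b ∉ P ∧ x = (a : L) / b) ∧
      (∀ a : A, a ∈ P ↔ (a = 0 ∨ ((a : L)⁻¹ ∉ O))) := by
  have h1P : (1 : A) ∉ P := fun h =>
    (inferInstance : P.IsPrime).ne_top ((Ideal.eq_top_iff_one P).mpr h)
  refine ⟨RA7_loc A P, ⟨?_, ?_, ?_⟩, fun x => Iff.rfl, ?_⟩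
  · refine IsLocalRing.of_nonunits_add ?_
    intro x y hx hy
    obtain ⟨a, b, hb, hxe⟩ := RA7_mem.mp x.2
    obtain ⟨c, d, hd, hye⟩ := RA7_mem.mp y.2
    rw [RA7_nonunit hb hxe] at hx
    rw [RA7_nonunit hd hye] at hy
    have hbd : b * d ∉ P := fun h => ((inferInstance : P.IsPrime).mem_or_mem h).elim hb hd
    have he : ((x + y : RA7_loc A P) : L) = ((a * d + b * c : A) : L) / ((b * d : A) : L) := by
      push_cast
      rw [hxe, hye, div_add_div _ _ (RA7_ne hb) (RA7_ne hd)]
    rw [RA7_nonunit hbd he]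
    exact P.add_mem (P.mul_mem_right _ hx) (P.mul_mem_left _ hy)
  · intro x hx
    refine ⟨⟨x, hx⟩, 1, h1P, ?_⟩
    rw [Subalgebra.coe_one, div_one]
  · intro x hx
    obtain ⟨a, b, hb, he⟩ := hx
    refine ⟨a, a.2, b, b.2, RA7_ne hb, ⟨1, b, hb, ?_⟩, he⟩
    rw [Subalgebra.coe_one, one_div]
  · intro a
    constructor
    · intro ha
      by_cases ha0 : a = 0
      · exact Or.inl ha0
      · right
        rintro ⟨c, d, hd, he⟩
        have ha0' : (a : L) ≠ 0 := fun h => ha0 (Subtype.ext h)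
        have hd0 := RA7_ne hd
        have h2 : (d : L) = a * c := by
          rw [inv_eq_iff_eq_inv, inv_div] at he
          have hc0 : (c : L) ≠ 0 := by
            intro h
            rw [h, div_zero] at he
            exact ha0' he
          rw [he, div_mul_cancel₀ _ hc0]
        have h3 : d = a * c := Subtype.ext h2
        apply hd
        rw [h3]
        exact P.mul_mem_right _ ha
    · rintro (rfl | h)
      · exact P.zero_mem
      · by_contra ha
        apply h
        refine ⟨1, a, ha, ?_⟩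
        rw [Subalgebra.coe_one, one_div]

end TOD
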