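import Pool.Agent.TD.A0

universe u

namespace TOD

variable {K L : Type u} [Field K] [Field L] [Algebra K L]

/-- [TD-A8] Two localisations of `A` with the same maximal ideal on `A` are equal. -/
theorem IsLocOf.eq_of {A O O' : Subalgebra K L} (h : IsLocOf A O) (h' : IsLocOf A O')
    (he : ∀ a ∈ A, a⁻¹ ∈ O ↔ a⁻¹ ∈ O') : O = O' := by
  have aux : ∀ P Q : Subalgebra K L, IsLocOf A P → IsLocOf A Q → (∀ a ∈ A, a⁻¹ ∈ P → a⁻¹ ∈ Q) →
      P ≤ Q := by
    intro P Q hP hQ hPQ x hx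
    obtain ⟨a, ha, b, hb, -, hbP, rfl⟩ := hP.2.2 x hx
    rw [div_eq_mul_inv]
    exact Q.mul_mem (hQ.2.1 ha) (hPQ b hb hbP)
  exact le_antisymm (aux O O' h h' (fun a ha => (he a ha).1)) (aux O' O h' h (fun a ha => (he a ha).2))

end TOD
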