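import Pool.Agent.TD.A0
import Pool.Agent.TD.RA2
import Pool.Agent.TD.RA7
import Pool.Agent.TD.RA8

universe u

namespace TOD

variable {K L : Type u} [Field K] [Field L] [Algebra K L]

/-- [TD-A10] Only finitely many discrete valuation rings which are localisations of the Noetherian
ring `A` do not contain `b⁻¹`, `0 ≠ b ∈ A`.
Proof: to `O` attach the prime ideal `P_O = {a ∈ A | a = 0 ∨ a⁻¹ ∉ O}`; by [TD-A8] `O ↦ P_O` is injective.
`P_O` is a minimal prime over `(b)`: `b ∈ P_O`; if `Q ⊆ P_O` is a prime ideal with `b ∈ Q` and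
`a ∈ P_O`: `w a > 0`, so for some `m`, `w (a ^ m / b) ≥ 0`, `a ^ m / b = c / d` with `c, d ∈ A`, `d⁻¹ ∈ O`, so
`a ^ m d = b c ∈ Q`, `d ∉ P_O` so `d ∉ Q`, so `a ∈ Q`. Finiteness:
`Ideal.finite_minimalPrimes_of_isNoetherianRing`. -/
theorem finite_isOrd {A : Subalgebra K L} [IsNoetherianRing A] {b : L} (hb : b ∈ A) (hb0 : b ≠ 0) :
    {O : Subalgebra K L | IsLocOf A O ∧ (∃ w, IsOrd O w) ∧ b⁻¹ ∉ O}.Finite := by
  classical
  let f : Subalgebra K L → Set A := fun O => {a : A | (a : L) = 0 ∨ (a : L)⁻¹ ∉ O}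
  let bb : A := ⟨b, hb⟩
  have hfin : ((fun I : Ideal A => (I : Set A)) '' (Ideal.span {bb}).minimalPrimes).Finite :=
    (Ideal.finite_minimalPrimes_of_isNoetherianRing A (Ideal.span {bb})).image _
  refine Set.Finite.of_injOn (f := f) (t := (fun I : Ideal A => (I : Set A)) '' (Ideal.span {bb}).minimalPrimes)
    ?_ ?_ hfin
  · rintro O ⟨hloc, ⟨w, hw⟩, hbO⟩
    obtain ⟨b1, b2, b3, b4, b5, b6, b7⟩ := hw.basic
    haveI := hloc.1
    let P : Ideal A := (IsLocalRing.maximalIdeal O).comap (Subalgebra.inclusion hloc.2.1)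
    haveI : P.IsPrime := Ideal.comap_isPrime _ _
    have hP : ∀ a : A, a ∈ P ↔ ((a : L) = 0 ∨ (a : L)⁻¹ ∉ O) := by
      intro a
      rw [Ideal.mem_comap, IsLocalRing.mem_maximalIdeal, mem_nonunits_iff]
      constructor
      · intro hnu
        by_contra hcon
        push Not at hcon
        apply hnu
        refine IsUnit.of_mul_eq_one ⟨(a : L)⁻¹, hcon.2⟩ (Subtype.ext ?_)
        exact mul_inv_cancel₀ hcon.1
      · rintro hor ⟨v, hv⟩
        have hv1 : ((v : O) : L) = a := congrArg Subtype.val hv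
        have hv2 : ((v : O) : L) * ((v⁻¹ : Oˣ) : O) = 1 := by
          have := congrArg Subtype.val v.mul_inv
          exact this
        rw [hv1] at hv2
        rcases hor with h0 | h0
        · rw [h0, zero_mul] at hv2
          exact zero_ne_one hv2
        · apply h0
          rw [← eq_inv_of_mul_eq_one_right hv2]
          exact ((v⁻¹ : Oˣ) : O).2
    refine ⟨P, ⟨⟨inferInstance, ?_⟩, ?_⟩, ?_⟩
    · rw [Ideal.span_le, Set.singleton_subset_iff]
      exact (hP bb).2 (Or.inr hbO)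
    · rintro Q ⟨hQ, hbQ⟩ hQP a ha
      rcases (hP a).1 ha with h0 | h0
      · have : a = 0 := Subtype.ext h0
        rw [this]
        exact Q.zero_mem
      · have ha0 : (a : L) ≠ 0 := by
          intro h1
          apply h0
          rw [h1, inv_zero]
          exact zero_mem O
        have hwa : 0 < w a := by
          have h1 : ¬ (0 ≤ w (a : L)⁻¹) := fun h1 => h0 ((hw.mem _ (inv_ne_zero ha0)).2 h1)
          rw [b2 _ ha0] at h1
          omega
        set m : ℕ := (w b).toNat with hm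
        have hm1 : w b ≤ m := Int.self_le_toNat _
        have hq0 : (a : L) ^ m / b ≠ 0 := div_ne_zero (pow_ne_zero _ ha0) hb0
        have h1 : (a : L) ^ m / b ∈ O := by
          rw [hw.mem _ hq0, b3 _ _ (pow_ne_zero _ ha0) hb0, b4 _ _ ha0]
          nlinarith
        obtain ⟨c, hc, d, hd, hd0, hdO, he⟩ := hloc.2.2 _ h1
        have h2 : (a : L) ^ m * d = b * c := by
          rw [div_eq_div_iff hb0 hd0] at he
          rw [he, mul_comm]
        have h3 : a ^ m * ⟨d, hd⟩ = bb * ⟨c, hc⟩ := Subtype.ext (by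
          simpa using h2)
        have h4 : a ^ m * ⟨d, hd⟩ ∈ Q := by
          rw [h3]
          exact Q.mul_mem_right _ (hbQ (Ideal.subset_span rfl))
        rcases hQ.mem_or_mem h4 with h5 | h5
        · exact hQ.mem_of_pow_mem _ h5
        · exfalso
          rcases (hP _).1 (hQP h5) with h6 | h6
          · exact hd0 h6
          · exact h6 hdO
    · ext a
      exact hP a
  · rintro O ⟨hloc, -, -⟩ O' ⟨hloc', -, -⟩ hff
    refine hloc.eq_of hloc' fun a ha => ?_
    by_cases ha0 : a = 0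
    · rw [ha0, inv_zero]
      exact ⟨fun _ => zero_mem _, fun _ => zero_mem _⟩
    have h1 : (⟨a, ha⟩ : A) ∈ f O ↔ (⟨a, ha⟩ : A) ∈ f O' := by rw [hff]
    have h2 : (a = 0 ∨ a⁻¹ ∉ O) ↔ (a = 0 ∨ a⁻¹ ∉ O') := h1
    simp only [ha0, false_or, not_iff_not] at h2
    exact h2

end TOD
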