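import Pool.Agent.TD.A0

universe u

namespace TOD

variable {K L : Type u} [Field K] [Field L] [Algebra K L] {n : ℕ}

/-- [TD-B0] Charts are finitely generated algebras over a field, so Noetherian. -/
theorem chart_isNoetherianRing {J : Type} [Finite J] (z : J → L) (i : J) :
    IsNoetherianRing (chart K z i) := by
  have h1 : (chart K z i).FG := by
    unfold chart
    exact ⟨(Set.finite_range fun j => z j / z i).toFinset, by rw [Set.Finite.coe_toFinset]⟩
  have h2 : Algebra.FiniteType K (chart K z i) := (Subalgebra.fg_iff_finiteType _).1 h1
  exact Algebra.FiniteType.isNoetherianRing K _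

end TOD
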