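import Pool.Agent.TD.A0
import Pool.Agent.TD.RA10
import Pool.Agent.TD.RB0

universe u

namespace TOD

variable {K L : Type u} [Field K] [Field L] [Algebra K L] {n : ℕ}

theorem rb1_denom {A : Subalgebra K L} (hA : HasFrac A) (T : Finset L) :
    ∃ c ∈ A, c ≠ 0 ∧ ∀ x ∈ T, c * x ∈ A := by
  classical
  induction T using Finset.induction_on with
  | empty => exact ⟨1, one_mem A, one_ne_zero, by simp⟩
  | insert y T hy ih =>
    obtain ⟨c, hc, hc0, hcT⟩ := ih
    obtain ⟨a, ha, b, hb, hb0, rfl⟩ := hA y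
    refine ⟨b * c, mul_mem hb hc, mul_ne_zero hb0 hc0, fun x hx => ?_⟩
    rcases Finset.mem_insert.1 hx with rfl | hx
    · have : b * c * (a / b) = c * a := by field_simp
      rw [this]
      exact mul_mem hc ha
    · rw [mul_assoc]
      exact mul_mem hb (hcT x hx)

/-- [TD-B1] There are finitely many boundary divisors.
Proof: for each `i` with `z i ≠ 0` write `χ^{e_k}` and `χ^{-e_k}` (`k : Fin n`) as quotients `a / b` of
elements of `chart K z i` (`h.frac`) and let `c` be the product of the denominators. If `O` is a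
localisation of the chart and `c⁻¹ ∈ O` then every `χ^{± e_k}` lies in `O`, so `Φ.range ≤ O`. So the members of
`bdry` coming from the chart `i` lie in the finite set of [TD-A10] for `b = c`. -/
theorem TC.finite_bdry {J : Type} [Finite J] {z : J → L}
    {Φ : AddMonoidAlgebra K (Fin n → ℤ) →ₐ[K] L} (h : TC z n Φ) : (bdry z Φ).Finite := by
  classical
  let T : Finset L := Finset.univ.image (fun k : Fin n => ch Φ (Pi.single k 1)) ∪
    Finset.univ.image (fun k : Fin n => ch Φ (Pi.single k (-1)))
  have hc : ∀ i, z i ≠ 0 → ∃ c ∈ chart K z i, c ≠ 0 ∧ ∀ x ∈ T, c * x ∈ chart K z i :=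
    fun i hi => rb1_denom (h.frac i hi) T
  have hsub : bdry z Φ ⊆ ⋃ i : {i : J // z i ≠ 0}, {O : Subalgebra K L | IsLocOf (chart K z i.1) O ∧
      (∃ w, IsOrd O w) ∧ (hc i.1 i.2).choose⁻¹ ∉ O} := by
    rintro O ⟨⟨i, hi, hloc⟩, hw, hr⟩
    refine Set.mem_iUnion.2 ⟨⟨i, hi⟩, hloc, hw, fun hcO => hr ?_⟩
    obtain ⟨hcm, hc0, hcT⟩ := (hc i hi).choose_spec
    have hT : ∀ x ∈ T, x ∈ O := by
      intro x hx
      have h1 := mul_mem hcO (hloc.2.1 (hcT x hx))
      rwa [inv_mul_cancel_left₀ hc0] at h1
    let W : AddSubmonoid (Fin n → ℤ) :=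
      { carrier := {u | ch Φ u ∈ O}
        zero_mem' := by
          show ch Φ 0 ∈ O
          rw [ch_zero]
          exact one_mem O
        add_mem' := by
          intro u v hu hv
          show ch Φ (u + v) ∈ O
          rw [ch_add]
          exact mul_mem hu hv }
    have hW1 : ∀ k : Fin n, (Pi.single k 1 : Fin n → ℤ) ∈ W := fun k =>
      hT _ (Finset.mem_union_left _ (Finset.mem_image_of_mem _ (Finset.mem_univ k)))
    have hW2 : ∀ k : Fin n, (Pi.single k (-1) : Fin n → ℤ) ∈ W := fun k =>
      hT _ (Finset.mem_union_right _ (Finset.mem_image_of_mem (fun k : Fin n => ch Φ (Pi.single k (-1))) (Finset.mem_univ k)))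
    have hW : ∀ u : Fin n → ℤ, u ∈ W := by
      intro u
      rw [← Finset.univ_sum_single u]
      refine sum_mem fun k _ => ?_
      rcases Int.eq_nat_or_neg (u k) with ⟨m, hm | hm⟩
      · have : (Pi.single k (u k) : Fin n → ℤ) = m • Pi.single k 1 := by
          rw [← Pi.single_smul, hm, nsmul_eq_mul, mul_one]
        rw [this]
        exact W.nsmul_mem (hW1 k) m
      · have : (Pi.single k (u k) : Fin n → ℤ) = m • Pi.single k (-1) := by
          rw [← Pi.single_smul, hm, nsmul_eq_mul, mul_neg, mul_one]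
        rw [this]
        exact W.nsmul_mem (hW2 k) m
    rintro _ ⟨f, rfl⟩
    show Φ f ∈ O
    rw [← AddMonoidAlgebra.sum_coeff_single f, Finsupp.sum, map_sum]
    refine sum_mem fun u _ => ?_
    have : AddMonoidAlgebra.single u (f.coeff u) = (f.coeff u) • AddMonoidAlgebra.single u (1 : K) := by
      rw [AddMonoidAlgebra.smul_single, smul_eq_mul, mul_one]
    rw [this, map_smul]
    exact Subalgebra.smul_mem _ (hW u) _
  refine Set.Finite.subset (Set.finite_iUnion fun i => ?_) hsub
  haveI := chart_isNoetherianRing (K := K) z i.1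
  exact finite_isOrd (hc i.1 i.2).choose_spec.1 (hc i.1 i.2).choose_spec.2.1

end TOD
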