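import Pool.Agent.TD.A0

universe u

namespace TOD

variable {K L : Type u} [Field K] [Field L] [Algebra K L]

/-- [TD-A3] Finite sums (ultrametric inequality). Induction on the finite set. -/
theorem IsOrd.sum {O : Subalgebra K L} {w : L → ℤ} (h : IsOrd O w) {ι : Type*} (s : Finset ι)
    (f : ι → L) (c : ℤ) (hf : ∀ i ∈ s, f i = 0 ∨ c ≤ w (f i)) :
    ∑ i ∈ s, f i = 0 ∨ c ≤ w (∑ i ∈ s, f i) := by
  classical
  induction s using Finset.induction_on with
  | empty => left; exact Finset.sum_empty
  | insert a s ha ih =>
    have h1 := hf a (Finset.mem_insert_self a s)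
    have h2 := ih (fun i hi => hf i (Finset.mem_insert_of_mem hi))
    rw [Finset.sum_insert ha]
    by_cases ha0 : f a = 0
    · rw [ha0, zero_add]
      exact h2
    · by_cases hs0 : ∑ i ∈ s, f i = 0
      · rw [hs0, add_zero]
        exact h1
      · by_cases hsum : f a + ∑ i ∈ s, f i = 0
        · exact Or.inl hsum
        · right
          have h3 := h.add _ _ ha0 hs0 hsum
          have h4 := h1.resolve_left ha0
          have h5 := h2.resolve_left hs0
          exact (le_min h4 h5).trans h3

end TOD
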