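import Pool.Agent.TD.A0

universe u

namespace TOD

variable {K L : Type u} [Field K] [Field L] [Algebra K L]

theorem RA1_one {O : Subalgebra K L} {w : L → ℤ} (h : IsOrd O w) : w 1 = 0 := by
  have h1 := h.mul 1 1 one_ne_zero one_ne_zero
  rw [mul_one] at h1
  omega

theorem RA1_inv {O : Subalgebra K L} {w : L → ℤ} (h : IsOrd O w) {x : L} (hx : x ≠ 0) :
    w x⁻¹ = -w x := by
  have h1 := h.mul x x⁻¹ hx (inv_ne_zero hx)
  rw [mul_inv_cancel₀ hx, RA1_one h] at h1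
  omega

theorem RA1_pow {O : Subalgebra K L} {w : L → ℤ} (h : IsOrd O w) {x : L} (hx : x ≠ 0) (n : ℕ) :
    w (x ^ n) = n * w x := by
  induction n with
  | zero => rw [pow_zero, RA1_one h]; simp
  | succ n ih =>
    rw [pow_succ, h.mul _ _ (pow_ne_zero _ hx) hx, ih]
    push_cast
    ring

theorem RA1_zpow {O : Subalgebra K L} {w : L → ℤ} (h : IsOrd O w) {x : L} (hx : x ≠ 0) (n : ℤ) :
    w (x ^ n) = n * w x := by
  obtain ⟨m, rfl | rfl⟩ := n.eq_nat_or_neg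
  · rw [zpow_natCast, RA1_pow h hx]
  · rw [zpow_neg, zpow_natCast, RA1_inv h (pow_ne_zero _ hx), RA1_pow h hx]
    ring

/-- [TD-A1] The valuation is determined by its valuation ring.
Proof: `w x ≥ 0 ↔ x ∈ O ↔ w' x ≥ 0`; apply this to `x ^ a * y ^ b`-type elements: let `w π = 1`; then
`w' π > 0` (as `π ∈ O`, `π⁻¹ ∉ O`); every `x ≠ 0` is `π ^ (w x) * u` with `w u = 0`, so `u, u⁻¹ ∈ O` and
`w' u = 0`, `w' x = (w x) * w' π`; as `w'` takes the value `1`, `w' π = 1`. -/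
theorem IsOrd.unique {O : Subalgebra K L} {w w' : L → ℤ} (h : IsOrd O w) (h' : IsOrd O w') {x : L}
    (hx : x ≠ 0) : w x = w' x := by
  obtain ⟨π, hπ0, hπ⟩ := h.surj
  obtain ⟨y, hy0, hy⟩ := h'.surj
  have hπO : π ∈ O := (h.mem π hπ0).2 (by rw [hπ]; norm_num)
  have hπO' : π⁻¹ ∉ O := by
    rw [h.mem _ (inv_ne_zero hπ0), RA1_inv h hπ0, hπ]
    norm_num
  have hpos : 0 < w' π := by
    have h2 : ¬ 0 ≤ w' π⁻¹ := fun h3 => hπO' ((h'.mem _ (inv_ne_zero hπ0)).2 h3)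
    rw [RA1_inv h' hπ0] at h2
    omega
  have key : ∀ x : L, x ≠ 0 → w' x = w x * w' π := by
    intro x hx
    have hz : π ^ (-w x) ≠ 0 := zpow_ne_zero _ hπ0
    have hu0 : x * π ^ (-w x) ≠ 0 := mul_ne_zero hx hz
    have hwu : w (x * π ^ (-w x)) = 0 := by
      rw [h.mul _ _ hx hz, RA1_zpow h hπ0, hπ]
      ring
    have h1 : x * π ^ (-w x) ∈ O := (h.mem _ hu0).2 hwu.ge
    have h2 : (x * π ^ (-w x))⁻¹ ∈ O := by
      rw [h.mem _ (inv_ne_zero hu0), RA1_inv h hu0, hwu]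
      norm_num
    have h3 := (h'.mem _ hu0).1 h1
    have h4 := (h'.mem _ (inv_ne_zero hu0)).1 h2
    rw [RA1_inv h' hu0] at h4
    have h5 : w' (x * π ^ (-w x)) = 0 := by omega
    rw [h'.mul _ _ hx hz, RA1_zpow h' hπ0] at h5
    linarith
  have h6 : w y * w' π = 1 := by rw [← key y hy0, hy]
  have h7 : w' π = 1 := by
    rcases Int.isUnit_iff.1 (IsUnit.of_mul_eq_one_right _ h6) with h8 | h8
    · exact h8
    · omega
  rw [key x hx, h7, mul_one]

end TOD
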