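import Pool.Agent.TD.A0

universe u

namespace TOD

variable {K L : Type u} [Field K] [Field L] [Algebra K L]

/-- [TD-A5] Transport by an automorphism of the field. -/
theorem IsOrd.map {O : Subalgebra K L} {w : L → ℤ} (h : IsOrd O w) (σ : L ≃ₐ[K] L) :
    IsOrd (O.map (σ : L →ₐ[K] L)) (fun x => w (σ.symm x)) := by
  refine ⟨?_, ?_, ?_, ?_⟩
  · intro x y hx hy
    have hx' : σ.symm x ≠ 0 := fun h0 => hx (by
      have h1 := congrArg σ h0
      rwa [σ.apply_symm_apply, map_zero] at h1)
    have hy' : σ.symm y ≠ 0 := fun h0 => hy (by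
      have h1 := congrArg σ h0
      rwa [σ.apply_symm_apply, map_zero] at h1)
    show w (σ.symm (x * y)) = w (σ.symm x) + w (σ.symm y)
    rw [map_mul]
    exact h.mul _ _ hx' hy'
  · intro x y hx hy hxy
    have hz : ∀ z : L, z ≠ 0 → σ.symm z ≠ 0 := by
      intro z hz h0
      apply hz
      have h1 := congrArg σ h0
      rwa [σ.apply_symm_apply, map_zero] at h1
    show min (w (σ.symm x)) (w (σ.symm y)) ≤ w (σ.symm (x + y))
    have h2 : σ.symm x + σ.symm y ≠ 0 := by
      rw [← map_add]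
      exact hz _ hxy
    rw [map_add]
    exact h.add _ _ (hz x hx) (hz y hy) h2
  · intro x hx
    have hx' : σ.symm x ≠ 0 := fun h0 => hx (by
      have h1 := congrArg σ h0
      rwa [σ.apply_symm_apply, map_zero] at h1)
    show x ∈ O.map (σ : L →ₐ[K] L) ↔ 0 ≤ w (σ.symm x)
    rw [← h.mem _ hx', Subalgebra.mem_map]
    constructor
    · rintro ⟨y, hy, rfl⟩
      have : σ.symm ((σ : L →ₐ[K] L) y) = y := σ.symm_apply_apply y
      rw [this]
      exact hy
    · intro h1
      exact ⟨σ.symm x, h1, σ.apply_symm_apply x⟩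
  · obtain ⟨x, hx, hw⟩ := h.surj
    refine ⟨σ x, ?_, ?_⟩
    · intro h0
      apply hx
      have h1 := congrArg σ.symm h0
      rwa [σ.symm_apply_apply, map_zero] at h1
    · show w (σ.symm (σ x)) = 1
      rw [σ.symm_apply_apply]
      exact hw

end TOD
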