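import Pool.Agent.TD.A0

universe u

namespace TOD

variable {K L : Type u} [Field K] [Field L] [Algebra K L] {n : ℕ}

/-- [TD-B2] A translation is determined by the point. -/
theorem TC.trans_unique {J : Type} {z : J → L}
    {Φ : AddMonoidAlgebra K (Fin n → ℤ) →ₐ[K] L} (h : TC z n Φ) {t : Fin n → Kˣ} {σ σ' : L ≃ₐ[K] L}
    (hσ : IsTrans Φ t σ) (hσ' : IsTrans Φ t σ') : σ = σ' := by
  have h1 : (σ : L →ₐ[K] L).comp Φ = (σ' : L →ₐ[K] L).comp Φ := by
    apply AddMonoidAlgebra.algHom_ext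
    · intro u
      show σ (ch Φ u) = σ' (ch Φ u)
      rw [hσ u, hσ' u]
    · exact Subsingleton.elim _ _
  have h2 : ∀ f, σ (Φ f) = σ' (Φ f) := fun f => DFunLike.congr_fun h1 f
  ext x
  obtain ⟨f, g, -, rfl⟩ := h.Φ_frac x
  rw [map_div₀, map_div₀, h2, h2]

end TOD
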