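import Pool.Agent.TD.A0

universe u

namespace TOD

variable {K L : Type u} [Field K] [Field L] [Algebra K L] {n : ℕ}

/-- [TD-B3] Translations: identity and composition, `tpow` is multiplicative. -/
theorem isTrans_one (Φ : AddMonoidAlgebra K (Fin n → ℤ) →ₐ[K] L) :
    IsTrans Φ (1 : Fin n → Kˣ) (AlgEquiv.refl : L ≃ₐ[K] L) := by
  intro u
  have h1 : tpow (1 : Fin n → Kˣ) u = 1 := by simp [tpow]
  rw [h1, map_one, one_mul]
  rfl

theorem tpow_mul (s t : Fin n → Kˣ) (u : Fin n → ℤ) : tpow (s * t) u = tpow s u * tpow t u := by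
  unfold tpow
  rw [← Units.val_mul, ← Finset.prod_mul_distrib]
  congr 2
  funext i
  rw [Pi.mul_apply, mul_zpow]

theorem IsTrans.trans {Φ : AddMonoidAlgebra K (Fin n → ℤ) →ₐ[K] L} {s t : Fin n → Kˣ}
    {σ τ : L ≃ₐ[K] L} (hσ : IsTrans Φ s σ) (hτ : IsTrans Φ t τ) :
    IsTrans Φ (s * t) (σ.trans τ) := by
  intro u
  rw [tpow_mul, AlgEquiv.trans_apply, hσ u, map_mul, AlgEquiv.commutes, hτ u, map_mul, mul_assoc]

end TOD
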