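import Pool.Agent.TD.A0
import Pool.Agent.TD.RA5
import Pool.Agent.TD.RB2
import Pool.Agent.TD.RB3

universe u

namespace TOD

variable {K L : Type u} [Field K] [Field L] [Algebra K L] {n : ℕ}

theorem rb4_range_le {Φ : AddMonoidAlgebra K (Fin n → ℤ) →ₐ[K] L} {O : Subalgebra K L} :
    Φ.range ≤ O ↔ ∀ u, ch Φ u ∈ O := by
  constructor
  · intro h u
    exact h ⟨_, rfl⟩
  · rintro h _ ⟨f, rfl⟩
    show Φ f ∈ O
    rw [← AddMonoidAlgebra.sum_coeff_single f, Finsupp.sum, map_sum]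
    refine sum_mem fun u _ => ?_
    have : AddMonoidAlgebra.single u (f.coeff u) = (f.coeff u) • AddMonoidAlgebra.single u (1 : K) := by
      rw [AddMonoidAlgebra.smul_single, smul_eq_mul, mul_one]
    rw [this, map_smul]
    exact Subalgebra.smul_mem _ (h u) _

/-- [TD-B4] Translations permute the boundary divisors.
Proof: `h.inv t` gives a translation by `t`, equal to `σ` by [TD-B2]; [TD-A5]; `σ` maps `Φ.range` onto itself. -/
theorem TC.map_mem_bdry {J : Type} {z : J → L}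
    {Φ : AddMonoidAlgebra K (Fin n → ℤ) →ₐ[K] L} (h : TC z n Φ) {t : Fin n → Kˣ} {σ : L ≃ₐ[K] L}
    (hσ : IsTrans Φ t σ) {O : Subalgebra K L} (hO : O ∈ bdry z Φ) :
    O.map (σ : L →ₐ[K] L) ∈ bdry z Φ := by
  obtain ⟨⟨i, hi, hloc⟩, ⟨w, hw⟩, hr⟩ := hO
  obtain ⟨σ', hσ', hinv⟩ := h.inv t
  obtain rfl := h.trans_unique hσ' hσ
  refine ⟨hinv i hi O hloc, ⟨_, hw.map σ'⟩, fun hle => hr ?_⟩
  apply rb4_range_le.2
  intro u
  obtain ⟨y, hy, hy'⟩ := rb4_range_le.1 hle u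
  have hy2 : σ' y = ch Φ u := hy'
  have h2 := hσ' u
  have h3 : tpow t u ≠ 0 := Units.ne_zero _
  have h4 : (algebraMap K L (tpow t u)) ≠ 0 := (map_ne_zero _).2 h3
  have h5 : y = algebraMap K L (tpow t u)⁻¹ * ch Φ u := by
    apply σ'.injective
    rw [hy2, map_mul, AlgEquiv.commutes, h2, map_inv₀, inv_mul_cancel_left₀ h4]
  have h6 : ch Φ u = algebraMap K L (tpow t u) * y := by
    rw [h5, map_inv₀, mul_inv_cancel_left₀ h4]
  rw [h6]
  exact mul_mem (O.algebraMap_mem _) hy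

end TOD
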