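import Pool.Agent.TD.A0
import Pool.Agent.TD.RB1
import Pool.Agent.TD.RB2
import Pool.Agent.TD.RB3
import Pool.Agent.TD.RB4

universe u

namespace TOD

variable {K L : Type u} [Field K] [Field L] [Algebra K L] {n : ℕ}

/-- [TD-B5] Every boundary divisor is fixed by every translation.
Proof: let `N = (card (bdry z Φ))!`; `K` is algebraically closed: choose `s` with `s_i ^ N = t_i`; let `τ` be the
translation by `s` (`h.inv s`). `O ↦ O.map τ` is an injective map of the finite set `bdry z Φ` into itself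
([TD-B4], [TD-B1]), so a permutation, and its `N`-th power is the identity (the order of a permutation
divides the order of the symmetric group). `τ ^ N` is the translation by `s ^ N = t`, so it is `σ` ([TD-B2],
[TD-B3]). -/
theorem TC.map_eq_of_mem_bdry [IsAlgClosed K] {J : Type} [Finite J] {z : J → L}
    {Φ : AddMonoidAlgebra K (Fin n → ℤ) →ₐ[K] L} (h : TC z n Φ) {t : Fin n → Kˣ} {σ : L ≃ₐ[K] L}
    (hσ : IsTrans Φ t σ) {O : Subalgebra K L} (hO : O ∈ bdry z Φ) :
    O.map (σ : L →ₐ[K] L) = O := by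
  classical
  have hfin : Finite (bdry z Φ) := h.finite_bdry
  set N : ℕ := Nat.card (Equiv.Perm (bdry z Φ)) with hN
  have hN0 : 0 < N := Nat.card_pos
  have hs : ∀ i, ∃ s : Kˣ, s ^ N = t i := by
    intro i
    obtain ⟨a, ha⟩ := IsAlgClosed.exists_pow_nat_eq (t i : K) hN0
    have ha0 : a ≠ 0 := by
      rintro rfl
      rw [zero_pow hN0.ne'] at ha
      exact (t i).ne_zero ha.symm
    refine ⟨Units.mk0 a ha0, Units.ext ?_⟩
    simpa using ha
  choose s hs using hs
  obtain ⟨τ, hτ, -⟩ := h.inv s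
  let f : bdry z Φ → bdry z Φ := fun O => ⟨O.1.map (τ : L →ₐ[K] L), h.map_mem_bdry hτ O.2⟩
  have hf : Function.Injective f := by
    intro O O' hOO
    have h1 : O.1.map (τ : L →ₐ[K] L) = O'.1.map (τ : L →ₐ[K] L) := congrArg Subtype.val hOO
    exact Subtype.ext (Subalgebra.map_injective τ.injective h1)
  let e : Equiv.Perm (bdry z Φ) := Equiv.ofBijective f (Finite.injective_iff_bijective.1 hf)
  have he : ∀ O, (e O).1 = O.1.map (τ : L →ₐ[K] L) := fun O => rfl
  have key : ∀ k : ℕ, ∃ τk : L ≃ₐ[K] L, IsTrans Φ (s ^ k) τk ∧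
      ∀ O : bdry z Φ, ((e ^ k) O).1 = O.1.map (τk : L →ₐ[K] L) := by
    intro k
    induction k with
    | zero =>
      refine ⟨AlgEquiv.refl, by rw [pow_zero]; exact isTrans_one Φ, fun O => ?_⟩
      rw [pow_zero]
      exact (Subalgebra.map_id O.1).symm
    | succ k ih =>
      obtain ⟨τk, h1, h2⟩ := ih
      refine ⟨τk.trans τ, by rw [pow_succ]; exact h1.trans hτ, fun O => ?_⟩
      rw [pow_succ', Equiv.Perm.mul_apply, he, h2, Subalgebra.map_map]
      rfl
  obtain ⟨τN, h1, h2⟩ := key N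
  have hsN : s ^ N = t := by
    funext i
    rw [Pi.pow_apply, hs]
  rw [hsN] at h1
  obtain rfl := h.trans_unique h1 hσ
  have h3 : e ^ N = 1 := by rw [hN]; exact pow_card_eq_one'
  have h4 := h2 ⟨O, hO⟩
  rw [h3] at h4
  exact h4.symm

end TOD
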