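import Pool.Agent.TD.A0
import Pool.Agent.TD.RA1
import Pool.Agent.TD.RA5
import Pool.Agent.TD.RB5

universe u

namespace TOD

variable {K L : Type u} [Field K] [Field L] [Algebra K L] {n : ℕ}

/-- [TD-B6] The valuations of the boundary divisors are invariant under translations ([TD-B5] for `σ.symm`
or `σ`, [TD-A5], [TD-A1]). -/
theorem TC.ord_trans [IsAlgClosed K] {J : Type} [Finite J] {z : J → L}
    {Φ : AddMonoidAlgebra K (Fin n → ℤ) →ₐ[K] L} (h : TC z n Φ) {t : Fin n → Kˣ} {σ : L ≃ₐ[K] L}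
    (hσ : IsTrans Φ t σ) {O : Subalgebra K L} (hO : O ∈ bdry z Φ) {w : L → ℤ} (hw : IsOrd O w)
    {x : L} (hx : x ≠ 0) : w (σ x) = w x := by
  have h1 := hw.map σ
  rw [h.map_eq_of_mem_bdry hσ hO] at h1
  have h2 := hw.unique h1 (x := σ x) ((map_ne_zero σ).2 hx)
  rw [h2]
  simp only [AlgEquiv.symm_apply_apply]

end TOD
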