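import Pool.Agent.TD.A0

universe u

namespace TOD

variable {K L : Type u} [Field K] [Field L] [Algebra K L] {n : ℕ}

theorem rb7_digits {n : ℕ} (d : Fin n → ℤ) (C : ℤ) (hd : ∀ i, |d i| < C)
    (h : ∑ i, d i * C ^ (i : ℕ) = 0) : ∀ i, d i = 0 := by
  induction n with
  | zero => intro i; exact i.elim0
  | succ n ih =>
    have hC : 0 < C := (abs_nonneg _).trans_lt (hd 0)
    rw [Fin.sum_univ_succ] at h
    have h1 : ∑ i : Fin n, d i.succ * C ^ ((i.succ : Fin (n + 1)) : ℕ) =
        C * ∑ i : Fin n, d i.succ * C ^ (i : ℕ) := by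
      rw [Finset.mul_sum]
      refine Finset.sum_congr rfl fun i _ => ?_
      rw [Fin.val_succ, pow_succ]
      ring
    rw [h1] at h
    simp only [Fin.val_zero, pow_zero, mul_one] at h
    have h2 : C ∣ d 0 := ⟨-∑ i : Fin n, d i.succ * C ^ (i : ℕ), by linarith⟩
    have h3 : d 0 = 0 := Int.eq_zero_of_abs_lt_dvd h2 (hd 0)
    have h4 : ∑ i : Fin n, d i.succ * C ^ (i : ℕ) = 0 := by
      rw [h3, zero_add] at h
      exact (mul_eq_zero.1 h).resolve_left hC.ne'
    have h5 := ih (fun i => d i.succ) (fun i => hd _) h4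
    intro i
    refine Fin.cases h3 h5 i

theorem rb7_two_zpow {K : Type u} [Field K] [CharZero K] {a b : ℤ} (h : (2 : K) ^ a = (2 : K) ^ b) : a = b := by
  have h1 : ((2 : ℚ) ^ a : ℚ) = (2 : ℚ) ^ b := by
    have h2 : (((2 : ℚ) ^ a : ℚ) : K) = (((2 : ℚ) ^ b : ℚ) : K) := by
      push_cast
      exact h
    exact_mod_cast h2
  exact zpow_right_injective₀ (by norm_num) (by norm_num) h1

/-- [TD-B7] Over a field of characteristic zero some point of the torus separates finitely many given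
characters. Proof: `t_i = 2 ^ (B ^ i)` with `B` larger than twice all the absolute values of all the
coordinates of elements of `S` plus one: `t^u = 2 ^ (∑ u_i B^i)`, and `2` has infinite order in `Kˣ`. -/
theorem exists_separating [CharZero K] (S : Finset (Fin n → ℤ)) :
    ∃ t : Fin n → Kˣ, ∀ u ∈ S, ∀ v ∈ S, tpow t u = tpow t v → u = v := by
  classical
  obtain ⟨B, hB⟩ : ∃ B : ℕ, ∀ u ∈ S, ∀ i, |u i| ≤ B := by
    refine ⟨∑ u ∈ S, ∑ i, (u i).natAbs, fun u hu i => ?_⟩
    have h1 : (u i).natAbs ≤ ∑ i, (u i).natAbs :=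
      Finset.single_le_sum (f := fun i => (u i).natAbs) (fun _ _ => Nat.zero_le _) (Finset.mem_univ i)
    have h2 : ∑ i, (u i).natAbs ≤ ∑ u ∈ S, ∑ i, (u i).natAbs :=
      Finset.single_le_sum (f := fun u => ∑ i, (u i).natAbs) (fun _ _ => Nat.zero_le _) hu
    have h3 := h1.trans h2
    rw [Int.abs_eq_natAbs]
    exact_mod_cast h3
  set C : ℕ := 2 * B + 1 with hC
  have h20 : (2 : K) ≠ 0 := two_ne_zero
  let t : Fin n → Kˣ := fun i => (Units.mk0 (2 : K) h20) ^ (C ^ (i : ℕ))
  have ht : ∀ u : Fin n → ℤ, tpow t u = (2 : K) ^ (∑ i, u i * (C : ℤ) ^ (i : ℕ)) := by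
    intro u
    have h1 : ∀ i, t i ^ u i = (Units.mk0 (2 : K) h20) ^ (u i * (C : ℤ) ^ (i : ℕ)) := by
      intro i
      show ((Units.mk0 (2 : K) h20) ^ (C ^ (i : ℕ))) ^ u i = _
      rw [← zpow_natCast, ← zpow_mul, mul_comm]
      push_cast
      rfl
    unfold tpow
    rw [Finset.prod_congr rfl fun i _ => h1 i]
    have h2 : ∏ i, (Units.mk0 (2 : K) h20) ^ (u i * (C : ℤ) ^ (i : ℕ)) =
        (Units.mk0 (2 : K) h20) ^ (∑ i, u i * (C : ℤ) ^ (i : ℕ)) := by
      induction (Finset.univ : Finset (Fin n)) using Finset.induction_on with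
      | empty => simp
      | insert a s ha ih => rw [Finset.prod_insert ha, Finset.sum_insert ha, zpow_add, ih]
    rw [h2, Units.val_zpow_eq_zpow_val, Units.val_mk0]
  refine ⟨t, fun u hu v hv huv => ?_⟩
  rw [ht, ht] at huv
  have h3 : ∑ i, u i * (C : ℤ) ^ (i : ℕ) = ∑ i, v i * (C : ℤ) ^ (i : ℕ) := rb7_two_zpow huv
  have h4 : ∀ i, u i - v i = 0 := by
    refine rb7_digits (fun i => u i - v i) (C : ℤ) (fun i => ?_) ?_
    · have h5 := abs_sub (u i) (v i)
      have h6 := hB u hu i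
      have h7 := hB v hv i
      rw [hC]
      push_cast
      linarith
    · rw [← sub_eq_zero.2 h3, ← Finset.sum_sub_distrib]
      exact Finset.sum_congr rfl fun i _ => by ring
  funext i
  linarith [h4 i]

end TOD
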