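import Pool.Agent.TD.A0
import Pool.Agent.TD.RB7

universe u

namespace TOD

variable {K L : Type u} [Field K] [Field L] [Algebra K L] {n : ℕ}

/-- [TD-B8] A subspace of `L` stable under all translations contains with `Φ f` all the characters which
occur in `f`.
Proof: choose `t` separating the support of `f` ([TD-B7]), `σ` the translation by `t`. Then
`σ^k (Φ f) = ∑ c_u (t^u)^k χ^u ∈ V` for all `k`; take the polynomial `p = ∏_{u' ≠ u} (X - t^{u'})` over
the other elements of the support: `p(σ) (Φ f) = c_u p(t^u) χ^u`. -/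
theorem TC.ch_mem_of_stable [CharZero K] {J : Type} {z : J → L}
    {Φ : AddMonoidAlgebra K (Fin n → ℤ) →ₐ[K] L} (h : TC z n Φ) (V : Submodule K L)
    (hV : ∀ (t : Fin n → Kˣ) (σ : L ≃ₐ[K] L), IsTrans Φ t σ → ∀ x ∈ V, σ x ∈ V)
    {f : AddMonoidAlgebra K (Fin n → ℤ)} (hf : Φ f ∈ V) {u : Fin n → ℤ} (hu : f.coeff u ≠ 0) :
    ch Φ u ∈ V := by
  classical
  obtain ⟨t, ht⟩ := exists_separating (K := K) f.coeff.support
  obtain ⟨σ, hσ, -⟩ := h.inv t
  let S : Module.End K L := (σ : L →ₐ[K] L).toLinearMap
  have hS : ∀ x, S x = σ x := fun x => rfl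
  -- polynomials in `S` preserve `V`
  have hpV : ∀ (p : Polynomial K) x, x ∈ V → (Polynomial.aeval S p) x ∈ V := by
    intro p x hx
    induction p using Polynomial.induction_on' with
    | add p q hp hq =>
      rw [map_add, LinearMap.add_apply]
      exact add_mem hp hq
    | monomial k a =>
      rw [Polynomial.aeval_monomial, Module.End.mul_apply, Module.algebraMap_end_apply]
      refine V.smul_mem _ ?_
      clear h
      induction k with
      | zero => simpa using hx
      | succ k ih =>
        rw [pow_succ', Module.End.mul_apply, hS]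
        exact hV t σ hσ _ ih
  -- characters are eigenvectors
  have hpc : ∀ (p : Polynomial K) v, (Polynomial.aeval S p) (ch Φ v) = p.eval (tpow t v) • ch Φ v := by
    intro p v
    induction p using Polynomial.induction_on' with
    | add p q hp hq => rw [map_add, LinearMap.add_apply, hp, hq, Polynomial.eval_add, add_smul]
    | monomial k a =>
      rw [Polynomial.aeval_monomial, Module.End.mul_apply, Module.algebraMap_end_apply,
        Polynomial.eval_monomial, mul_smul]
      congr 1
      clear h
      induction k with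
      | zero => simp
      | succ k ih =>
        rw [pow_succ', Module.End.mul_apply, ih, map_smul, hS, hσ v, ← Algebra.smul_def, smul_smul,
          pow_succ]
  have hf2 : Φ f = ∑ v ∈ f.coeff.support, f.coeff v • ch Φ v := by
    conv_lhs => rw [← AddMonoidAlgebra.sum_coeff_single f, Finsupp.sum, map_sum]
    refine Finset.sum_congr rfl fun v _ => ?_
    have : AddMonoidAlgebra.single v (f.coeff v) = (f.coeff v) • AddMonoidAlgebra.single v (1 : K) := by
      rw [AddMonoidAlgebra.smul_single, smul_eq_mul, mul_one]
    rw [this, map_smul]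
    rfl
  have hus : u ∈ f.coeff.support := Finsupp.mem_support_iff.2 hu
  let p : Polynomial K := ∏ v ∈ f.coeff.support.erase u, (Polynomial.X - Polynomial.C (tpow t v))
  have hp0 : ∀ v ∈ f.coeff.support, v ≠ u → p.eval (tpow t v) = 0 := by
    intro v hv hvu
    rw [Polynomial.eval_prod]
    exact Finset.prod_eq_zero (Finset.mem_erase.2 ⟨hvu, hv⟩) (by simp)
  have hpu : p.eval (tpow t u) ≠ 0 := by
    rw [Polynomial.eval_prod, Finset.prod_ne_zero_iff]
    intro v hv
    rw [Polynomial.eval_sub, Polynomial.eval_X, Polynomial.eval_C, sub_ne_zero]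
    intro he
    exact (Finset.mem_erase.1 hv).1 (ht u hus v (Finset.mem_erase.1 hv).2 he).symm
  have h1 := hpV p _ hf
  rw [hf2, map_sum, Finset.sum_eq_single u] at h1
  · rw [map_smul, hpc, smul_smul] at h1
    have h2 : f.coeff u * p.eval (tpow t u) ≠ 0 := mul_ne_zero hu hpu
    have h3 := V.smul_mem (f.coeff u * p.eval (tpow t u))⁻¹ h1
    rwa [smul_smul, inv_mul_cancel₀ h2, one_smul] at h3
  · intro v hv hvu
    rw [map_smul, hpc, hp0 v hv hvu, zero_smul, smul_zero]
  · intro h2
    exact absurd hus h2

end TOD
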