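import Pool.Agent.TD.A0
import Pool.Agent.TD.RA2
import Pool.Agent.TD.RA3
import Pool.Agent.TD.RB6
import Pool.Agent.TD.RB8

universe u

namespace TOD

variable {K L : Type u} [Field K] [Field L] [Algebra K L] {n : ℕ}

/-- [TD-B9] The valuation of a boundary divisor on functions on the torus is the minimum over the
characters which occur.
Proof: `V = {x | x = 0 ∨ w (Φ f) ≤ w x}` is a stable subspace ([TD-B6], [TD-A2]); [TD-B8] gives the first
claim. If all the characters which occur had larger value than `w (Φ f)`, so would `Φ f` ([TD-A3]). -/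
theorem TC.ord_min [IsAlgClosed K] [CharZero K] {J : Type} [Finite J] {z : J → L}
    {Φ : AddMonoidAlgebra K (Fin n → ℤ) →ₐ[K] L} (h : TC z n Φ) {O : Subalgebra K L}
    (hO : O ∈ bdry z Φ) {w : L → ℤ} (hw : IsOrd O w) {f : AddMonoidAlgebra K (Fin n → ℤ)}
    (hf : f ≠ 0) :
    (∀ u, f.coeff u ≠ 0 → w (Φ f) ≤ w (ch Φ u)) ∧ ∃ u, f.coeff u ≠ 0 ∧ w (ch Φ u) = w (Φ f) := by
  classical
  obtain ⟨-, -, -, -, -, b6, -⟩ := hw.basic
  have hΦf : Φ f ≠ 0 := fun h0 => hf (h.Φ_inj (h0.trans (map_zero Φ).symm))
  let V : Submodule K L :=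
    { carrier := {x | x = 0 ∨ w (Φ f) ≤ w x}
      zero_mem' := Or.inl rfl
      add_mem' := by
        rintro x y (rfl | hx) hy
        · rwa [zero_add]
        · rcases hy with rfl | hy
          · rw [add_zero]; exact Or.inr hx
          · by_cases hx0 : x = 0
            · subst hx0; rw [zero_add]; exact Or.inr hy
            by_cases hy0 : y = 0
            · subst hy0; rw [add_zero]; exact Or.inr hx
            by_cases hxy : x + y = 0
            · exact Or.inl hxy
            · exact Or.inr ((le_min hx hy).trans (hw.add x y hx0 hy0 hxy))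
      smul_mem' := by
        rintro c x hx
        by_cases hc : c = 0
        · exact Or.inl (by rw [hc, zero_smul])
        by_cases hx0 : x = 0
        · exact Or.inl (by rw [hx0, smul_zero])
        rcases hx with hx | hx
        · exact absurd hx hx0
        · right
          rw [Algebra.smul_def, b6 c x hc hx0]
          exact hx }
  have hV : ∀ (t : Fin n → Kˣ) (σ : L ≃ₐ[K] L), IsTrans Φ t σ → ∀ x ∈ V, σ x ∈ V := by
    intro t σ hσ x hx
    by_cases hx0 : x = 0
    · rw [hx0, map_zero]; exact V.zero_mem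
    rcases hx with hx | hx
    · exact absurd hx hx0
    · right
      rw [h.ord_trans hσ hO hw hx0]
      exact hx
  have h1 : ∀ u, f.coeff u ≠ 0 → w (Φ f) ≤ w (ch Φ u) := by
    intro u hu
    rcases h.ch_mem_of_stable V hV (Or.inr le_rfl : Φ f ∈ V) hu with h2 | h2
    · exact absurd h2 (ch_ne_zero Φ u)
    · exact h2
  refine ⟨h1, ?_⟩
  by_contra hcon
  push Not at hcon
  have hf2 : Φ f = ∑ v ∈ f.coeff.support, f.coeff v • ch Φ v := by
    conv_lhs => rw [← AddMonoidAlgebra.sum_coeff_single f, Finsupp.sum, map_sum]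
    refine Finset.sum_congr rfl fun v _ => ?_
    have : AddMonoidAlgebra.single v (f.coeff v) = (f.coeff v) • AddMonoidAlgebra.single v (1 : K) := by
      rw [AddMonoidAlgebra.smul_single, smul_eq_mul, mul_one]
    rw [this, map_smul]
    rfl
  have h3 := hw.sum f.coeff.support (fun v => f.coeff v • ch Φ v) (w (Φ f) + 1) (by
    intro v hv
    have hv0 := Finsupp.mem_support_iff.1 hv
    right
    rw [Algebra.smul_def, b6 _ _ hv0 (ch_ne_zero Φ v)]
    have h4 := h1 v hv0
    have h5 := hcon v hv0
    omega)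
  rw [← hf2] at h3
  rcases h3 with h3 | h3
  · exact hΦf h3
  · omega

end TOD
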