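import Pool.Agent.TD.A0
import Pool.Agent.TD.RA2
import Pool.Agent.TD.RB1
import Pool.Agent.TD.RB9

universe u

namespace TOD

variable {K L : Type u} [Field K] [Field L] [Algebra K L] {n : ℕ}

/-- [TD-B10] Assembly of [TD-B1], [TD-B9]; `- a l` is the minimum of the finite nonempty set of the values
`w l (z j)`, `z j ≠ 0`. -/
theorem TC.exists_BD [IsAlgClosed K] [CharZero K] {J : Type} [Finite J] {z : J → L}
    {Φ : AddMonoidAlgebra K (Fin n → ℤ) →ₐ[K] L} (h : TC z n Φ) : Nonempty (BD z Φ) := by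
  classical
  let s := h.finite_bdry.toFinset
  let e := s.equivFin
  have hO : ∀ l, (e.symm l).1 ∈ bdry z Φ := fun l => h.finite_bdry.mem_toFinset.1 (e.symm l).2
  choose w hw using fun l => (hO l).2.1
  have hmin : ∀ l, ∃ j, z j ≠ 0 ∧ ∀ j', z j' ≠ 0 → w l (z j) ≤ w l (z j') := by
    intro l
    obtain ⟨j, hj, hj2⟩ := Set.exists_min_image {j | z j ≠ 0} (fun j => w l (z j)) (Set.toFinite _) h.z_ne
    exact ⟨j, hj, fun j' hj' => hj2 j' hj'⟩
  choose j0 hj0 hj1 using hmin
  have hch : ∀ u, ch Φ u ≠ 0 := ch_ne_zero Φ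
  refine ⟨{
    r := s.card
    O := fun l => (e.symm l).1
    w := w
    nn := fun l => {
      toFun := fun u => w l (ch Φ u)
      map_zero' := by
        rw [ch_zero]
        exact (hw l).basic.1
      map_add' := fun u v => by
        rw [ch_add]
        exact (hw l).mul _ _ (hch u) (hch v) }
    a := fun l => - w l (z (j0 l))
    O_inj := ?_
    O_range := ?_
    ord := hw
    w_ch := fun _ _ => rfl
    min_le := fun l f hf u hu => (h.ord_min (hO l) (hw l) hf).1 u hu
    min_eq := fun l f hf => (h.ord_min (hO l) (hw l) hf).2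
    a_le := ?_
    a_eq := fun l => ⟨j0 l, hj0 l, by simp⟩ }⟩
  · intro l l' hl
    exact e.symm.injective (Subtype.ext hl)
  · ext O
    constructor
    · rintro ⟨l, rfl⟩
      exact hO l
    · intro hOb
      refine ⟨e ⟨O, h.finite_bdry.mem_toFinset.2 hOb⟩, ?_⟩
      simp
  · intro l j hj
    simp only [neg_neg]
    exact hj1 l j hj

end TOD
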