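import Pool.Agent.TD.A0

universe u

namespace TOD

variable {K L : Type u} [Field K] [Field L] [Algebra K L] {n : ℕ}

private theorem RC1_pow {J : Type} {z : J → L}
    {Φ : AddMonoidAlgebra K (Fin n → ℤ) →ₐ[K] L} (hz : ∀ j, ∃ f, z j = Φ f) {i : J}
    (hi : z i ≠ 0) {x : L} (hx : x ∈ chart K z i) : ∃ N : ℕ, ∃ f, z i ^ N * x = Φ f := by
  obtain ⟨Zi, hZi⟩ := hz i
  unfold chart at hx
  induction hx using Algebra.adjoin_induction with
  | mem x hx =>
    obtain ⟨j, rfl⟩ := hx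
    obtain ⟨f, hf⟩ := hz j
    exact ⟨1, f, by rw [pow_one]; simp only []; rw [mul_div_cancel₀ _ hi, hf]⟩
  | algebraMap r =>
    refine ⟨0, algebraMap K _ r, ?_⟩
    rw [pow_zero, one_mul, AlgHom.commutes]
  | add x y _ _ hx hy =>
    obtain ⟨N, f, hf⟩ := hx
    obtain ⟨M, e, he⟩ := hy
    refine ⟨N + M, Zi ^ M * f + Zi ^ N * e, ?_⟩
    rw [map_add, map_mul, map_mul, map_pow, map_pow, ← hf, ← he, ← hZi]
    ring
  | mul x y _ _ hx hy =>
    obtain ⟨N, f, hf⟩ := hx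
    obtain ⟨M, e, he⟩ := hy
    refine ⟨N + M, f * e, ?_⟩
    rw [map_mul, ← hf, ← he]
    ring

/-- [TD-C1] Sections are functions on the torus.
Proof: `chart K z i ⊆ {x | ∃ N, z_i ^ N * x ∈ Φ.range}` (a subalgebra, as `z_j ∈ Φ.range`), so there is `N`
with `z_i ^ N * g ∈ Φ.range` for all `i` (for `z i = 0` too, `N > 0`; `J` is finite). From
`∑ Φ (g_j) z_j = 1` a large power of `1` is a combination of the `z_j ^ N` with coefficients in `Φ.range` (the
ideal of `Φ.range` generated by the `z_j ^ N` is the unit ideal: Mathlib `Ideal.span_pow_eq_top`), so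
`g = 1 * g ∈ Φ.range`. -/
theorem NTC.sec_range {J : Type} [Fintype J] {z : J → L}
    {Φ : AddMonoidAlgebra K (Fin n → ℤ) →ₐ[K] L} (h : NTC z n Φ) {m : ℕ} {g : L}
    (hg : g ∈ Sec K z m) : ∃ f, g = Φ f := by
  classical
  choose Z hZ using h.z_mem
  obtain ⟨G, hG⟩ := h.unit
  have h1 : ∀ i, ∃ N : ℕ, ∃ f, z i ^ N * g = Φ f := by
    intro i
    by_cases hi : z i = 0
    · refine ⟨1, 0, ?_⟩
      rw [hi, pow_one, zero_mul, map_zero]
    · obtain ⟨N, f, hf⟩ := RC1_pow h.z_mem hi (hg i hi)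
      refine ⟨N, Z i ^ m * f, ?_⟩
      rw [map_mul, map_pow, ← hZ i, ← hf]
      have : z i ^ m ≠ 0 := pow_ne_zero _ hi
      field_simp
  choose N f hf using h1
  let M : ℕ := ∑ i, N i
  have h2 : ∀ i, z i ^ M * g = Φ (Z i ^ (M - N i) * f i) := by
    intro i
    have hle : N i ≤ M := Finset.single_le_sum (f := N) (fun _ _ => Nat.zero_le _)
      (Finset.mem_univ i)
    rw [map_mul, map_pow, ← hZ i, ← hf i, ← mul_assoc, ← pow_add, Nat.sub_add_cancel hle]
  have h3 : Ideal.span (Set.range Z) = ⊤ := by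
    rw [Ideal.eq_top_iff_one, Ideal.mem_span_range_iff_exists_fun]
    refine ⟨G, ?_⟩
    apply h.Φ_inj
    rw [map_sum, map_one, ← hG]
    refine Finset.sum_congr rfl fun j _ => ?_
    rw [map_mul, ← hZ j]
  have h4 := Ideal.span_pow_eq_top (Set.range Z) h3 M
  rw [← Set.range_comp, Ideal.eq_top_iff_one, Ideal.mem_span_range_iff_exists_fun] at h4
  obtain ⟨c, hc⟩ := h4
  refine ⟨∑ i, c i * (Z i ^ (M - N i) * f i), ?_⟩
  have h5 := congrArg Φ hc
  rw [map_one, map_sum] at h5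
  rw [map_sum, ← one_mul g, ← h5, Finset.sum_mul]
  refine Finset.sum_congr rfl fun i _ => ?_
  rw [map_mul, map_mul, Function.comp_apply, map_pow, ← hZ i, mul_assoc, h2 i]

end TOD
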