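import Pool.Agent.TD.A0
import Pool.Agent.TD.RA2

universe u

namespace TOD

variable {K L : Type u} [Field K] [Field L] [Algebra K L] {n : ℕ}

/-- [TD-C0] If the boundary divisor `l` meets the chart `i` then `z i` generates the hyperplane bundle
along it. (`z_j / z_i ∈ chart ⊆ O l`, so `w (z_j) ≥ w (z_i)` for all `j` with `z j ≠ 0`; `B.a_eq`, `B.a_le`.) -/
theorem BD.w_z {J : Type} {z : J → L} {Φ : AddMonoidAlgebra K (Fin n → ℤ) →ₐ[K] L} (B : BD z Φ)
    {l : Fin B.r} {i : J} (hi : z i ≠ 0) (hO : IsLocOf (chart K z i) (B.O l)) :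
    B.w l (z i) = - B.a l := by
  obtain ⟨j, hj, hja⟩ := B.a_eq l
  have h1 := B.a_le l i hi
  have hmem : z j / z i ∈ B.O l := hO.2.1 (Algebra.subset_adjoin ⟨j, rfl⟩)
  have h2 := ((B.ord l).mem _ (div_ne_zero hj hi)).1 hmem
  rw [(B.ord l).basic.2.2.1 _ _ hj hi, hja] at h2
  linarith

end TOD
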