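import Pool.Agent.TD.A0
import Pool.Agent.TD.RA2
import Pool.Agent.TD.RC0

universe u

namespace TOD

variable {K L : Type u} [Field K] [Field L] [Algebra K L] {n : ℕ}

/-- [TD-C2] Sections have poles of order at most `m a_l` along the boundary divisor `l`.
(`B.O l` is a localisation of some chart `i` with `z i ≠ 0`; `g / z_i ^ m ∈ chart ⊆ O l`; [TD-C0].) -/
theorem BD.sec_le {J : Type} {z : J → L} {Φ : AddMonoidAlgebra K (Fin n → ℤ) →ₐ[K] L} (B : BD z Φ)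
    {m : ℕ} {g : L} (hg : g ∈ Sec K z m) (hg0 : g ≠ 0) (l : Fin B.r) :
    -(m * B.a l) ≤ B.w l g := by
  have hmem : B.O l ∈ bdry z Φ := by
    rw [← B.O_range]
    exact ⟨l, rfl⟩
  obtain ⟨⟨i, hi, hO⟩, -, -⟩ := hmem
  have h1 : g / z i ^ m ∈ B.O l := hO.2.1 (hg i hi)
  have h2 := ((B.ord l).mem _ (div_ne_zero hg0 (pow_ne_zero m hi))).1 h1
  rw [(B.ord l).basic.2.2.1 _ _ hg0 (pow_ne_zero m hi), (B.ord l).basic.2.2.2.1 _ m hi,
    B.w_z hi hO] at h2
  linarith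

end TOD
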