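import Pool.Agent.TD.A0

universe u

namespace TOD

variable {K L : Type u} [Field K] [Field L] [Algebra K L]

private theorem RA6_isUnit_iff {O : Subalgebra K L} (x : O) :
    IsUnit x ↔ (x : L) ≠ 0 ∧ (x : L)⁻¹ ∈ O := by
  constructor
  · rintro ⟨u, rfl⟩
    have h1 : ((u : O) : L) * (((u⁻¹ : Oˣ) : O) : L) = 1 := by
      exact congrArg (fun y : O => (y : L)) (Units.mul_inv u)
    have h0 : ((u : O) : L) ≠ 0 := left_ne_zero_of_mul_eq_one h1
    refine ⟨h0, ?_⟩
    have h2 : ((u : O) : L)⁻¹ = (((u⁻¹ : Oˣ) : O) : L) := inv_eq_of_mul_eq_one_right h1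
    rw [h2]
    exact SetLike.coe_mem _
  · rintro ⟨h0, h1⟩
    refine IsUnit.of_mul_eq_one ⟨(x : L)⁻¹, h1⟩ ?_
    exact Subtype.ext (mul_inv_cancel₀ h0)

private theorem RA6_noeth {A O : Subalgebra K L} [IsNoetherianRing A] (hO : IsLocOf A O) :
    IsNoetherianRing O := by
  have key : ∀ I J : Ideal O, I.comap (Subalgebra.inclusion hO.2.1) ≤
      J.comap (Subalgebra.inclusion hO.2.1) ↔ I ≤ J := by
    intro I J
    constructor
    · intro h x hx
      obtain ⟨a, ha, b, hb, hb0, hbi, he⟩ := hO.2.2 (x : L) x.2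
      have e1 : Subalgebra.inclusion hO.2.1 ⟨a, ha⟩ = x * ⟨b, hO.2.1 hb⟩ := by
        apply Subtype.ext
        change a = (x : L) * b
        rw [he, div_mul_cancel₀ _ hb0]
      have h1 : (⟨a, ha⟩ : A) ∈ I.comap (Subalgebra.inclusion hO.2.1) := by
        rw [Ideal.mem_comap, e1]
        exact I.mul_mem_right _ hx
      have h2 := h h1
      rw [Ideal.mem_comap, e1] at h2
      have h3 := J.mul_mem_right (⟨b⁻¹, hbi⟩ : O) h2
      have e2 : x * ⟨b, hO.2.1 hb⟩ * (⟨b⁻¹, hbi⟩ : O) = x := by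
        apply Subtype.ext
        change (x : L) * b * b⁻¹ = x
        rw [mul_assoc, mul_inv_cancel₀ hb0, mul_one]
      rwa [e2] at h3
    · intro h
      exact Ideal.comap_mono h
  have hA : WellFoundedGT (Ideal A) := isNoetherian_iff'.mp ‹IsNoetherianRing A›
  let f : Ideal O ↪o Ideal A := OrderEmbedding.ofMapLEIff
    (fun I => I.comap (Subalgebra.inclusion hO.2.1)) key
  have hOw : WellFoundedGT (Ideal O) := f.wellFoundedGT
  exact isNoetherian_iff'.mpr hOw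

private theorem RA6_exists {A O : Subalgebra K L} [IsNoetherianRing A]
    (hO : IsLocOf A O) {π : L} (hπ0 : π ≠ 0) (hπ : π ∈ O) (hπ' : π⁻¹ ∉ O)
    (hmax : ∀ x ∈ O, x⁻¹ ∉ O → ∃ y ∈ O, x = π * y) (x : L) (hx : x ∈ O) (hx0 : x ≠ 0) :
    ∃ (k : ℕ) (u : L), u ∈ O ∧ u⁻¹ ∈ O ∧ u ≠ 0 ∧ x = π ^ k * u := by
  have := RA6_noeth hO
  have : IsLocalRing O := hO.1
  have hmaxeq : IsLocalRing.maximalIdeal O = Ideal.span {(⟨π, hπ⟩ : O)} := by
    apply le_antisymm
    · intro y hy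
      rw [IsLocalRing.mem_maximalIdeal, mem_nonunits_iff, RA6_isUnit_iff] at hy
      rw [Ideal.mem_span_singleton]
      by_cases hy0 : (y : L) = 0
      · have : y = 0 := Subtype.ext hy0
        rw [this]
        exact dvd_zero _
      · have hy1 : (y : L)⁻¹ ∉ O := fun h => hy ⟨hy0, h⟩
        obtain ⟨z, hz, he⟩ := hmax y y.2 hy1
        exact ⟨⟨z, hz⟩, Subtype.ext he⟩
    · rw [Ideal.span_singleton_le_iff_mem, IsLocalRing.mem_maximalIdeal, mem_nonunits_iff,
        RA6_isUnit_iff]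
      exact fun h => hπ' h.2
  have hnf : ¬ IsField O := by
    intro hf
    obtain ⟨y, hy⟩ := hf.mul_inv_cancel (a := (⟨π, hπ⟩ : O)) (by
      intro h
      exact hπ0 (congrArg Subtype.val h))
    have h1 : IsUnit (⟨π, hπ⟩ : O) := IsUnit.of_mul_eq_one y hy
    rw [RA6_isUnit_iff] at h1
    exact hπ' h1.2
  have hdvr : IsDiscreteValuationRing O := by
    refine ((IsDiscreteValuationRing.TFAE O hnf).out 0 4).mpr ?_
    exact ⟨⟨_, hmaxeq⟩⟩
  have hirr : Irreducible (⟨π, hπ⟩ : O) :=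
    (IsDiscreteValuationRing.irreducible_iff_uniformizer _).mpr hmaxeq
  have hx0' : (⟨x, hx⟩ : O) ≠ 0 := fun h => hx0 (congrArg Subtype.val h)
  obtain ⟨k, u, hu⟩ := IsDiscreteValuationRing.eq_unit_mul_pow_irreducible hx0' hirr
  have hu1 := (RA6_isUnit_iff (u : O)).mp u.isUnit
  refine ⟨k, (u : O), SetLike.coe_mem _, hu1.2, hu1.1, ?_⟩
  have := congrArg Subtype.val hu
  rw [mul_comm]
  exact this

private theorem RA6_pow_mem {O : Subalgebra K L} {π : L} (hπ : π ∈ O) {k : ℤ} (hk : 0 ≤ k) :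
    π ^ k ∈ O := by
  obtain ⟨m, rfl⟩ := Int.eq_ofNat_of_zero_le hk
  rw [zpow_natCast]
  exact pow_mem hπ m

private theorem RA6_nonneg {O : Subalgebra K L} {π : L} (hπ0 : π ≠ 0) (hπ : π ∈ O)
    (hπ' : π⁻¹ ∉ O) {k : ℤ} {u : L} (hu : u⁻¹ ∈ O) (hu0 : u ≠ 0)
    (hx : π ^ k * u ∈ O) : 0 ≤ k := by
  by_contra hk
  have hk' : 0 ≤ -k - 1 := by omega
  apply hπ'
  have h1 : π ^ (-k - 1) * (π ^ k * u * u⁻¹) ∈ O :=
    mul_mem (RA6_pow_mem hπ hk') (mul_mem hx hu)
  rw [mul_assoc (π ^ k), mul_inv_cancel₀ hu0, mul_one, ← zpow_add₀ hπ0] at h1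
  rwa [show -k - 1 + k = -1 by omega, zpow_neg_one] at h1

private def RA6_P (O : Subalgebra K L) (π x : L) (k : ℤ) : Prop :=
  ∃ u : L, u ∈ O ∧ u⁻¹ ∈ O ∧ u ≠ 0 ∧ x = π ^ k * u

private theorem RA6_P_unique {O : Subalgebra K L} {π : L} (hπ0 : π ≠ 0) (hπ : π ∈ O)
    (hπ' : π⁻¹ ∉ O) {x : L} {k l : ℤ} (h1 : RA6_P O π x k) (h2 : RA6_P O π x l) : k = l := by
  have key : ∀ {k l : ℤ}, RA6_P O π x k → RA6_P O π x l → k ≤ l := by
    intro k l h1 h2
    obtain ⟨u, hu, hui, hu0, he⟩ := h1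
    obtain ⟨v, hv, hvi, hv0, he'⟩ := h2
    have h3 : π ^ (l - k) * v = u := by
      have h4 : π ^ l * v = π ^ k * u := by rw [← he, ← he']
      rw [zpow_sub₀ hπ0, div_mul_eq_mul_div, h4, mul_comm, mul_div_assoc,
        div_self (zpow_ne_zero _ hπ0), mul_one]
    have h5 := RA6_nonneg hπ0 hπ hπ' hvi hv0 (k := l - k) (by rw [h3]; exact hu)
    omega
  exact le_antisymm (key h1 h2) (key h2 h1)

private theorem RA6_P_exists {A O : Subalgebra K L} [IsNoetherianRing A]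
    (hfrac : HasFrac A) (hO : IsLocOf A O) {π : L} (hπ0 : π ≠ 0) (hπ : π ∈ O) (hπ' : π⁻¹ ∉ O)
    (hmax : ∀ x ∈ O, x⁻¹ ∉ O → ∃ y ∈ O, x = π * y) (x : L) (hx0 : x ≠ 0) :
    ∃ k : ℤ, RA6_P O π x k := by
  obtain ⟨a, ha, b, hb, hb0, he⟩ := hfrac x
  have ha0 : a ≠ 0 := by
    rintro rfl
    exact hx0 (by rw [he, zero_div])
  obtain ⟨k, u, hu, hui, hu0, hk⟩ := RA6_exists hO hπ0 hπ hπ' hmax a (hO.2.1 ha) ha0
  obtain ⟨l, v, hv, hvi, hv0, hl⟩ := RA6_exists hO hπ0 hπ hπ' hmax b (hO.2.1 hb) hb0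
  refine ⟨(k : ℤ) - l, u * v⁻¹, mul_mem hu hvi, ?_, mul_ne_zero hu0 (inv_ne_zero hv0), ?_⟩
  · rw [mul_inv, inv_inv]
    exact mul_mem hui hv
  · rw [he, hk, hl, zpow_sub₀ hπ0, zpow_natCast, zpow_natCast]
    field_simp

/-- [TD-A6] A Noetherian local ring in `L`, not a field, with principal maximal ideal and with
`L` as field of fractions, is the valuation ring of a discrete valuation.
Here `O` is a localisation of the Noetherian ring `A`, so `O` is Noetherian: use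
`IsLocalization.isNoetherianRing`, or prove directly that every ideal of `O` is generated by its
intersection with `A`. Then `O` is a `IsDiscreteValuationRing` (TFAE lemma, principal maximal ideal,
not a field because `π⁻¹ ∉ O`), and every nonzero element of `L` is `π ^ k * u`, `u` a unit of `O`, `k : ℤ`;
put `w x = k`. -/
theorem exists_isOrd_of_principal {A O : Subalgebra K L} [IsNoetherianRing A]
    (hfrac : HasFrac A) (hO : IsLocOf A O) {π : L} (hπ0 : π ≠ 0) (hπ : π ∈ O) (hπ' : π⁻¹ ∉ O)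
    (hmax : ∀ x ∈ O, x⁻¹ ∉ O → ∃ y ∈ O, x = π * y) : ∃ w, IsOrd O w := by
  classical
  have hex : ∀ x : L, x ≠ 0 → ∃ k : ℤ, RA6_P O π x k :=
    RA6_P_exists hfrac hO hπ0 hπ hπ' hmax
  let w : L → ℤ := fun x => if h : ∃ k : ℤ, RA6_P O π x k then h.choose else 0
  have hw : ∀ x : L, x ≠ 0 → RA6_P O π x (w x) := by
    intro x hx
    have h := hex x hx
    have e : w x = h.choose := dif_pos h
    rw [e]
    exact h.choose_spec
  have hwk : ∀ (x : L) (k : ℤ), x ≠ 0 → RA6_P O π x k → w x = k := fun x k hx hk =>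
    RA6_P_unique hπ0 hπ hπ' (hw x hx) hk
  have hmem : ∀ x, x ≠ 0 → (x ∈ O ↔ 0 ≤ w x) := by
    intro x hx
    obtain ⟨u, hu, hui, hu0, he⟩ := hw x hx
    constructor
    · intro h
      rw [he] at h
      exact RA6_nonneg hπ0 hπ hπ' hui hu0 h
    · intro h
      rw [he]
      exact mul_mem (RA6_pow_mem hπ h) hu
  have hmul : ∀ x y, x ≠ 0 → y ≠ 0 → w (x * y) = w x + w y := by
    intro x y hx hy
    obtain ⟨u, hu, hui, hu0, he⟩ := hw x hx
    obtain ⟨v, hv, hvi, hv0, he'⟩ := hw y hy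
    apply hwk _ _ (mul_ne_zero hx hy)
    refine ⟨u * v, mul_mem hu hv, ?_, mul_ne_zero hu0 hv0, ?_⟩
    · rw [mul_inv]
      exact mul_mem hui hvi
    · rw [zpow_add₀ hπ0]
      calc x * y = (π ^ w x * u) * (π ^ w y * v) := by rw [← he, ← he']
        _ = _ := by ring
  have hadd : ∀ x y, x ≠ 0 → y ≠ 0 → x + y ≠ 0 → w x ≤ w y → w x ≤ w (x + y) := by
    intro x y hx hy hxy hle
    have h1 : 1 + y / x ≠ 0 := by
      intro h
      apply hxy
      have h2 : x * (1 + y / x) = x + y := by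
        field_simp
      rw [← h2, h, mul_zero]
    have h3 : x * (1 + y / x) = x + y := by
      field_simp
    have h4 : x * (y / x) = y := by
      field_simp
    have h5 : w (y / x) = w y - w x := by
      have := hmul x (y / x) hx (div_ne_zero hy hx)
      rw [h4] at this
      omega
    have h6 : y / x ∈ O := (hmem _ (div_ne_zero hy hx)).mpr (by omega)
    have h7 : 0 ≤ w (1 + y / x) := (hmem _ h1).mp (add_mem (one_mem _) h6)
    have h8 := hmul x (1 + y / x) hx h1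
    rw [h3] at h8
    omega
  refine ⟨w, ⟨hmul, ?_, hmem, ?_⟩⟩
  · intro x y hx hy hxy
    rcases le_total (w x) (w y) with h | h
    · exact le_trans (min_le_left _ _) (hadd x y hx hy hxy h)
    · have h1 := hadd y x hy hx (by rwa [add_comm]) h
      rw [add_comm] at h1
      exact le_trans (min_le_right _ _) h1
  · refine ⟨π, hπ0, hwk π 1 hπ0 ⟨1, one_mem _, ?_, one_ne_zero, ?_⟩⟩
    · rw [inv_one]
      exact one_mem _
    · rw [zpow_one, mul_one]

end TOD
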