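import Pool.Agent.TD.A0
import Pool.Agent.TD.RA6
import Pool.Agent.TD.RA7
import Pool.Agent.TD.RA8

universe u

namespace TOD

variable {K L : Type u} [Field K] [Field L] [Algebra K L]

/-- the ideal of the `d ∈ A` with `d y ∈ A` -/
def RA9_id (A : Subalgebra K L) (y : L) : Ideal A where
  carrier := {d | (d : L) * y ∈ A}
  add_mem' := by
    intro a b ha hb
    show ((a + b : A) : L) * y ∈ A
    rw [Subalgebra.coe_add, add_mul]
    exact A.add_mem ha hb
  zero_mem' := by
    show ((0 : A) : L) * y ∈ A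
    rw [Subalgebra.coe_zero, zero_mul]
    exact A.zero_mem
  smul_mem' := by
    intro c d hd
    show ((c * d : A) : L) * y ∈ A
    rw [Subalgebra.coe_mul, mul_assoc]
    exact A.mul_mem c.2 hd

theorem RA9_mem {A : Subalgebra K L} {y : L} {d : A} : d ∈ RA9_id A y ↔ (d : L) * y ∈ A := Iff.rfl

theorem RA9_frac {A : Subalgebra K L} (hfrac : HasFrac A) : IsFractionRing A L := by
  refine (isLocalization_iff _ _).2 ⟨?_, ?_, ?_⟩
  · intro y
    apply IsUnit.mk0
    intro h0
    have h1 : (y : A) = 0 := Subtype.ext h0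
    exact nonZeroDivisors.ne_zero y.2 h1
  · intro z
    obtain ⟨a, ha, b, hb, hb0, rfl⟩ := hfrac z
    have hb1 : (⟨b, hb⟩ : A) ≠ 0 := fun h => hb0 (congrArg Subtype.val h)
    refine ⟨(⟨a, ha⟩, ⟨⟨b, hb⟩, mem_nonZeroDivisors_of_ne_zero hb1⟩), ?_⟩
    show a / b * b = a
    exact div_mul_cancel₀ a hb0
  · intro x y hxy
    refine ⟨1, ?_⟩
    have hxy2 : x = y := Subtype.ext hxy
    rw [hxy2]

theorem RA9_int {A : Subalgebra K L} [IsIntegrallyClosed A] (hfrac : HasFrac A) {y : L}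
    {P : Ideal A} (hfg : P.FG) (hP0 : ∃ b ∈ P, b ≠ 0)
    (hy : ∀ p ∈ P, ∃ q ∈ P, y * (p : L) = (q : L)) : y ∈ A := by
  have hfr := RA9_frac hfrac
  have hint : IsIntegral A y := by
    apply isIntegral_of_smul_mem_submodule (M := L) (Submodule.map (Algebra.linearMap A L) P)
    · obtain ⟨b, hb, hb0⟩ := hP0
      intro h
      have h1 : Algebra.linearMap A L b ∈ Submodule.map (Algebra.linearMap A L) P :=
        Submodule.mem_map_of_mem hb
      rw [h, Submodule.mem_bot] at h1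
      exact hb0 (Subtype.ext h1)
    · exact Submodule.FG.map _ hfg
    · rintro n ⟨p, hp, rfl⟩
      obtain ⟨q, hq, hqe⟩ := hy p hp
      exact ⟨q, hq, hqe.symm⟩
  obtain ⟨c, hc⟩ := (IsIntegrallyClosed.isIntegral_iff (R := A) (K := L)).1 hint
  rw [← hc]
  exact c.2

/-- [TD-A9] A Noetherian integrally closed domain is the intersection of its localisations which are
discrete valuation rings.
Proof: let `x = a / b ∉ A`, `a, b ∈ A`. In the `A`-module `A / bA` the class of `a` is nonzero; `A` is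
Noetherian, so there is an associated prime `P` of `A / bA` containing the annihilator of this class
(Mathlib: `exists_le_isAssociatedPrime_of_isNoetherianRing`); `P = ann (class of e)`. With
`y = e / b ∈ L`: `y ∉ A`, `P = {d ∈ A | d y ∈ A}`, and `{d ∈ A | d x ∈ A} ⊆ P`.
Let `O = A_P` ([TD-A7]). `y ∉ O` (otherwise `y = c / f`, `f ∉ P`, so `f y ∈ A`, so `f ∈ P`); in the same way
`x ∉ O` (`x = c / f`, `f ∉ P`, `f x ∈ A`, so `f ∈ P`). Note `b ∈ P`, so `P ≠ 0`.
If `y p ∈ P` for all `p ∈ P` then `y` is integral over `A` (`isIntegral_of_smul_mem_submodule`, `P` is finitely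
generated and nonzero), so `y ∈ A`, contradiction. So there is `p ∈ P` with `y p ∈ A`, `y p ∉ P`, so
`(y p)⁻¹ ∈ O`; `π := y⁻¹ = p (y p)⁻¹ ∈ O`, `π⁻¹ = y ∉ O`, and every non-unit of `O` is `q / g` with `q ∈ P`,
`g ∉ P`, `q / g = π * ((y q) / g)` with `y q ∈ A`. Now [TD-A6]. -/
theorem exists_isOrd_notMem {A : Subalgebra K L} [IsNoetherianRing A] [IsIntegrallyClosed A]
    (hfrac : HasFrac A) {x : L} (hx : x ∉ A) :
    ∃ O, IsLocOf A O ∧ (∃ w, IsOrd O w) ∧ x ∉ O := by
  classical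
  -- a maximal ideal of the form `{d | d y ∈ A}`
  obtain ⟨P, ⟨y, hyA, rfl, hxP⟩, hPmax⟩ := wellFounded_gt.has_min
    {I : Ideal A | ∃ y : L, y ∉ A ∧ RA9_id A y = I ∧ RA9_id A x ≤ I} ⟨RA9_id A x, x, hx, rfl, le_refl _⟩
  have hprime : (RA9_id A y).IsPrime := by
    constructor
    · intro h
      have h1 : (1 : A) ∈ RA9_id A y := by rw [h]; exact Submodule.mem_top
      rw [RA9_mem, Subalgebra.coe_one, one_mul] at h1
      exact hyA h1
    · intro d e hde
      by_contra hcon
      have hd : ¬ d ∈ RA9_id A y := fun h => hcon (Or.inl h)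
      have he : ¬ e ∈ RA9_id A y := fun h => hcon (Or.inr h)
      rw [RA9_mem] at hd
      have hle : RA9_id A y ≤ RA9_id A ((d : L) * y) := by
        intro f hf
        rw [RA9_mem] at hf ⊢
        have : (f : L) * ((d : L) * y) = (d : L) * ((f : L) * y) := by ring
        rw [this]
        exact A.mul_mem d.2 hf
      have hmem : e ∈ RA9_id A ((d : L) * y) := by
        rw [RA9_mem]
        rw [RA9_mem, Subalgebra.coe_mul] at hde
        have : (e : L) * ((d : L) * y) = (d : L) * (e : L) * y := by ring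
        rw [this]
        exact hde
      exact hPmax (RA9_id A ((d : L) * y)) ⟨_, hd, rfl, hxP.trans hle⟩
        (lt_of_le_of_ne hle (fun h => he (by rw [h]; exact hmem)))
  obtain ⟨O, hO, hOmem, hOP⟩ := exists_locOf A (RA9_id A y)
  have hy0 : y ≠ 0 := fun h => hyA (by rw [h]; exact A.zero_mem)
  have hdiv : ∀ z : L, RA9_id A z ≤ RA9_id A y → z ∉ O := by
    intro z hz hzO
    obtain ⟨c, f, hf, rfl⟩ := (hOmem z).1 hzO
    apply hf
    apply hz
    have hf0 : (f : L) ≠ 0 := by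
      intro h
      apply hf
      have : f = 0 := Subtype.ext h
      rw [this]
      exact Ideal.zero_mem _
    rw [RA9_mem, mul_div_cancel₀ _ hf0]
    exact c.2
  refine ⟨O, hO, ?_, hdiv x hxP⟩
  have hyO : y ∉ O := hdiv y (le_refl _)
  -- an element `p` of `P` with `y p ∉ P`
  have hp : ∃ p ∈ RA9_id A y, ∀ q : A, (q : L) = y * (p : L) → q ∉ RA9_id A y := by
    by_contra hcon
    apply hyA
    refine RA9_int hfrac (P := RA9_id A y) (IsNoetherian.noetherian _) ?_ ?_
    · obtain ⟨a, ha, b, hb, hb0, hab⟩ := hfrac y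
      refine ⟨⟨b, hb⟩, ?_, ?_⟩
      · rw [RA9_mem, hab, mul_div_cancel₀ _ hb0]
        exact ha
      · intro h
        exact hb0 (congrArg Subtype.val h)
    · intro p hp
      have hyp : y * (p : L) ∈ A := by
        rw [RA9_mem] at hp
        rwa [mul_comm]
      by_contra hq
      apply hcon
      refine ⟨p, hp, ?_⟩
      intro q hqe hqP
      exact hq ⟨q, hqP, hqe.symm⟩
  obtain ⟨p, hpP, hpq⟩ := hp
  have hypA : y * (p : L) ∈ A := by
    rw [RA9_mem] at hpP
    rwa [mul_comm]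
  have hqP : (⟨y * (p : L), hypA⟩ : A) ∉ RA9_id A y := hpq _ rfl
  have hq2 := mt (hOP ⟨y * (p : L), hypA⟩).2 hqP
  rw [not_or, not_not] at hq2
  obtain ⟨hq0, hqinv⟩ := hq2
  have hyp0 : y * (p : L) ≠ 0 := fun h => hq0 (Subtype.ext h)
  have hp0 : (p : L) ≠ 0 := fun h => hyp0 (by rw [h, mul_zero])
  have hπO : y⁻¹ ∈ O := by
    have e : y⁻¹ = (p : L) * (y * (p : L))⁻¹ := by
      field_simp
    rw [e]
    exact O.mul_mem (hO.2.1 p.2) hqinv
  refine exists_isOrd_of_principal hfrac hO (inv_ne_zero hy0) hπO (by rwa [inv_inv]) ?_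
  intro z hz hzinv
  obtain ⟨q, g, hg, rfl⟩ := (hOmem z).1 hz
  have hg0 : (g : L) ≠ 0 := by
    intro h
    apply hg
    have : g = 0 := Subtype.ext h
    rw [this]
    exact Ideal.zero_mem _
  have hqP' : q ∈ RA9_id A y := by
    by_contra hqn
    apply hzinv
    rw [inv_div]
    exact (hOmem _).2 ⟨g, q, hqn, rfl⟩
  have hyq : y * (q : L) ∈ A := by
    rw [RA9_mem] at hqP'
    rwa [mul_comm]
  refine ⟨(y * (q : L)) / (g : L), (hOmem _).2 ⟨⟨y * (q : L), hyq⟩, g, hg, rfl⟩, ?_⟩
  field_simp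

end TOD
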