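import Pool.Agent.TD.A0
import Pool.Agent.TD.RA2
import Pool.Agent.TD.RA9
import Pool.Agent.TD.RB0
import Pool.Agent.TD.RC0

universe u

namespace TOD

variable {K L : Type u} [Field K] [Field L] [Algebra K L] {n : ℕ}

/-- [TD-C3] Conversely, functions on the torus with poles of order at most `m a_l` along the boundary
divisors are sections.
Proof: let `z i ≠ 0` and suppose `x = Φ f / z_i ^ m` is not in `chart K z i`. By [TD-A9] (the chart is
Noetherian [TD-B0], normal `h.normal`, `h.frac`) there is a discrete valuation ring `O`, a localisation of the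
chart, `x ∉ O`. If `Φ.range ≤ O`: `1 / z_i = ∑ Φ (g_j) (z_j / z_i) ∈ O`, so `x ∈ O`, contradiction. Otherwise
`O ∈ bdry z Φ`, `O = B.O l` (`B.O_range`), `w l (Φ f) ≥ - m a_l = m w l (z_i)` ([TD-C0]), so `x ∈ O l`
(`(B.ord l).mem`), contradiction. (If `Φ f = 0` there is nothing to prove.) -/
theorem NTC.mem_sec {J : Type} [Fintype J] {z : J → L}
    {Φ : AddMonoidAlgebra K (Fin n → ℤ) →ₐ[K] L} (h : NTC z n Φ) (B : BD z Φ) {m : ℕ}
    {f : AddMonoidAlgebra K (Fin n → ℤ)}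
    (hf : f ≠ 0 → ∀ l, -(m * B.a l) ≤ B.w l (Φ f)) : Φ f ∈ Sec K z m := by
  classical
  rw [mem_Sec]
  intro i hi
  by_contra hx
  have hf0 : f ≠ 0 := by
    rintro rfl
    apply hx
    rw [map_zero, zero_div]
    exact zero_mem _
  have hΦf : Φ f ≠ 0 := by
    intro h0
    exact hf0 (h.Φ_inj (by rw [h0, map_zero]))
  have hN : IsNoetherianRing (chart K z i) := chart_isNoetherianRing z i
  have hI : IsIntegrallyClosed (chart K z i) := h.normal i hi
  obtain ⟨O, hloc, ⟨w, hw⟩, hxO⟩ := exists_isOrd_notMem (h.frac i hi) hx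
  by_cases hr : Φ.range ≤ O
  · apply hxO
    obtain ⟨g, hg⟩ := h.unit
    have h1 : (z i)⁻¹ ∈ O := by
      have h2 : (z i)⁻¹ = ∑ j, Φ (g j) * (z j / z i) := by
        have h3 : ∑ j, Φ (g j) * (z j / z i) = (∑ j, Φ (g j) * z j) * (z i)⁻¹ := by
          rw [Finset.sum_mul]
          refine Finset.sum_congr rfl fun j _ => ?_
          rw [div_eq_mul_inv, mul_assoc]
        rw [h3, hg, one_mul]
      rw [h2]
      refine sum_mem fun j _ => mul_mem (hr ⟨g j, rfl⟩) (hloc.2.1 ?_)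
      exact Algebra.subset_adjoin ⟨j, rfl⟩
    rw [div_eq_mul_inv, ← inv_pow]
    exact mul_mem (hr ⟨f, rfl⟩) (pow_mem h1 m)
  · have hbd : O ∈ bdry z Φ := ⟨⟨i, hi, hloc⟩, ⟨w, hw⟩, hr⟩
    rw [← B.O_range] at hbd
    obtain ⟨l, rfl⟩ := hbd
    apply hxO
    obtain ⟨-, -, hdiv, hpow, -⟩ := (B.ord l).basic
    have hzm : z i ^ m ≠ 0 := pow_ne_zero m hi
    rw [(B.ord l).mem _ (div_ne_zero hΦf hzm), hdiv _ _ hΦf hzm, hpow _ _ hi, B.w_z hi hloc]
    have h4 := hf hf0 l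
    have h5 : (m : ℤ) * -B.a l = -(m * B.a l) := by ring
    rw [h5]
    omega

end TOD
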