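import Pool.Agent.TD.A0
import Pool.Agent.TD.RA2
import Pool.Agent.TD.RC1
import Pool.Agent.TD.RC2
import Pool.Agent.TD.RC3

universe u

namespace TOD

variable {K L : Type u} [Field K] [Field L] [Algebra K L] {n : ℕ}

/-- [TD-C4] Sections of `O(m)` are the functions all of whose characters lie in the polytope
`{u | nn l u + m a_l ≥ 0}`. ([TD-C1], [TD-C2], [TD-C3], `B.min_le`, `B.min_eq`.) -/
theorem NTC.mem_sec_iff {J : Type} [Fintype J] {z : J → L}
    {Φ : AddMonoidAlgebra K (Fin n → ℤ) →ₐ[K] L} (h : NTC z n Φ) (B : BD z Φ) {m : ℕ} {g : L} :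
    g ∈ Sec K z m ↔ ∃ f, g = Φ f ∧ ∀ u, f.coeff u ≠ 0 → ∀ l, 0 ≤ B.nn l u + m * B.a l := by
  constructor
  · intro hg
    obtain ⟨f, rfl⟩ := h.sec_range hg
    refine ⟨f, rfl, ?_⟩
    intro u hu l
    have hf0 : f ≠ 0 := by
      rintro rfl
      exact hu rfl
    have hΦ : Φ f ≠ 0 := fun h0 => hf0 (h.Φ_inj (by rw [h0, map_zero]))
    have h1 := B.sec_le hg hΦ l
    have h2 := B.min_le l f hf0 u hu
    linarith
  · rintro ⟨f, rfl, hf⟩
    apply h.mem_sec B
    intro hf0 l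
    obtain ⟨u, hu, hul⟩ := B.min_eq l f hf0
    have h1 := hf u hu l
    rw [← hul]
    linarith

end TOD
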