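import Pool.Agent.TD.A0
import Pool.Agent.TD.RC4

universe u

namespace TOD

variable {K L : Type u} [Field K] [Field L] [Algebra K L] {n : ℕ}

/-- [TD-C5] Characters which are sections. (From [TD-C4]; `Φ` is injective, so `f = single u 1`.) -/
theorem NTC.ch_mem_sec_iff {J : Type} [Fintype J] {z : J → L}
    {Φ : AddMonoidAlgebra K (Fin n → ℤ) →ₐ[K] L} (h : NTC z n Φ) (B : BD z Φ) {m : ℕ}
    {u : Fin n → ℤ} : ch Φ u ∈ Sec K z m ↔ ∀ l, 0 ≤ B.nn l u + m * B.a l := by
  classical
  rw [h.mem_sec_iff B]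
  constructor
  · rintro ⟨f, hf, hu⟩ l
    have h1 : AddMonoidAlgebra.single u (1 : K) = f := h.Φ_inj hf
    apply hu u
    rw [← h1, AddMonoidAlgebra.coeff_single, Finsupp.single_eq_same]
    exact one_ne_zero
  · intro hl
    refine ⟨AddMonoidAlgebra.single u (1 : K), rfl, fun v hv => ?_⟩
    rw [AddMonoidAlgebra.coeff_single] at hv
    have h1 : v = u := by
      by_contra hne
      exact hv (Finsupp.single_eq_of_ne hne)
    rw [h1]
    exact hl

end TOD
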