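import Pool.Agent.TD.A0

universe u

namespace TOD

open Polynomial

variable {k L : Type u} [CommRing k] [Field L] [Algebra k L] {J : Type}

/-- [TD-S1] Forms of degree `m` in the coordinates are sections of `O(m)`; sections multiply.
(`Vz ^ m` : induction on `m`; `Vz ≤ Sec 1`, `1 ∈ Sec 0`; `(g g') / z_i ^ (m + m') = (g / z_i ^ m) (g' / z_i ^ m')`.) -/
theorem mul_mem_Sec {z : J → L} {m m' : ℕ} {g g' : L} (hg : g ∈ Sec k z m)
    (hg' : g' ∈ Sec k z m') : g * g' ∈ Sec k z (m + m') := by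
  rw [mem_Sec] at *
  intro i hi
  rw [pow_add, mul_div_mul_comm]
  exact mul_mem (hg i hi) (hg' i hi)

theorem one_mem_Sec (z : J → L) : (1 : L) ∈ Sec k z 0 := by
  rw [mem_Sec]
  intro i _
  rw [pow_zero, div_one]
  exact one_mem _

theorem Vz_pow_le_Sec (z : J → L) (m : ℕ) : Vz k z ^ m ≤ Sec k z m := by
  have h1 : Vz k z ≤ Sec k z 1 := by
    unfold Vz
    rw [Submodule.span_le]
    rintro _ ⟨j, rfl⟩
    rw [SetLike.mem_coe, mem_Sec]
    intro i _
    rw [pow_one]
    exact Algebra.subset_adjoin ⟨j, rfl⟩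
  induction m with
  | zero =>
    rw [pow_zero, Submodule.one_le]
    exact one_mem_Sec z
  | succ m ih =>
    rw [pow_succ, Submodule.mul_le]
    intro a ha b hb
    exact mul_mem_Sec (ih ha) (h1 hb)

end TOD
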