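import Pool.Agent.TD.A0

universe u

namespace TOD

open Polynomial

variable {k L : Type u} [CommRing k] [Field L] [Algebra k L] {J : Type}

theorem RS2_z_mem (z : J → L) (i : J) (t : ℕ) : z i ^ t ∈ Vz k z ^ t :=
  Submodule.pow_mem_pow (Vz k z) (Submodule.subset_span (Set.mem_range_self i)) t

theorem RS2_div {z : J → L} {i : J} (hi : z i ≠ 0) {s : ℕ} {v : L} (hv : v ∈ Vz k z ^ s) :
    v / z i ^ s ∈ chart k z i := by
  induction s generalizing v with
  | zero =>
    rw [pow_zero, Submodule.mem_one] at hv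
    obtain ⟨c, rfl⟩ := hv
    rw [pow_zero, div_one]
    exact Subalgebra.algebraMap_mem _ c
  | succ s ih =>
    rw [pow_succ'] at hv
    refine Submodule.mul_induction_on hv ?_ ?_
    · intro m hm n hn
      have h1 : m * n / z i ^ (s + 1) = (m / z i) * (n / z i ^ s) := by
        rw [pow_succ']
        field_simp
      rw [h1]
      clear h1
      refine Subalgebra.mul_mem _ ?_ (ih hn)
      unfold Vz at hm
      induction hm using Submodule.span_induction with
      | mem x hx =>
        obtain ⟨j, rfl⟩ := hx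
        exact Algebra.subset_adjoin ⟨j, rfl⟩
      | zero =>
        rw [zero_div]
        exact Subalgebra.zero_mem _
      | add x y _ _ hx hy =>
        rw [add_div]
        exact Subalgebra.add_mem _ hx hy
      | smul c x _ hx =>
        rw [smul_div_assoc]
        exact Subalgebra.smul_mem _ hx c
    · intro x y hx hy
      rw [add_div]
      exact Subalgebra.add_mem _ hx hy

theorem RS2_le {z : J → L} {i : J} {x : L} {s s' : ℕ} (h : s ≤ s')
    (hx : x * z i ^ s ∈ Vz k z ^ s) : x * z i ^ s' ∈ Vz k z ^ s' := by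
  obtain ⟨t, rfl⟩ := Nat.exists_eq_add_of_le h
  rw [pow_add, pow_add, ← mul_assoc]
  exact Submodule.mul_mem_mul hx (RS2_z_mem z i t)

/-- [TD-S2] Elements of the chart `z_i ≠ 0` are the quotients `v / z_i ^ s`, `v` a form of degree `s`.
(`⇐`: `Vz_pow_le_Sec`. `⇒`: the set of such quotients is a subalgebra: common denominators because
`z_i ∈ Vz`.) Moreover `s` can be increased. -/
theorem mem_chart_iff {z : J → L} {i : J} (hi : z i ≠ 0) {x : L} :
    x ∈ chart k z i ↔ ∃ s : ℕ, x * z i ^ s ∈ Vz k z ^ s := by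
  constructor
  · intro hx
    unfold chart at hx
    induction hx using Algebra.adjoin_induction with
    | mem x hx =>
      obtain ⟨j, rfl⟩ := hx
      refine ⟨1, ?_⟩
      rw [pow_one, pow_one]
      simp only
      rw [div_mul_cancel₀ _ hi]
      exact Submodule.subset_span ⟨j, rfl⟩
    | algebraMap r =>
      refine ⟨0, ?_⟩
      rw [pow_zero, pow_zero, mul_one]
      exact Submodule.algebraMap_mem r
    | add x y _ _ hx hy =>
      obtain ⟨s, hs⟩ := hx
      obtain ⟨t, ht⟩ := hy
      refine ⟨s + t, ?_⟩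
      rw [add_mul]
      exact add_mem (RS2_le (Nat.le_add_right s t) hs) (RS2_le (Nat.le_add_left t s) ht)
    | mul x y _ _ hx hy =>
      obtain ⟨s, hs⟩ := hx
      obtain ⟨t, ht⟩ := hy
      refine ⟨s + t, ?_⟩
      have h1 : x * y * z i ^ (s + t) = (x * z i ^ s) * (y * z i ^ t) := by ring
      rw [h1, pow_add]
      exact Submodule.mul_mem_mul hs ht
  · rintro ⟨s, hs⟩
    have h1 := RS2_div hi hs
    rwa [mul_div_cancel_right₀ _ (pow_ne_zero s hi)] at h1

theorem mul_pow_mem_of_le {z : J → L} {i : J} {x : L} {s s' : ℕ} (h : s ≤ s')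
    (hx : x * z i ^ s ∈ Vz k z ^ s) : x * z i ^ s' ∈ Vz k z ^ s' := by
  exact RS2_le h hx

end TOD
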