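import Pool.Agent.TD.A0

universe u

namespace TOD

open Polynomial

variable {k L : Type u} [CommRing k] [Field L] [Algebra k L] {J : Type}

private theorem RS3_prod {ι : Type} (z : J → L) (φ : ι → J) (U : Finset ι) :
    ∏ i ∈ U, z (φ i) ∈ Vz k z ^ U.card := by
  classical
  induction U using Finset.induction_on with
  | empty =>
    rw [Finset.prod_empty, Finset.card_empty, pow_zero]
    exact Submodule.one_le.mp le_rfl
  | insert a U ha ih =>
    rw [Finset.prod_insert ha, Finset.card_insert_of_notMem ha, pow_succ']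
    exact Submodule.mul_mem_mul (Submodule.subset_span ⟨φ a, rfl⟩) ih

/-- [TD-S3] Pigeonhole: a form of degree `S = card J * s` is a combination of multiples of the `z_i ^ s`.
(Induction or: `Vz ^ S` is spanned by the products of `S` coordinates (`Submodule.span_pow`,
`Set.mem_pow`-type lemmas, or induction on `S` describing `Vz ^ S` as the span of the `∏ j, z j ^ e j`,
`∑ e j = S`), and `∑ e j = card J * s` with `card J > 0` gives `e i ≥ s` for some `i`.) -/
theorem Vz_pow_pigeonhole [Fintype J] [Nonempty J] (z : J → L) (s : ℕ) {v : L}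
    (hv : v ∈ Vz k z ^ (Fintype.card J * s)) :
    ∃ v' : J → L, (∀ i, v' i ∈ Vz k z ^ ((Fintype.card J - 1) * s)) ∧ v = ∑ i, z i ^ s * v' i := by
  classical
  have hc : 0 < Fintype.card J := Fintype.card_pos
  rw [Vz, Submodule.span_pow] at hv
  induction hv using Submodule.span_induction with
  | mem x hx =>
    obtain ⟨f, hf⟩ := Set.mem_pow.mp hx
    choose φ hφ using fun i => (f i).2
    have hx' : x = ∏ i, z (φ i) := by
      rw [← hf, List.prod_ofFn]
      exact Finset.prod_congr rfl fun i _ => (hφ i).symm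
    obtain ⟨j, hj⟩ := Fintype.exists_le_card_fiber_of_mul_le_card (f := φ) (n := s) (by
      rw [Fintype.card_fin])
    obtain ⟨T, hT, hTc⟩ := Finset.exists_subset_card_eq hj
    have h1 : x = z j ^ s * ∏ i ∈ Tᶜ, z (φ i) := by
      rw [hx', ← Finset.prod_mul_prod_compl T]
      congr 1
      have h0 : ∏ i ∈ T, z (φ i) = ∏ _i ∈ T, z j := by
        refine Finset.prod_congr rfl fun i hi => ?_
        rw [(Finset.mem_filter.mp (hT hi)).2]
      rw [h0, Finset.prod_const, hTc]
    have h2 : (Tᶜ).card = (Fintype.card J - 1) * s := by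
      rw [Finset.card_compl, hTc, Fintype.card_fin, Nat.sub_mul, one_mul]
    have h3 : ∏ i ∈ Tᶜ, z (φ i) ∈ Vz k z ^ ((Fintype.card J - 1) * s) := by
      rw [← h2]
      exact RS3_prod z φ Tᶜ
    refine ⟨fun i => if i = j then ∏ i ∈ Tᶜ, z (φ i) else 0, fun i => ?_, ?_⟩
    · by_cases hij : i = j
      · simp only [if_pos hij]
        exact h3
      · simp only [if_neg hij]
        exact Submodule.zero_mem _
    · rw [h1]
      simp only [mul_ite, mul_zero]
      rw [Finset.sum_ite_eq' Finset.univ j, if_pos (Finset.mem_univ j)]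
  | zero =>
    refine ⟨fun _ => 0, fun _ => Submodule.zero_mem _, ?_⟩
    simp
  | add x y _ _ hx hy =>
    obtain ⟨v, hv, he⟩ := hx
    obtain ⟨w, hw, he'⟩ := hy
    refine ⟨fun i => v i + w i, fun i => Submodule.add_mem _ (hv i) (hw i), ?_⟩
    rw [he, he', ← Finset.sum_add_distrib]
    exact Finset.sum_congr rfl fun i _ => (mul_add _ _ _).symm
  | smul c x _ hx =>
    obtain ⟨v, hv, he⟩ := hx
    refine ⟨fun i => c • v i, fun i => Submodule.smul_mem _ c (hv i), ?_⟩
    rw [he, Finset.smul_sum]
    exact Finset.sum_congr rfl fun i _ => (mul_smul_comm _ _ _).symm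

end TOD
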