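import Pool.Agent.TD.A0
import Pool.Agent.TD.RS1
import Pool.Agent.TD.RS2
import Pool.Agent.TD.RS3

universe u

namespace TOD

open Polynomial

variable {k L : Type u} [CommRing k] [Field L] [Algebra k L] {J : Type}

/-- [TD-S4] Sections of `O(m)` map forms of large degree `s` to forms of degree `s + m`.
Proof: for `z i ≠ 0`, by [TD-S2] `(g / z_i ^ m) z_i ^ s ∈ Vz ^ s` for all large `s`, so `g z_i ^ s ∈ Vz ^ (s + m)` for
all large `s`; for `z i = 0` this holds for `s > 0`. Take a common `s > 0`; [TD-S3]: for `S = card J * s` and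
`v = ∑ z_i ^ s v'_i ∈ Vz ^ S`: `g v = ∑ (g z_i ^ s) v'_i`. -/
theorem exists_mul_mem [Fintype J] [Nonempty J] {z : J → L} {m : ℕ} {g : L}
    (hg : g ∈ Sec k z m) : ∃ s₀ : ℕ, ∀ s ≥ s₀, ∀ v ∈ Vz k z ^ s, g * v ∈ Vz k z ^ (s + m) := by
  classical
  have hD : 0 < Fintype.card J := Fintype.card_pos
  have h1 : ∀ i, ∃ t : ℕ, ∀ s ≥ t, g * z i ^ s ∈ Vz k z ^ (s + m) := by
    intro i
    by_cases hi : z i = 0
    · refine ⟨1, fun s hs => ?_⟩
      rw [hi, zero_pow (by omega), mul_zero]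
      exact Submodule.zero_mem _
    · obtain ⟨t, ht⟩ := (mem_chart_iff hi).mp (hg i hi)
      refine ⟨t, fun s hs => ?_⟩
      have h2 := mul_pow_mem_of_le (k := k) (le_trans hs (Nat.le_add_right s m)) ht
      have h3 : g / z i ^ m * z i ^ (s + m) = g * z i ^ s := by
        have : z i ^ m ≠ 0 := pow_ne_zero _ hi
        rw [pow_add]
        field_simp
      rwa [h3] at h2
  choose t ht using h1
  obtain ⟨s₁, hs₁⟩ : ∃ s₁ : ℕ, ∀ i, t i ≤ s₁ :=
    ⟨∑ i, t i, fun i => Finset.single_le_sum (f := t) (fun _ _ => Nat.zero_le _)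
      (Finset.mem_univ i)⟩
  have key : ∀ v ∈ Vz k z ^ (Fintype.card J * s₁),
      g * v ∈ Vz k z ^ (Fintype.card J * s₁ + m) := by
    intro v hv
    obtain ⟨v', hv', he⟩ := Vz_pow_pigeonhole z s₁ hv
    rw [he, Finset.mul_sum]
    refine Submodule.sum_mem _ fun i _ => ?_
    rw [← mul_assoc]
    have h4 := Submodule.mul_mem_mul (ht i s₁ (hs₁ i)) (hv' i)
    rw [← pow_add] at h4
    have h5 : s₁ + m + (Fintype.card J - 1) * s₁ = Fintype.card J * s₁ + m := by
      obtain ⟨D, hD'⟩ : ∃ D, Fintype.card J = D + 1 := ⟨Fintype.card J - 1, by omega⟩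
      rw [hD', Nat.add_sub_cancel]
      ring
    rwa [h5] at h4
  refine ⟨Fintype.card J * s₁, fun s hs v hv => ?_⟩
  obtain ⟨r, rfl⟩ := Nat.exists_eq_add_of_le hs
  rw [pow_add] at hv
  have h6 : Fintype.card J * s₁ + r + m = Fintype.card J * s₁ + m + r := by omega
  rw [h6, pow_add _ _ r]
  induction hv using Submodule.mul_induction_on' with
  | mem_mul_mem a ha b hb =>
    rw [← mul_assoc]
    exact Submodule.mul_mem_mul (key a ha) hb
  | add x _ y _ hx hy =>
    rw [mul_add]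
    exact Submodule.add_mem _ hx hy

end TOD
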