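import Pool.Agent.TD.A0
import Pool.Agent.TD.RS4

universe u

namespace TOD

open Polynomial

variable {k L : Type u} [CommRing k] [Field L] [Algebra k L] {J : Type}

/-- [TD-S5] Regular functions on a connected projective variety over an algebraically closed field are
constant: with [TD-S4] (`m = 0`), `g` maps the nonzero finite dimensional space `Vz ^ s` into itself, so `g` is integral
over `K` (`isIntegral_of_smul_mem_submodule`), so `g ∈ K`. -/
theorem exists_eq_algebraMap_of_mem_Sec_zero {K : Type u} [Field K] [IsAlgClosed K]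
    [Algebra K L] [Fintype J] {z : J → L} (hz : ∃ i, z i ≠ 0) {g : L} (hg : g ∈ Sec K z 0) :
    ∃ c : K, g = algebraMap K L c := by
  classical
  obtain ⟨i, hi⟩ := hz
  have : Nonempty J := ⟨i⟩
  obtain ⟨s₀, hs₀⟩ := exists_mul_mem hg
  have hN : Vz K z ^ s₀ ≠ ⊥ := by
    intro h0
    have h2 : z i ∈ Vz K z := Submodule.subset_span ⟨i, rfl⟩
    have h1 : z i ^ s₀ ∈ Vz K z ^ s₀ := Submodule.pow_mem_pow _ h2 s₀
    rw [h0, Submodule.mem_bot] at h1
    exact pow_ne_zero _ hi h1
  have hfg : (Vz K z ^ s₀).FG :=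
    (Submodule.fg_span (Set.finite_range z)).pow s₀
  have hint : IsIntegral K g := by
    refine isIntegral_of_smul_mem_submodule (Vz K z ^ s₀) hN hfg g fun v hv => ?_
    have h1 := hs₀ s₀ le_rfl v hv
    rwa [add_zero] at h1
  obtain ⟨c, hc⟩ := minpoly.mem_range_of_degree_eq_one K g
    (IsAlgClosed.degree_eq_one_of_irreducible K (minpoly.irreducible hint))
  exact ⟨c, hc.symm⟩

end TOD
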