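import Pool.Agent.TD.A0
import Pool.Agent.TD.RC4
import Pool.Agent.TD.RC5
import Pool.Agent.TD.RS5

universe u

namespace TOD

variable {K L : Type u} [Field K] [Field L] [Algebra K L] {n : ℕ}

/-- [TD-D3] The only character regular on the whole variety is `1` ([TD-C5] with `m = 0`, [TD-S5],
injectivity of `Φ`). -/
theorem NTC.eq_zero_of_nonneg [IsAlgClosed K] {J : Type} [Fintype J] {z : J → L}
    {Φ : AddMonoidAlgebra K (Fin n → ℤ) →ₐ[K] L} (h : NTC z n Φ) (B : BD z Φ) {u : Fin n → ℤ}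
    (hu : ∀ l, 0 ≤ B.nn l u) : u = 0 := by
  have h1 : ch Φ u ∈ Sec K z 0 := by
    rw [h.ch_mem_sec_iff B]
    intro l
    rw [Nat.cast_zero, zero_mul, add_zero]
    exact hu l
  obtain ⟨c, hc⟩ := exists_eq_algebraMap_of_mem_Sec_zero h.z_ne h1
  have h2 : (AddMonoidAlgebra.single u 1 : AddMonoidAlgebra K (Fin n → ℤ)) =
      AddMonoidAlgebra.single 0 c := by
    apply h.Φ_inj
    have h3 : (AddMonoidAlgebra.single 0 c : AddMonoidAlgebra K (Fin n → ℤ)) =
        algebraMap K _ c := by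
      rw [Algebra.algebraMap_eq_smul_one, AddMonoidAlgebra.one_def, AddMonoidAlgebra.smul_single,
        smul_eq_mul, mul_one]
    rw [h3, AlgHom.commutes]
    exact hc
  by_contra hne
  have h4 := congrArg (fun f : AddMonoidAlgebra K (Fin n → ℤ) => f.coeff u) h2
  simp only [AddMonoidAlgebra.coeff_single, Finsupp.single_eq_same] at h4
  rw [Finsupp.single_eq_of_ne hne] at h4
  exact one_ne_zero h4

end TOD
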