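import Pool.Agent.TD.A0

universe u

namespace TOD

variable {K L : Type u} [Field K] [Field L] [Algebra K L] {n : ℕ}

/-- [TD-D4] Gordan's lemma. Proof: the map `(u, m) ↦ ((nn l u + m a_l)_l, m)` embeds the monoid
`C = {(u, m) | m ≥ 0, nn l u + m a_l ≥ 0}` into `ℕ ^ (r + 1)` (injective by `hinj`), and if
`c ≤ c'` in `ℕ ^ (r + 1)` for `c, c' ∈ C` then `c' - c ∈ C`. By Dickson's lemma (`Pi.isPWO`,
`Set.IsPWO`: the set of minimal elements is an antichain, so finite) the set `G` of minimal nonzero elements of `C` is finite, and
`C` is generated by `G` (induction on the sum of the coordinates). -/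
theorem gordan {n r : ℕ} (nn : Fin r → (Fin n → ℤ) →+ ℤ) (a : Fin r → ℤ)
    (hinj : ∀ u, (∀ l, nn l u = 0) → u = 0) :
    ∃ G : Finset ((Fin n → ℤ) × ℕ), (∀ p ∈ G, ∀ l, 0 ≤ nn l p.1 + p.2 * a l) ∧
      ∀ (u : Fin n → ℤ) (m : ℕ), (∀ l, 0 ≤ nn l u + m * a l) →
        (u, m) ∈ AddSubmonoid.closure (G : Set ((Fin n → ℤ) × ℕ)) := by
  classical
  -- the embedding
  let φ : (Fin n → ℤ) × ℕ → (Option (Fin r) → ℕ) := fun p o =>
    o.elim p.2 (fun l => (nn l p.1 + p.2 * a l).toNat)
  have φn : ∀ p, φ p none = p.2 := fun p => rfl
  have φs : ∀ p l, φ p (some l) = (nn l p.1 + p.2 * a l).toNat := fun p l => rfl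
  let C : Set ((Fin n → ℤ) × ℕ) := {p | ∀ l, 0 ≤ nn l p.1 + p.2 * a l}
  have hC : ∀ p, p ∈ C ↔ ∀ l, 0 ≤ nn l p.1 + p.2 * a l := fun p => Iff.rfl
  have φinj : ∀ p ∈ C, ∀ q ∈ C, φ p = φ q → p = q := by
    intro p hp q hq h
    have h2 : p.2 = q.2 := by
      have := congrFun h none
      rwa [φn, φn] at this
    have h1 : p.1 = q.1 := by
      rw [← sub_eq_zero]
      apply hinj
      intro l
      have h3 := congrFun h (some l)
      rw [φs, φs] at h3
      have h4 := (hC p).mp hp l
      have h5 := (hC q).mp hq l
      have h6 : nn l p.1 + p.2 * a l = nn l q.1 + q.2 * a l := by omega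
      rw [h2] at h6
      rw [map_sub]
      linarith
    exact Prod.ext h1 h2
  let S : Set (Option (Fin r) → ℕ) := φ '' {p | p ∈ C ∧ p ≠ 0}
  have hfin : {x | Minimal (· ∈ S) x}.Finite := by
    apply IsAntichain.finite_of_partiallyWellOrderedOn (r := (· ≤ ·))
    · intro x hx y hy hxy hle
      exact hxy (le_antisymm hle (hy.2 hx.1 hle))
    · exact Set.isPWO_of_wellQuasiOrderedLE _
  have hfinG : {p | (p ∈ C ∧ p ≠ 0) ∧ Minimal (· ∈ S) (φ p)}.Finite := by
    apply Set.Finite.of_injOn (f := φ) (t := {x | Minimal (· ∈ S) x}) _ _ hfin
    · intro p hp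
      exact hp.2
    · intro p hp q hq h
      exact φinj p hp.1.1 q hq.1.1 h
  refine ⟨hfinG.toFinset, ?_, ?_⟩
  · intro p hp l
    rw [Set.Finite.mem_toFinset] at hp
    exact hp.1.1 l
  · have key : ∀ (N : ℕ) (p : (Fin n → ℤ) × ℕ), p ∈ C → ∑ o, φ p o ≤ N →
        p ∈ AddSubmonoid.closure ((hfinG.toFinset : Finset _) : Set ((Fin n → ℤ) × ℕ)) := by
      intro N
      induction N with
      | zero =>
        intro p hp hN
        have h1 : ∀ o, φ p o = 0 := by
          intro o
          have := Finset.single_le_sum (f := φ p) (fun _ _ => Nat.zero_le _) (Finset.mem_univ o)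
          omega
        have h2 : p = 0 := by
          apply φinj p hp 0
          · intro l
            simp
          · funext o
            rw [h1 o]
            rcases o with _ | l
            · rfl
            · rw [φs]
              simp
        rw [h2]
        exact zero_mem _
      | succ N ih =>
        intro p hp hN
        by_cases h0 : p = 0
        · rw [h0]
          exact zero_mem _
        · have hpS : φ p ∈ S := ⟨p, ⟨hp, h0⟩, rfl⟩
          obtain ⟨x, hxp, hx⟩ := exists_minimal_le_of_wellFoundedLT (· ∈ S) (φ p) hpS
          obtain ⟨q, ⟨hq, hq0⟩, rfl⟩ := hx.1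
          have hqG : q ∈ hfinG.toFinset := by
            rw [Set.Finite.mem_toFinset]
            exact ⟨⟨hq, hq0⟩, hx⟩
          have h2 : q.2 ≤ p.2 := by
            have := hxp none
            rwa [φn, φn] at this
          have h1 : ∀ l, nn l q.1 + q.2 * a l ≤ nn l p.1 + p.2 * a l := by
            intro l
            have h3 : (nn l q.1 + q.2 * a l).toNat ≤ (nn l p.1 + p.2 * a l).toNat := hxp (some l)
            have h4 := (hC p).mp hp l
            have h5 := (hC q).mp hq l
            omega
          let d : (Fin n → ℤ) × ℕ := (p.1 - q.1, p.2 - q.2)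
          have hd : ∀ l, nn l d.1 + d.2 * a l =
              (nn l p.1 + p.2 * a l) - (nn l q.1 + q.2 * a l) := by
            intro l
            change nn l (p.1 - q.1) + ((p.2 - q.2 : ℕ) : ℤ) * a l = _
            rw [map_sub, Nat.cast_sub h2]
            ring
          have hdC : d ∈ C := by
            intro l
            rw [hd l]
            linarith [h1 l]
          have hpd : p = q + d := by
            apply Prod.ext
            · change p.1 = q.1 + (p.1 - q.1)
              abel
            · change p.2 = q.2 + (p.2 - q.2)
              omega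
          have hφ : ∀ o, φ p o = φ q o + φ d o := by
            intro o
            rcases o with _ | l
            · rw [φn, φn, φn]
              change p.2 = q.2 + (p.2 - q.2)
              omega
            · rw [φs, φs, φs, hd l]
              have h4 := (hC p).mp hp l
              have h5 := (hC q).mp hq l
              have h6 := h1 l
              omega
          have hq1 : 1 ≤ ∑ o, φ q o := by
            by_contra hcon
            have hz : ∑ o, φ q o = 0 := by omega
            apply hq0
            apply φinj q hq 0
            · intro l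
              simp
            · funext o
              have := Finset.single_le_sum (f := φ q) (fun _ _ => Nat.zero_le _)
                (Finset.mem_univ o)
              rw [hz] at this
              have h7 : φ q o = 0 := by omega
              rw [h7]
              rcases o with _ | l
              · rfl
              · rw [φs]
                simp
          have hsum : ∑ o, φ p o = ∑ o, φ q o + ∑ o, φ d o := by
            rw [← Finset.sum_add_distrib]
            exact Finset.sum_congr rfl fun o _ => hφ o
          have hdN := ih d hdC (by omega)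
          rw [hpd]
          exact add_mem (AddSubmonoid.subset_closure hqG) hdN
    intro u m h
    exact key _ (u, m) h le_rfl

end TOD
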