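import Pool.Agent.TD.A0

universe u

namespace TOD

open Polynomial

variable {k L : Type u} [CommRing k] [Field L] [Algebra k L] {J : Type}

/-- [TD-S6] Coefficients of elements of the homogeneous coordinate ring `k[z_j X] ⊆ L[X]`. -/
theorem coeff_mem_of_mem_adjoin (z : J → L) {b : L[X]}
    (hb : b ∈ Algebra.adjoin k (Set.range fun j => monomial 1 (z j))) (s : ℕ) :
    b.coeff s ∈ Vz k z ^ s := by
  induction hb using Algebra.adjoin_induction generalizing s with
  | mem x hx =>
    obtain ⟨j, rfl⟩ := hx
    by_cases hs : 1 = s
    · subst hs
      simp only [coeff_monomial_same, pow_one]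
      exact Submodule.subset_span ⟨j, rfl⟩
    · rw [coeff_monomial, if_neg hs]
      exact zero_mem _
  | algebraMap r =>
    rw [IsScalarTower.algebraMap_apply k L L[X], Polynomial.algebraMap_apply, Algebra.algebraMap_self, RingHom.id_apply,
      coeff_C]
    by_cases hs : s = 0
    · subst hs
      rw [if_pos rfl, pow_zero]
      exact Submodule.algebraMap_mem r
    · rw [if_neg hs]
      exact zero_mem _
  | add x y _ _ hx hy =>
    rw [coeff_add]
    exact add_mem (hx s) (hy s)
  | mul x y _ _ hx hy =>
    rw [coeff_mul]
    refine sum_mem fun a ha => ?_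
    rw [← Finset.HasAntidiagonal.mem_antidiagonal.1 ha, pow_add]
    exact Submodule.mul_mem_mul (hx a.1) (hy a.2)

theorem monomial_mem_adjoin (z : J → L) {s : ℕ} {v : L} (hv : v ∈ Vz k z ^ s) :
    monomial s v ∈ Algebra.adjoin k (Set.range fun j => monomial 1 (z j) : Set L[X]) := by
  induction s generalizing v with
  | zero =>
    rw [pow_zero, Submodule.mem_one] at hv
    obtain ⟨c, rfl⟩ := hv
    rw [monomial_zero_left]
    have h : (C (algebraMap k L c) : L[X]) = algebraMap k L[X] c := rfl
    rw [h]
    exact Subalgebra.algebraMap_mem _ c
  | succ s ih =>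
    rw [pow_succ'] at hv
    refine Submodule.mul_induction_on hv ?_ ?_
    · intro m hm n hn
      have h1 : monomial (s + 1) (m * n) = monomial 1 m * monomial s n := by
        rw [monomial_mul_monomial, add_comm]
      rw [h1]
      clear h1
      refine Subalgebra.mul_mem _ ?_ (ih hn)
      unfold Vz at hm
      induction hm using Submodule.span_induction with
      | mem x hx =>
        obtain ⟨j, rfl⟩ := hx
        exact Algebra.subset_adjoin ⟨j, rfl⟩
      | zero =>
        rw [monomial_zero_right]
        exact Subalgebra.zero_mem _
      | add x y _ _ hx hy =>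
        rw [map_add]
        exact Subalgebra.add_mem _ hx hy
      | smul c x _ hx =>
        rw [← smul_monomial]
        exact Subalgebra.smul_mem _ hx c
    · intro x y hx hy
      rw [map_add]
      exact Subalgebra.add_mem _ hx hy

end TOD
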