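import Pool.Agent.TD.A0
import Pool.Agent.TD.RS4
import Pool.Agent.TD.RS6

universe u

namespace TOD

open Polynomial

variable {k L : Type u} [CommRing k] [Field L] [Algebra k L] {J : Type}

/-- [TD-S7] Sections are integral over the homogeneous coordinate ring.
Proof: [TD-S4] gives `s` with `g Vz ^ s ⊆ Vz ^ (s + m)`. Let `B = k[z_j X]` and let `N ⊆ L[X]` be the `B`-submodule
generated by the finitely many `monomial s v`, `v` in a finite generating family of `Vz ^ s` (products of `s`
coordinates); `N ≠ 0` (it contains `z_i ^ s X ^ s`), finitely generated,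
`(g X ^ m) N ⊆ N` because `Vz ^ (s + m) = Vz ^ m * Vz ^ s` and `monomial_mem_adjoin`. Now
`isIntegral_of_smul_mem_submodule`. -/
theorem isIntegral_monomial [Fintype J] {z : J → L} (hz : ∃ i, z i ≠ 0) {m : ℕ}
    {g : L} (hg : g ∈ Sec k z m) :
    IsIntegral (Algebra.adjoin k (Set.range fun j => monomial 1 (z j) : Set L[X]))
      (monomial m g : L[X]) := by
  classical
  obtain ⟨i, hi⟩ := hz
  have : Nonempty J := ⟨i⟩
  obtain ⟨s, hs⟩ := exists_mul_mem hg
  have hgs := hs s (le_refl s)
  have hfg : (Vz k z ^ s).FG := by
    apply Submodule.FG.pow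
    exact Submodule.fg_span (Set.finite_range z)
  obtain ⟨T, hT⟩ := hfg
  let B : Subalgebra k L[X] := Algebra.adjoin k (Set.range fun j => monomial 1 (z j) : Set L[X])
  let N : Submodule B L[X] := Submodule.span B ((fun v : L => (monomial s v : L[X])) '' (T : Set L))
  have hN : ∀ v ∈ Vz k z ^ s, (monomial s v : L[X]) ∈ N := by
    intro v hv
    rw [← hT] at hv
    induction hv using Submodule.span_induction with
    | mem x hx => exact Submodule.subset_span ⟨x, hx, rfl⟩
    | zero => rw [map_zero]; exact N.zero_mem
    | add x y _ _ hx hy => rw [map_add]; exact N.add_mem hx hy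
    | smul c x _ hx =>
      have e : (monomial s (c • x) : L[X]) = (algebraMap k B c) • (monomial s x : L[X]) := by
        rw [algebraMap_smul, smul_monomial]
      rw [e]
      exact N.smul_mem _ hx
  have hN2 : ∀ w ∈ Vz k z ^ m * Vz k z ^ s, (monomial (m + s) w : L[X]) ∈ N := by
    intro w hw
    induction hw using Submodule.mul_induction_on' with
    | mem_mul_mem p hp q hq =>
      have hb : (monomial m p : L[X]) ∈ B := monomial_mem_adjoin z hp
      have e : (monomial (m + s) (p * q) : L[X]) = (⟨monomial m p, hb⟩ : B) • (monomial s q : L[X]) := by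
        show (monomial (m + s) (p * q) : L[X]) = monomial m p * monomial s q
        rw [monomial_mul_monomial]
      rw [e]
      exact N.smul_mem _ (hN q hq)
    | add x _ y _ hx hy => rw [map_add]; exact N.add_mem hx hy
  apply isIntegral_of_smul_mem_submodule (M := L[X]) N
  · intro h0
    have hzi : z i ∈ Vz k z := Submodule.subset_span ⟨i, rfl⟩
    have h1 := hN (z i ^ s) (Submodule.pow_mem_pow _ hzi s)
    rw [h0, Submodule.mem_bot, monomial_eq_zero_iff] at h1
    exact pow_ne_zero s hi h1
  · exact Submodule.fg_span (T.finite_toSet.image _)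
  · intro x hx
    induction hx using Submodule.span_induction with
    | mem x hx =>
      obtain ⟨v, hv, rfl⟩ := hx
      have hv2 : v ∈ Vz k z ^ s := by
        rw [← hT]
        exact Submodule.subset_span hv
      have h1 := hgs v hv2
      rw [pow_add, mul_comm] at h1
      have h2 := hN2 _ h1
      rw [smul_eq_mul, monomial_mul_monomial]
      exact h2
    | zero => rw [smul_zero]; exact N.zero_mem
    | add x y _ _ hx hy => rw [smul_add]; exact N.add_mem hx hy
    | smul c x _ hx =>
      rw [smul_comm]
      exact N.smul_mem _ hx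

end TOD
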