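import Pool.Agent.TD.A0
import Pool.Agent.TD.RS1
import Pool.Agent.TD.RS4
import Pool.Agent.TD.RS6
import Pool.Agent.TD.RS7

universe u

namespace TOD

open Polynomial

variable {k L : Type u} [CommRing k] [Field L] [Algebra k L] {J : Type}

theorem RS9_tower (B : Subalgebra k L[X]) (s : Set L[X]) (x : L[X]) (hx : x ∈ Algebra.adjoin k s) :
    x ∈ Algebra.adjoin B s := by
  have h1 : s ⊆ (((Algebra.adjoin B s).restrictScalars k : Subalgebra k L[X]) : Set L[X]) := by
    intro x hx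
    have h2 : x ∈ Algebra.adjoin B s := Algebra.subset_adjoin hx
    exact h2
  have h3 : Algebra.adjoin k s ≤ (Algebra.adjoin B s).restrictScalars k := Algebra.adjoin_le h1
  exact h3 hx

theorem RS9_nat (F : Finset L[X]) (s₀ : L[X] → ℕ → ℕ) {f : L[X]} (hf : f ∈ F) {i j m : ℕ}
    (hm : m ≥ (F.sup fun f => (Finset.range (f.natDegree + 1)).sup (s₀ f)) + F.sup natDegree)
    (hx : i + j = m) (h0 : f.coeff j ≠ 0) : i ≥ s₀ f j := by
  have h4 : j ≤ f.natDegree := le_natDegree_of_ne_zero h0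
  have h5 : f.natDegree ≤ F.sup natDegree := Finset.le_sup (f := natDegree) hf
  have h8 : j ∈ Finset.range (f.natDegree + 1) := Finset.mem_range.2 (Nat.lt_succ_of_le h4)
  have h9 : s₀ f j ≤ (Finset.range (f.natDegree + 1)).sup (s₀ f) := Finset.le_sup h8
  have h10 : (Finset.range (f.natDegree + 1)).sup (s₀ f) ≤
      F.sup fun f => (Finset.range (f.natDegree + 1)).sup (s₀ f) :=
    Finset.le_sup (f := fun f : L[X] => (Finset.range (f.natDegree + 1)).sup (s₀ f)) hf
  omega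

/-- the ring generated by integral elements is a finitely generated module -/
theorem RS9_fg (B : Subalgebra k L[X]) (s : Set L[X]) (hfin : s.Finite)
    (hint : ∀ x ∈ s, IsIntegral B x) : ∃ F : Finset L[X], (∀ f ∈ F, f ∈ Algebra.adjoin B s) ∧
      ∀ x ∈ Algebra.adjoin k s, ∃ c : L[X] → L[X], (∀ f, c f ∈ B) ∧ x = ∑ f ∈ F, c f * f := by
  obtain ⟨F, hF⟩ := fg_adjoin_of_finite hfin hint
  refine ⟨F, fun f hf => ?_, fun x hx => ?_⟩
  · have h1 : f ∈ Subalgebra.toSubmodule (Algebra.adjoin B s) := by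
      rw [← hF]
      exact Submodule.subset_span hf
    exact h1
  · have h1 : x ∈ Subalgebra.toSubmodule (Algebra.adjoin B s) := RS9_tower B s x hx
    rw [← hF, Submodule.mem_span_finset] at h1
    obtain ⟨c, -, hc⟩ := h1
    exact ⟨fun f => (c f : L[X]), fun f => (c f).2, hc.symm⟩

/-- the coefficients of the elements of the ring generated by sections are sections -/
theorem RS9_coeff_sec {z : J → L} (B : Subalgebra k L[X])
    (hB : ∀ b ∈ B, ∀ s, b.coeff s ∈ Vz k z ^ s) (s : Set L[X])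
    (hs : ∀ x ∈ s, ∀ d, x.coeff d ∈ Sec k z d) {f : L[X]}
    (hf : f ∈ Algebra.adjoin B s) : ∀ d, f.coeff d ∈ Sec k z d := by
  let T : Subalgebra B L[X] :=
    { carrier := {f | ∀ d, f.coeff d ∈ Sec k z d}
      mul_mem' := fun {f g} hf hg d => by
        rw [coeff_mul]
        refine Submodule.sum_mem _ fun x hx => ?_
        have h1 := mul_mem_Sec (hf x.1) (hg x.2)
        rwa [Finset.HasAntidiagonal.mem_antidiagonal.1 hx] at h1
      add_mem' := fun {f g} hf hg d => by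
        rw [coeff_add]
        exact add_mem (hf d) (hg d)
      algebraMap_mem' := fun r d => Vz_pow_le_Sec z d (hB _ r.2 d) }
  have h1 : Algebra.adjoin B s ≤ T := Algebra.adjoin_le hs
  exact h1 hf

/-- the degree `m` part -/
theorem RS9_part {z : J → L} (F : Finset L[X]) (s₀ : L[X] → ℕ → ℕ)
    (hs₀ : ∀ f ∈ F, ∀ j, ∀ s ≥ s₀ f j, ∀ v ∈ Vz k z ^ s, f.coeff j * v ∈ Vz k z ^ (s + j)) {m : ℕ}
    (hm : m ≥ (F.sup fun f => (Finset.range (f.natDegree + 1)).sup (s₀ f)) + F.sup natDegree)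
    (c : L[X] → L[X]) (hc : ∀ f, ∀ s, (c f).coeff s ∈ Vz k z ^ s) :
    (∑ f ∈ F, c f * f).coeff m ∈ Vz k z ^ m := by
  rw [finsetSum_coeff]
  refine Submodule.sum_mem _ fun f hf => ?_
  rw [coeff_mul]
  refine Submodule.sum_mem _ fun x hx => ?_
  rw [Finset.HasAntidiagonal.mem_antidiagonal] at hx
  by_cases h0 : f.coeff x.2 = 0
  · rw [h0, mul_zero]
    exact zero_mem _
  · have h7 := hs₀ f hf x.2 x.1 (RS9_nat F s₀ hf hm hx h0) _ (hc f x.1)
    rw [hx, mul_comm] at h7
    exact h7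

/-- [TD-S9] If the ring of all sections is finitely generated then all sections of `O(m)`, `m` large, are
forms of degree `m`.
Proof: let `B = k[z_j X] ⊆ L[X]` and `S' = B[g X^d : (g, d) ∈ G]` (`Algebra.adjoin B _`): by [TD-S7] and
`fg_adjoin_of_finite` (integral generators) `S'` is a finitely generated `B`-module, generated by a finite set
`F ⊆ S'`; the coefficients of the elements of `S'` are sections (`coeff d ∈ Sec d`: [TD-S1], [TD-S6]). By [TD-S4]
there is `s₀` such that `f.coeff j * v ∈ Vz ^ (s + j)` for all `f ∈ F`, all `j` (only `j ≤ natDegree` matter), all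
`s ≥ s₀`, `v ∈ Vz ^ s`. For `g ∈ Sec m` with `m ≥ s₀ + max natDegree`: `monomial m g ∈ S'` (`hgen`),
`monomial m g = ∑ b_f f`; compare coefficients of `X ^ m`: `g = ∑_f ∑_{i + j = m} (b_f).coeff i * f.coeff j` with
`(b_f).coeff i ∈ Vz ^ i`, and `i = m - j ≥ s₀` whenever `f.coeff j ≠ 0`. -/
theorem Sec_le_of_fg [Fintype J] {z : J → L} (hz : ∃ i, z i ≠ 0) (G : Finset (L × ℕ))
    (hG : ∀ p ∈ G, p.1 ∈ Sec k z p.2)
    (hgen : ∀ m, ∀ g ∈ Sec k z m, (monomial m g : L[X]) ∈
      Algebra.adjoin k ((fun p : L × ℕ => (monomial p.2 p.1 : L[X])) '' (G : Set (L × ℕ)))) :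
    ∃ m₁ : ℕ, ∀ m ≥ m₁, Sec k z m ≤ Vz k z ^ m := by
  have hJ : Nonempty J := ⟨hz.choose⟩
  have hfin : ((fun p : L × ℕ => (monomial p.2 p.1 : L[X])) '' (G : Set (L × ℕ))).Finite :=
    G.finite_toSet.image _
  obtain ⟨F, hF1, hF2⟩ := RS9_fg
    (Algebra.adjoin k (Set.range fun j => monomial 1 (z j) : Set L[X])) _ hfin (by
      rintro _ ⟨p, hp, rfl⟩
      exact isIntegral_monomial hz (hG p hp))
  have hFmem : ∀ f ∈ F, ∀ d, f.coeff d ∈ Sec k z d := by
    intro f hf
    have h1 : ∀ x ∈ (fun p : L × ℕ => (monomial p.2 p.1 : L[X])) '' (G : Set (L × ℕ)),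
        ∀ d, x.coeff d ∈ Sec k z d := by
      rintro _ ⟨p, hp, rfl⟩ d
      dsimp only
      rw [coeff_monomial]
      split_ifs with h
      · subst h
        exact hG p hp
      · exact zero_mem _
    have h2 := RS9_coeff_sec (z := z)
      (Algebra.adjoin k (Set.range fun j => monomial 1 (z j) : Set L[X]))
    have h3 := h2 (fun b hb s => coeff_mem_of_mem_adjoin z hb s)
    exact h3 _ h1 (hF1 f hf)
  have hex : ∀ f ∈ F, ∀ j, ∃ s₀ : ℕ, ∀ s ≥ s₀, ∀ v ∈ Vz k z ^ s,
      f.coeff j * v ∈ Vz k z ^ (s + j) := fun f hf j => exists_mul_mem (hFmem f hf j)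
  choose! s₀ hs₀ using hex
  refine ⟨(F.sup fun f => (Finset.range (f.natDegree + 1)).sup (s₀ f)) + F.sup natDegree,
    fun m hm g hg => ?_⟩
  obtain ⟨c, hc1, hc2⟩ := hF2 _ (hgen m g hg)
  have h1 := RS9_part F s₀ hs₀ hm c (fun f s => coeff_mem_of_mem_adjoin z (hc1 f) s)
  rw [← hc2, coeff_monomial, if_pos rfl] at h1
  exact h1

end TOD
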