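import Pool.Agent.TD.A0
import Pool.Agent.TD.RC4
import Pool.Agent.TD.RC5
import Pool.Agent.TD.RS1
import Pool.Agent.TD.RS9
import Pool.Agent.TD.RD3
import Pool.Agent.TD.RD4

universe u

namespace TOD

variable {K L : Type u} [Field K] [Field L] [Algebra K L] {n : ℕ}

/-- [TD-D5] All sections of `O(m)`, `m` large, are forms of degree `m`. ([TD-S9] with the characters of
[TD-D4]; [TD-C4], [TD-C5]; `monomial m (Φ f) = ∑ c_u • monomial m (ch Φ u)` and `(u, m) ↦ monomial m (ch Φ u)` is
multiplicative.) -/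
theorem NTC.exists_sec_eq [IsAlgClosed K] {J : Type} [Fintype J] {z : J → L}
    {Φ : AddMonoidAlgebra K (Fin n → ℤ) →ₐ[K] L} (h : NTC z n Φ) (B : BD z Φ) :
    ∃ m₁ : ℕ, ∀ m ≥ m₁, Sec K z m = Vz K z ^ m := by
  classical
  obtain ⟨G, hG, hGc⟩ := gordan B.nn B.a
    (fun u hu => h.eq_zero_of_nonneg B fun l => (hu l).ge)
  let G' : Finset (L × ℕ) := G.image fun p => (ch Φ p.1, p.2)
  have hmon : ∀ (u : Fin n → ℤ) (m : ℕ), (∀ l, 0 ≤ B.nn l u + m * B.a l) →
      (Polynomial.monomial m (ch Φ u) : Polynomial L) ∈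
      Algebra.adjoin K ((fun p : L × ℕ => (Polynomial.monomial p.2 p.1 : Polynomial L)) ''
        (G' : Set (L × ℕ))) := by
    intro u m hum
    have h1 := hGc u m hum
    have h2 : ∀ p ∈ AddSubmonoid.closure (G : Set ((Fin n → ℤ) × ℕ)),
        (Polynomial.monomial p.2 (ch Φ p.1) : Polynomial L) ∈
      Algebra.adjoin K ((fun p : L × ℕ => (Polynomial.monomial p.2 p.1 : Polynomial L)) ''
        (G' : Set (L × ℕ))) := by
      intro p hp
      induction hp using AddSubmonoid.closure_induction with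
      | mem p hp =>
        apply Algebra.subset_adjoin
        refine ⟨(ch Φ p.1, p.2), ?_, rfl⟩
        rw [Finset.mem_coe]
        exact Finset.mem_image_of_mem (fun p : (Fin n → ℤ) × ℕ => (ch Φ p.1, p.2)) hp
      | zero =>
        rw [Prod.snd_zero, Prod.fst_zero, ch_zero, Polynomial.monomial_zero_one]
        exact one_mem _
      | add p q _ _ hp hq =>
        rw [Prod.snd_add, Prod.fst_add, ch_add, ← Polynomial.monomial_mul_monomial]
        exact mul_mem hp hq
    exact h2 _ h1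
  obtain ⟨m₁, hm₁⟩ := Sec_le_of_fg h.z_ne G' (by
    intro p hp
    obtain ⟨q, hq, rfl⟩ := Finset.mem_image.mp hp
    exact (h.ch_mem_sec_iff B).mpr (hG q hq)) (by
    intro m g hg
    obtain ⟨f, rfl, hf⟩ := (h.mem_sec_iff B).mp hg
    rw [← AddMonoidAlgebra.sum_coeff_single f, Finsupp.sum, map_sum, map_sum]
    refine Subalgebra.sum_mem _ fun u hu => ?_
    have h1 : (AddMonoidAlgebra.single u (f.coeff u) : AddMonoidAlgebra K (Fin n → ℤ)) =
        f.coeff u • AddMonoidAlgebra.single u 1 := by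
      rw [AddMonoidAlgebra.smul_single, smul_eq_mul, mul_one]
    rw [h1, map_smul, ← Polynomial.smul_monomial]
    exact Subalgebra.smul_mem _ (hmon u m (hf u (Finsupp.mem_support_iff.mp hu))) _)
  exact ⟨m₁, fun m hm => le_antisymm (hm₁ m hm) (Vz_pow_le_Sec z m)⟩

end TOD
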