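import Pool.Agent.TD.A0

universe u

namespace TOD

noncomputable section

variable {R K κ L : Type u} [CommRing R] [Field K] [Algebra R K] [Field κ] [Algebra R κ]
  [Field L] [Algebra K L] {J : Type}

/-- [TD-E1] Charts meeting the special fibre are contained in `V` (`h.loc`, `h.z_mem`) and are mapped by `ρ`
into the charts of the special fibre. -/
theorem RC.chart_le {t : R} {z : J → κ} {i₀ : J} {V : Subalgebra R κ} {ρ : V →+* L}
    (h : RC (K := K) t z i₀ V ρ) {i : J} (hi : h.zbar i ≠ 0) :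
    chart R z i ≤ V ∧ ∀ x : V, (x : κ) ∈ chart R z i → ρ x ∈ chart K h.zbar i := by
  have hi' : ρ ⟨z i, h.z_mem i⟩ ≠ 0 := hi
  have hzi : z i ≠ 0 := by
    intro h0
    apply hi'
    have h1 : (⟨z i, h.z_mem i⟩ : V) = 0 := Subtype.ext h0
    rw [h1, map_zero]
  have hinv : (z i)⁻¹ ∈ V := h.loc ⟨z i, h.z_mem i⟩ hi'
  have hgen : ∀ j, z j / z i ∈ V := fun j => by
    rw [div_eq_mul_inv]
    exact V.mul_mem (h.z_mem j) hinv
  have hρgen : ∀ j, ρ ⟨z j / z i, hgen j⟩ = h.zbar j / h.zbar i := by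
    intro j
    rw [eq_div_iff hi]
    change ρ ⟨z j / z i, hgen j⟩ * ρ ⟨z i, h.z_mem i⟩ = ρ ⟨z j, h.z_mem j⟩
    rw [← map_mul]
    congr 1
    apply Subtype.ext
    change z j / z i * z i = z j
    exact div_mul_cancel₀ _ hzi
  have hkey : ∀ x ∈ chart R z i, ∃ hx : x ∈ V, ρ ⟨x, hx⟩ ∈ chart K h.zbar i := by
    intro x hx
    unfold chart at hx
    induction hx using Algebra.adjoin_induction with
    | mem x hx =>
      obtain ⟨j, rfl⟩ := hx
      refine ⟨hgen j, ?_⟩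
      change ρ ⟨z j / z i, hgen j⟩ ∈ chart K h.zbar i
      rw [hρgen j]
      exact Algebra.subset_adjoin ⟨j, rfl⟩
    | algebraMap r =>
      refine ⟨V.algebraMap_mem r, ?_⟩
      have h1 : (⟨algebraMap R κ r, V.algebraMap_mem r⟩ : V) = algebraMap R V r := rfl
      rw [h1, h.ρ_alg r]
      exact Subalgebra.algebraMap_mem _ _
    | add x y _ _ hx hy =>
      obtain ⟨hx1, hx2⟩ := hx
      obtain ⟨hy1, hy2⟩ := hy
      refine ⟨V.add_mem hx1 hy1, ?_⟩
      have h1 : (⟨x + y, V.add_mem hx1 hy1⟩ : V) = ⟨x, hx1⟩ + ⟨y, hy1⟩ := rfl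
      rw [h1, map_add]
      exact add_mem hx2 hy2
    | mul x y _ _ hx hy =>
      obtain ⟨hx1, hx2⟩ := hx
      obtain ⟨hy1, hy2⟩ := hy
      refine ⟨V.mul_mem hx1 hy1, ?_⟩
      have h1 : (⟨x * y, V.mul_mem hx1 hy1⟩ : V) = ⟨x, hx1⟩ * ⟨y, hy1⟩ := rfl
      rw [h1, map_mul]
      exact mul_mem hx2 hy2
  refine ⟨fun x hx => (hkey x hx).1, fun x hx => ?_⟩
  obtain ⟨h1, h2⟩ := hkey x hx
  exact h2

end

end TOD
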