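import Pool.Agent.TD.A0
import Pool.Agent.TD.RE1

universe u

namespace TOD

noncomputable section

variable {R K κ L : Type u} [CommRing R] [Field K] [Algebra R K] [Field κ] [Algebra R κ]
  [Field L] [Algebra K L] {J : Type}

/-- [TD-E2] Sections of `O(m)` restrict to sections of `O(m)` on the special fibre.
(`f / z_{i₀}^m = f ∈ chart i₀ ⊆ V`; for `i` with `ρ (z i) ≠ 0`, `ρ f = ρ (f / z_i^m) ρ (z i)^m`.) -/
theorem RC.sec_restrict {t : R} {z : J → κ} {i₀ : J} {V : Subalgebra R κ} {ρ : V →+* L}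
    (h : RC (K := K) t z i₀ V ρ) {m : ℕ} {f : κ} (hf : f ∈ Sec R z m) :
    ∃ hV : f ∈ V, ρ ⟨f, hV⟩ ∈ Sec K h.zbar m := by
  have hz0 : z i₀ ≠ 0 := by
    rw [h.z_one]
    exact one_ne_zero
  have hzb0 : h.zbar i₀ ≠ 0 := by
    change ρ ⟨z i₀, h.z_mem i₀⟩ ≠ 0
    have h1 : (⟨z i₀, h.z_mem i₀⟩ : V) = 1 := Subtype.ext h.z_one
    rw [h1, map_one]
    exact one_ne_zero
  have hf0 : f ∈ V := by
    have h1 := hf i₀ hz0
    rw [h.z_one, one_pow, div_one] at h1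
    exact (h.chart_le hzb0).1 h1
  refine ⟨hf0, ?_⟩
  intro i hi
  have hzi : z i ≠ 0 := by
    intro h0
    apply hi
    change ρ ⟨z i, h.z_mem i⟩ = 0
    have h1 : (⟨z i, h.z_mem i⟩ : V) = 0 := Subtype.ext h0
    rw [h1, map_zero]
  have h1 := hf i hzi
  obtain ⟨h2, h3⟩ := h.chart_le hi
  have h4 := h3 ⟨f / z i ^ m, h2 h1⟩ h1
  have h5 : ρ ⟨f, hf0⟩ = ρ ⟨f / z i ^ m, h2 h1⟩ * h.zbar i ^ m := by
    change ρ ⟨f, hf0⟩ = ρ ⟨f / z i ^ m, h2 h1⟩ * ρ ⟨z i, h.z_mem i⟩ ^ m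
    rw [← map_pow, ← map_mul]
    congr 1
    apply Subtype.ext
    change f = f / z i ^ m * z i ^ m
    exact (div_mul_cancel₀ _ (pow_ne_zero _ hzi)).symm
  rw [h5, mul_div_cancel_right₀ _ (pow_ne_zero _ hi)]
  exact h4

end

end TOD
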