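import Pool.Agent.TD.A0
import Pool.Agent.TD.RE1

universe u

namespace TOD

noncomputable section

variable {R K κ L : Type u} [CommRing R] [Field K] [Algebra R K] [Field κ] [Algebra R κ]
  [Field L] [Algebra K L] {J : Type}

/-- [TD-E3] The kernel of the restriction of sections is generated by `t`.
(For each `i` with `z i ≠ 0`: if `ρ (z i) ≠ 0` use `h.kerA` for `f / z_i^m` (`ρ` of it is `0`); otherwise `h.unitA`.
`t ≠ 0` in `κ` by `h.sep` or because `ρ t = 0 ≠ 1 = ρ 1`... if `t = 0` in `κ` then `f = 0`.) -/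
theorem RC.sec_ker {t : R} {z : J → κ} {i₀ : J} {V : Subalgebra R κ} {ρ : V →+* L}
    (h : RC (K := K) t z i₀ V ρ) (ht0 : algebraMap R κ t ≠ 0) {m : ℕ} {f : κ}
    (hf : f ∈ Sec R z m) (hV : f ∈ V) (h0 : ρ ⟨f, hV⟩ = 0) :
    ∃ g ∈ Sec R z m, f = algebraMap R κ t * g := by
  classical
  refine ⟨f / algebraMap R κ t, ?_, (mul_div_cancel₀ _ ht0).symm⟩
  rw [mem_Sec]
  intro i hi
  have hfi : f / z i ^ m ∈ chart R z i := hf i hi
  have hzi : (z i) ^ m ≠ 0 := pow_ne_zero _ hi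
  by_cases hρ : ρ ⟨z i, h.z_mem i⟩ = 0
  · have h1 := mul_mem (h.unitA i hi hρ) hfi
    have e : (algebraMap R κ t)⁻¹ * (f / z i ^ m) = f / algebraMap R κ t / z i ^ m := by
      field_simp
    rwa [e] at h1
  · have hle := (h.chart_le (i := i) hρ).1
    have hV' : f / z i ^ m ∈ V := hle hfi
    have h2 : ρ ⟨f / z i ^ m, hV'⟩ = 0 := by
      have h3 : (⟨f / z i ^ m, hV'⟩ : V) * ⟨z i, h.z_mem i⟩ ^ m = ⟨f, hV⟩ := by
        apply Subtype.ext
        change f / z i ^ m * z i ^ m = f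
        exact div_mul_cancel₀ _ hzi
      have h4 := congrArg ρ h3
      rw [map_mul, map_pow, h0] at h4
      exact (mul_eq_zero.mp h4).resolve_right (pow_ne_zero _ hρ)
    obtain ⟨y, hy, he⟩ := h.kerA i ⟨f / z i ^ m, hV'⟩ hρ hfi h2
    have e : f / algebraMap R κ t / z i ^ m = y := by
      have he' : f / z i ^ m = algebraMap R κ t * y := he
      rw [div_right_comm, he', mul_div_cancel_left₀ _ ht0]
    rw [e]
    exact hy

end

end TOD
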