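import Pool.Agent.TD.A0

universe u

namespace TOD

noncomputable section

variable {R K κ L : Type u} [CommRing R] [Field K] [Algebra R K] [Field κ] [Algebra R κ]
  [Field L] [Algebra K L] {J : Type}

theorem RE4_one {t : R} {z : J → κ} {i₀ : J} {V : Subalgebra R κ} {ρ : V →+* L}
    (h : RC (K := K) t z i₀ V ρ) (hRK : Function.Surjective (algebraMap R K)) {v : L}
    (hv : v ∈ Vz K h.zbar) :
    ∃ f ∈ Vz R z, ∃ hV : f ∈ V, ρ ⟨f, hV⟩ = v := by
  unfold Vz at hv
  induction hv using Submodule.span_induction with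
  | mem x hx =>
    obtain ⟨j, rfl⟩ := hx
    exact ⟨z j, Submodule.subset_span ⟨j, rfl⟩, h.z_mem j, rfl⟩
  | zero => exact ⟨0, Submodule.zero_mem _, V.zero_mem, map_zero ρ⟩
  | add x y _ _ hx hy =>
    obtain ⟨f, hf, hfV, hfe⟩ := hx
    obtain ⟨g, hg, hgV, hge⟩ := hy
    refine ⟨f + g, Submodule.add_mem _ hf hg, V.add_mem hfV hgV, ?_⟩
    rw [← hfe, ← hge, ← map_add]
    rfl
  | smul c x _ hx =>
    obtain ⟨f, hf, hfV, hfe⟩ := hx
    obtain ⟨r, rfl⟩ := hRK c
    refine ⟨r • f, Submodule.smul_mem _ r hf, V.smul_mem hfV r, ?_⟩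
    have e : (⟨r • f, V.smul_mem hfV r⟩ : V) = algebraMap R V r * ⟨f, hfV⟩ := by
      apply Subtype.ext
      exact Algebra.smul_def r f
    rw [e, map_mul, h.ρ_alg, hfe, Algebra.smul_def]

/-- [TD-E4] Forms on the special fibre lift to forms. (`algebraMap R K` is surjective; induction on `m`, or
`Submodule.span`/`Submodule.pow` induction.) -/
theorem RC.form_lift {t : R} {z : J → κ} {i₀ : J} {V : Subalgebra R κ} {ρ : V →+* L}
    (h : RC (K := K) t z i₀ V ρ) (hRK : Function.Surjective (algebraMap R K)) {m : ℕ} {v : L}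
    (hv : v ∈ Vz K h.zbar ^ m) :
    ∃ f ∈ Vz R z ^ m, ∃ hV : f ∈ V, ρ ⟨f, hV⟩ = v := by
  induction m generalizing v with
  | zero =>
    rw [pow_zero, Submodule.mem_one] at hv
    obtain ⟨c, rfl⟩ := hv
    obtain ⟨r, rfl⟩ := hRK c
    refine ⟨algebraMap R κ r, ?_, V.algebraMap_mem r, ?_⟩
    · rw [pow_zero, Submodule.mem_one]
      exact ⟨r, rfl⟩
    · rw [← h.ρ_alg]
      rfl
  | succ m ih =>
    rw [pow_succ] at hv
    induction hv using Submodule.mul_induction_on' with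
    | mem_mul_mem p hp q hq =>
      obtain ⟨f, hf, hfV, hfe⟩ := ih hp
      obtain ⟨g, hg, hgV, hge⟩ := RE4_one h hRK hq
      refine ⟨f * g, ?_, V.mul_mem hfV hgV, ?_⟩
      · rw [pow_succ]
        exact Submodule.mul_mem_mul hf hg
      · rw [← hfe, ← hge, ← map_mul]
        rfl
    | add x _ y _ hx hy =>
      obtain ⟨f, hf, hfV, hfe⟩ := hx
      obtain ⟨g, hg, hgV, hge⟩ := hy
      refine ⟨f + g, Submodule.add_mem _ hf hg, V.add_mem hfV hgV, ?_⟩
      rw [← hfe, ← hge, ← map_add]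
      rfl

end

end TOD
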