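import Pool.Agent.TD.A0
import Pool.Agent.TD.RS1
import Pool.Agent.TD.RE2
import Pool.Agent.TD.RE3
import Pool.Agent.TD.RE4

universe u

namespace TOD

noncomputable section

variable {R K κ L : Type u} [CommRing R] [Field K] [Algebra R K] [Field κ] [Algebra R κ]
  [Field L] [Algebra K L] {J : Type}

/-- finite free modules over a complete ring (principal ideal) are complete -/
theorem RE5_prec {A : Type u} [CommRing A] (t : A) (I : Ideal A) (hI : I = Ideal.span {t})
    (hA : IsPrecomplete I A) (p : ℕ) : IsPrecomplete I (Fin p → A) := by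
  rw [isPrecomplete_iff]
  intro f hf
  have h1 : ∀ i, ∃ L : A, ∀ n, f n i ≡ L [SMOD (I ^ n • ⊤ : Submodule A A)] := by
    intro i
    refine IsPrecomplete.prec hA (f := fun n => f n i) (fun {m n} hmn => ?_)
    have h2 := SModEq.map (hf hmn) (LinearMap.proj (R := A) (φ := fun _ : Fin p => A) i)
    refine SModEq.mono ?_ h2
    rw [Submodule.map_smul'']
    exact Submodule.smul_mono le_rfl le_top
  choose L hL using h1
  refine ⟨L, fun n => ?_⟩
  have h3 : ∀ i, ∃ w, f n i - L i = t ^ n * w := by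
    intro i
    have h4 := SModEq.sub_mem.1 (hL i n)
    rw [smul_eq_mul, Ideal.mul_top, hI, Ideal.span_singleton_pow, Ideal.mem_span_singleton'] at h4
    obtain ⟨w, hw⟩ := h4
    exact ⟨w, by rw [← hw, mul_comm]⟩
  choose w hw using h3
  rw [SModEq.sub_mem]
  have h5 : f n - L = t ^ n • w := funext fun i => hw i
  rw [h5]
  refine Submodule.smul_mem_smul ?_ Submodule.mem_top
  rw [hI, Ideal.span_singleton_pow]
  exact Ideal.mem_span_singleton_self _

/-- membership in `I ^ n • ⊤`, `I` principal -/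
theorem RE5_mem {A M : Type u} [CommRing A] [AddCommGroup M] [Module A M] {t : A} {I : Ideal A}
    (hI : I = Ideal.span {t}) {n : ℕ} {x : M} (hx : x ∈ (I ^ n • ⊤ : Submodule A M)) :
    ∃ y : M, x = t ^ n • y := by
  rw [hI, Ideal.span_singleton_pow, Submodule.ideal_span_singleton_smul] at hx
  obtain ⟨y, -, hy⟩ := (Submodule.mem_smul_pointwise_iff_exists _ _ _).1 hx
  exact ⟨y, hy.symm⟩

theorem RE5_haus {t : R} {z : J → κ} {i₀ : J} {V : Subalgebra R κ} {ρ : V →+* L}
    (h : RC (K := K) t z i₀ V ρ) {I : Ideal R} (hI : I = Ideal.span {t}) (m : ℕ) :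
    IsHausdorff I (Sec R z m) := by
  rw [isHausdorff_iff]
  intro x hx
  apply Subtype.ext
  refine h.sep (x : κ) fun n => ?_
  have h1 := SModEq.zero.1 (hx n)
  obtain ⟨y, hy⟩ := RE5_mem hI h1
  obtain ⟨hV, -⟩ := h.sec_restrict y.2
  refine ⟨(y : κ), hV, ?_⟩
  have h2 : (x : κ) = t ^ n • (y : κ) := congrArg Subtype.val hy
  rw [h2, Algebra.smul_def, map_pow]

/-- one step of the approximation -/
theorem RE5_step {t : R} {z : J → κ} {i₀ : J} {V : Subalgebra R κ} {ρ : V →+* L}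
    (h : RC (K := K) t z i₀ V ρ) (hRK : Function.Surjective (algebraMap R K))
    (ht0 : algebraMap R κ t ≠ 0) {m : ℕ} (hm : Sec K h.zbar m ≤ Vz K h.zbar ^ m)
    (hle : Vz R z ^ m ≤ Sec R z m) {f : κ}
    (hf : f ∈ Sec R z m) : ∃ v ∈ Vz R z ^ m, ∃ g ∈ Sec R z m, f - v = t • g := by
  obtain ⟨hV, h1⟩ := h.sec_restrict hf
  obtain ⟨v, hv, hvV, hρ⟩ := h.form_lift hRK (hm h1)
  have h2 : ρ ⟨f - v, V.sub_mem hV hvV⟩ = 0 := by
    have h3 : ρ ⟨f - v, V.sub_mem hV hvV⟩ = ρ ⟨f, hV⟩ - ρ ⟨v, hvV⟩ := map_sub ρ ⟨f, hV⟩ ⟨v, hvV⟩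
    rw [h3, hρ, sub_self]
  obtain ⟨g, hg, hfg⟩ := h.sec_ker ht0 (Submodule.sub_mem _ hf (hle hv)) (V.sub_mem hV hvV) h2
  exact ⟨v, hv, g, hg, by rw [hfg, Algebra.smul_def]⟩

/-- [TD-E5] Finite generation (completeness of `R`): if all sections of `O(m)` on the special fibre are
forms then all sections of `O(m)` on the family are forms.
Proof: `f ∈ Sec m`; by [TD-E4], [TD-E3] inductively `f = v_0 + t v_1 + … + t^{N-1} v_{N-1} + t^N f_N`, `v_i ∈ Vz ^ m`,
`f_N ∈ Sec m ⊆ V` ([TD-E2]). `Vz R z ^ m` is a finitely generated `R`-module with generators `g_1, …, g_p`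
(`Submodule.FG.pow`), `v_i = ∑ r_{ij} g_j`; `R` is complete, let `r_j = ∑_i t^i r_{ij} ∈ R` (`IsAdicComplete`, the maximal
ideal is generated by `t`). Then `f - ∑ r_j g_j ∈ t^N V` for all `N`, so it is `0` (`h.sep`). -/
theorem RC.sec_eq_forms [IsDomain R] [IsDiscreteValuationRing R]
    [IsAdicComplete (IsLocalRing.maximalIdeal R) R] {t : R} (ht : Irreducible t) [Finite J]
    {z : J → κ} {i₀ : J} {V : Subalgebra R κ} {ρ : V →+* L}
    (h : RC (K := K) t z i₀ V ρ) (hRK : Function.Surjective (algebraMap R K))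
    (ht0 : algebraMap R κ t ≠ 0) {m : ℕ} (hm : Sec K h.zbar m ≤ Vz K h.zbar ^ m) :
    Sec R z m = Vz R z ^ m ∧ (Sec R z m).FG := by
  have hI : IsLocalRing.maximalIdeal R = Ideal.span {t} := ht.maximalIdeal_eq
  have hle : Vz R z ^ m ≤ Sec R z m := Vz_pow_le_Sec z m
  have hfg : (Vz R z ^ m).FG := (Submodule.fg_span (Set.finite_range z)).pow m
  have key : Sec R z m ≤ Vz R z ^ m := by
    obtain ⟨p, F, hF⟩ := (Submodule.fg_iff_exists_fin_linearMap R κ).1 hfg
    have hFmem : ∀ x, F x ∈ Sec R z m := fun x => hle (by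
      rw [← hF]
      exact ⟨x, rfl⟩)
    have hpre : IsPrecomplete (IsLocalRing.maximalIdeal R) (Fin p → R) :=
      RE5_prec t _ hI inferInstance p
    have hhaus : IsHausdorff (IsLocalRing.maximalIdeal R) (Sec R z m) := RE5_haus h hI m
    have hsurj : Function.Surjective (LinearMap.codRestrict (Sec R z m) F hFmem) := by
      refine surjective_of_mkQ_comp_surjective (I := IsLocalRing.maximalIdeal R) ?_
      intro y
      obtain ⟨f, rfl⟩ := Submodule.mkQ_surjective _ y
      obtain ⟨v, hv, g, hg, hfg'⟩ := RE5_step h hRK ht0 hm hle f.2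
      rw [← hF] at hv
      obtain ⟨x, hx⟩ := hv
      refine ⟨x, ?_⟩
      rw [LinearMap.comp_apply, Submodule.mkQ_apply, Submodule.mkQ_apply, Submodule.Quotient.eq]
      have h1 : LinearMap.codRestrict (Sec R z m) F hFmem x - f = t • (-⟨g, hg⟩ : Sec R z m) := by
        apply Subtype.ext
        show F x - (f : κ) = t • (-g)
        rw [hx, smul_neg, ← hfg']
        ring
      rw [h1]
      refine Submodule.smul_mem_smul ?_ Submodule.mem_top
      rw [hI]
      exact Ideal.mem_span_singleton_self t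
    intro f hf
    obtain ⟨x, hx⟩ := hsurj ⟨f, hf⟩
    rw [← hF]
    exact ⟨x, congrArg Subtype.val hx⟩
  have heq : Sec R z m = Vz R z ^ m := le_antisymm key hle
  exact ⟨heq, heq ▸ hfg⟩

end

end TOD
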