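import Pool.Agent.TD.A0
import Pool.Agent.TD.RS1
import Pool.Agent.TD.RS2

universe u

namespace TOD

noncomputable section

variable {R K κ L : Type u} [CommRing R] [Field K] [Algebra R K] [Field κ] [Algebra R κ]
  [Field L] [Algebra K L] {J : Type}

/-- [TD-E6] Every element of `κ` is a quotient of two sections of the same degree, and the degree can be
taken to be a multiple of `m₀ > 0`. (`h.frac`; elements of `chart R z i₀` are in `Vz ^ s` for large `s`
([TD-S2], `z i₀ = 1`), `Vz ^ s ≤ Sec s` ([TD-S1]).) -/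
theorem RC.exists_quot [Finite J] {t : R} {z : J → κ} {i₀ : J} {V : Subalgebra R κ} {ρ : V →+* L}
    (h : RC (K := K) t z i₀ V ρ) {m₀ : ℕ} (hm₀ : 0 < m₀) (x : κ) :
    ∃ m, ∃ f ∈ Sec R z (m₀ * m), ∃ g ∈ Sec R z (m₀ * m), g ≠ 0 ∧ x = f / g := by
  have hz : z i₀ ≠ 0 := by
    rw [h.z_one]
    exact one_ne_zero
  obtain ⟨a, ha, b, hb, hb0, hx⟩ := h.frac x
  obtain ⟨s, hs⟩ := (mem_chart_iff hz).1 ha
  obtain ⟨s', hs'⟩ := (mem_chart_iff hz).1 hb
  have hm : s + s' ≤ m₀ * (s + s') := Nat.le_mul_of_pos_left _ hm₀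
  refine ⟨s + s', a, ?_, b, ?_, hb0, hx⟩
  · have h1 := mul_pow_mem_of_le (le_trans (Nat.le_add_right s s') hm) hs
    rw [h.z_one, one_pow, mul_one] at h1
    exact Vz_pow_le_Sec _ _ h1
  · have h1 := mul_pow_mem_of_le (le_trans (Nat.le_add_left s' s) hm) hs'
    rw [h.z_one, one_pow, mul_one] at h1
    exact Vz_pow_le_Sec _ _ h1

end

end TOD
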