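import Pool.Agent.TD.A0

universe u

namespace TOD

noncomputable section

variable {R K κ L : Type u} [CommRing R] [Field K] [Algebra R K] [Field κ] [Algebra R κ]
  [Field L] [Algebra K L] {J : Type}

theorem RE7_coeff {n r : ℕ} (nn : Fin r → (Fin n → ℤ) →+ ℤ) (b : Fin r → ℤ)
    (f : AddMonoidAlgebra K (Fin n → ℤ)) : (coxMap K nn b f).coeff =
      Finsupp.mapDomain (fun u (l : Fin r) => nn l u + b l) f.coeff := rfl

/-- [TD-E7] Properties of `coxMap`: on monomials, multiplicativity, injectivity, support, and image. -/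
theorem coxMap_single {n r : ℕ} (nn : Fin r → (Fin n → ℤ) →+ ℤ) (b : Fin r → ℤ)
    (u : Fin n → ℤ) (c : K) : coxMap K nn b (AddMonoidAlgebra.single u c) =
      AddMonoidAlgebra.single (fun l => nn l u + b l) c := by
  apply AddMonoidAlgebra.coeff_injective
  rw [RE7_coeff, AddMonoidAlgebra.coeff_single, AddMonoidAlgebra.coeff_single,
    Finsupp.mapDomain_single]

theorem coxMap_mul {n r : ℕ} (nn : Fin r → (Fin n → ℤ) →+ ℤ) (b b' : Fin r → ℤ)
    (f g : AddMonoidAlgebra K (Fin n → ℤ)) :
    coxMap K nn (fun l => b l + b' l) (f * g) = coxMap K nn b f * coxMap K nn b' g := by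
  induction f using AddMonoidAlgebra.induction_linear with
  | zero => rw [zero_mul, map_zero, map_zero, zero_mul]
  | add f f' hf hf' => rw [add_mul, map_add, map_add, hf, hf', add_mul]
  | single u c =>
    induction g using AddMonoidAlgebra.induction_linear with
    | zero => rw [mul_zero, map_zero, map_zero, mul_zero]
    | add g g' hg hg' => rw [mul_add, map_add, map_add, hg, hg', mul_add]
    | single v d =>
      rw [AddMonoidAlgebra.single_mul_single, coxMap_single, coxMap_single, coxMap_single,
        AddMonoidAlgebra.single_mul_single]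
      congr 1
      funext l
      rw [map_add, Pi.add_apply]
      ring

theorem coxMap_injective {n r : ℕ} (nn : Fin r → (Fin n → ℤ) →+ ℤ) (b : Fin r → ℤ)
    (hinj : ∀ u, (∀ l, nn l u = 0) → u = 0) : Function.Injective (coxMap K nn b) := by
  intro f g h
  have h1 := congrArg AddMonoidAlgebra.coeff h
  rw [RE7_coeff, RE7_coeff] at h1
  apply AddMonoidAlgebra.coeff_injective
  refine Finsupp.mapDomain_injective ?_ h1
  intro u v huv
  have h2 : u - v = 0 := by
    apply hinj
    intro l
    have h3 : nn l u + b l = nn l v + b l := congrFun huv l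
    rw [map_sub, sub_eq_zero]
    exact add_right_cancel h3
  exact sub_eq_zero.1 h2

theorem coxMap_coeff_ne_zero {n r : ℕ} (nn : Fin r → (Fin n → ℤ) →+ ℤ) (b : Fin r → ℤ)
    (f : AddMonoidAlgebra K (Fin n → ℤ)) (x : Fin r → ℤ) (hx : (coxMap K nn b f).coeff x ≠ 0) :
    ∃ u, f.coeff u ≠ 0 ∧ ∀ l, x l = nn l u + b l := by
  classical
  rw [RE7_coeff, ← Finsupp.mem_support_iff] at hx
  have h1 := Finsupp.mapDomain_support hx
  rw [Finset.mem_image] at h1
  obtain ⟨u, hu, h2⟩ := h1
  exact ⟨u, Finsupp.mem_support_iff.1 hu, fun l => (congrFun h2 l).symm⟩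

end

end TOD
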