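import Pool.Agent.TD.A0

universe u

namespace TOD

variable {K L : Type u} [Field K] [Field L] [Algebra K L] {n : ℕ}

/-- [TD-N3] Scaling all coordinates does not change the charts. -/
theorem chart_smul {k : Type u} [CommRing k] [Algebra k L] {J : Type} (z : J → L) {c : L}
    (hc : c ≠ 0) (i : J) : chart k (fun j => c * z j) i = chart k z i := by
  unfold chart
  congr 1
  apply congrArg Set.range
  funext j
  exact mul_div_mul_left _ _ hc

end TOD
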