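import Pool.Agent.TD.A0
import Pool.Agent.TD.RN3

universe u

namespace TOD

variable {K L : Type u} [Field K] [Field L] [Algebra K L] {n : ℕ}

/-- [TD-N4] Toric chart data can be scaled. ([TD-N3] and `(c z_j) / (c z_i) = z_j / z_i`.) -/
theorem TC.smul {J : Type} {z : J → L} {Φ : AddMonoidAlgebra K (Fin n → ℤ) →ₐ[K] L}
    (h : TC z n Φ) {c : L} (hc : c ≠ 0) : TC (fun j => c * z j) n Φ := by
  have hz : ∀ i, c * z i ≠ 0 → z i ≠ 0 := fun i hi => right_ne_zero_of_mul hi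
  refine ⟨h.Φ_inj, h.Φ_frac, ?_, ?_, ?_, ?_, ?_, ?_⟩
  · obtain ⟨i, hi⟩ := h.z_ne
    exact ⟨i, mul_ne_zero hc hi⟩
  · intro i hi
    rw [chart_smul z hc i]
    exact h.frac i (hz i hi)
  · intro i hi
    rw [chart_smul z hc i]
    exact h.normal i (hz i hi)
  · intro i hi
    rw [chart_smul z hc i]
    exact h.smooth i (hz i hi)
  · intro Q hQ
    obtain ⟨i, hi, hj⟩ := h.tmap Q hQ
    refine ⟨i, mul_ne_zero hc hi, fun j => ?_⟩
    obtain ⟨f, g, hg, he⟩ := hj j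
    exact ⟨f, g, hg, by rw [← he]; exact mul_div_mul_left _ _ hc⟩
  · intro t
    obtain ⟨σ, hσ, hi⟩ := h.inv t
    refine ⟨σ, hσ, fun i hci O hO => ?_⟩
    rw [chart_smul z hc i] at hO
    obtain ⟨i', hi', hO'⟩ := hi i (hz i hci) O hO
    refine ⟨i', mul_ne_zero hc hi', ?_⟩
    rw [chart_smul z hc i']
    exact hO'

end TOD
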