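import Pool.Agent.TD.A0

universe u

namespace TOD

variable {K L : Type u} [Field K] [Field L] [Algebra K L] {n : ℕ}

/-- [TD-N1] In a unique factorisation domain one can divide a finite family by its greatest common
divisor. (Mathlib: `UniqueFactorizationMonoid.toNormalizedGCDMonoid` or `toGCDMonoid`, `Finset.gcd`,
`Finset.gcd_mul_left`, `Finset.exists_gcd_eq_...`; or induction on the number of prime factors of one nonzero
`p j`: if a prime `π` divides all the `p j`, divide; at the end no prime divides all the `p j`, and then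
`q ∣ S * p' j` for all `j` gives `q ∣ S` by induction on the number of prime factors of `q`.) -/
theorem exists_primitive {R : Type u} [CommRing R] [IsDomain R] [UniqueFactorizationMonoid R]
    {J : Type} [Finite J] (p : J → R) (hp : ∃ j, p j ≠ 0) :
    ∃ (d : R) (p' : J → R), d ≠ 0 ∧ (∀ j, p j = d * p' j) ∧
      ∀ S q : R, (∀ j, q ∣ S * p' j) → q ∣ S := by
  classical
  obtain ⟨j0, hj0⟩ := hp
  let _ : StrongNormalizationMonoid R := UniqueFactorizationMonoid.strongNormalizationMonoid
  let _ : StrongNormalizedGCDMonoid R := UniqueFactorizationMonoid.toStrongNormalizedGCDMonoid R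
  cases nonempty_fintype J
  obtain ⟨g, hg, hg1⟩ := Finset.extract_gcd (s := Finset.univ) p ⟨j0, Finset.mem_univ j0⟩
  refine ⟨Finset.univ.gcd p, g, ?_, fun j => hg j (Finset.mem_univ j), ?_⟩
  · intro h
    exact hj0 (Finset.gcd_eq_zero_iff.1 h j0 (Finset.mem_univ j0))
  · intro S q hq
    have h1 : q ∣ Finset.univ.gcd (fun j => S * g j) := Finset.dvd_gcd fun j _ => hq j
    have h2 := h1.trans (Finset.gcd_mul_left' Finset.univ g S).dvd
    rwa [hg1, mul_one] at h2

end TOD
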