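import Pool.Agent.TD.A0

universe u

namespace TOD

variable {K L : Type u} [Field K] [Field L] [Algebra K L] {n : ℕ}

private def RN2_hom (n : ℕ) : (Fin n →₀ ℕ) →+ (Fin n → ℤ) where
  toFun s i := (s i : ℤ)
  map_zero' := by
    funext i
    simp
  map_add' s t := by
    funext i
    simp

private theorem RN2_inj (n : ℕ) : Function.Injective (RN2_hom n) := by
  intro s t h
  ext i
  have h1 : ((s i : ℕ) : ℤ) = ((t i : ℕ) : ℤ) := congrFun h i
  exact_mod_cast h1

private theorem RN2_range {n : ℕ} {v : Fin n → ℤ} (hv : ∀ i, 0 ≤ v i) :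
    v ∈ Set.range (RN2_hom n) := by
  refine ⟨Finsupp.equivFunOnFinite.symm fun i => (v i).toNat, ?_⟩
  funext i
  change (((v i).toNat : ℕ) : ℤ) = v i
  exact Int.toNat_of_nonneg (hv i)

/-- [TD-N2] The inclusion of the polynomial ring into the Laurent polynomial ring. -/
theorem exists_poly (K : Type u) [Field K] (n : ℕ) :
    ∃ ι : MvPolynomial (Fin n) K →ₐ[K] AddMonoidAlgebra K (Fin n → ℤ),
      Function.Injective ι ∧
      ∀ (J : Type) [Finite J] (f : J → AddMonoidAlgebra K (Fin n → ℤ)),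
        ∃ u : Fin n → ℤ, ∀ j, ∃ p, AddMonoidAlgebra.single u (1 : K) * f j = ι p := by
  classical
  refine ⟨AddMonoidAlgebra.mapDomainAlgHom K K (RN2_hom n), ?_, ?_⟩
  · exact AddMonoidAlgebra.mapDomain_injective (RN2_inj n)
  · intro J _ f
    have := Fintype.ofFinite J
    let u : Fin n → ℤ := fun i => ∑ j : J, ∑ s ∈ (f j).coeff.support, |s i|
    refine ⟨u, fun j => ?_⟩
    refine ⟨AddMonoidAlgebra.comapDomain (RN2_hom n) (RN2_inj n)
      (AddMonoidAlgebra.single u (1 : K) * f j), ?_⟩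
    refine (AddMonoidAlgebra.mapDomain_comapDomain ?_ _).symm
    intro v hv
    have hv' := AddMonoidAlgebra.support_coeff_single_mul_subset (f j) (1 : K) u hv
    rw [Finset.mem_image] at hv'
    obtain ⟨s, hs, rfl⟩ := hv'
    apply RN2_range
    intro i
    change 0 ≤ u i + s i
    have h1 : |s i| ≤ ∑ s ∈ (f j).coeff.support, |s i| :=
      Finset.single_le_sum (f := fun s : Fin n → ℤ => |s i|) (fun _ _ => abs_nonneg _) hs
    have h2 : ∑ s ∈ (f j).coeff.support, |s i| ≤ u i :=
      Finset.single_le_sum (f := fun j : J => ∑ s ∈ (f j).coeff.support, |s i|)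
        (fun _ _ => Finset.sum_nonneg fun _ _ => abs_nonneg _) (Finset.mem_univ j)
    have h3 := neg_abs_le (s i)
    linarith

end TOD
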