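import Pool.Agent.TD.A0
import Pool.Agent.TD.RN1
import Pool.Agent.TD.RN2
import Pool.Agent.TD.RN4

universe u

namespace TOD

variable {K L : Type u} [Field K] [Field L] [Algebra K L] {n : ℕ}

private theorem RN5_den {J : Type} [Fintype J] {z : J → L} {c : L}
    {Φ : AddMonoidAlgebra K (Fin n → ℤ) →ₐ[K] L}
    {f g : J → AddMonoidAlgebra K (Fin n → ℤ)} (hg : ∀ j, Φ (g j) ≠ 0)
    (hz : ∀ j, z j = c * (Φ (f j) / Φ (g j))) :
    ∃ F : J → AddMonoidAlgebra K (Fin n → ℤ), ∀ j, Φ (∏ k, g k) * z j = c * Φ (F j) := by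
  classical
  refine ⟨fun j => f j * ∏ k ∈ Finset.univ.erase j, g k, fun j => ?_⟩
  rw [← Finset.mul_prod_erase Finset.univ g (Finset.mem_univ j), map_mul, map_mul, hz j]
  have h0 := hg j
  field_simp

/-- [TD-N5] Normalisation: after scaling, the coordinates are functions on the torus without common
zero.
Proof: write `z j = Φ f_j / Φ g_j`, take the product of the denominators and multiply by a monomial:
there is `c₀ ≠ 0` with `c₀ z_j = Φ (ι (p j))`, `p j : MvPolynomial (Fin n) K` ([TD-N2]). Divide by the gcd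
([TD-N1]; `MvPolynomial` over a field is a UFD): `p j = d p' j`. Put `c = c₀ / Φ (ι d)`, so
`c z_j = Φ (ι (p' j))`. If the ideal generated by all `ι (p' j)` in the Laurent polynomial ring is not the unit
ideal, it is contained in a maximal ideal `Q`. `h.tmap Q` gives `i` with `z i ≠ 0` and
`z j / z i = Φ f_j / Φ g_j`, `g_j ∉ Q`. With `s = ∏ g_j ∉ Q`: `s * ι (p' j) = ι (p' i) * h_j` for some `h_j` in the Laurent
polynomial ring (`Φ` is injective). Multiply by a monomial `X^u` such that `X^u s = ι S`, `X^u h_j = ι (H_j)`: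
`S * p' j = p' i * H_j`, so `p' i ∣ S`, so `ι (p' i)` divides `X^u s ∉ Q` (`X^u` is a unit), so `ι (p' i) ∉ Q`,
contradiction. -/
theorem TC.exists_NTC {J : Type} [Fintype J] {z : J → L}
    {Φ : AddMonoidAlgebra K (Fin n → ℤ) →ₐ[K] L} (h : TC z n Φ) :
    ∃ c : L, c ≠ 0 ∧ NTC (fun j => c * z j) n Φ := by
  classical
  obtain ⟨ι, hι, hp⟩ := exists_poly K n
  choose f g hg hfg using fun j => h.Φ_frac (z j)
  obtain ⟨F, hF⟩ := RN5_den (c := 1) hg (fun j => (hfg j).trans (one_mul _).symm)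
  obtain ⟨u, hu⟩ := hp J F
  choose p hpj using hu
  have hG0 : Φ (∏ k, g k) ≠ 0 := by
    rw [map_prod]
    exact Finset.prod_ne_zero_iff.mpr fun k _ => hg k
  obtain ⟨c₀, hc₀⟩ : ∃ c₀ : L, c₀ = ch Φ u * Φ (∏ k, g k) := ⟨_, rfl⟩
  have hc₀0 : c₀ ≠ 0 := by
    rw [hc₀]
    exact mul_ne_zero (ch_ne_zero Φ u) hG0
  have hc₀z : ∀ j, c₀ * z j = Φ (ι (p j)) := by
    intro j
    rw [hc₀, mul_assoc, hF j, one_mul, ← hpj j, map_mul]
    rfl
  have hpne : ∃ j, p j ≠ 0 := by
    obtain ⟨j, hj⟩ := h.z_ne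
    refine ⟨j, fun h0 => ?_⟩
    have h1 := hc₀z j
    rw [h0, map_zero, map_zero] at h1
    exact mul_ne_zero hc₀0 hj h1
  obtain ⟨d, p', hd, hpd, hprim⟩ := exists_primitive p hpne
  have hΦd : Φ (ι d) ≠ 0 := by
    intro h0
    rw [← map_zero Φ] at h0
    have h1 := h.Φ_inj h0
    rw [← map_zero ι] at h1
    exact hd (hι h1)
  obtain ⟨c, hc⟩ : ∃ c : L, c = c₀ / Φ (ι d) := ⟨_, rfl⟩
  have hc0 : c ≠ 0 := by
    rw [hc]
    exact div_ne_zero hc₀0 hΦd
  have hcz : ∀ j, c * z j = Φ (ι (p' j)) := by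
    intro j
    have h1 := hc₀z j
    rw [hpd j, map_mul, map_mul] at h1
    rw [hc, div_mul_eq_mul_div, h1, mul_div_cancel_left₀ _ hΦd]
  refine ⟨c, hc0, ⟨h.smul hc0, fun j => ⟨_, hcz j⟩, ?_⟩⟩
  have htop : Ideal.span (Set.range fun j => ι (p' j)) = ⊤ := by
    by_contra hne
    obtain ⟨Q, hQ, hle⟩ := Ideal.exists_le_maximal _ hne
    have hQp : Q.IsPrime := hQ.isPrime
    have hmemQ : ∀ j, ι (p' j) ∈ Q := fun j => hle (Ideal.subset_span ⟨j, rfl⟩)
    obtain ⟨i, hi, hj⟩ := h.tmap Q hQp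
    choose a b hb hab using hj
    have hΦb : ∀ j, Φ (b j) ≠ 0 := by
      intro j h0
      rw [← map_zero Φ] at h0
      apply hb j
      rw [h.Φ_inj h0]
      exact Q.zero_mem
    have hab' : ∀ j, z j = z i * (Φ (a j) / Φ (b j)) := by
      intro j
      rw [← hab j, mul_div_cancel₀ _ hi]
    obtain ⟨H, hH⟩ := RN5_den hΦb hab'
    have hsQ : (∏ k, b k) ∉ Q := by
      rw [Ideal.IsPrime.prod_mem_iff]
      rintro ⟨k, _, hk⟩
      exact hb k hk
    have hmul : ∀ j, (∏ k, b k) * ι (p' j) = ι (p' i) * H j := by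
      intro j
      apply h.Φ_inj
      rw [map_mul, map_mul, ← hcz j, ← hcz i]
      have h1 := hH j
      calc Φ (∏ k, b k) * (c * z j) = c * (Φ (∏ k, b k) * z j) := by ring
        _ = c * (z i * Φ (H j)) := by rw [h1]
        _ = c * z i * Φ (H j) := by ring
    obtain ⟨v, hv⟩ := hp (Option J) (fun o => o.elim (∏ k, b k) H)
    obtain ⟨S, hS⟩ := hv none
    choose T hT using fun j => hv (some j)
    change AddMonoidAlgebra.single v (1 : K) * (∏ k, b k) = ι S at hS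
    have hT' : ∀ j, AddMonoidAlgebra.single v (1 : K) * H j = ι (T j) := hT
    have hdvd : ∀ j, p' i ∣ S * p' j := by
      intro j
      refine ⟨T j, hι ?_⟩
      rw [map_mul, map_mul, ← hS, ← hT' j, mul_assoc, hmul j]
      ring
    obtain ⟨W, hW⟩ := hprim S (p' i) hdvd
    have hSQ : ι S ∈ Q := by
      rw [hW, map_mul]
      exact Q.mul_mem_right _ (hmemQ i)
    rw [← hS] at hSQ
    rcases hQp.mem_or_mem hSQ with h1 | h1
    · apply hQp.ne_top
      rw [Ideal.eq_top_iff_one]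
      have h2 := Q.mul_mem_left (AddMonoidAlgebra.single (-v) (1 : K)) h1
      rw [AddMonoidAlgebra.single_mul_single, neg_add_cancel, one_mul] at h2
      exact h2
    · exact hsQ h1
  have h1 : (1 : AddMonoidAlgebra K (Fin n → ℤ)) ∈ Ideal.span (Set.range fun j => ι (p' j)) := by
    rw [htop]
    exact Submodule.mem_top
  obtain ⟨e, he⟩ := Ideal.mem_span_range_iff_exists_fun.mp h1
  refine ⟨e, ?_⟩
  have h2 := congrArg Φ he
  rw [map_sum, map_one] at h2
  rw [← h2]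
  refine Finset.sum_congr rfl fun j _ => ?_
  rw [map_mul, hcz j]

end TOD
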