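import Pool.Agent.TD.A0
import Pool.Agent.TD.RC4
import Pool.Agent.TD.RS1

universe u

namespace TOD

variable {K L : Type u} [Field K] [Field L] [Algebra K L] {n : ℕ}

/-- [TD-C6] Every boundary divisor gives a facet: some section of `O(1)` is nonzero along it.
(`B.a_eq l` gives `j` with `w l (z j) = - a l`, `z j = Φ f` with `f ≠ 0` (`h.z_mem`); `B.min_eq` gives a character `u` of
`f` with `nn l u = - a l`; `z j ∈ Sec K z 1`, so [TD-C4] (`Φ` injective) gives the inequalities for `u`.) -/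
theorem NTC.exists_facet {J : Type} [Fintype J] {z : J → L}
    {Φ : AddMonoidAlgebra K (Fin n → ℤ) →ₐ[K] L} (h : NTC z n Φ) (B : BD z Φ) (l : Fin B.r) :
    ∃ u, B.nn l u + B.a l = 0 ∧ ∀ l', 0 ≤ B.nn l' u + B.a l' := by
  obtain ⟨j, hj, hja⟩ := B.a_eq l
  obtain ⟨f, hf⟩ := h.z_mem j
  have hf0 : f ≠ 0 := by
    rintro rfl
    exact hj (by rw [hf, map_zero])
  have hsec : z j ∈ Sec K z 1 := by
    intro i _
    rw [pow_one]
    exact Algebra.subset_adjoin ⟨j, rfl⟩
  obtain ⟨f', hf', hpos⟩ := (h.mem_sec_iff B).1 hsec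
  have hff : f = f' := h.Φ_inj (hf.symm.trans hf')
  obtain ⟨u, hu, hul⟩ := B.min_eq l f hf0
  refine ⟨u, ?_, ?_⟩
  · rw [hul, ← hf, hja]
    ring
  · intro l'
    have h1 := hpos u (by rw [← hff]; exact hu) l'
    push_cast at h1
    linarith

end TOD
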