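import Pool.Agent.TD.A0

universe u

namespace TOD

noncomputable section

/-- [TD-R1] Rational approximation: finitely many real numbers can be approximated by rational numbers
respecting all rational linear relations (with constant term).
Proof: `1, x_1, …, x_k` span a finite dimensional `ℚ`-subspace of `ℝ`; choose a basis `1 = b_0, b_1, …, b_s` of it,
rational numbers `q_0 = 1` and `q_i` very close to `b_i`, extend the basis to a basis of `ℝ` (send the others to `0`). -/
theorem exists_rat_approx {k : ℕ} (x : Fin k → ℝ) {ε : ℝ} (hε : 0 < ε) :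
    ∃ φ : ℝ →ₗ[ℚ] ℚ, φ 1 = 1 ∧ ∀ i, |(φ (x i) : ℝ) - x i| < ε := by
  classical
  have hli : LinearIndepOn ℚ id ({1} : Set ℝ) := LinearIndepOn.singleton one_ne_zero
  let bas := Module.Basis.extend hli
  have h1mem : (1 : ℝ) ∈ hli.extend (Set.subset_univ _) := hli.subset_extend _ rfl
  set M : ℝ := 1 + ∑ i, ∑ s ∈ (bas.repr (x i)).support, |((bas.repr (x i) s : ℚ) : ℝ)| with hM
  have hMl : ∀ i, ∑ s ∈ (bas.repr (x i)).support, |((bas.repr (x i) s : ℚ) : ℝ)| < M := by
    intro i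
    have h1 : ∑ s ∈ (bas.repr (x i)).support, |((bas.repr (x i) s : ℚ) : ℝ)| ≤
        ∑ i, ∑ s ∈ (bas.repr (x i)).support, |((bas.repr (x i) s : ℚ) : ℝ)| :=
      Finset.single_le_sum (f := fun i => ∑ s ∈ (bas.repr (x i)).support, |((bas.repr (x i) s : ℚ) : ℝ)|)
        (fun i _ => Finset.sum_nonneg fun j _ => abs_nonneg _) (Finset.mem_univ i)
    linarith
  have hM1 : 0 < M := by
    have : 0 ≤ ∑ i, ∑ s ∈ (bas.repr (x i)).support, |((bas.repr (x i) s : ℚ) : ℝ)| :=
      Finset.sum_nonneg fun i _ => Finset.sum_nonneg fun j _ => abs_nonneg _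
    linarith
  have hη : 0 < ε / M := div_pos hε hM1
  have hq : ∀ s : hli.extend (Set.subset_univ _), ∃ q : ℚ, |(q : ℝ) - s.1| < ε / M ∧ (s.1 = 1 → q = 1) := by
    intro s
    by_cases hs : s.1 = 1
    · refine ⟨1, ?_, fun _ => rfl⟩
      rw [hs, Rat.cast_one, sub_self, abs_zero]
      exact hη
    · obtain ⟨q, hq1, hq2⟩ := exists_rat_btwn (show s.1 < s.1 + ε / M by linarith)
      refine ⟨q, ?_, fun h => absurd h hs⟩
      rw [abs_of_pos (by linarith)]
      linarith
  choose q hq1 hq2 using hq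
  refine ⟨bas.constr ℚ q, ?_, ?_⟩
  · have h2 : bas ⟨1, h1mem⟩ = (1 : ℝ) := Module.Basis.extend_apply_self hli ⟨1, h1mem⟩
    have h3 := Module.Basis.constr_basis bas ℚ q ⟨1, h1mem⟩
    rw [h2] at h3
    rw [h3]
    exact hq2 ⟨1, h1mem⟩ rfl
  · intro i
    have h3 : bas.constr ℚ q (x i) = ∑ s ∈ (bas.repr (x i)).support, bas.repr (x i) s * q s := by
      rw [Module.Basis.constr_apply, Finsupp.sum]
      rfl
    have h4 : x i = ∑ s ∈ (bas.repr (x i)).support, ((bas.repr (x i) s : ℚ) : ℝ) * s.1 := by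
      conv_lhs => rw [← bas.linearCombination_repr (x i), Finsupp.linearCombination_apply, Finsupp.sum]
      refine Finset.sum_congr rfl fun s _ => ?_
      rw [Module.Basis.extend_apply_self hli s, Rat.smul_def]
    have h5 : ((bas.constr ℚ q (x i) : ℚ) : ℝ) - x i =
        ∑ s ∈ (bas.repr (x i)).support, ((bas.repr (x i) s : ℚ) : ℝ) * ((q s : ℝ) - s.1) := by
      have h6 : ∑ s ∈ (bas.repr (x i)).support, ((bas.repr (x i) s : ℚ) : ℝ) * ((q s : ℝ) - s.1) =
          ∑ s ∈ (bas.repr (x i)).support, ((bas.repr (x i) s : ℚ) : ℝ) * (q s : ℝ) -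
            ∑ s ∈ (bas.repr (x i)).support, ((bas.repr (x i) s : ℚ) : ℝ) * s.1 := by
        rw [← Finset.sum_sub_distrib]
        exact Finset.sum_congr rfl fun s _ => by ring
      rw [h3, h6, ← h4]
      push_cast
      rfl
    rw [h5]
    calc |∑ s ∈ (bas.repr (x i)).support, ((bas.repr (x i) s : ℚ) : ℝ) * ((q s : ℝ) - s.1)|
        ≤ ∑ s ∈ (bas.repr (x i)).support, |((bas.repr (x i) s : ℚ) : ℝ) * ((q s : ℝ) - s.1)| :=
          Finset.abs_sum_le_sum_abs _ _
      _ ≤ ∑ s ∈ (bas.repr (x i)).support, |((bas.repr (x i) s : ℚ) : ℝ)| * (ε / M) := by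
          refine Finset.sum_le_sum fun s _ => ?_
          rw [abs_mul]
          exact mul_le_mul_of_nonneg_left (hq1 s).le (abs_nonneg _)
      _ = (∑ s ∈ (bas.repr (x i)).support, |((bas.repr (x i) s : ℚ) : ℝ)|) * (ε / M) := by
          rw [Finset.sum_mul]
      _ < M * (ε / M) := mul_lt_mul_of_pos_right (hMl i) hη
      _ = ε := mul_div_cancel₀ _ hM1.ne'

end

end TOD
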