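import Pool.Agent.TD.A0
import Pool.Agent.TD.RR1

universe u

namespace TOD

noncomputable section

theorem RR2_map_eq {n : ℕ} (f : (Fin n → ℤ) →+ ℤ) (q : Fin n → ℤ) :
    f q = ∑ j, q j * f (Pi.single j 1) := by
  have h1 : q = ∑ j, q j • (Pi.single j (1 : ℤ) : Fin n → ℤ) := by
    funext i
    rw [Finset.sum_apply, Finset.sum_eq_single i]
    · simp
    · intro b _ hb
      simp [Pi.single_eq_of_ne hb.symm]
    · intro h
      exact absurd (Finset.mem_univ _) h
  conv_lhs => rw [h1]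
  rw [map_sum]
  refine Finset.sum_congr rfl fun j _ => ?_
  rw [map_zsmul, smul_eq_mul]

theorem RR2_exists_eps {n r : ℕ} (v : Fin r → ℝ) (c : Fin r → ℝ) :
    ∃ ε : ℝ, 0 < ε ∧ ∀ l, 0 < v l → ε * c l < v l := by
  have h : ∀ᶠ ε in nhdsWithin (0 : ℝ) (Set.Ioi 0), ∀ l, 0 < v l → ε * c l < v l := by
    rw [Filter.eventually_all]
    intro l
    by_cases hl : 0 < v l
    · have h1 : Filter.Tendsto (fun ε : ℝ => ε * c l) (nhdsWithin (0 : ℝ) (Set.Ioi 0)) (nhds 0) := by
        have h2 : Filter.Tendsto (fun ε : ℝ => ε * c l) (nhds (0 : ℝ)) (nhds (0 * c l)) :=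
          (continuous_id.mul continuous_const).tendsto _
        rw [zero_mul] at h2
        exact h2.mono_left nhdsWithin_le_nhds
      exact (h1.eventually (gt_mem_nhds hl)).mono fun ε h _ => h
    · exact Filter.Eventually.of_forall fun ε h => absurd h hl
  obtain ⟨ε, h1, h2⟩ := (h.and self_mem_nhdsWithin).exists
  exact ⟨ε, h2, h1⟩

/-- [TD-R2] A real point of the polytope can be replaced by a rational point `q / k` in the relative interior of
the same face. ([TD-R1] with `ε` small against the positive values; the values at the point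
`(φ (x j))_j` are `φ` of the values at `x`, so zeros stay zeros; common denominator `k`.) -/
theorem exists_lattice_point {n r : ℕ} (nn : Fin r → (Fin n → ℤ) →+ ℤ) (a : Fin r → ℤ)
    (x : Fin n → ℝ) (hx : ∀ l, 0 ≤ ∑ j, x j * (nn l (Pi.single j 1) : ℝ) + a l) :
    ∃ (q : Fin n → ℤ) (k : ℕ), 0 < k ∧ (∀ l, 0 ≤ nn l q + k * a l) ∧
      ∀ l, nn l q + k * a l = 0 ↔ ∑ j, x j * (nn l (Pi.single j 1) : ℝ) + a l = 0 := by
  obtain ⟨ε, hε, hεv⟩ := RR2_exists_eps (n := n)
    (fun l => ∑ j, x j * (nn l (Pi.single j 1) : ℝ) + a l)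
    (fun l => ∑ j, |(nn l (Pi.single j 1) : ℝ)|)
  obtain ⟨φ, hφ1, hφ⟩ := exists_rat_approx x hε
  -- the value of `φ` on the affine form
  have hval : ∀ l, φ (∑ j, x j * (nn l (Pi.single j 1) : ℝ) + a l)
      = ∑ j, φ (x j) * (nn l (Pi.single j 1) : ℚ) + a l := by
    intro l
    rw [map_add, map_sum]
    have h1 : φ ((a l : ℤ) : ℝ) = (a l : ℚ) := by
      have h2 : ((a l : ℤ) : ℝ) = (a l : ℚ) • (1 : ℝ) := by
        rw [Rat.smul_def]
        push_cast
        rw [mul_one]
      rw [h2, map_smul, hφ1, smul_eq_mul, mul_one]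
    have h3 : ∀ j, φ (x j * (nn l (Pi.single j 1) : ℝ))
        = φ (x j) * (nn l (Pi.single j 1) : ℚ) := by
      intro j
      have h2 : x j * (nn l (Pi.single j 1) : ℝ) = (nn l (Pi.single j 1) : ℚ) • x j := by
        rw [Rat.smul_def]
        push_cast
        rw [mul_comm]
      rw [h2, map_smul, smul_eq_mul, mul_comm]
    rw [h1]
    simp only [h3]
  -- positivity
  have hpos : ∀ l, 0 < ∑ j, x j * (nn l (Pi.single j 1) : ℝ) + a l →
      0 < ∑ j, φ (x j) * (nn l (Pi.single j 1) : ℚ) + a l := by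
    intro l hl
    have h1 := hεv l hl
    have h2 : (0 : ℝ) < ∑ j, (φ (x j) : ℝ) * (nn l (Pi.single j 1) : ℝ) + a l := by
      have h3 : ∑ j, x j * (nn l (Pi.single j 1) : ℝ)
          - ∑ j, (φ (x j) : ℝ) * (nn l (Pi.single j 1) : ℝ)
          ≤ ε * ∑ j, |(nn l (Pi.single j 1) : ℝ)| := by
        rw [← Finset.sum_sub_distrib, Finset.mul_sum]
        refine Finset.sum_le_sum fun j _ => ?_
        rw [← sub_mul]
        refine (le_abs_self _).trans ?_
        rw [abs_mul]
        refine mul_le_mul_of_nonneg_right ?_ (abs_nonneg _)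
        rw [abs_sub_comm]
        exact (hφ j).le
      linarith
    have h4 : ((∑ j, φ (x j) * (nn l (Pi.single j 1) : ℚ) + a l : ℚ) : ℝ)
        = ∑ j, (φ (x j) : ℝ) * (nn l (Pi.single j 1) : ℝ) + a l := by
      push_cast
      rfl
    rw [← h4] at h2
    exact_mod_cast h2
  have hzero : ∀ l, ∑ j, x j * (nn l (Pi.single j 1) : ℝ) + a l = 0 →
      ∑ j, φ (x j) * (nn l (Pi.single j 1) : ℚ) + a l = 0 := by
    intro l hl
    rw [← hval l, hl, map_zero]
  -- common denominator
  set k : ℕ := ∏ j, (φ (x j)).den with hk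
  have hkpos : 0 < k := Finset.prod_pos fun j _ => (φ (x j)).den_pos
  have hkdvd : ∀ j, (φ (x j)).den ∣ k := fun j => Finset.dvd_prod_of_mem _ (Finset.mem_univ j)
  choose d hd using hkdvd
  have hq : ∀ j, (((φ (x j)).num * (d j : ℤ) : ℤ) : ℚ) = φ (x j) * k := by
    intro j
    rw [hd j]
    push_cast
    rw [← mul_assoc, Rat.mul_den_eq_num]
  have hfin : ∀ l, ((nn l (fun j => (φ (x j)).num * (d j : ℤ)) + k * a l : ℤ) : ℚ)
      = k * (∑ j, φ (x j) * (nn l (Pi.single j 1) : ℚ) + a l) := by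
    intro l
    rw [RR2_map_eq (nn l), Int.cast_add, Int.cast_sum, mul_add, Finset.mul_sum]
    congr 1
    · refine Finset.sum_congr rfl fun j _ => ?_
      rw [Int.cast_mul, hq j]
      ring
    · push_cast
      rfl
  have hkq : (0 : ℚ) < k := by exact_mod_cast hkpos
  refine ⟨fun j => (φ (x j)).num * (d j : ℤ), k, hkpos, fun l => ?_, fun l => ⟨fun h => ?_, fun h => ?_⟩⟩
  · have h1 : (0 : ℚ) ≤ ((nn l (fun j => (φ (x j)).num * (d j : ℤ)) + k * a l : ℤ) : ℚ) := by
      rw [hfin l]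
      rcases (hx l).eq_or_lt with h2 | h2
      · rw [hzero l h2.symm, mul_zero]
      · exact (mul_pos hkq (hpos l h2)).le
    exact_mod_cast h1
  · have h1 := hfin l
    rw [h, Int.cast_zero] at h1
    rcases (hx l).eq_or_lt with h2 | h2
    · exact h2.symm
    · exact absurd h1 (mul_pos hkq (hpos l h2)).ne
  · have h1 := hfin l
    rw [hzero l h, mul_zero] at h1
    exact_mod_cast h1

end

end TOD
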