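import Pool.Agent.TD.A0
import Pool.Agent.TD.RR1

universe u

namespace TOD

noncomputable section

theorem RR3_nn {n : ℕ} (f : (Fin n → ℤ) →+ ℤ) (v : Fin n → ℤ) : f v = ∑ j, v j * f (Pi.single j 1) := by
  classical
  have h1 : v = ∑ j, v j • (Pi.single j 1 : Fin n → ℤ) := by
    funext i
    rw [Finset.sum_apply]
    simp [Pi.single_apply]
  conv_lhs => rw [h1]
  rw [map_sum]
  refine Finset.sum_congr rfl fun j _ => ?_
  rw [map_zsmul, smul_eq_mul]

theorem RR3_min {r : ℕ} (s : Fin r → ℝ) : ∃ ε > 0, ∀ l, 0 < s l → ε ≤ s l := by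
  classical
  by_cases h : (Finset.univ.filter (fun l => 0 < s l)).Nonempty
  · obtain ⟨l, hl, hl2⟩ := Finset.exists_min_image _ s h
    exact ⟨s l, (Finset.mem_filter.1 hl).2, fun l' hl' => hl2 l' (Finset.mem_filter.2 ⟨Finset.mem_univ _, hl'⟩)⟩
  · refine ⟨1, one_pos, fun l hl => ?_⟩
    exact absurd ⟨l, Finset.mem_filter.2 ⟨Finset.mem_univ _, hl⟩⟩ h

/-- a real recession vector gives an integral one -/
theorem RR3_int {n r : ℕ} (nn : Fin r → (Fin n → ℤ) →+ ℤ) (y : Fin n → ℝ) (hy : ‖y‖ = 1)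
    (h : ∀ l, 0 ≤ ∑ j, y j * (nn l (Pi.single j 1) : ℝ)) : ∃ u, (∀ l, 0 ≤ nn l u) ∧ u ≠ 0 := by
  classical
  obtain ⟨ε, hε, hε2⟩ := RR3_min (fun l => ∑ j, y j * (nn l (Pi.single j 1) : ℝ))
  set M : ℝ := 1 + ∑ l, ∑ j, |(nn l (Pi.single j 1) : ℝ)| with hM
  have hM0 : 0 ≤ ∑ l, ∑ j, |(nn l (Pi.single j 1) : ℝ)| :=
    Finset.sum_nonneg fun l _ => Finset.sum_nonneg fun j _ => abs_nonneg _
  have hM1 : 0 < M := by linarith
  have hMl : ∀ l, ∑ j, |(nn l (Pi.single j 1) : ℝ)| ≤ M := by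
    intro l
    have h1 : ∑ j, |(nn l (Pi.single j 1) : ℝ)| ≤ ∑ l, ∑ j, |(nn l (Pi.single j 1) : ℝ)| :=
      Finset.single_le_sum (f := fun l => ∑ j, |(nn l (Pi.single j 1) : ℝ)|)
        (fun l _ => Finset.sum_nonneg fun j _ => abs_nonneg _) (Finset.mem_univ l)
    linarith
  have hδ : 0 < min (ε / M) (1 / 2) := lt_min (div_pos hε hM1) (by norm_num)
  obtain ⟨φ, hφ1, hφ⟩ := exists_rat_approx y hδ
  have hφa : ∀ i, |(φ (y i) : ℝ) - y i| ≤ ε / M := fun i => (hφ i).le.trans (min_le_left _ _)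
  have hφb : ∀ i, |(φ (y i) : ℝ) - y i| < 1 / 2 := fun i => (hφ i).trans_le (min_le_right _ _)
  have hpos : ∀ l, 0 ≤ ∑ j, φ (y j) * (nn l (Pi.single j 1) : ℚ) := by
    intro l
    rcases (h l).eq_or_lt with h0 | h0
    · have h1 : φ (∑ j, y j * (nn l (Pi.single j 1) : ℝ)) = ∑ j, φ (y j) * (nn l (Pi.single j 1) : ℚ) := by
        rw [map_sum]
        refine Finset.sum_congr rfl fun j _ => ?_
        have h2 : y j * (nn l (Pi.single j 1) : ℝ) = ((nn l (Pi.single j 1) : ℤ) : ℚ) • y j := by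
          rw [Rat.smul_def]
          push_cast
          ring
        rw [h2, map_smul, smul_eq_mul, mul_comm]
      rw [← h1, ← h0, map_zero]
    · have h1 := hε2 l h0
      have h2 : |∑ j, ((φ (y j) : ℝ) - y j) * (nn l (Pi.single j 1) : ℝ)| ≤ ε := by
        calc |∑ j, ((φ (y j) : ℝ) - y j) * (nn l (Pi.single j 1) : ℝ)|
            ≤ ∑ j, |((φ (y j) : ℝ) - y j) * (nn l (Pi.single j 1) : ℝ)| := Finset.abs_sum_le_sum_abs _ _
          _ = ∑ j, |(φ (y j) : ℝ) - y j| * |(nn l (Pi.single j 1) : ℝ)| := by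
              refine Finset.sum_congr rfl fun j _ => abs_mul _ _
          _ ≤ ∑ j, ε / M * |(nn l (Pi.single j 1) : ℝ)| := by
              refine Finset.sum_le_sum fun j _ => mul_le_mul_of_nonneg_right (hφa j) (abs_nonneg _)
          _ = ε / M * ∑ j, |(nn l (Pi.single j 1) : ℝ)| := by rw [Finset.mul_sum]
          _ ≤ ε / M * M := mul_le_mul_of_nonneg_left (hMl l) (div_pos hε hM1).le
          _ = ε := div_mul_cancel₀ _ hM1.ne'
      have h3 : ∑ j, ((φ (y j) : ℝ) - y j) * (nn l (Pi.single j 1) : ℝ) =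
          ∑ j, (φ (y j) : ℝ) * (nn l (Pi.single j 1) : ℝ) - ∑ j, y j * (nn l (Pi.single j 1) : ℝ) := by
        rw [← Finset.sum_sub_distrib]
        refine Finset.sum_congr rfl fun j _ => by ring
      rw [h3] at h2
      have h4 := (abs_le.1 h2).1
      have h5 : (0 : ℝ) ≤ ∑ j, (φ (y j) : ℝ) * (nn l (Pi.single j 1) : ℝ) := by linarith
      exact_mod_cast h5
  have hne : ∃ j, φ (y j) ≠ 0 := by
    by_contra hc
    push Not at hc
    have h1 : ‖y‖ ≤ 1 / 2 := by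
      rw [pi_norm_le_iff_of_nonneg (by norm_num)]
      intro j
      have h2 := hφb j
      rw [hc j] at h2
      rw [Real.norm_eq_abs]
      simp only [Rat.cast_zero, zero_sub, abs_neg] at h2
      exact h2.le
    rw [hy] at h1
    norm_num at h1
  obtain ⟨j0, hj0⟩ := hne
  set D : ℕ := ∏ j, (φ (y j)).den with hD
  have hD0 : 0 < D := Finset.prod_pos fun j _ => (φ (y j)).den_pos
  have hv : ∀ j, ∃ v : ℤ, (v : ℚ) = (D : ℚ) * φ (y j) := by
    intro j
    obtain ⟨m, hm⟩ : (φ (y j)).den ∣ D := Finset.dvd_prod_of_mem _ (Finset.mem_univ j)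
    refine ⟨m * (φ (y j)).num, ?_⟩
    rw [hm]
    push_cast
    have h1 : ((φ (y j)).den : ℚ) * φ (y j) = ((φ (y j)).num : ℚ) := Rat.den_mul_eq_num _
    rw [← h1]
    ring
  choose v hv using hv
  refine ⟨v, ?_, ?_⟩
  · intro l
    rw [RR3_nn]
    have h1 : ((∑ j, v j * nn l (Pi.single j 1) : ℤ) : ℚ) = (D : ℚ) * ∑ j, φ (y j) * (nn l (Pi.single j 1) : ℚ) := by
      push_cast
      rw [Finset.mul_sum]
      refine Finset.sum_congr rfl fun j _ => ?_
      rw [hv j]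
      ring
    have h2 : (0 : ℚ) ≤ ((∑ j, v j * nn l (Pi.single j 1) : ℤ) : ℚ) := by
      rw [h1]
      exact mul_nonneg (Nat.cast_nonneg _) (hpos l)
    exact_mod_cast h2
  · intro h0
    have h1 := hv j0
    rw [h0] at h1
    simp only [Pi.zero_apply, Int.cast_zero] at h1
    rcases mul_eq_zero.1 h1.symm with h2 | h2
    · have : (D : ℚ) ≠ 0 := by exact_mod_cast hD0.ne'
      exact this h2
    · exact hj0 h2

/-- [TD-R3] The polytope is bounded if its recession cone contains no lattice point except `0`.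
Proof: otherwise there are points `x_i` with `‖x_i‖ → ∞`; a limit `y` of a subsequence of `x_i / ‖x_i‖` has norm `1` and
`∑ y_j nn l e_j ≥ 0` for all `l`. [TD-R1] with small `ε`: `φ (y_j)` is a nonzero rational vector with
`∑ φ (y_j) nn l e_j ≥ 0` for all `l`; multiply by a common denominator: contradiction to `hpos`. -/
theorem bounded_of_pos {n r : ℕ} (nn : Fin r → (Fin n → ℤ) →+ ℤ) (a : Fin r → ℤ)
    (hpos : ∀ u, (∀ l, 0 ≤ nn l u) → u = 0) :
    Bornology.IsBounded {x : Fin n → ℝ |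
      ∀ l, 0 ≤ ∑ j, x j * (nn l (Pi.single j 1) : ℝ) + (a l : ℝ)} := by
  by_contra hb
  set P := {x : Fin n → ℝ | ∀ l, 0 ≤ ∑ j, x j * (nn l (Pi.single j 1) : ℝ) + (a l : ℝ)} with hP
  have h1 : ∀ k : ℕ, ∃ x ∈ P, (k : ℝ) + 1 ≤ ‖x‖ := by
    by_contra hc
    push Not at hc
    obtain ⟨k, hk⟩ := hc
    apply hb
    rw [Metric.isBounded_iff_subset_closedBall 0]
    refine ⟨(k : ℝ) + 1, fun x hx => ?_⟩
    rw [mem_closedBall_zero_iff]
    exact (hk x hx).le
  choose x hx hxn using h1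
  have hpos' : ∀ k, 0 < ‖x k‖ := fun k => lt_of_lt_of_le (by positivity) (hxn k)
  have hmem : ∀ k, (‖x k‖)⁻¹ • x k ∈ Metric.sphere (0 : Fin n → ℝ) 1 := by
    intro k
    rw [mem_sphere_zero_iff_norm, norm_smul, norm_inv, norm_norm, inv_mul_cancel₀ (hpos' k).ne']
  obtain ⟨y0, hy0, φ, hφ, hlim⟩ := (isCompact_sphere (0 : Fin n → ℝ) 1).tendsto_subseq hmem
  rw [mem_sphere_zero_iff_norm] at hy0
  have h2 : ∀ l, 0 ≤ ∑ j, y0 j * (nn l (Pi.single j 1) : ℝ) := by
    intro l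
    have t1 : Filter.Tendsto (fun k => ‖x (φ k)‖) Filter.atTop Filter.atTop := by
      refine Filter.tendsto_atTop_mono (fun k => ?_) tendsto_natCast_atTop_atTop
      have h3 : (k : ℝ) ≤ (φ k : ℝ) := by exact_mod_cast hφ.id_le k
      linarith [hxn (φ k)]
    have t2 : Filter.Tendsto (fun k => (a l : ℝ) / ‖x (φ k)‖) Filter.atTop (nhds 0) :=
      tendsto_const_nhds.div_atTop t1
    have t3 : Filter.Tendsto (fun k => ∑ j, ((‖x (φ k)‖)⁻¹ • x (φ k)) j * (nn l (Pi.single j 1) : ℝ))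
        Filter.atTop (nhds (∑ j, y0 j * (nn l (Pi.single j 1) : ℝ))) := by
      refine tendsto_finsetSum _ fun j _ => ?_
      exact ((tendsto_pi_nhds.1 hlim) j).mul_const _
    have t4 := t3.add t2
    rw [add_zero] at t4
    refine ge_of_tendsto' t4 fun k => ?_
    have h4 := hx (φ k) l
    have h5 : ∑ j, ((‖x (φ k)‖)⁻¹ • x (φ k)) j * (nn l (Pi.single j 1) : ℝ) + (a l : ℝ) / ‖x (φ k)‖ =
        (‖x (φ k)‖)⁻¹ * (∑ j, x (φ k) j * (nn l (Pi.single j 1) : ℝ) + (a l : ℝ)) := by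
      rw [mul_add, Finset.mul_sum]
      congr 1
      · refine Finset.sum_congr rfl fun j _ => ?_
        rw [Pi.smul_apply, smul_eq_mul]
        ring
      · rw [div_eq_inv_mul]
    rw [h5]
    exact mul_nonneg (inv_nonneg.2 (norm_nonneg _)) h4
  obtain ⟨u, hu, hu0⟩ := RR3_int nn y0 hy0 h2
  exact hu0 (hpos u hu)

end

end TOD
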