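import Pool.Agent.TD.A0

universe u

namespace TOD

noncomputable section

theorem RR4_map_eq {n : ℕ} (f : (Fin n → ℤ) →+ ℤ) (q : Fin n → ℤ) :
    f q = ∑ j, q j * f (Pi.single j 1) := by
  have h1 : q = ∑ j, q j • (Pi.single j (1 : ℤ) : Fin n → ℤ) := by
    funext i
    rw [Finset.sum_apply, Finset.sum_eq_single i]
    · simp
    · intro b _ hb
      simp [Pi.single_eq_of_ne hb.symm]
    · intro h
      exact absurd (Finset.mem_univ _) h
  conv_lhs => rw [h1]
  rw [map_sum]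
  refine Finset.sum_congr rfl fun j _ => ?_
  rw [map_zsmul, smul_eq_mul]

theorem RR4_mem_rspan_iff {n r : ℕ} (nn : Fin r → (Fin n → ℤ) →+ ℤ) (q : Fin r → ℝ) :
    q ∈ rspan (latM nn) ↔
      ∃ x : Fin n → ℝ, ∀ l, q l = ∑ j, x j * (nn l (Pi.single j 1) : ℝ) := by
  constructor
  · intro hq
    unfold rspan at hq
    induction hq using Submodule.span_induction with
    | mem p hp =>
      obtain ⟨m, ⟨u, hu⟩, rfl⟩ := hp
      refine ⟨fun j => (u j : ℝ), fun l => ?_⟩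
      simp only
      rw [hu l, RR4_map_eq (nn l) u]
      push_cast
      rfl
    | zero => exact ⟨0, fun l => by simp⟩
    | add p p' _ _ hp hp' =>
      obtain ⟨x, hx⟩ := hp
      obtain ⟨x', hx'⟩ := hp'
      refine ⟨x + x', fun l => ?_⟩
      rw [Pi.add_apply, hx l, hx' l, ← Finset.sum_add_distrib]
      refine Finset.sum_congr rfl fun j _ => ?_
      rw [Pi.add_apply, add_mul]
    | smul c p _ hp =>
      obtain ⟨x, hx⟩ := hp
      refine ⟨c • x, fun l => ?_⟩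
      rw [Pi.smul_apply, hx l, smul_eq_mul, Finset.mul_sum]
      refine Finset.sum_congr rfl fun j _ => ?_
      rw [Pi.smul_apply, smul_eq_mul, mul_assoc]
  · rintro ⟨x, hx⟩
    have h1 : q = ∑ j, x j • (fun l : Fin r => ((nn l (Pi.single j 1) : ℤ) : ℝ)) := by
      funext l
      rw [Finset.sum_apply, hx l]
      rfl
    rw [h1]
    refine Submodule.sum_mem _ fun j _ => Submodule.smul_mem _ _ ?_
    refine Submodule.subset_span ?_
    exact ⟨fun l => nn l (Pi.single j 1), ⟨Pi.single j 1, fun l => rfl⟩, rfl⟩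

/-- [TD-R4] Points of `poly`. -/
theorem mem_poly_latM_iff {n r : ℕ} (nn : Fin r → (Fin n → ℤ) →+ ℤ) (a : Fin r → ℤ)
    (p : Fin r → ℝ) :
    p ∈ poly (latM nn) a ↔ ∃ x : Fin n → ℝ,
      (∀ l, p l = ∑ j, x j * (nn l (Pi.single j 1) : ℝ) + a l) ∧ ∀ l, 0 ≤ p l := by
  constructor
  · rintro ⟨h1, h2⟩
    obtain ⟨x, hx⟩ := (RR4_mem_rspan_iff nn _).1 h1
    refine ⟨x, fun l => ?_, h2⟩
    have h3 := hx l
    linarith
  · rintro ⟨x, hx, h2⟩
    refine ⟨(RR4_mem_rspan_iff nn _).2 ⟨x, fun l => ?_⟩, h2⟩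
    rw [hx l]
    ring

end

end TOD
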