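import Pool.Agent.TD.A0
import Pool.Agent.TD.RA2

universe u

namespace TOD

variable {K L : Type u} [Field K] [Field L] [Algebra K L] {n : ℕ}

/-- [TD-C8] `nn l` is primitive. (`w l x = 1` for some `x = Φ f / Φ g`; `B.min_eq` for `f` and `g`.) -/
theorem TC.exists_nn_eq_one {J : Type} {z : J → L} {Φ : AddMonoidAlgebra K (Fin n → ℤ) →ₐ[K] L}
    (h : TC z n Φ) (B : BD z Φ) (l : Fin B.r) : ∃ u, B.nn l u = 1 := by
  obtain ⟨x, hx, hw⟩ := (B.ord l).surj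
  obtain ⟨f, g, hg, rfl⟩ := h.Φ_frac x
  have hΦf : Φ f ≠ 0 := by
    intro h0
    rw [h0, zero_div] at hx
    exact hx rfl
  have hf : f ≠ 0 := by
    rintro rfl
    exact hΦf (map_zero _)
  have hg' : g ≠ 0 := by
    rintro rfl
    exact hg (map_zero _)
  obtain ⟨u, _, hu⟩ := B.min_eq l f hf
  obtain ⟨v, _, hv⟩ := B.min_eq l g hg'
  refine ⟨u - v, ?_⟩
  rw [map_sub, hu, hv, ← (B.ord l).basic.2.2.1 _ _ hΦf hg, hw]

end TOD
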