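import Pool.Agent.TD.A0

universe u

namespace TOD

variable {K L : Type u} [Field K] [Field L] [Algebra K L] {n : ℕ}

noncomputable section

/-- [TD-X0] Elements of the monoid algebra. -/
theorem mem_faceAlg_iff (Φ : AddMonoidAlgebra K (Fin n → ℤ) →ₐ[K] L)
    (C : AddSubmonoid (Fin n → ℤ)) {x : L} :
    x ∈ faceAlg Φ C ↔ ∃ f, x = Φ f ∧ ∀ u, f.coeff u ≠ 0 → u ∈ C := by
  classical
  have hsingle : ∀ (v w : Fin n → ℤ) (c : K), v ∈ C →
      (AddMonoidAlgebra.single v c : AddMonoidAlgebra K (Fin n → ℤ)).coeff w ≠ 0 → w ∈ C := by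
    intro v w c hv hw
    rw [AddMonoidAlgebra.coeff_single, Finsupp.single_apply] at hw
    by_cases h : v = w
    · rw [← h]; exact hv
    · rw [if_neg h] at hw
      exact (hw rfl).elim
  constructor
  · intro hx
    induction hx using Algebra.adjoin_induction with
    | mem y hy =>
      obtain ⟨u, hu, rfl⟩ := hy
      exact ⟨AddMonoidAlgebra.single u 1, rfl, fun w hw => hsingle u w 1 hu hw⟩
    | algebraMap r =>
      refine ⟨algebraMap K _ r, (Φ.commutes r).symm, fun w hw => ?_⟩
      have h1 : (algebraMap K (AddMonoidAlgebra K (Fin n → ℤ)) r) =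
          AddMonoidAlgebra.single 0 r := by
        rw [Algebra.algebraMap_eq_smul_one, AddMonoidAlgebra.one_def, AddMonoidAlgebra.smul_single,
          smul_eq_mul, mul_one]
      rw [h1] at hw
      exact hsingle 0 w r (zero_mem C) hw
    | add y y' _ _ h h' =>
      obtain ⟨f, rfl, hf⟩ := h
      obtain ⟨g, rfl, hg⟩ := h'
      refine ⟨f + g, (map_add Φ f g).symm, fun w hw => ?_⟩
      rw [AddMonoidAlgebra.coeff_add, Finsupp.add_apply] at hw
      by_cases h0 : f.coeff w = 0
      · rw [h0, zero_add] at hw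
        exact hg w hw
      · exact hf w h0
    | mul y y' _ _ h h' =>
      obtain ⟨f, rfl, hf⟩ := h
      obtain ⟨g, rfl, hg⟩ := h'
      refine ⟨f * g, (map_mul Φ f g).symm, fun w hw => ?_⟩
      have h1 := AddMonoidAlgebra.support_coeff_mul_subset f g (Finsupp.mem_support_iff.mpr hw)
      obtain ⟨a, ha, b, hb, rfl⟩ := Finset.mem_add.mp h1
      exact add_mem (hf a (Finsupp.mem_support_iff.mp ha)) (hg b (Finsupp.mem_support_iff.mp hb))
  · rintro ⟨f, rfl, hf⟩
    rw [← AddMonoidAlgebra.sum_coeff_single f, Finsupp.sum, map_sum]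
    refine Subalgebra.sum_mem _ fun u hu => ?_
    have h1 : (AddMonoidAlgebra.single u (f.coeff u) : AddMonoidAlgebra K (Fin n → ℤ)) =
        f.coeff u • AddMonoidAlgebra.single u 1 := by
      rw [AddMonoidAlgebra.smul_single, smul_eq_mul, mul_one]
    rw [h1, map_smul]
    have h2 : Φ (AddMonoidAlgebra.single u 1) ∈ faceAlg Φ C :=
      Algebra.subset_adjoin (Set.mem_image_of_mem (ch Φ) (hf u (Finsupp.mem_support_iff.mp hu)))
    exact Subalgebra.smul_mem _ h2 _

end

end TOD
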