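import Pool.Agent.TD.A0

universe u

namespace TOD

variable {K L : Type u} [Field K] [Field L] [Algebra K L] {n : ℕ}

noncomputable section

/-- [TD-X2] The distinguished point of the chart: `χ^u ↦ 1` if `u` is invertible in the cone
(`nn l u = 0` for all tight `l`), `χ^u ↦ 0` otherwise. General form: `F` is a face of the
monoid `C`. -/
theorem exists_point {Φ : AddMonoidAlgebra K (Fin n → ℤ) →ₐ[K] L} (hΦ : Function.Injective Φ)
    (C : AddSubmonoid (Fin n → ℤ)) (F : (Fin n → ℤ) → Prop) (hF0 : F 0)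
    (hF : ∀ u ∈ C, ∀ v ∈ C, F (u + v) ↔ F u ∧ F v) :
    ∃ x : faceAlg Φ C →ₐ[K] K, ∀ (u : Fin n → ℤ) (hu : ch Φ u ∈ faceAlg Φ C), u ∈ C →
      (F u → x ⟨ch Φ u, hu⟩ = 1) ∧ (¬ F u → x ⟨ch Φ u, hu⟩ = 0) := by
  classical
  let ψ0 : Multiplicative C →* K :=
    { toFun := fun u => if F ((Multiplicative.toAdd u : C) : Fin n → ℤ) then 1 else 0
      map_one' := by
        show (if F (0 : Fin n → ℤ) then (1 : K) else 0) = 1
        rw [if_pos hF0]
      map_mul' := by
        intro u v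
        show (if F (((Multiplicative.toAdd u : C) : Fin n → ℤ) + ((Multiplicative.toAdd v : C) : Fin n → ℤ)) then
          (1 : K) else 0) = _
        have h := hF _ (Multiplicative.toAdd u : C).2 _ (Multiplicative.toAdd v : C).2
        by_cases h1 : F ((Multiplicative.toAdd u : C) : Fin n → ℤ)
        · by_cases h2 : F ((Multiplicative.toAdd v : C) : Fin n → ℤ)
          · rw [if_pos (h.2 ⟨h1, h2⟩), if_pos h1, if_pos h2, one_mul]
          · rw [if_neg (fun h3 => h2 (h.1 h3).2), if_pos h1, if_neg h2, mul_zero]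
        · rw [if_neg (fun h3 => h1 (h.1 h3).1), if_neg h1, zero_mul] }
  let ψ : AddMonoidAlgebra K C →ₐ[K] K := AddMonoidAlgebra.lift K K C ψ0
  let θ : AddMonoidAlgebra K C →ₐ[K] L := Φ.comp (AddMonoidAlgebra.mapDomainAlgHom K K C.subtype)
  have hθ : Function.Injective θ := by
    refine hΦ.comp ?_
    exact AddMonoidAlgebra.mapDomain_injective Subtype.coe_injective
  have hθs : ∀ (u : Fin n → ℤ) (hu : u ∈ C), θ (AddMonoidAlgebra.single ⟨u, hu⟩ 1) = ch Φ u := by
    intro u hu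
    show Φ (AddMonoidAlgebra.mapDomain C.subtype (AddMonoidAlgebra.single (⟨u, hu⟩ : C) (1 : K))) = ch Φ u
    rw [AddMonoidAlgebra.mapDomain_single]
    rfl
  have hle : faceAlg Φ C ≤ θ.range := by
    unfold faceAlg
    rw [Algebra.adjoin_le_iff]
    rintro _ ⟨u, hu, rfl⟩
    exact ⟨AddMonoidAlgebra.single ⟨u, hu⟩ 1, hθs u hu⟩
  refine ⟨ψ.comp (((AlgEquiv.ofInjective θ hθ).symm : θ.range →ₐ[K] AddMonoidAlgebra K C).comp
    (Subalgebra.inclusion hle)), ?_⟩
  intro u hu huC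
  have h1 : (AlgEquiv.ofInjective θ hθ).symm (Subalgebra.inclusion hle ⟨ch Φ u, hu⟩) =
      AddMonoidAlgebra.single ⟨u, huC⟩ 1 := by
    rw [AlgEquiv.symm_apply_eq]
    apply Subtype.ext
    exact (hθs u huC).symm
  have h2 : (ψ.comp (((AlgEquiv.ofInjective θ hθ).symm : θ.range →ₐ[K] AddMonoidAlgebra K C).comp
      (Subalgebra.inclusion hle))) ⟨ch Φ u, hu⟩ = if F u then 1 else 0 := by
    show ψ ((AlgEquiv.ofInjective θ hθ).symm (Subalgebra.inclusion hle ⟨ch Φ u, hu⟩)) = _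
    rw [h1]
    show AddMonoidAlgebra.lift K K C ψ0 (AddMonoidAlgebra.single ⟨u, huC⟩ 1) = _
    rw [AddMonoidAlgebra.lift_single, one_smul]
    rfl
  constructor
  · intro h
    rw [h2, if_pos h]
  · intro h
    rw [h2, if_neg h]

end

end TOD
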