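import Pool.Agent.TD.A0
import Pool.Agent.TD.RC4
import Pool.Agent.TD.RX0

universe u

namespace TOD

variable {K L : Type u} [Field K] [Field L] [Algebra K L] {n : ℕ}

noncomputable section

theorem RX1_coeff (f : AddMonoidAlgebra K (Fin n → ℤ)) (v u : Fin n → ℤ) :
    (f * AddMonoidAlgebra.single v 1).coeff u = f.coeff (u - v) := by
  rw [AddMonoidAlgebra.coeff_mul_single_eq_coeff_mul (u - v), mul_one]
  intro m' _
  exact eq_sub_iff_add_eq.symm

theorem RX1_ch (Φ : AddMonoidAlgebra K (Fin n → ℤ) →ₐ[K] L) (f : AddMonoidAlgebra K (Fin n → ℤ)) (v : Fin n → ℤ) :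
    Φ f * ch Φ v = Φ (f * AddMonoidAlgebra.single v 1) := by
  rw [map_mul]
  rfl

/-- [TD-X1] The chart `χ^q ≠ 0` (`χ^q` a section of `O(k)`) is the spectrum of the monoid algebra of
the cone of the face. Proof: [TD-C4]: `x = Φ f`, `x χ^{m q} ∈ Sec (k m)` iff
`nn l (u + m q) + k m a_l = nn l u + m (nn l q + k a_l) ≥ 0` for all `u` in the support of `f` and all `l`; for the `l`
with `nn l q + k a_l = 0` this says `nn l u ≥ 0`, for the others it holds for large `m`. -/
theorem NTC.mem_faceAlg_iff_sec {J : Type} [Fintype J] {z : J → L}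
    {Φ : AddMonoidAlgebra K (Fin n → ℤ) →ₐ[K] L} (h : NTC z n Φ) (B : BD z Φ) {q : Fin n → ℤ}
    {k : ℕ} (hq : ∀ l, 0 ≤ B.nn l q + k * B.a l) {x : L} :
    x ∈ faceAlg Φ (faceM B.nn B.a q k) ↔ ∃ m : ℕ, x * ch Φ q ^ m ∈ Sec K z (k * m) := by
  classical
  rw [mem_faceAlg_iff]
  constructor
  · rintro ⟨f, rfl, hf⟩
    set m : ℕ := ∑ u ∈ f.coeff.support, ∑ l, (B.nn l u).natAbs with hm
    have hm2 : ∀ u, f.coeff u ≠ 0 → ∀ l, -(m : ℤ) ≤ B.nn l u := by
      intro u hu l
      have h1 : (B.nn l u).natAbs ≤ m := by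
        have h2 : (B.nn l u).natAbs ≤ ∑ l, (B.nn l u).natAbs :=
          Finset.single_le_sum (f := fun l => (B.nn l u).natAbs) (fun _ _ => Nat.zero_le _) (Finset.mem_univ l)
        have h3 : ∑ l, (B.nn l u).natAbs ≤ m :=
          Finset.single_le_sum (f := fun u => ∑ l, (B.nn l u).natAbs) (fun _ _ => Nat.zero_le _)
            (Finsupp.mem_support_iff.2 hu)
        exact h2.trans h3
      omega
    refine ⟨m, ?_⟩
    rw [h.mem_sec_iff B, ← ch_nsmul, RX1_ch]
    refine ⟨_, rfl, ?_⟩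
    intro u' hu' l
    rw [RX1_coeff] at hu'
    have h1 := hf _ hu' l
    have h2 := hm2 _ hu' l
    have h3 := hq l
    have h4 : B.nn l (u' - m • q) = B.nn l u' - m * B.nn l q := by
      rw [map_sub, map_nsmul, nsmul_eq_mul]
    rw [h4] at h1 h2
    push_cast
    by_cases h5 : B.nn l q + k * B.a l = 0
    · have h6 := h1 h5
      have h7 : B.nn l u' + k * m * B.a l = (B.nn l u' - m * B.nn l q) + m * (B.nn l q + k * B.a l) := by ring
      rw [h7, h5, mul_zero, add_zero]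
      exact h6
    · have h6 : 1 ≤ B.nn l q + k * B.a l := by omega
      have h7 : B.nn l u' + k * m * B.a l = (B.nn l u' - m * B.nn l q) + m * (B.nn l q + k * B.a l) := by ring
      rw [h7]
      have h8 : (m : ℤ) * 1 ≤ m * (B.nn l q + k * B.a l) := mul_le_mul_of_nonneg_left h6 (Nat.cast_nonneg m)
      linarith
  · rintro ⟨m, hm⟩
    rw [h.mem_sec_iff B] at hm
    obtain ⟨f, hf, hf2⟩ := hm
    have hch : ch Φ q ^ m ≠ 0 := pow_ne_zero _ (ch_ne_zero Φ q)
    have hx : x = Φ f * ch Φ (-(m • q)) := by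
      rw [ch_neg, ch_nsmul, ← hf, mul_inv_cancel_right₀ hch]
    refine ⟨_, hx.trans (RX1_ch Φ f _), ?_⟩
    intro u hu l hl
    rw [RX1_coeff] at hu
    have h1 := hf2 _ hu l
    have h4 : B.nn l (u - -(m • q)) = B.nn l u + m * B.nn l q := by
      rw [sub_neg_eq_add, map_add, map_nsmul, nsmul_eq_mul]
    rw [h4] at h1
    push_cast at h1
    have h5 : B.nn l u + m * B.nn l q + k * m * B.a l = B.nn l u + m * (B.nn l q + k * B.a l) := by ring
    rw [h5, hl, mul_zero, add_zero] at h1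
    exact h1

end

end TOD
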