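import Pool.Agent.TD.A0
import Pool.Agent.TD.RS6
import Pool.Agent.TD.RS7

universe u

namespace TOD

open Polynomial

variable {k L : Type u} [CommRing k] [Field L] [Algebra k L] {J : Type}

/-- [TD-S8] The integral equation, in homogeneous form: take the coefficient of `X ^ (m e)` in an
integral equation of degree `e` from [TD-S7], use [TD-S6]. -/
theorem exists_integral_equation [Fintype J] {z : J → L} (hz : ∃ i, z i ≠ 0) {m : ℕ}
    {g : L} (hg : g ∈ Sec k z m) :
    ∃ (e : ℕ) (b : ℕ → L), 0 < e ∧ (∀ j, b j ∈ Vz k z ^ (m * j)) ∧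
      g ^ e = ∑ j ∈ Finset.range e, b (j + 1) * g ^ (e - (j + 1)) := by
  obtain ⟨p, hp, hp0⟩ := isIntegral_monomial hz hg
  have he : p.natDegree ≠ 0 := by
    intro h
    rw [hp.natDegree_eq_zero.mp h, eval₂_one] at hp0
    exact one_ne_zero hp0
  let e := p.natDegree
  refine ⟨e, fun j => -((p.coeff (e - j) : Algebra.adjoin k
    (Set.range fun j => monomial 1 (z j) : Set L[X])) : L[X]).coeff (m * j),
    Nat.pos_of_ne_zero he, fun j => ?_, ?_⟩
  · exact Submodule.neg_mem _ (coeff_mem_of_mem_adjoin z (p.coeff (e - j)).2 (m * j))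
  · rw [eval₂_eq_sum_range, Finset.sum_range_succ, hp.coeff_natDegree, map_one, one_mul] at hp0
    have h1 := congrArg (fun f : L[X] => f.coeff (m * e)) hp0
    simp only [coeff_add, finsetSum_coeff, coeff_zero, monomial_pow] at h1
    rw [coeff_monomial, if_pos rfl] at h1
    have h2 : g ^ e = -∑ i ∈ Finset.range e,
        ((algebraMap _ L[X] (p.coeff i)) * monomial (m * i) (g ^ i)).coeff (m * e) := by
      rw [eq_neg_iff_add_eq_zero, add_comm]
      exact h1
    rw [h2, ← Finset.sum_neg_distrib, ← Finset.sum_range_reflect]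
    refine Finset.sum_congr rfl fun j hj => ?_
    have hj' : j + 1 ≤ e := Finset.mem_range.mp hj
    have h3 : e - 1 - j = e - (j + 1) := by omega
    rw [h3]
    have h4 : m * e = m * (j + 1) + m * (e - (j + 1)) := by
      rw [← mul_add]; congr 1; omega
    rw [h4, coeff_mul_monomial, neg_mul]
    rfl

end TOD
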