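import Pool.Agent.TD.A0
import Pool.Agent.TD.RC5
import Pool.Agent.TD.RS1
import Pool.Agent.TD.RS8
import Pool.Agent.TD.RX1

universe u

namespace TOD

variable {K L : Type u} [Field K] [Field L] [Algebra K L] {n : ℕ}

noncomputable section

open Pointwise in
theorem RX3_aux {J : Type} [Fintype J] {z : J → L} {g : L} (hg0 : g ≠ 0) {k : ℕ} (hk : 0 < k)
    (A : Subalgebra K L) (hmem : ∀ (s : ℕ) (v : L), v ∈ Vz K z ^ (k * s) → v / g ^ s ∈ A)
    (x : A →ₐ[K] K) (e : ℕ) (b : ℕ → L) (hb : ∀ j, b j ∈ Vz K z ^ (k * j))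
    (heq : g ^ e = ∑ j ∈ Finset.range e, b (j + 1) * g ^ (e - (j + 1))) :
    ∃ (i : J) (hi : z i ^ k / g ∈ A), z i ≠ 0 ∧ x ⟨_, hi⟩ ≠ 0 := by
  classical
  have hzk : ∀ i, z i ^ k / g ∈ A := by
    intro i
    have h1 := hmem 1 (z i ^ k) (by
      rw [mul_one]
      exact Submodule.pow_mem_pow _ (Submodule.subset_span (Set.mem_range_self i)) k)
    rwa [pow_one] at h1
  by_contra hcon
  push Not at hcon
  have hz : ∀ i, x ⟨z i ^ k / g, hzk i⟩ = 0 := by
    intro i
    by_cases h0 : z i = 0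
    · have h1 : (⟨z i ^ k / g, hzk i⟩ : A) = 0 := by
        apply Subtype.ext
        change z i ^ k / g = 0
        rw [h0, zero_pow hk.ne', zero_div]
      rw [h1, map_zero]
    · exact hcon i (hzk i) h0
  have key : ∀ s : ℕ, 0 < s → ∀ v : L, v ∈ Vz K z ^ (k * s) → ∀ hv' : v / g ^ s ∈ A,
      x ⟨v / g ^ s, hv'⟩ = 0 := by
    intro s hs v hv
    have hspan : Vz K z ^ (k * s) = Submodule.span K ((Set.range z) ^ (k * s)) :=
      Submodule.span_pow _ _
    rw [hspan] at hv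
    induction hv using Submodule.span_induction with
    | mem v hv =>
      intro hv'
      obtain ⟨f, rfl⟩ := Set.mem_pow.mp hv
      choose i hi using fun t => (f t).2
      have h1 : (⟨(List.ofFn fun t => (f t : L)).prod / g ^ s, hv'⟩ : A) ^ k =
          ∏ t : Fin (k * s), ⟨z (i t) ^ k / g, hzk (i t)⟩ := by
        apply Subtype.ext
        rw [SubmonoidClass.coe_pow, SubmonoidClass.coe_finsetProd]
        change ((List.ofFn fun t => (f t : L)).prod / g ^ s) ^ k = ∏ t, (z (i t) ^ k / g)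
        rw [Finset.prod_div_distrib, Finset.prod_const, Finset.card_univ, Fintype.card_fin,
          div_pow, ← pow_mul, mul_comm s k, List.prod_ofFn, ← Finset.prod_pow]
        congr 1
        apply Finset.prod_congr rfl
        intro t _
        rw [hi t]
      have h2 : x ⟨(List.ofFn fun t => (f t : L)).prod / g ^ s, hv'⟩ ^ k = 0 := by
        rw [← map_pow, h1, map_prod]
        exact Finset.prod_eq_zero (Finset.mem_univ (⟨0, Nat.mul_pos hk hs⟩ : Fin (k * s)))
          (hz _)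
      exact pow_eq_zero_iff hk.ne' |>.mp h2
    | zero =>
      intro hv'
      have h1 : (⟨0 / g ^ s, hv'⟩ : A) = 0 := Subtype.ext (zero_div _)
      rw [h1, map_zero]
    | add v w hv hw ihv ihw =>
      intro hv'
      have hva : v / g ^ s ∈ A := hmem s v (by rw [hspan]; exact hv)
      have hwa : w / g ^ s ∈ A := hmem s w (by rw [hspan]; exact hw)
      have h1 : (⟨(v + w) / g ^ s, hv'⟩ : A) = ⟨v / g ^ s, hva⟩ + ⟨w / g ^ s, hwa⟩ :=
        Subtype.ext (add_div _ _ _)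
      rw [h1, map_add, ihv hva, ihw hwa, add_zero]
    | smul c v hv ih =>
      intro hv'
      have hva : v / g ^ s ∈ A := hmem s v (by rw [hspan]; exact hv)
      have h1 : (⟨(c • v) / g ^ s, hv'⟩ : A) = c • ⟨v / g ^ s, hva⟩ :=
        Subtype.ext (smul_div_assoc _ _ _)
      rw [h1, map_smul, ih hva, smul_zero]
  have h1 : (1 : A) = ∑ j ∈ Finset.range e,
      ⟨b (j + 1) / g ^ (j + 1), hmem (j + 1) _ (hb (j + 1))⟩ := by
    apply Subtype.ext
    rw [AddSubmonoidClass.coe_finsetSum]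
    change (1 : L) = ∑ j ∈ Finset.range e, b (j + 1) / g ^ (j + 1)
    have h2 : (1 : L) = g ^ e / g ^ e := (div_self (pow_ne_zero _ hg0)).symm
    rw [h2]
    nth_rewrite 1 [heq]
    rw [Finset.sum_div]
    apply Finset.sum_congr rfl
    intro j hj
    rw [Finset.mem_range] at hj
    have h3 : g ^ e = g ^ (e - (j + 1)) * g ^ (j + 1) := by
      rw [← pow_add]
      congr 1
      omega
    rw [h3, mul_comm (b (j + 1)), mul_div_mul_left _ _ (pow_ne_zero _ hg0)]
  have h2 := congrArg x h1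
  rw [map_one, map_sum, Finset.sum_eq_zero] at h2
  · exact one_ne_zero h2
  · intro j _
    exact key (j + 1) (Nat.succ_pos j) _ (hb (j + 1)) _

/-- [TD-X3] Some coordinate does not vanish at a given point of the chart `χ^q ≠ 0`.
Proof: by [TD-S8] for `g = χ^q ∈ Sec k` ([TD-C5]): `1 = ∑_{j < e} b_{j+1} / (χ^q)^{j+1}` with
`b_{j+1} ∈ Vz ^ (k (j+1))`; every summand is in `faceAlg` ([TD-X1], [TD-S1]). If `x (z_i^k / χ^q) = 0` for all `i`
(these are in `faceAlg` by [TD-X1]) then `x (p / (χ^q)^s) = 0` for every product `p` of `k s` coordinates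
(`s ≥ 1`): its `k`-th power is a product of elements `z_i^k / χ^q`. So `x (v / (χ^q)^s) = 0` for all `v ∈ Vz ^ (k s)`, `s ≥ 1`,
so `x 1 = 0`, contradiction. (The hypothesis `0 < k` is used.) -/
theorem NTC.exists_coord_ne_zero {J : Type} [Fintype J] {z : J → L}
    {Φ : AddMonoidAlgebra K (Fin n → ℤ) →ₐ[K] L} (h : NTC z n Φ) (B : BD z Φ) {q : Fin n → ℤ}
    {k : ℕ} (hk : 0 < k) (hq : ∀ l, 0 ≤ B.nn l q + k * B.a l)
    (x : faceAlg Φ (faceM B.nn B.a q k) →ₐ[K] K) :
    ∃ (i : J) (hi : z i ^ k / ch Φ q ∈ faceAlg Φ (faceM B.nn B.a q k)),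
      z i ≠ 0 ∧ x ⟨_, hi⟩ ≠ 0 := by
  have hg0 : ch Φ q ≠ 0 := ch_ne_zero Φ q
  have hgS : ch Φ q ∈ Sec K z k := (h.ch_mem_sec_iff B).mpr hq
  obtain ⟨e, b, he, hb, heq⟩ := exists_integral_equation (k := K) h.z_ne hgS
  refine RX3_aux hg0 hk _ ?_ x e b hb heq
  intro s v hv
  rw [h.mem_faceAlg_iff_sec B hq]
  refine ⟨s, ?_⟩
  rw [div_mul_cancel₀ _ (pow_ne_zero _ hg0)]
  exact Vz_pow_le_Sec z (k * s) hv

end

end TOD
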