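import Pool.Agent.TD.A0
import Pool.Agent.TD.RC5
import Pool.Agent.TD.RS1
import Pool.Agent.TD.RS2
import Pool.Agent.TD.RX0
import Pool.Agent.TD.RX1
import Pool.Agent.TD.RX3

universe u

namespace TOD

variable {K L : Type u} [Field K] [Field L] [Algebra K L] {n : ℕ}

noncomputable section

/-- Extending a point to the localisation. -/
theorem RX4_extend {A A' : Subalgebra K L} (x : A →ₐ[K] K) (h₀ : A) (hx : x h₀ ≠ 0)
    (hA' : ∀ y : A', ∃ N : ℕ, (y : L) * (h₀ : L) ^ N ∈ A) :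
    ∃ x' : A' →ₐ[K] K, ∀ (y : A') (N : ℕ) (a : A), (y : L) * (h₀ : L) ^ N = a →
      x' y * x h₀ ^ N = x a := by
  choose N hN using hA'
  set f : A' → K := fun y => x ⟨_, hN y⟩ / x h₀ ^ N y with hf
  have P : ∀ (y : A') (M : ℕ) (a : A), (y : L) * (h₀ : L) ^ M = a → f y * x h₀ ^ M = x a := by
    intro y M a ha
    have hc : x h₀ ^ N y ≠ 0 := pow_ne_zero _ hx
    have h1 : (⟨_, hN y⟩ : A) * h₀ ^ M = a * h₀ ^ N y := by
      apply Subtype.ext
      push_cast
      rw [← ha]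
      ring
    have h2 := congrArg x h1
    rw [map_mul, map_mul, map_pow, map_pow] at h2
    rw [hf]
    simp only
    rw [div_mul_eq_mul_div, h2, mul_div_cancel_right₀ _ hc]
  have hcancel : ∀ (M : ℕ) (a b : K), a * x h₀ ^ M = b * x h₀ ^ M → a = b := fun M a b h =>
    mul_right_cancel₀ (pow_ne_zero _ hx) h
  have f1 : f 1 = 1 := by
    have := P 1 0 1 (by simp)
    simpa using this
  have f2 : ∀ a b, f (a * b) = f a * f b := by
    intro a b
    apply hcancel (N a + N b)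
    rw [P (a * b) (N a + N b) (⟨_, hN a⟩ * ⟨_, hN b⟩) (by push_cast; ring), map_mul,
      ← P a (N a) ⟨_, hN a⟩ rfl, ← P b (N b) ⟨_, hN b⟩ rfl]
    ring
  have f3 : f 0 = 0 := by
    have := P 0 0 0 (by simp)
    simpa using this
  have f4 : ∀ a b, f (a + b) = f a + f b := by
    intro a b
    apply hcancel (N a + N b)
    rw [P (a + b) (N a + N b) (⟨_, hN a⟩ * h₀ ^ N b + ⟨_, hN b⟩ * h₀ ^ N a)
      (by push_cast; ring), map_add, map_mul, map_mul, map_pow, map_pow,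
      ← P a (N a) ⟨_, hN a⟩ rfl, ← P b (N b) ⟨_, hN b⟩ rfl]
    ring
  have f5 : ∀ r : K, f (algebraMap K A' r) = r := by
    intro r
    have := P (algebraMap K A' r) 0 (algebraMap K A r) (by rw [pow_zero, mul_one]; rfl)
    rw [pow_zero, mul_one, AlgHom.commutes] at this
    simpa using this
  let x' : A' →ₐ[K] K :=
    { toFun := f
      map_one' := f1
      map_mul' := f2
      map_zero' := f3
      map_add' := f4
      commutes' := f5 }
  exact ⟨x', P⟩

/-- [TD-X4] A point of the chart `χ^q ≠ 0` is a point of one of the charts `z_i ≠ 0`, with the same local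
ring.
Proof: `i` from [TD-X3], `h₀ = z_i^k / χ^q`, `x h₀ ≠ 0`. (1) `z_j / z_i = (z_j z_i^{k-1} / χ^q) / h₀` with numerator in
`faceAlg`. So every element of `chart K z i` is `a / h₀^N` with `a ∈ faceAlg`; define
`x' (a / h₀^N) = x a / (x h₀)^N`, an algebra homomorphism `chart K z i → K` (well defined; e.g. the
localisation `faceAlg[1/h₀]` inside `L` maps to `K`). (2) `g₀ = χ^q / z_i^k ∈ chart K z i` ([TD-C5]) and
`x' g₀ = 1 / x h₀ ≠ 0`; an element of `faceAlg` is `g / (χ^q)^m`, `g ∈ Sec (k m)` ([TD-X1]), equal to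
`(g / z_i^{k m}) / g₀^m`, with `g / z_i^{k m} ∈ chart K z i`. -/
theorem NTC.exists_sameLoc {J : Type} [Fintype J] {z : J → L}
    {Φ : AddMonoidAlgebra K (Fin n → ℤ) →ₐ[K] L} (h : NTC z n Φ) (B : BD z Φ) {q : Fin n → ℤ}
    {k : ℕ} (hk : 0 < k) (hq : ∀ l, 0 ≤ B.nn l q + k * B.a l)
    (x : faceAlg Φ (faceM B.nn B.a q k) →ₐ[K] K) :
    ∃ (i : J) (x' : chart K z i →ₐ[K] K), z i ≠ 0 ∧ SameLoc x x' := by
  obtain ⟨i, hi, hzi, hxi⟩ := h.exists_coord_ne_zero B hk hq x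
  have hcq : ch Φ q ≠ 0 := ch_ne_zero Φ q
  have hcqS : ch Φ q ∈ Sec K z k := (h.ch_mem_sec_iff B).2 hq
  have hg : ch Φ q / z i ^ k ∈ chart K z i := hcqS i hzi
  have hzV : z i ∈ Vz K z := Submodule.subset_span (Set.mem_range_self i)
  have hN : ∀ y : chart K z i, ∃ N : ℕ,
      (y : L) * (z i ^ k / ch Φ q) ^ N ∈ faceAlg Φ (faceM B.nn B.a q k) := by
    intro y
    obtain ⟨s, hs⟩ := (mem_chart_iff hzi).1 y.2
    refine ⟨s, ?_⟩
    rw [h.mem_faceAlg_iff_sec B hq]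
    refine ⟨s, ?_⟩
    have h1 : (y : L) * (z i ^ k / ch Φ q) ^ s * ch Φ q ^ s =
        ((y : L) * z i ^ s) * z i ^ ((k - 1) * s) := by
      obtain ⟨k', rfl⟩ : ∃ k', k = k' + 1 := ⟨k - 1, by omega⟩
      rw [Nat.add_sub_cancel, div_pow]
      field_simp
      ring
    have h2 : k * s = s + (k - 1) * s := by
      obtain ⟨k', rfl⟩ : ∃ k', k = k' + 1 := ⟨k - 1, by omega⟩
      rw [Nat.add_sub_cancel]
      ring
    rw [h1, h2]
    exact mul_mem_Sec (Vz_pow_le_Sec z s hs) (Vz_pow_le_Sec z _ (Submodule.pow_mem_pow _ hzV _))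
  obtain ⟨x', hx'⟩ := RX4_extend (A' := chart K z i) x ⟨z i ^ k / ch Φ q, hi⟩ hxi hN
  refine ⟨i, x', hzi, ?_, ?_⟩
  · intro a'
    obtain ⟨s, hs⟩ := hN a'
    refine ⟨⟨_, hs⟩, ⟨z i ^ k / ch Φ q, hi⟩ ^ s, ?_, ?_, ?_⟩
    · rw [map_pow]
      exact pow_ne_zero _ hxi
    · push_cast
      rfl
    · rw [map_pow]
      exact hx' a' s ⟨_, hs⟩ rfl
  · intro a
    obtain ⟨m, hm⟩ := (h.mem_faceAlg_iff_sec B hq).1 a.2
    have h1 : (a : L) * (ch Φ q / z i ^ k) ^ m ∈ chart K z i := by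
      have := hm i hzi
      rw [div_pow, ← pow_mul, ← mul_div_assoc]
      exact this
    have h2 := hx' (⟨ch Φ q / z i ^ k, hg⟩ ^ m) m 1 (by
      push_cast
      rw [← mul_pow, div_mul_div_comm, mul_comm (z i ^ k), div_self, one_pow]
      exact mul_ne_zero hcq (pow_ne_zero _ hzi))
    have h3 := hx' ⟨_, h1⟩ m a (by
      simp only
      rw [mul_assoc, ← mul_pow, div_mul_div_comm, mul_comm (z i ^ k), div_self, one_pow, mul_one]
      exact mul_ne_zero hcq (pow_ne_zero _ hzi))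
    rw [map_one] at h2
    refine ⟨⟨_, h1⟩, ⟨ch Φ q / z i ^ k, hg⟩ ^ m, ?_, ?_, ?_⟩
    · intro h0
      rw [h0, zero_mul] at h2
      exact zero_ne_one h2
    · push_cast
      rfl
    · rw [← h3, mul_assoc, mul_comm (x _ ^ m), h2, mul_one]

end

end TOD
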