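import Pool.Agent.TD.A0

universe u

namespace TOD

variable {K L : Type u} [Field K] [Field L] [Algebra K L] {n : ℕ}

noncomputable section

/-- [TD-Y1] On a smooth algebra every tangent vector at `x` is the value at `x` of a derivation.
Proof: make `K` an `A`-module through `x` (`Module.compHom`); `D` is a derivation `A → K`, so a linear map
`Ω[A⁄K] → K` (`Derivation.liftKaehlerDifferential`); `x : A → K` is a surjective `A`-linear map and
`Ω[A⁄K]` is projective (`Algebra.FormallySmooth.projective_kaehlerDifferential`), so it lifts
(`Module.projective_lifting_property`) to `Ω[A⁄K] → A`; compose with the universal derivation. -/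
theorem exists_derivation {A : Subalgebra K L} [Algebra.FormallySmooth K A] (x : A →ₐ[K] K)
    (D : A →ₗ[K] K) (hD : D ∈ tanSub x) : ∃ δ : Derivation K A A, ∀ a, x (δ a) = D a := by
  let _ : Module A K := Module.compHom K x.toRingHom
  have hsm : ∀ (a : A) (c : K), a • c = x a * c := fun a c => rfl
  have hst : IsScalarTower K A K := ⟨fun k a c => by
    rw [hsm, hsm, map_smul, smul_eq_mul, smul_eq_mul, mul_assoc]⟩
  let D' : Derivation K A K := Derivation.mk' D (fun a b => by
    rw [hsm, hsm]
    exact hD a b)
  let l : Ω[A⁄K] →ₗ[A] K := D'.liftKaehlerDifferential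
  let xl : A →ₗ[A] K :=
    { toFun := fun a => x a
      map_add' := fun a b => map_add x a b
      map_smul' := fun a b => by
        change x (a * b) = x a * x b
        exact map_mul x a b }
  have hxl : Function.Surjective xl := fun c => ⟨algebraMap K A c, by
    change x (algebraMap K A c) = c
    rw [AlgHom.commutes]; rfl⟩
  have hproj : Module.Projective A (Ω[A⁄K]) := inferInstance
  obtain ⟨h, hh⟩ := Module.projective_lifting_property xl l hxl
  refine ⟨h.compDer (KaehlerDifferential.D K A), fun a => ?_⟩
  have h1 : xl (h (KaehlerDifferential.D K A a)) = l (KaehlerDifferential.D K A a) :=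
    congrArg (fun f : Ω[A⁄K] →ₗ[A] K => f (KaehlerDifferential.D K A a)) hh
  have h2 : l (KaehlerDifferential.D K A a) = D a := by
    change D'.liftKaehlerDifferential (KaehlerDifferential.D K A a) = D a
    rw [Derivation.liftKaehlerDifferential_comp_D]
    rfl
  rw [← h2, ← h1]
  rfl

end

end TOD
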