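import Pool.Agent.TD.A0

universe u

namespace TOD

variable {K L : Type u} [Field K] [Field L] [Algebra K L] {n : ℕ}

noncomputable section

/-- [TD-Y2] Derivations extend to the field of fractions: `δ (a / b) = (δ a · b - a · δ b) / b ^ 2`. -/
theorem exists_derivation_ext {A : Subalgebra K L} (hA : HasFrac A) (δ : Derivation K A A) :
    ∃ δ' : Derivation K L L, ∀ a : A, δ' (a : L) = (δ a : L) := by
  have hA' : ∀ x : L, ∃ a b : A, (b : L) ≠ 0 ∧ x = a / b := by
    intro x
    obtain ⟨a, ha, b, hb, hb0, hx⟩ := hA x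
    exact ⟨⟨a, ha⟩, ⟨b, hb⟩, hb0, hx⟩
  choose p q hq hpq using hA'
  let F : L → L := fun x => ((δ (p x) : L) * (q x : L) - (p x : L) * (δ (q x) : L)) / (q x : L) ^ 2
  have key : ∀ (x : L) (a b : A), (b : L) ≠ 0 → x * b = a →
      F x = ((δ a : L) * (b : L) - (a : L) * (δ b : L)) / (b : L) ^ 2 := by
    intro x a b hb hx
    have h1 : (p x : L) = x * (q x : L) := by
      have := hpq x
      rw [eq_div_iff (hq x)] at this
      exact this.symm
    have h2 : (p x) * b = a * (q x) := by
      apply Subtype.ext
      push_cast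
      rw [h1, ← hx]; ring
    have h3 := congrArg δ h2
    rw [Derivation.leibniz, Derivation.leibniz] at h3
    have h4 := congrArg (fun w : A => (w : L)) h3
    simp only [smul_eq_mul] at h4
    push_cast at h4
    change ((δ (p x) : L) * (q x : L) - (p x : L) * (δ (q x) : L)) / (q x : L) ^ 2 = _
    rw [div_eq_div_iff (pow_ne_zero 2 (hq x)) (pow_ne_zero 2 hb)]
    rw [← hx] at h4 ⊢
    rw [h1] at h4 ⊢
    linear_combination (b : L) * (q x : L) * h4
  have hF : ∀ x y : L, F (x + y) = F x + F y := by
    intro x y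
    have h1 : x * (q x : L) = (p x : L) := (eq_div_iff (hq x)).mp (hpq x)
    have h2 : y * (q y : L) = (p y : L) := (eq_div_iff (hq y)).mp (hpq y)
    rw [key (x + y) (p x * q y + p y * q x) (q x * q y)
      (by push_cast; exact mul_ne_zero (hq x) (hq y)) (by push_cast; rw [← h1, ← h2]; ring)]
    change _ = ((δ (p x) : L) * (q x : L) - (p x : L) * (δ (q x) : L)) / (q x : L) ^ 2 +
      ((δ (p y) : L) * (q y : L) - (p y : L) * (δ (q y) : L)) / (q y : L) ^ 2
    rw [map_add, Derivation.leibniz, Derivation.leibniz, Derivation.leibniz]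
    simp only [smul_eq_mul]
    push_cast
    have := hq x
    have := hq y
    field_simp
    ring
  have hM : ∀ x y : L, F (x * y) = x * F y + y * F x := by
    intro x y
    have h1 : x * (q x : L) = (p x : L) := (eq_div_iff (hq x)).mp (hpq x)
    have h2 : y * (q y : L) = (p y : L) := (eq_div_iff (hq y)).mp (hpq y)
    rw [key (x * y) (p x * p y) (q x * q y)
      (by push_cast; exact mul_ne_zero (hq x) (hq y)) (by push_cast; rw [← h1, ← h2]; ring)]
    change _ = x * (((δ (p y) : L) * (q y : L) - (p y : L) * (δ (q y) : L)) / (q y : L) ^ 2) +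
      y * (((δ (p x) : L) * (q x : L) - (p x : L) * (δ (q x) : L)) / (q x : L) ^ 2)
    rw [Derivation.leibniz, Derivation.leibniz]
    simp only [smul_eq_mul]
    push_cast
    rw [← h1, ← h2]
    have := hq x
    have := hq y
    field_simp
    ring
  have hA1 : ∀ a : A, F (a : L) = (δ a : L) := by
    intro a
    rw [key (a : L) a 1 (by push_cast; exact one_ne_zero) (by push_cast; ring)]
    rw [Derivation.map_one_eq_zero]
    push_cast
    ring
  have hK : ∀ c : K, F (algebraMap K L c) = 0 := by
    intro c
    have h1 := hA1 (algebraMap K A c)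
    rw [Derivation.map_algebraMap] at h1
    exact h1
  let Fl : L →ₗ[K] L :=
    { toFun := F
      map_add' := hF
      map_smul' := fun c x => by
        rw [Algebra.smul_def, hM, hK, RingHom.id_apply, Algebra.smul_def, mul_zero, add_zero] }
  refine ⟨Derivation.mk' Fl (fun a b => by
    rw [smul_eq_mul, smul_eq_mul]
    exact hM a b), fun a => hA1 a⟩

end

end TOD
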