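import Pool.Agent.TD.A0

universe u

namespace TOD

variable {K L : Type u} [Field K] [Field L] [Algebra K L] {n : ℕ}

noncomputable section

/-- [TD-Y3] `L`, the function field of an `n`-dimensional torus, has at most `n` linearly independent
derivations: a derivation of `L` is determined by its values on `χ^{e_1}, …, χ^{e_n}`. So for `s > n`
derivations there is a nontrivial linear relation with coefficients in `L`
(the vectors `(δ_i (χ^{e_k}))_k ∈ L^n`, `i : Fin s`, are linearly dependent). -/
theorem exists_relation {Φ : AddMonoidAlgebra K (Fin n → ℤ) →ₐ[K] L}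
    (hΦ : ∀ x : L, ∃ f g, Φ g ≠ 0 ∧ x = Φ f / Φ g) {s : ℕ} (hs : n < s)
    (δ : Fin s → Derivation K L L) :
    ∃ c : Fin s → L, c ≠ 0 ∧ ∀ x, ∑ i, c i * δ i x = 0 := by
  let v : Fin s → Fin n → L := fun i k => δ i (ch Φ (Pi.single k 1))
  have hdep : ¬ LinearIndependent L v := by
    intro h
    have h1 := h.fintype_card_le_finrank
    rw [Fintype.card_fin, Module.finrank_fin_fun] at h1
    omega
  rw [Fintype.not_linearIndependent_iff] at hdep
  obtain ⟨c, hc, i₀, hi₀⟩ := hdep
  let Δ : Derivation K L L := ∑ i, c i • δ i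
  have hΔ : ∀ x, Δ x = ∑ i, c i * δ i x := by
    intro x
    have : ∀ t : Finset (Fin s), (∑ i ∈ t, c i • δ i : Derivation K L L) x =
        ∑ i ∈ t, c i * δ i x := by
      intro t
      induction t using Finset.induction_on with
      | empty => simp
      | insert a t ha ih =>
        rw [Finset.sum_insert ha, Finset.sum_insert ha, Derivation.add_apply, ih,
          Derivation.smul_apply, smul_eq_mul]
    exact this Finset.univ
  have h0 : ∀ k : Fin n, Δ (ch Φ (Pi.single k 1)) = 0 := by
    intro k
    rw [hΔ]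
    have := congrFun hc k
    rw [Finset.sum_apply] at this
    exact this
  have hadd : ∀ u w : Fin n → ℤ, Δ (ch Φ u) = 0 → Δ (ch Φ w) = 0 → Δ (ch Φ (u + w)) = 0 := by
    intro u w hu hw
    rw [ch_add, Derivation.leibniz, hu, hw, smul_zero, smul_zero, add_zero]
  have hneg : ∀ u : Fin n → ℤ, Δ (ch Φ u) = 0 → Δ (ch Φ (-u)) = 0 := by
    intro u hu
    have h1 : Δ (ch Φ u * ch Φ (-u)) = 0 := by
      rw [← ch_add, add_neg_cancel, ch_zero, Derivation.map_one_eq_zero]
    rw [Derivation.leibniz, hu, smul_zero, add_zero, smul_eq_mul] at h1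
    exact (mul_eq_zero.mp h1).resolve_left (ch_ne_zero Φ u)
  let S : AddSubgroup (Fin n → ℤ) :=
    { carrier := {u | Δ (ch Φ u) = 0}
      add_mem' := fun {u w} hu hw => hadd u w hu hw
      zero_mem' := by
        change Δ (ch Φ 0) = 0
        rw [ch_zero, Derivation.map_one_eq_zero]
      neg_mem' := fun {u} hu => hneg u hu }
  have hS : ∀ u : Fin n → ℤ, u ∈ S := by
    intro u
    have h1 : u = ∑ k, u k • (Pi.single k 1 : Fin n → ℤ) := by
      funext j
      rw [Finset.sum_apply]
      simp [Pi.single_apply]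
    rw [h1]
    exact AddSubgroup.sum_mem S fun k _ => AddSubgroup.zsmul_mem S (h0 k) (u k)
  have hf : ∀ f : AddMonoidAlgebra K (Fin n → ℤ), Δ (Φ f) = 0 := by
    intro f
    induction f using AddMonoidAlgebra.induction_linear with
    | zero => rw [map_zero, map_zero]
    | add f g hf hg => rw [map_add, map_add, hf, hg, add_zero]
    | single u a =>
      have h1 : (AddMonoidAlgebra.single u a : AddMonoidAlgebra K (Fin n → ℤ)) =
          a • AddMonoidAlgebra.single u 1 := by
        rw [AddMonoidAlgebra.smul_single, smul_eq_mul, mul_one]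
      rw [h1, map_smul, Derivation.map_smul]
      have := hS u
      change a • Δ (ch Φ u) = 0
      rw [show Δ (ch Φ u) = 0 from this, smul_zero]
  refine ⟨c, fun h => hi₀ (by rw [h]; rfl), fun x => ?_⟩
  rw [← hΔ]
  obtain ⟨f, g, hg, hx⟩ := hΦ x
  have h1 : x * Φ g = Φ f := (eq_div_iff hg).mp hx
  have h2 : Δ (x * Φ g) = 0 := by rw [h1, hf]
  rw [Derivation.leibniz, hf, smul_zero, zero_add, smul_eq_mul] at h2
  exact (mul_eq_zero.mp h2).resolve_left hg

end

end TOD
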