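import Pool.Agent.TD.A0
import Pool.Agent.TD.RY1
import Pool.Agent.TD.RY2
import Pool.Agent.TD.RY3

universe u

namespace TOD

variable {K L : Type u} [Field K] [Field L] [Algebra K L] {n : ℕ}

noncomputable section

/-- linearly independent functionals separate vectors -/
theorem RY4_dual {V : Type u} [AddCommGroup V] [Module K V] {s : ℕ} (D : Fin s → V →ₗ[K] K)
    (hlin : LinearIndependent K D) : ∃ a : Fin s → V, ∀ i j, D i (a j) = if i = j then 1 else 0 := by
  have hsurj : Function.Surjective (LinearMap.pi D) := by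
    rw [← LinearMap.range_eq_top]
    by_contra hne
    obtain ⟨f, hf, hfk⟩ := Submodule.exists_le_ker_of_lt_top _ (lt_top_iff_ne_top.mpr hne)
    apply hf
    have h1 : ∀ w : Fin s → K, f w = ∑ i, f (Pi.single i 1) * w i := by
      intro w
      have h2 : w = ∑ i, w i • (Pi.single i 1 : Fin s → K) := by
        funext j
        rw [Finset.sum_apply]
        simp [Pi.single_apply]
      conv_lhs => rw [h2]
      rw [map_sum]
      refine Finset.sum_congr rfl fun i _ => ?_
      rw [map_smul, smul_eq_mul, mul_comm]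
    have h3 : ∑ i, f (Pi.single i 1) • D i = 0 := by
      ext v
      rw [LinearMap.sum_apply, LinearMap.zero_apply]
      have h4 : f (LinearMap.pi D v) = 0 := hfk ⟨v, rfl⟩
      rw [h1] at h4
      exact h4
    have h5 := Fintype.linearIndependent_iff.mp hlin _ h3
    ext i
    rw [LinearMap.comp_apply, LinearMap.single_apply, LinearMap.zero_comp, LinearMap.zero_apply]
    exact h5 i
  choose a ha using fun j : Fin s => hsurj (Pi.single j 1)
  refine ⟨a, fun i j => ?_⟩
  have := congrFun (ha j) i
  rw [LinearMap.pi_apply] at this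
  rw [this, Pi.single_apply]

/-- [TD-Y4] On a smooth chart there are at most `n` linearly independent tangent vectors at a point.
Proof: linearly independent functions `D_1, …, D_s : A → K` have `a_1, …, a_s ∈ A` with `det (D_i (a_j)) ≠ 0`
(induction on `s`). Lift `D_i` to derivations `δ_i : A → A` ([TD-Y1]) and extend them to `L` ([TD-Y2]). If `n < s`,
[TD-Y3] gives `c ≠ 0` in `L^s` with `∑ c_i δ_i (a_j) = 0` for all `j`, so `det (δ_i (a_j)) = 0` in `A`; apply
`x`: `det (D_i (a_j)) = 0`, contradiction. -/
theorem card_le_of_linearIndependent {Φ : AddMonoidAlgebra K (Fin n → ℤ) →ₐ[K] L}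
    (hΦ : ∀ x : L, ∃ f g, Φ g ≠ 0 ∧ x = Φ f / Φ g) {A : Subalgebra K L}
    [Algebra.FormallySmooth K A] (hA : HasFrac A) (x : A →ₐ[K] K) {s : ℕ}
    (D : Fin s → A →ₗ[K] K) (hD : ∀ i, D i ∈ tanSub x) (hlin : LinearIndependent K D) : s ≤ n := by
  by_contra hs
  rw [not_le] at hs
  obtain ⟨a, ha⟩ := RY4_dual D hlin
  choose δ hδ using fun i => exists_derivation x (D i) (hD i)
  choose δ' hδ' using fun i => exists_derivation_ext hA (δ i)
  obtain ⟨c, hc, hc1⟩ := exists_relation hΦ hs δ'
  let M : Matrix (Fin s) (Fin s) A := Matrix.of fun i j => δ i (a j)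
  have hM : (M.map (algebraMap A L)).det = 0 := by
    rw [← Matrix.exists_vecMul_eq_zero_iff]
    refine ⟨c, hc, ?_⟩
    funext j
    rw [Matrix.vecMul, dotProduct]
    simp only [Matrix.map_apply, M, Matrix.of_apply, Pi.zero_apply]
    rw [← hc1 (a j)]
    refine Finset.sum_congr rfl fun i _ => ?_
    rw [hδ']
    rfl
  have hM1 : M.det = 0 := by
    rw [← RingHom.mapMatrix_apply, ← RingHom.map_det] at hM
    have h2 : ((M.det : A) : L) = 0 := hM
    exact_mod_cast h2
  have h3 : x M.det = 1 := by
    have h4 := AlgHom.map_det x M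
    rw [h4]
    have h5 : x.mapMatrix M = 1 := by
      ext i j
      rw [AlgHom.mapMatrix_apply, Matrix.map_apply, Matrix.one_apply]
      change x (δ i (a j)) = _
      rw [hδ, ha]
    rw [h5, Matrix.det_one]
  rw [hM1, map_zero] at h3
  exact zero_ne_one h3

end

end TOD
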