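import Pool.Agent.TD.A0

universe u

namespace TOD

variable {K L : Type u} [Field K] [Field L] [Algebra K L] {n : ℕ}

noncomputable section

/-- [TD-Y5] Tangent spaces depend only on the local ring.
Proof: for `D ∈ tanSub x` and `a' ∈ A'`, `a' b = a` with `x b ≠ 0`, put `D' a' = (D a · x b - x a · D b) / x b ^ 2`.
Well defined (if `a' b = a`, `a' d = c` then `a d = c b` in `L`, so in `A`), linear and in `tanSub x'`. If `D' = 0` and `a ∈ A`,
`a d = c` with `c, d ∈ A'`, `x' d ≠ 0`; write `d b = e`, `c b = e'` with `b, e, e' ∈ A`, `x b ≠ 0` (common denominator); then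
`a e = e'`, `x e ≠ 0`, and `D' d = 0`, `D' c = 0` say `D e · x b = x e · D b`, `D e' · x b = x e' · D b`; from
`D e' = D (a e) = x a · D e + x e · D a` and `x e' = x a · x e` we get `D a = 0`. -/
theorem SameLoc.exists_linearMap {A A' : Subalgebra K L} {x : A →ₐ[K] K} {x' : A' →ₐ[K] K}
    (h : SameLoc x x') : ∃ ψ : tanSub x →ₗ[K] tanSub x', Function.Injective ψ := by
  choose p q hq hpq hx' using h.1
  have hxx : ∀ a', x' a' = x (p a') / x (q a') := fun a' => (eq_div_iff (hq a')).mpr (hx' a')
  let F : (A →ₗ[K] K) → A' → K := fun D a' =>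
    (D (p a') * x (q a') - x (p a') * D (q a')) / x (q a') ^ 2
  have key : ∀ D ∈ tanSub x, ∀ (a' : A') (a b : A), x b ≠ 0 → (a' : L) * b = a →
      F D a' = (D a * x b - x a * D b) / x b ^ 2 := by
    intro D hD a' a b hb hab
    have h1 : (p a') * b = a * (q a') := by
      apply Subtype.ext
      push_cast
      rw [← hpq, ← hab]; ring
    have h2 : x (p a') * x b = x a * x (q a') := by rw [← map_mul, h1, map_mul]
    have h3 : x (p a') * D b + x b * D (p a') = x a * D (q a') + x (q a') * D a := by
      rw [← hD (p a') b, h1, hD a (q a')]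
    change (D (p a') * x (q a') - x (p a') * D (q a')) / x (q a') ^ 2 = _
    rw [div_eq_div_iff (pow_ne_zero 2 (hq a')) (pow_ne_zero 2 hb)]
    linear_combination (x b * x (q a')) * h3 - (x (q a') * D b + x b * D (q a')) * h2
  have hadd : ∀ D ∈ tanSub x, ∀ a' c' : A', F D (a' + c') = F D a' + F D c' := by
    intro D hD a' c'
    rw [key D hD (a' + c') (p a' * q c' + p c' * q a') (q a' * q c')
      (by rw [map_mul]; exact mul_ne_zero (hq a') (hq c'))
      (by push_cast; rw [← hpq, ← hpq]; ring)]
    change _ = (D (p a') * x (q a') - x (p a') * D (q a')) / x (q a') ^ 2 +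
      (D (p c') * x (q c') - x (p c') * D (q c')) / x (q c') ^ 2
    rw [map_add, hD, hD, hD]
    simp only [map_add, map_mul]
    have h1 := hq a'
    have h2 := hq c'
    field_simp
    ring
  have hsmul : ∀ D ∈ tanSub x, ∀ (k : K) (a' : A'), F D (k • a') = k * F D a' := by
    intro D hD k a'
    rw [key D hD (k • a') (k • p a') (q a') (hq a')
      (by
        change (k • (a' : L)) * (q a' : L) = k • (p a' : L)
        rw [← hpq, smul_mul_assoc])]
    change _ = k * ((D (p a') * x (q a') - x (p a') * D (q a')) / x (q a') ^ 2)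
    rw [map_smul, map_smul, smul_eq_mul, smul_eq_mul]
    ring
  have hleib : ∀ D ∈ tanSub x, ∀ a' c' : A', F D (a' * c') = x' a' * F D c' + x' c' * F D a' := by
    intro D hD a' c'
    rw [key D hD (a' * c') (p a' * p c') (q a' * q c')
      (by rw [map_mul]; exact mul_ne_zero (hq a') (hq c'))
      (by push_cast; rw [← hpq, ← hpq]; ring)]
    change _ = x' a' * ((D (p c') * x (q c') - x (p c') * D (q c')) / x (q c') ^ 2) +
      x' c' * ((D (p a') * x (q a') - x (p a') * D (q a')) / x (q a') ^ 2)
    rw [hD, hD, hxx, hxx]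
    simp only [map_mul]
    have h1 := hq a'
    have h2 := hq c'
    field_simp
    ring
  let ψ : tanSub x →ₗ[K] tanSub x' :=
    { toFun := fun D =>
        ⟨{ toFun := F D.1
           map_add' := hadd D.1 D.2
           map_smul' := fun k a' => by
            rw [hsmul D.1 D.2, RingHom.id_apply, smul_eq_mul] },
          fun a' c' => hleib D.1 D.2 a' c'⟩
      map_add' := fun D E => by
        apply Subtype.ext
        ext a'
        change ((D.1 + E.1) (p a') * x (q a') - x (p a') * (D.1 + E.1) (q a')) / x (q a') ^ 2 =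
          (D.1 (p a') * x (q a') - x (p a') * D.1 (q a')) / x (q a') ^ 2 +
          (E.1 (p a') * x (q a') - x (p a') * E.1 (q a')) / x (q a') ^ 2
        rw [LinearMap.add_apply, LinearMap.add_apply]
        ring
      map_smul' := fun k D => by
        apply Subtype.ext
        ext a'
        change ((k • D.1) (p a') * x (q a') - x (p a') * (k • D.1) (q a')) / x (q a') ^ 2 =
          k * ((D.1 (p a') * x (q a') - x (p a') * D.1 (q a')) / x (q a') ^ 2)
        rw [LinearMap.smul_apply, LinearMap.smul_apply, smul_eq_mul, smul_eq_mul]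
        ring }
  refine ⟨ψ, ?_⟩
  rw [injective_iff_map_eq_zero]
  intro D hD0
  have hD' : ∀ a', F D.1 a' = 0 := by
    intro a'
    have := congrArg (fun E : tanSub x' => E.1 a') hD0
    exact this
  have hD := D.2
  apply Subtype.ext
  ext a
  rw [Submodule.coe_zero, LinearMap.zero_apply]
  obtain ⟨c, d, hd, hcd, hxcd⟩ := h.2 a
  have hb : x (q d * q c) ≠ 0 := by rw [map_mul]; exact mul_ne_zero (hq d) (hq c)
  have he : (d : L) * ((q d * q c : A) : L) = ((p d * q c : A) : L) := by
    push_cast; rw [← hpq]; ring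
  have he' : (c : L) * ((q d * q c : A) : L) = ((p c * q d : A) : L) := by
    push_cast; rw [← hpq]; ring
  have k1 := key D.1 hD d _ _ hb he
  have k2 := key D.1 hD c _ _ hb he'
  rw [hD'] at k1 k2
  rw [eq_comm, div_eq_zero_iff, or_iff_left (pow_ne_zero 2 hb), sub_eq_zero] at k1 k2
  have hee : a * (p d * q c) = p c * q d := by
    apply Subtype.ext
    rw [Subalgebra.coe_mul, ← he, ← he', ← mul_assoc, hcd]
  have k3 := hD a (p d * q c)
  rw [hee] at k3
  have k4 : x a * x (p d * q c) = x (p c * q d) := by rw [← map_mul, hee]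
  have k5 : x (p d * q c) ≠ 0 := by
    rw [map_mul]
    refine mul_ne_zero ?_ (hq c)
    rw [← hx']
    exact mul_ne_zero hd (hq d)
  have k6 : x (q d * q c) * x (p d * q c) * D.1 a = 0 := by
    linear_combination k2 - x a * k1 - x (q d * q c) * k3 - D.1 (q d * q c) * k4
  rcases mul_eq_zero.mp k6 with h7 | h7
  · rcases mul_eq_zero.mp h7 with h8 | h8
    · exact (hb h8).elim
    · exact (k5 h8).elim
  · exact h7

end

end TOD
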