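import Pool.Agent.TD.A0
import Pool.Agent.TD.RC8
import Pool.Agent.TD.RY4
import Pool.Agent.TD.RY5
import Pool.Agent.TD.RX0
import Pool.Agent.TD.RX2
import Pool.Agent.TD.RX4

universe u

namespace TOD

variable {K L : Type u} [Field K] [Field L] [Algebra K L] {n : ℕ}

noncomputable section

theorem RX5_aux {Φ : AddMonoidAlgebra K (Fin n → ℤ) →ₐ[K] L} (hΦ : Function.Injective Φ)
    (C : AddSubmonoid (Fin n → ℤ)) (e : (Fin n → ℤ) → K) (x : faceAlg Φ C →ₐ[K] K)
    (hx : ∀ (u : Fin n → ℤ) (hu : ch Φ u ∈ faceAlg Φ C), u ∈ C → x ⟨ch Φ u, hu⟩ = e u)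
    (D : (Fin n → ℤ) → K)
    (hD : ∀ u ∈ C, ∀ v ∈ C, D (u + v) = e u * D v + e v * D u) :
    ∃ D' : faceAlg Φ C →ₗ[K] K, D' ∈ tanSub x ∧
      ∀ (u : Fin n → ℤ) (hu : ch Φ u ∈ faceAlg Φ C), u ∈ C → D' ⟨ch Φ u, hu⟩ = D u := by
  have hch : ∀ u ∈ C, ch Φ u ∈ faceAlg Φ C := fun u hu => Algebra.subset_adjoin ⟨u, hu, rfl⟩
  have hrange : ∀ y : faceAlg Φ C, (y : L) ∈ LinearMap.range Φ.toLinearMap := by
    intro y
    obtain ⟨f, hf, -⟩ := (mem_faceAlg_iff Φ C).1 y.2
    exact ⟨f, hf.symm⟩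
  let ι : faceAlg Φ C →ₗ[K] LinearMap.range Φ.toLinearMap :=
    LinearMap.codRestrict _ (faceAlg Φ C).val.toLinearMap hrange
  let E : AddMonoidAlgebra K (Fin n → ℤ) ≃ₗ[K] LinearMap.range Φ.toLinearMap :=
    LinearEquiv.ofInjective Φ.toLinearMap hΦ
  let D' : faceAlg Φ C →ₗ[K] K := Finsupp.linearCombination K D ∘ₗ
    (AddMonoidAlgebra.coeffLinearEquiv K).toLinearMap ∘ₗ E.symm.toLinearMap ∘ₗ ι
  have hD' : ∀ (u : Fin n → ℤ) (hu : ch Φ u ∈ faceAlg Φ C), D' ⟨ch Φ u, hu⟩ = D u := by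
    intro u hu
    have h1 : E.symm (ι ⟨ch Φ u, hu⟩) = AddMonoidAlgebra.single u 1 := by
      rw [LinearEquiv.symm_apply_eq]
      apply Subtype.ext
      rfl
    have h2 : D' ⟨ch Φ u, hu⟩ = Finsupp.linearCombination K D
      (AddMonoidAlgebra.coeffLinearEquiv K (E.symm (ι ⟨ch Φ u, hu⟩))) := rfl
    rw [h2, h1]
    have h3 : AddMonoidAlgebra.coeffLinearEquiv K (AddMonoidAlgebra.single u (1 : K)) =
      Finsupp.single u 1 := rfl
    rw [h3, Finsupp.linearCombination_single, one_smul]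
  have hspan : ∀ y : faceAlg Φ C,
      y ∈ Submodule.span K {y : faceAlg Φ C | ∃ u ∈ C, (y : L) = ch Φ u} := by
    intro y
    obtain ⟨f, hf, hf2⟩ := (mem_faceAlg_iff Φ C).1 y.2
    have h1 : ∀ u ∈ f.coeff.support, ch Φ u ∈ faceAlg Φ C := fun u hu =>
      hch u (hf2 u (Finsupp.mem_support_iff.1 hu))
    have h2 : y = ∑ u ∈ f.coeff.support.attach, f.coeff u.1 • (⟨ch Φ u.1, h1 u.1 u.2⟩ : faceAlg Φ C) := by
      apply Subtype.ext
      push_cast
      rw [Finset.sum_attach f.coeff.support (fun u => f.coeff u • ch Φ u), hf]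
      conv_lhs => rw [← AddMonoidAlgebra.sum_coeff_single f]
      rw [Finsupp.sum, map_sum]
      refine Finset.sum_congr rfl fun u _ => ?_
      rw [ch, ← map_smul]
      congr 1
      simp
    rw [h2]
    refine Submodule.sum_mem _ fun u _ => Submodule.smul_mem _ _ (Submodule.subset_span ?_)
    exact ⟨u.1, hf2 u.1 (Finsupp.mem_support_iff.1 u.2), rfl⟩
  refine ⟨D', ?_, fun u hu _ => hD' u hu⟩
  intro a b
  have ha := hspan a
  have hb := hspan b
  induction ha using Submodule.span_induction with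
  | mem a ha =>
    obtain ⟨u, hu, hua⟩ := ha
    obtain rfl : a = ⟨ch Φ u, hch u hu⟩ := Subtype.ext hua
    induction hb using Submodule.span_induction with
    | mem b hb =>
      obtain ⟨v, hv, hvb⟩ := hb
      obtain rfl : b = ⟨ch Φ v, hch v hv⟩ := Subtype.ext hvb
      have h1 : (⟨ch Φ u, hch u hu⟩ * ⟨ch Φ v, hch v hv⟩ : faceAlg Φ C) =
          ⟨ch Φ (u + v), hch _ (add_mem hu hv)⟩ := Subtype.ext (ch_add Φ u v).symm
      rw [h1, hD', hD', hD', hx u _ hu, hx v _ hv, hD u hu v hv]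
    | zero => simp
    | add b b' _ _ h1 h2 =>
      rw [mul_add, map_add, map_add, map_add, h1, h2]
      ring
    | smul c b _ h1 =>
      rw [mul_smul_comm, map_smul, map_smul, map_smul, h1]
      simp only [smul_eq_mul]
      ring
  | zero => simp
  | add a a' _ _ h1 h2 =>
    rw [add_mul, map_add, map_add, map_add, h1, h2]
    ring
  | smul c a _ h1 =>
    rw [smul_mul_assoc, map_smul, map_smul, map_smul, h1]
    simp only [smul_eq_mul]
    ring

/-- [TD-X5] Counting tangent vectors at the distinguished point of a face: at most `n` linearly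
independent functions `D : C → K` with `D (u + v) = e u · D v + e v · D u`, where `C` is the cone of the face and
`e u = 1` if `nn l u = 0` for all tight `l`, `e u = 0` otherwise. (`D` is only relevant on `C`.)
Proof: `x` from [TD-X2] with `F u ↔ ∀ l, nn l q + k a_l = 0 → nn l u = 0`; each `D i` defines an element of `tanSub x`
(the characters `ch Φ u`, `u ∈ C`, are a basis of `faceAlg`, by [TD-X0] and injectivity of `Φ`); [TD-X4], [TD-Y5], [TD-Y4]
(`h.smooth`, `h.frac`). -/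
theorem NTC.card_le {J : Type} [Fintype J] {z : J → L}
    {Φ : AddMonoidAlgebra K (Fin n → ℤ) →ₐ[K] L} (h : NTC z n Φ) (B : BD z Φ) {q : Fin n → ℤ}
    {k : ℕ} (hk : 0 < k) (hq : ∀ l, 0 ≤ B.nn l q + k * B.a l)
    (e : (Fin n → ℤ) → K)
    (he1 : ∀ u, (∀ l, B.nn l q + k * B.a l = 0 → B.nn l u = 0) → e u = 1)
    (he0 : ∀ u, (¬ ∀ l, B.nn l q + k * B.a l = 0 → B.nn l u = 0) → e u = 0)
    {s : ℕ} (D : Fin s → (Fin n → ℤ) → K)
    (hD : ∀ i, ∀ u ∈ faceM B.nn B.a q k, ∀ v ∈ faceM B.nn B.a q k,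
      D i (u + v) = e u * D i v + e v * D i u)
    (hlin : ∀ c : Fin s → K, (∀ u ∈ faceM B.nn B.a q k, ∑ i, c i * D i u = 0) → c = 0) :
    s ≤ n := by
  have hch : ∀ u ∈ faceM B.nn B.a q k, ch Φ u ∈ faceAlg Φ (faceM B.nn B.a q k) :=
    fun u hu => Algebra.subset_adjoin ⟨u, hu, rfl⟩
  obtain ⟨x, hx⟩ := exists_point (K := K) h.Φ_inj (faceM B.nn B.a q k)
    (fun u => ∀ l, B.nn l q + k * B.a l = 0 → B.nn l u = 0) (fun l _ => map_zero _) (by
      intro u hu v hv
      constructor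
      · intro huv
        refine ⟨fun l hl => ?_, fun l hl => ?_⟩ <;>
        · have h1 := huv l hl
          have h2 := hu l hl
          have h3 := hv l hl
          rw [map_add] at h1
          omega
      · rintro ⟨h1, h2⟩ l hl
        rw [map_add, h1 l hl, h2 l hl, add_zero])
  have hx' : ∀ (u : Fin n → ℤ) (hu : ch Φ u ∈ faceAlg Φ (faceM B.nn B.a q k)),
      u ∈ faceM B.nn B.a q k → x ⟨ch Φ u, hu⟩ = e u := by
    intro u hu huC
    by_cases hF : ∀ l, B.nn l q + k * B.a l = 0 → B.nn l u = 0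
    · rw [he1 u hF]
      exact (hx u hu huC).1 hF
    · rw [he0 u hF]
      exact (hx u hu huC).2 hF
  choose D' hD'1 hD'2 using fun i => RX5_aux h.Φ_inj (faceM B.nn B.a q k) e x hx' (D i) (hD i)
  have hli : LinearIndependent K D' := by
    rw [Fintype.linearIndependent_iff]
    intro c hc
    have : c = 0 := by
      apply hlin
      intro u hu
      have h1 := LinearMap.congr_fun hc ⟨ch Φ u, hch u hu⟩
      rw [LinearMap.sum_apply] at h1
      simpa [hD'2 _ u (hch u hu) hu] using h1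
    intro i
    rw [this]
    rfl
  obtain ⟨i, x', hzi, hloc⟩ := h.exists_sameLoc B hk hq x
  obtain ⟨ψ, hψ⟩ := hloc.exists_linearMap
  have hli4 : LinearIndependent K
      (fun j => ((ψ ⟨D' j, hD'1 j⟩ : tanSub x') : chart K z i →ₗ[K] K)) := by
    rw [Fintype.linearIndependent_iff]
    intro c hc
    have h1 : ψ (∑ j, c j • (⟨D' j, hD'1 j⟩ : tanSub x)) = 0 := by
      rw [map_sum]
      apply Subtype.ext
      rw [Submodule.coe_sum, Submodule.coe_zero, ← hc]
      refine Finset.sum_congr rfl fun j _ => ?_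
      rw [map_smul]
      rfl
    have h2 : ∑ j, c j • (⟨D' j, hD'1 j⟩ : tanSub x) = 0 := hψ (h1.trans (map_zero ψ).symm)
    have h3 : ∑ j, c j • D' j = 0 := by
      have h4 := congrArg Subtype.val h2
      rw [Submodule.coe_sum, Submodule.coe_zero] at h4
      exact h4
    exact Fintype.linearIndependent_iff.1 hli c h3
  have := h.smooth i hzi
  exact card_le_of_linearIndependent h.Φ_frac (h.frac i hzi) x' _
    (fun j => (ψ ⟨D' j, hD'1 j⟩).2) hli4

end

end TOD
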