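import Pool.Agent.TD.A0

universe u

namespace TOD

noncomputable section

/-- [TD-Z2] The monoid is generated by its irreducible elements: strong induction on the sum of the
coordinates. -/
theorem posM_le_closure_irr {n : ℕ} {τ : Type} [Fintype τ] (φ : (Fin n → ℤ) →+ (τ → ℤ)) :
    posM φ ≤ AddSubmonoid.closure (irr φ) := by
  classical
  have hsum : ∀ w : τ → ℤ, (∀ l, 0 ≤ w l) → w ≠ 0 → 0 < ∑ l, w l := by
    intro w hw hne
    obtain ⟨l, hl⟩ : ∃ l, w l ≠ 0 := by
      by_contra h
      push Not at h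
      exact hne (funext h)
    exact Finset.sum_pos' (fun l _ => hw l) ⟨l, Finset.mem_univ _, lt_of_le_of_ne (hw l) hl.symm⟩
  have key : ∀ N : ℕ, ∀ w ∈ posM φ, ∑ l, w l ≤ (N : ℤ) → w ∈ AddSubmonoid.closure (irr φ) := by
    intro N
    induction N with
    | zero =>
      intro w hw hN
      by_cases h0 : w = 0
      · rw [h0]
        exact zero_mem _
      · have := hsum w hw.2 h0
        push_cast at hN
        omega
    | succ N ih =>
      intro w hw hN
      by_cases h0 : w = 0
      · rw [h0]
        exact zero_mem _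
      by_cases hirr : w ∈ irr φ
      · exact AddSubmonoid.subset_closure hirr
      · have h1 : ∃ w₁ ∈ posM φ, ∃ w₂ ∈ posM φ, w = w₁ + w₂ ∧ w₁ ≠ 0 ∧ w₂ ≠ 0 := by
          by_contra hcon
          push Not at hcon
          apply hirr
          refine ⟨hw, h0, fun w₁ h1 w₂ h2 h3 => ?_⟩
          by_contra h4
          push Not at h4
          exact h4.2 (hcon w₁ h1 w₂ h2 h3 h4.1)
        obtain ⟨w₁, hw1, w₂, hw2, rfl, hn1, hn2⟩ := h1
        have h2 := hsum w₁ hw1.2 hn1
        have h3 := hsum w₂ hw2.2 hn2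
        have h4 : ∑ l, (w₁ + w₂) l = ∑ l, w₁ l + ∑ l, w₂ l := Finset.sum_add_distrib
        rw [h4] at hN
        push_cast at hN
        refine add_mem (ih _ hw1 (by omega)) (ih _ hw2 (by omega))
  intro w hw
  refine key (∑ l, w l).toNat w hw ?_
  exact Int.self_le_toNat _

end

end TOD
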