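import Pool.Agent.TD.A0

universe u

namespace TOD

noncomputable section

theorem RZ1_rank {n : ℕ} {τ : Type} [Fintype τ] (φ : (Fin n → ℤ) →+ (τ → ℤ)) :
    Module.finrank ℤ (LinearMap.range φ.toIntLinearMap) +
      Module.finrank ℤ (LinearMap.ker φ.toIntLinearMap) = n := by
  have h1 := Submodule.finrank_quotient_add_finrank (LinearMap.ker φ.toIntLinearMap)
  rw [(φ.toIntLinearMap.quotKerEquivRange).finrank_eq, Module.finrank_fintype_fun_eq_card,
    Fintype.card_fin] at h1
  exact h1

/-- [TD-Z1] There are at most `rank (range φ)` irreducible elements.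
Proof: let `I ⊆ irr φ` be finite with `p` elements, `d = rank (range φ)`, `b_1, …, b_{n-d}` a basis of `ker φ`
(a free group of rank `n - d`) with coordinates `λ_i`. For `w ∈ I` put `D_w u = 1` if `φ u = w`, `0` otherwise; for
`i ≤ n - d` put `D_i u = λ_i u` if `φ u = 0`, `0` otherwise. All of them satisfy the product rule (for `D_w`: if
`φ u ≠ 0 ≠ φ v` then `φ (u + v) ≠ w` as `w` is irreducible). They are linearly independent: evaluate at `u` with
`φ u = w`, and at `b_i`. So `p + (n - d) ≤ n`. -/
theorem card_irr_le {K : Type u} [Field K] [CharZero K] {n : ℕ} {τ : Type} [Fintype τ]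
    (φ : (Fin n → ℤ) →+ (τ → ℤ)) (h1 : TanBound K φ) (I : Finset (τ → ℤ))
    (hI : (I : Set (τ → ℤ)) ⊆ irr φ) :
    I.card ≤ Module.finrank ℤ (LinearMap.range φ.toIntLinearMap) := by
  classical
  set d := Module.finrank ℤ (LinearMap.range φ.toIntLinearMap) with hd
  set m := Module.finrank ℤ (LinearMap.ker φ.toIntLinearMap) with hm
  have hdm : d + m = n := RZ1_rank φ
  let B := Module.finBasis ℤ (LinearMap.ker φ.toIntLinearMap)
  have hker : ∀ u, φ u = 0 → u ∈ LinearMap.ker φ.toIntLinearMap := fun u hu => by
    rw [LinearMap.mem_ker]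
    exact hu
  let e : (Fin n → ℤ) → K := fun u => if φ u = 0 then 1 else 0
  let D : (I ⊕ Fin m) → (Fin n → ℤ) → K := fun x u =>
    Sum.elim (fun w : I => if φ u = w then (1 : K) else 0)
      (fun i => if h : φ u = 0 then ((B.repr ⟨u, hker u h⟩ i : ℤ) : K) else 0) x
  have hDl : ∀ (w : I) u, D (Sum.inl w) u = if φ u = w then (1 : K) else 0 := fun w u => rfl
  have hDr : ∀ (i : Fin m) u, D (Sum.inr i) u =
      if h : φ u = 0 then ((B.repr ⟨u, hker u h⟩ i : ℤ) : K) else 0 := fun w u => rfl
  have hw0 : ∀ w : I, (w : τ → ℤ) ≠ 0 := fun w => (hI w.2).2.1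
  have hprod : ∀ x, ∀ u, (∀ l, 0 ≤ φ u l) → ∀ v, (∀ l, 0 ≤ φ v l) →
      D x (u + v) = e u * D x v + e v * D x u := by
    intro x u hu v hv
    by_cases h1 : φ u = 0
    · have e1 : e u = 1 := if_pos h1
      have h2 : φ (u + v) = φ v := by rw [map_add, h1, zero_add]
      rw [e1, one_mul]
      rcases x with w | i
      · have h3 : D (Sum.inl w) u = 0 := by
          rw [hDl, h1, if_neg (hw0 w).symm]
        rw [h3, mul_zero, add_zero, hDl, hDl, h2]
      · by_cases h4 : φ v = 0
        · have e2 : e v = 1 := if_pos h4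
          have h5 : φ (u + v) = 0 := h2.trans h4
          rw [e2, one_mul, hDr, hDr, hDr, dif_pos h5, dif_pos h4, dif_pos h1]
          have h6 : (⟨u + v, hker _ h5⟩ : LinearMap.ker φ.toIntLinearMap) =
              ⟨u, hker _ h1⟩ + ⟨v, hker _ h4⟩ := rfl
          rw [h6, map_add, Finsupp.add_apply, Int.cast_add, add_comm]
        · have e2 : e v = 0 := if_neg h4
          have h5 : φ (u + v) ≠ 0 := fun h => h4 (h2.symm.trans h)
          rw [e2, zero_mul, add_zero, hDr, hDr, dif_neg h5, dif_neg h4]
    · have e1 : e u = 0 := if_neg h1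
      rw [e1, zero_mul, zero_add]
      by_cases h4 : φ v = 0
      · have e2 : e v = 1 := if_pos h4
        have h2 : φ (u + v) = φ u := by rw [map_add, h4, add_zero]
        rw [e2, one_mul]
        rcases x with w | i
        · rw [hDl, hDl, h2]
        · have h5 : φ (u + v) ≠ 0 := fun h => h1 (h2.symm.trans h)
          rw [hDr, hDr, dif_neg h5, dif_neg h1]
      · have e2 : e v = 0 := if_neg h4
        rw [e2, zero_mul]
        rcases x with w | i
        · rw [hDl, if_neg]
          intro h5
          have h6 := (hI w.2).2.2 (φ u) ⟨⟨u, rfl⟩, hu⟩ (φ v) ⟨⟨v, rfl⟩, hv⟩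
            (by rw [← h5, map_add])
          rcases h6 with h6 | h6
          · exact h1 h6
          · exact h4 h6
        · rw [hDr, dif_neg]
          intro h5
          apply h1
          funext l
          have h6 := congrFun h5 l
          rw [map_add, Pi.add_apply, Pi.zero_apply] at h6
          have := hu l
          have := hv l
          show φ u l = 0
          omega
  have hind : ∀ c : (I ⊕ Fin m) → K, (∀ u, (∀ l, 0 ≤ φ u l) → ∑ x, c x * D x u = 0) → c = 0 := by
    intro c hc
    funext x
    rcases x with w | i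
    · obtain ⟨u, hu⟩ := (hI w.2).1.1
      have h1 : ∀ l, 0 ≤ φ u l := by
        rw [hu]
        exact (hI w.2).1.2
      have h2 := hc u h1
      rw [Fintype.sum_sum_type] at h2
      have h3 : ∑ i : Fin m, c (Sum.inr i) * D (Sum.inr i) u = 0 := by
        refine Finset.sum_eq_zero fun i _ => ?_
        rw [hDr, dif_neg, mul_zero]
        rw [hu]
        exact hw0 w
      rw [h3, add_zero, Finset.sum_eq_single w] at h2
      · rw [hDl, if_pos hu, mul_one] at h2
        exact h2
      · intro w' _ hne
        rw [hDl, if_neg, mul_zero]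
        rw [hu]
        intro h
        exact hne (Subtype.ext h.symm)
      · intro h
        exact absurd (Finset.mem_univ _) h
    · have h0 : φ (B i : Fin n → ℤ) = 0 := (B i).2
      have h1 : ∀ l, 0 ≤ φ (B i : Fin n → ℤ) l := by
        intro l
        rw [h0]
        exact le_refl _
      have h2 := hc _ h1
      rw [Fintype.sum_sum_type] at h2
      have h3 : ∑ w : I, c (Sum.inl w) * D (Sum.inl w) (B i : Fin n → ℤ) = 0 := by
        refine Finset.sum_eq_zero fun w _ => ?_
        rw [hDl, if_neg, mul_zero]
        rw [h0]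
        exact (hw0 w).symm
      have h4 : ∀ j, D (Sum.inr j) (B i : Fin n → ℤ) = if i = j then (1 : K) else 0 := by
        intro j
        rw [hDr, dif_pos h0]
        have h5 : (⟨(B i : Fin n → ℤ), hker _ h0⟩ : LinearMap.ker φ.toIntLinearMap) = B i := rfl
        rw [h5, B.repr_self, Finsupp.single_apply]
        split_ifs <;> simp
      rw [h3, zero_add, Finset.sum_eq_single i] at h2
      · rw [h4, if_pos rfl, mul_one] at h2
        exact h2
      · intro j _ hne
        rw [h4, if_neg (Ne.symm hne), mul_zero]
      · intro h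
        exact absurd (Finset.mem_univ _) h
  have hfin := h1 e (fun u hu => if_pos hu) (fun u hu => if_neg hu)
    (Fintype.card (I ⊕ Fin m)) (fun i => D ((Fintype.equivFin (I ⊕ Fin m)).symm i))
    (fun i => hprod _) (fun c hc => by
      have h2 : (fun x => c (Fintype.equivFin (I ⊕ Fin m) x)) = 0 := by
        apply hind
        intro u hu
        rw [← hc u hu, ← (Fintype.equivFin (I ⊕ Fin m)).sum_comp]
        refine Finset.sum_congr rfl fun x _ => ?_
        rw [Equiv.symm_apply_apply]
      funext i
      have h3 := congrFun h2 ((Fintype.equivFin (I ⊕ Fin m)).symm i)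
      simpa using h3)
  rw [Fintype.card_sum, Fintype.card_fin, Fintype.card_coe] at hfin
  omega

end

end TOD
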