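import Pool.Agent.TD.A0
import Pool.Agent.TD.RZ1
import Pool.Agent.TD.RZ2

universe u

namespace TOD

noncomputable section

/-- [TD-Z3] If `range φ` contains a strictly positive vector `w₀` then it is generated by the irreducible
elements: `w = (w + N w₀) - N w₀`. Since there are at most `rank` of them ([TD-Z1]) they are finitely many
and linearly independent over `ℤ`
(a generating family of a free abelian group of rank `d` with at most `d` elements is a basis: pass to
`ℚ`, or `Module.Finite` surjective endomorphism argument). -/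
theorem irr_basis {K : Type u} [Field K] [CharZero K] {n : ℕ} {τ : Type} [Fintype τ]
    (φ : (Fin n → ℤ) →+ (τ → ℤ)) (h1 : TanBound K φ) (h2 : ∃ w, ∀ l, 0 < φ w l) :
    (irr φ).Finite ∧ LinearIndependent ℤ (Subtype.val : irr φ → (τ → ℤ)) ∧
      φ.range = AddSubgroup.closure (irr φ) := by
  classical
  obtain ⟨u₀, hu₀⟩ := h2
  have hfin : (irr φ).Finite := by
    by_contra hinf
    obtain ⟨I, hI, hcard⟩ := Set.Infinite.exists_subset_card_eq hinf
      (Module.finrank ℤ (LinearMap.range φ.toIntLinearMap) + 1)
    have := card_irr_le φ h1 I hI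
    omega
  have hcl : φ.range = AddSubgroup.closure (irr φ) := by
    apply le_antisymm
    · have hpos : ∀ w ∈ posM φ, w ∈ AddSubgroup.closure (irr φ) := by
        intro w hw
        have h3 := posM_le_closure_irr φ hw
        have h4 : AddSubmonoid.closure (irr φ) ≤ (AddSubgroup.closure (irr φ)).toAddSubmonoid := by
          rw [AddSubmonoid.closure_le]
          exact AddSubgroup.subset_closure
        exact h4 h3
      rintro w ⟨u, rfl⟩
      let N : ℕ := ∑ l, (φ u l).natAbs
      have hN : ∀ l, 0 ≤ φ (u + N • u₀) l := by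
        intro l
        rw [map_add, map_nsmul, Pi.add_apply, Pi.smul_apply, nsmul_eq_mul]
        have h3 : (φ u l).natAbs ≤ N :=
          Finset.single_le_sum (f := fun l => (φ u l).natAbs) (fun _ _ => Nat.zero_le _)
            (Finset.mem_univ l)
        have h4 := hu₀ l
        have h5 : (N : ℤ) * 1 ≤ (N : ℤ) * φ u₀ l := by
          apply mul_le_mul_of_nonneg_left
          · omega
          · omega
        omega
      have h6 : φ (u + N • u₀) ∈ AddSubgroup.closure (irr φ) := hpos _ ⟨⟨_, rfl⟩, hN⟩
      have h7 : φ u₀ ∈ AddSubgroup.closure (irr φ) := hpos _ ⟨⟨_, rfl⟩, fun l => (hu₀ l).le⟩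
      have h8 : φ u = φ (u + N • u₀) - N • φ u₀ := by
        rw [map_add, map_nsmul, add_sub_cancel_right]
      rw [h8]
      exact sub_mem h6 (nsmul_mem h7 N)
    · rw [AddSubgroup.closure_le]
      intro w hw
      exact hw.1.1
  refine ⟨hfin, ?_, hcl⟩
  have hft : Fintype (irr φ) := hfin.fintype
  have hmem : ∀ w : irr φ, (w : τ → ℤ) ∈ LinearMap.range φ.toIntLinearMap := by
    intro w
    obtain ⟨u, hu⟩ := w.2.1.1
    exact ⟨u, hu⟩
  let v : irr φ → LinearMap.range φ.toIntLinearMap := fun w => ⟨w, hmem w⟩
  have hv : LinearIndependent ℤ v := by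
    apply linearIndependent_of_top_le_span_of_card_le_finrank
    · rintro ⟨w, u, hu⟩ _
      have h3 : w ∈ AddSubgroup.closure (irr φ) := by
        rw [← hcl]
        exact ⟨u, hu⟩
      have h4 : ∀ w (h : w ∈ AddSubgroup.closure (irr φ)), ∃ (h' : w ∈ LinearMap.range φ.toIntLinearMap),
          (⟨w, h'⟩ : LinearMap.range φ.toIntLinearMap) ∈ Submodule.span ℤ (Set.range v) := by
        intro w h
        induction h using AddSubgroup.closure_induction with
        | mem x hx => exact ⟨hmem ⟨x, hx⟩, Submodule.subset_span ⟨⟨x, hx⟩, rfl⟩⟩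
        | zero => exact ⟨zero_mem _, zero_mem _⟩
        | add x y _ _ hx hy =>
          obtain ⟨h1, h2⟩ := hx
          obtain ⟨h3, h4⟩ := hy
          exact ⟨add_mem h1 h3, add_mem h2 h4⟩
        | neg x _ hx =>
          obtain ⟨h1, h2⟩ := hx
          exact ⟨neg_mem h1, neg_mem h2⟩
      obtain ⟨h', h5⟩ := h4 w h3
      exact h5
    · have h3 := card_irr_le φ h1 hfin.toFinset (by simp)
      have h4 : hfin.toFinset.card = Fintype.card (irr φ) := by
        rw [← Set.toFinset_card]
        congr 1
        ext x
        simp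
      rw [h4] at h3
      exact h3
  exact hv.map' (LinearMap.range φ.toIntLinearMap).subtype (Submodule.ker_subtype _)

end

end TOD
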