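import Pool.Agent.TD.A0
import Pool.Agent.TD.RZ1
import Pool.Agent.TD.RZ2
import Pool.Agent.TD.RZ3

universe u

namespace TOD

noncomputable section

/-- [TD-Z4] For every `l` there is exactly one irreducible element positive at `l`, and its value there
is `1`.
Proof: sum of the vectors of `h4` over `l' ≠ l`: `w ∈ posM φ` with `w l = 0`, `w l' > 0` for `l' ≠ l` (for
`τ = {l}` take `w = 0`). Let `e ≠ e'` be irreducible with `e l > 0`, `e' l > 0`. `x = N w + (e' l) e - (e l) e'` for large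
`N` is `≥ 0` and in `range φ`, so a combination of irreducible elements with coefficients `≥ 0` ([TD-Z2]). But `w` is a
combination with coefficients `≥ 0` ([TD-Z2]) in which `e'` does not occur (`w l = 0`, `e' l > 0`), so by linear
independence ([TD-Z3]) the coefficient of `e'` in `x` is `- e l < 0`: contradiction. Existence: `w₀` of `h2` is
a combination of irreducible elements, `w₀ l > 0`. Value: `w` of `h3` is an integral combination of irreducible
elements, so `1 = w l` is an integral multiple of `e l > 0`. -/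
theorem existsUnique_irr {K : Type u} [Field K] [CharZero K] {n : ℕ} {τ : Type} [Fintype τ]
    (φ : (Fin n → ℤ) →+ (τ → ℤ)) (h1 : TanBound K φ) (h2 : ∃ w, ∀ l, 0 < φ w l)
    (h3 : ∀ l, ∃ w, φ w l = 1)
    (h4 : ∀ l l', l ≠ l' → ∃ w, (∀ l'', 0 ≤ φ w l'') ∧ φ w l = 0 ∧ 0 < φ w l') (l : τ) :
    ∃ e ∈ irr φ, e l = 1 ∧ ∀ e' ∈ irr φ, e' ≠ e → e' l = 0 := by
  classical
  obtain ⟨hfin, hli, hcl⟩ := irr_basis φ h1 h2
  have hft : Fintype (irr φ) := hfin.fintype
  have hnn : ∀ (f : irr φ) (l : τ), 0 ≤ (f : τ → ℤ) l := fun f l => f.2.1.2 l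
  have repN : ∀ w ∈ posM φ, ∃ c : irr φ → ℤ, (∀ f, 0 ≤ c f) ∧ w = ∑ f, c f • (f : τ → ℤ) := by
    intro w hw
    have h := posM_le_closure_irr φ hw
    induction h using AddSubmonoid.closure_induction with
    | mem x hx =>
      refine ⟨fun f => if f = ⟨x, hx⟩ then 1 else 0, fun f => ?_, ?_⟩
      · show 0 ≤ (if f = ⟨x, hx⟩ then (1 : ℤ) else 0)
        split_ifs
        · exact zero_le_one
        · exact le_refl _
      · simp
    | zero => exact ⟨fun _ => 0, fun _ => le_refl _, by simp⟩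
    | add x y hx' hy' hx hy =>
      have hsub : ∀ z, z ∈ AddSubmonoid.closure (irr φ) → z ∈ posM φ := by
        intro z hz
        have : AddSubmonoid.closure (irr φ) ≤ posM φ := by
          rw [AddSubmonoid.closure_le]
          intro t ht
          exact ht.1
        exact this hz
      obtain ⟨c, hc, hc'⟩ := hx (hsub _ hx')
      obtain ⟨d, hd, hd'⟩ := hy (hsub _ hy')
      refine ⟨fun f => c f + d f, fun f => add_nonneg (hc f) (hd f), ?_⟩
      rw [hc', hd', ← Finset.sum_add_distrib]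
      exact Finset.sum_congr rfl fun f _ => (add_smul _ _ _).symm
  have repZ : ∀ w ∈ φ.range, ∃ c : irr φ → ℤ, w = ∑ f, c f • (f : τ → ℤ) := by
    intro w hw
    rw [hcl] at hw
    induction hw using AddSubgroup.closure_induction with
    | mem x hx => exact ⟨fun f => if f = ⟨x, hx⟩ then 1 else 0, by simp⟩
    | zero => exact ⟨fun _ => 0, by simp⟩
    | add x y _ _ hx hy =>
      obtain ⟨c, hc'⟩ := hx
      obtain ⟨d, hd'⟩ := hy
      refine ⟨fun f => c f + d f, ?_⟩
      rw [hc', hd', ← Finset.sum_add_distrib]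
      exact Finset.sum_congr rfl fun f _ => (add_smul _ _ _).symm
    | neg x _ hx =>
      obtain ⟨c, hc'⟩ := hx
      refine ⟨fun f => - c f, ?_⟩
      rw [hc', ← Finset.sum_neg_distrib]
      exact Finset.sum_congr rfl fun f _ => (neg_smul _ _).symm
  have happ : ∀ (c : irr φ → ℤ) (l : τ), (∑ f, c f • (f : τ → ℤ)) l = ∑ f, c f * (f : τ → ℤ) l := by
    intro c l
    rw [Finset.sum_apply]
    rfl
  -- the vector `W`
  have hW : ∃ W ∈ posM φ, W l = 0 ∧ ∀ l', l' ≠ l → 0 < W l' := by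
    have h5 : ∀ l' : {l' // l' ≠ l}, ∃ w, (∀ l'', 0 ≤ φ w l'') ∧ φ w l = 0 ∧ 0 < φ w l' :=
      fun l' => h4 l l' l'.2.symm
    choose g hg1 hg2 hg3 using h5
    refine ⟨∑ l', φ (g l'), sum_mem fun l' _ => ⟨⟨_, rfl⟩, hg1 l'⟩, ?_, ?_⟩
    · rw [Finset.sum_apply]
      exact Finset.sum_eq_zero fun l' _ => hg2 l'
    · intro l' hl'
      rw [Finset.sum_apply]
      exact Finset.sum_pos' (fun l'' _ => hg1 l'' l') ⟨⟨l', hl'⟩, Finset.mem_univ _, hg3 _⟩
  obtain ⟨W, hWm, hWl, hWp⟩ := hW
  -- uniqueness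
  have huniq : ∀ e e' : irr φ, 0 < (e : τ → ℤ) l → 0 < (e' : τ → ℤ) l → e = e' := by
    intro e e' he he'
    by_contra hne
    set a : ℤ := (e : τ → ℤ) l with ha
    set b : ℤ := (e' : τ → ℤ) l with hb
    let N : ℤ := ∑ l', a * (e' : τ → ℤ) l'
    have hN : ∀ l', a * (e' : τ → ℤ) l' ≤ N := fun l' =>
      Finset.single_le_sum (f := fun l' => a * (e' : τ → ℤ) l')
        (fun l'' _ => mul_nonneg he.le (hnn e' l'')) (Finset.mem_univ l')
    have hN0 : 0 ≤ N := Finset.sum_nonneg fun l'' _ => mul_nonneg he.le (hnn e' l'')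
    let x : τ → ℤ := N • W + b • (e : τ → ℤ) - a • (e' : τ → ℤ)
    have hx : x ∈ posM φ := by
      refine ⟨sub_mem (add_mem (zsmul_mem hWm.1 _) (zsmul_mem e.2.1.1 _)) (zsmul_mem e'.2.1.1 _), ?_⟩
      intro l'
      have hx' : x l' = N * W l' + b * (e : τ → ℤ) l' - a * (e' : τ → ℤ) l' := rfl
      rw [hx']
      by_cases hl : l' = l
      · rw [hl, hWl, ← ha, ← hb]
        have : N * 0 + b * a - a * b = 0 := by ring
        rw [this]
      · have h5 := hWp l' hl
        have h6 := hN l'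
        have h7 : 0 ≤ b * (e : τ → ℤ) l' := mul_nonneg he'.le (hnn e l')
        have h8 : N * 1 ≤ N * W l' := mul_le_mul_of_nonneg_left (by omega) hN0
        linarith
    obtain ⟨c, hc0, hc⟩ := repN x hx
    obtain ⟨d, hd0, hd⟩ := repN W hWm
    have hde : d e' = 0 := by
      have h5 : ∑ f, d f * (f : τ → ℤ) l = 0 := by
        rw [← happ, ← hd, hWl]
      have h6 := (Finset.sum_eq_zero_iff_of_nonneg
        (fun f _ => mul_nonneg (hd0 f) (hnn f l))).1 h5 e' (Finset.mem_univ _)
      rcases mul_eq_zero.1 h6 with h7 | h7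
      · exact h7
      · exact absurd h7 he'.ne'
    have h5 : ∑ f, (c f - N * d f - (if f = e then b else 0) + (if f = e' then a else 0)) •
        (f : τ → ℤ) = 0 := by
      have h6 : ∀ f : irr φ, (c f - N * d f - (if f = e then b else 0) +
          (if f = e' then a else 0)) • (f : τ → ℤ) =
          c f • (f : τ → ℤ) - N • (d f • (f : τ → ℤ)) - (if f = e then b else 0) • (f : τ → ℤ) +
          (if f = e' then a else 0) • (f : τ → ℤ) := by
        intro f
        rw [add_smul, sub_smul, sub_smul, mul_smul]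
      rw [Finset.sum_congr rfl (fun f _ => h6 f), Finset.sum_add_distrib, Finset.sum_sub_distrib,
        Finset.sum_sub_distrib, ← Finset.smul_sum, ← hc, ← hd]
      simp only [ite_smul, zero_smul, Finset.sum_ite_eq', Finset.mem_univ, if_true]
      show N • W + b • (e : τ → ℤ) - a • (e' : τ → ℤ) - N • W - b • (e : τ → ℤ) +
        a • (e' : τ → ℤ) = 0
      abel
    have h6 := Fintype.linearIndependent_iff.1 hli _ h5 e'
    rw [hde, mul_zero, sub_zero, if_neg (Ne.symm hne), sub_zero, if_pos rfl] at h6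
    have h7 := hc0 e'
    omega
  -- existence
  obtain ⟨u₀, hu₀⟩ := h2
  obtain ⟨c, hc0, hc⟩ := repN (φ u₀) ⟨⟨u₀, rfl⟩, fun l => (hu₀ l).le⟩
  have hex : ∃ e : irr φ, 0 < (e : τ → ℤ) l := by
    by_contra hcon
    push Not at hcon
    have h5 := hu₀ l
    rw [hc, happ] at h5
    have h6 : ∑ f, c f * (f : τ → ℤ) l = 0 := by
      refine Finset.sum_eq_zero fun f _ => ?_
      rw [le_antisymm (hcon f) (hnn f l), mul_zero]
    omega
  obtain ⟨e, he⟩ := hex
  have hother : ∀ e' : irr φ, e' ≠ e → (e' : τ → ℤ) l = 0 := by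
    intro e' hne
    by_contra h
    exact hne (huniq e' e (lt_of_le_of_ne (hnn e' l) (Ne.symm h)) he)
  refine ⟨e, e.2, ?_, fun e' he' hne => hother ⟨e', he'⟩ fun h => hne (congrArg Subtype.val h)⟩
  obtain ⟨u, hu⟩ := h3 l
  obtain ⟨c', hc'⟩ := repZ (φ u) ⟨u, rfl⟩
  rw [hc', happ, Finset.sum_eq_single e] at hu
  · exact Int.eq_one_of_mul_eq_one_left he.le hu
  · intro f _ hne
    rw [hother f hne, mul_zero]
  · intro h
    exact absurd (Finset.mem_univ _) h

end

end TOD
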