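import Pool.Agent.TD.A0
import Pool.Agent.TD.RZ2
import Pool.Agent.TD.RZ3
import Pool.Agent.TD.RZ4

universe u

namespace TOD

noncomputable section

/-- [TD-Z5] `φ` is surjective.
Proof: `e l` from [TD-Z4]. If `e l = e l'` with `l ≠ l'` then every element of `range φ` has equal coordinates `l`,
`l'` (write it in terms of the irreducible elements), contradicting `h4`. So `e l` vanishes at all `l' ≠ l`: it is the standard
basis vector. -/
theorem surjective_of_tanBound {K : Type u} [Field K] [CharZero K] {n : ℕ} {τ : Type} [Fintype τ]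
    (φ : (Fin n → ℤ) →+ (τ → ℤ)) (h1 : TanBound K φ) (h2 : ∃ w, ∀ l, 0 < φ w l)
    (h3 : ∀ l, ∃ w, φ w l = 1)
    (h4 : ∀ l l', l ≠ l' → ∃ w, (∀ l'', 0 ≤ φ w l'') ∧ φ w l = 0 ∧ 0 < φ w l') :
    Function.Surjective φ := by
  classical
  choose e he1 he2 he3 using existsUnique_irr φ h1 h2 h3 h4
  have hne : ∀ l l', l ≠ l' → e l ≠ e l' := by
    intro l l' hll' heq
    have hirr : ∀ w ∈ irr φ, w l = w l' := by
      intro w hw
      by_cases h : w = e l
      · rw [h, he2 l, heq, he2 l']
      · rw [he3 l w hw h, he3 l' w hw (fun h' => h (h'.trans heq.symm))]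
    have hcl : ∀ w ∈ AddSubmonoid.closure (irr φ), w l = w l' := by
      intro w hw
      induction hw using AddSubmonoid.closure_induction with
      | mem x hx => exact hirr x hx
      | zero => rfl
      | add x y _ _ hx hy =>
        rw [Pi.add_apply, Pi.add_apply, hx, hy]
    obtain ⟨w, hw1, hw2, hw3⟩ := h4 l l' hll'
    have h5 : φ w ∈ posM φ := ⟨⟨w, rfl⟩, hw1⟩
    have h6 := hcl _ (posM_le_closure_irr φ h5)
    rw [hw2] at h6
    exact hw3.ne h6
  have hsingle : ∀ l, e l = Pi.single l 1 := by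
    intro l
    funext l'
    by_cases h : l' = l
    · subst h
      rw [he2, Pi.single_eq_same]
    · rw [Pi.single_eq_of_ne h]
      exact he3 l' (e l) (he1 l) (hne l l' (Ne.symm h))
  have hex : ∀ l, ∃ u, φ u = Pi.single l 1 := by
    intro l
    obtain ⟨u, hu⟩ := (he1 l).1.1
    exact ⟨u, hu.trans (hsingle l)⟩
  choose u hu using hex
  intro y
  refine ⟨∑ l, y l • u l, ?_⟩
  rw [map_sum]
  funext l'
  rw [Finset.sum_apply, Finset.sum_eq_single l']
  · rw [map_zsmul, hu, Pi.smul_apply, Pi.single_eq_same, smul_eq_mul, mul_one]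
  · intro b _ hb
    rw [map_zsmul, hu, Pi.smul_apply, Pi.single_eq_of_ne hb.symm, smul_zero]
  · intro h
    exact absurd (Finset.mem_univ _) h

end

end TOD
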