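import Pool.Agent.TD.A0
import Pool.Agent.TD.RC4
import Pool.Agent.TD.RS1
import Pool.Agent.TD.RS2

universe u

namespace TOD

variable {K L : Type u} [Field K] [Field L] [Algebra K L] {n : ℕ}

/-- [TD-D1] Every character is a quotient of two characters of sections.
Proof: let `z i ≠ 0`. `ch Φ u = a / b` with `a, b ∈ chart K z i` (`h.frac`); by [TD-S2] (common exponent)
`a = g / z_i ^ s`, `b = g' / z_i ^ s` with `g, g' ∈ Vz ^ s ≤ Sec s` ([TD-S1]), `g' ≠ 0`, so `ch Φ u * g' = g`. [TD-C4]: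
`g = Φ f`, `g' = Φ f'`, `single u 1 * f' = f`; take `v` in the support of `f'`; then `u + v` is in the support
of `f`. -/
theorem NTC.exists_shift {J : Type} [Fintype J] {z : J → L}
    {Φ : AddMonoidAlgebra K (Fin n → ℤ) →ₐ[K] L} (h : NTC z n Φ) (B : BD z Φ) (u : Fin n → ℤ) :
    ∃ (s : ℕ) (v : Fin n → ℤ), (∀ l, 0 ≤ B.nn l v + s * B.a l) ∧
      ∀ l, 0 ≤ B.nn l (u + v) + s * B.a l := by
  obtain ⟨i, hi⟩ := h.z_ne
  obtain ⟨a, ha, b, hb, hb0, hab⟩ := h.frac i hi (ch Φ u)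
  obtain ⟨s₁, hs₁⟩ := (mem_chart_iff hi).mp ha
  obtain ⟨s₂, hs₂⟩ := (mem_chart_iff hi).mp hb
  have h1 := Vz_pow_le_Sec z (max s₁ s₂) (mul_pow_mem_of_le (le_max_left s₁ s₂) hs₁)
  have h2 := Vz_pow_le_Sec z (max s₁ s₂) (mul_pow_mem_of_le (le_max_right s₁ s₂) hs₂)
  obtain ⟨f, hf, hf'⟩ := (h.mem_sec_iff B).mp h1
  obtain ⟨g, hg, hg'⟩ := (h.mem_sec_iff B).mp h2
  have hfg : AddMonoidAlgebra.single u 1 * g = f := by
    apply h.Φ_inj
    rw [map_mul, ← hf, ← hg]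
    change ch Φ u * _ = _
    rw [← mul_assoc, (eq_div_iff hb0).mp hab]
  have hg0 : g.coeff ≠ 0 := by
    intro h0
    have : g = 0 := AddMonoidAlgebra.coeff_injective (by rw [h0]; rfl)
    rw [this, map_zero] at hg
    exact mul_ne_zero hb0 (pow_ne_zero _ hi) hg
  obtain ⟨v, hv⟩ := Finsupp.ne_iff.mp hg0
  refine ⟨max s₁ s₂, v, hg' v hv, hf' (u + v) ?_⟩
  rw [← hfg, AddMonoidAlgebra.coeff_single_mul_eq_mul_coeff (m₂ := v)
    (fun m _ => add_right_inj u), one_mul]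
  exact hv

end TOD
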