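import Pool.Agent.TD.A0
import Pool.Agent.TD.RC5
import Pool.Agent.TD.RC8
import Pool.Agent.TD.RD1

universe u

namespace TOD

noncomputable section

section toric

variable {K L : Type u} [Field K] [Field L] [Algebra K L] {n : ℕ}

/-- [TD-Z6] The cone of a face has an interior vector.
Proof: for every tight `l` (or every `l`) take `u` with `nn l u = 1` ([TD-C8]) and `s, v` from [TD-D1]:
`p = u + v` satisfies `nn l' p + s a_{l'} ≥ 0` for all `l'` and `> 0` for `l' = l` (`nn l (u + v) + s a_l = 1 + (nn l v + s a_l)`).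
`k p - s q` is `≥ 0` on the tight divisors, `> 0` on `l`. Take the sum over all `l`. -/
theorem NTC.exists_pos {J : Type} [Fintype J] {z : J → L}
    {Φ : AddMonoidAlgebra K (Fin n → ℤ) →ₐ[K] L} (h : NTC z n Φ) (B : BD z Φ) {q : Fin n → ℤ}
    {k : ℕ} (hk : 0 < k) (hq : ∀ l, 0 ≤ B.nn l q + k * B.a l) :
    ∃ w, ∀ l, B.nn l q + k * B.a l = 0 → 0 < B.nn l w := by
  classical
  have hk' : (0 : ℤ) < k := by exact_mod_cast hk
  have key : ∀ l : Fin B.r, ∃ w : Fin n → ℤ, (∀ l', B.nn l' q + k * B.a l' = 0 → 0 ≤ B.nn l' w) ∧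
      (B.nn l q + k * B.a l = 0 → 0 < B.nn l w) := by
    intro l
    obtain ⟨u, hu⟩ := h.toTC.exists_nn_eq_one B l
    obtain ⟨s, v, h1, h2⟩ := h.exists_shift B u
    have hval : ∀ l', B.nn l' q + k * B.a l' = 0 →
        B.nn l' ((k : ℤ) • (u + v) - (s : ℤ) • q) = k * (B.nn l' (u + v) + s * B.a l') := by
      intro l' hl'
      rw [map_sub, map_zsmul, map_zsmul, smul_eq_mul, smul_eq_mul]
      linear_combination (-(s : ℤ)) * hl'
    refine ⟨(k : ℤ) • (u + v) - (s : ℤ) • q, ?_, ?_⟩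
    · intro l' hl'
      rw [hval l' hl']
      exact mul_nonneg hk'.le (h2 l')
    · intro hl
      rw [hval l hl, map_add, hu]
      have h3 := h1 l
      exact mul_pos hk' (by linarith)
  choose w hw1 hw2 using key
  refine ⟨∑ l, w l, fun l hl => ?_⟩
  rw [map_sum]
  exact Finset.sum_pos' (fun l' _ => hw1 l' l hl) ⟨l, Finset.mem_univ l, hw2 l hl⟩

end toric

end

end TOD
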