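import Pool.Agent.TD.A0
import Pool.Agent.TD.RA2

universe u

namespace TOD

variable {K L : Type u} [Field K] [Field L] [Algebra K L] {n : ℕ}

/-- [TD-C7] Different boundary divisors have different `nn`.
(If `nn l = nn l'` then by `B.min_le`, `B.min_eq` the valuations `w l`, `w l'` agree on `Φ f`, `f ≠ 0`, so on all nonzero
elements of `L` (`h.Φ_frac`), so `O l = O l'` by `(B.ord l).mem`, so `l = l'`.) -/
theorem TC.nn_injective {J : Type} {z : J → L} {Φ : AddMonoidAlgebra K (Fin n → ℤ) →ₐ[K] L}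
    (h : TC z n Φ) (B : BD z Φ) : Function.Injective B.nn := by
  intro l l' hll
  have h1 : ∀ l l' : Fin B.r, B.nn l = B.nn l' → ∀ f, f ≠ 0 → B.w l' (Φ f) ≤ B.w l (Φ f) := by
    intro l l' hll f hf
    obtain ⟨u, hu, hul⟩ := B.min_eq l f hf
    rw [← hul, hll]
    exact B.min_le l' f hf u hu
  have h2 : ∀ f, f ≠ 0 → B.w l (Φ f) = B.w l' (Φ f) := fun f hf =>
    le_antisymm (h1 l' l hll.symm f hf) (h1 l l' hll f hf)
  have h3 : ∀ x, x ≠ 0 → B.w l x = B.w l' x := by
    intro x hx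
    obtain ⟨f, g, hg, rfl⟩ := h.Φ_frac x
    have hf : Φ f ≠ 0 := by
      intro h0
      exact hx (by rw [h0, zero_div])
    have hf0 : f ≠ 0 := by
      rintro rfl
      exact hf (map_zero Φ)
    have hg0 : g ≠ 0 := by
      rintro rfl
      exact hg (map_zero Φ)
    rw [(B.ord l).basic.2.2.1 _ _ hf hg, (B.ord l').basic.2.2.1 _ _ hf hg, h2 f hf0, h2 g hg0]
  apply B.O_inj
  ext x
  by_cases hx : x = 0
  · rw [hx]
    exact ⟨fun _ => (B.O l').zero_mem, fun _ => (B.O l).zero_mem⟩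
  · rw [(B.ord l).mem x hx, (B.ord l').mem x hx, h3 x hx]

end TOD
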