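import Pool.Agent.TD.A0
import Pool.Agent.TD.RA2
import Pool.Agent.TD.RC0
import Pool.Agent.TD.RC4
import Pool.Agent.TD.RC8
import Pool.Agent.TD.RS1
import Pool.Agent.TD.RS2
import Pool.Agent.TD.RD1

universe u

namespace TOD

variable {K L : Type u} [Field K] [Field L] [Algebra K L] {n : ℕ}

/-- [TD-D2] The same along a boundary divisor: `u` with `nn l u = 0` is a quotient of two characters of
sections with `v` on the facet `l`.
Proof: as [TD-D1], with the chart `i` of which `B.O l` is a localisation: `w l (ch Φ u) = 0`, so `ch Φ u ∈ O l`,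
so `ch Φ u = a / b` with `b⁻¹ ∈ O l`, so `w l b = 0`, `w l g' = s w l (z i) = - s a_l` ([TD-C0]); `B.min_eq` gives `v` in
the support of `f'` with `nn l v = - s a_l`. -/
theorem NTC.exists_shift_facet {J : Type} [Fintype J] {z : J → L}
    {Φ : AddMonoidAlgebra K (Fin n → ℤ) →ₐ[K] L} (h : NTC z n Φ) (B : BD z Φ) (l : Fin B.r)
    (u : Fin n → ℤ) (hu : B.nn l u = 0) :
    ∃ (s : ℕ) (v : Fin n → ℤ), (∀ l', 0 ≤ B.nn l' v + s * B.a l') ∧ B.nn l v + s * B.a l = 0 ∧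
      ∀ l', 0 ≤ B.nn l' (u + v) + s * B.a l' := by
  have hO : B.O l ∈ bdry z Φ := by
    rw [← B.O_range]; exact ⟨l, rfl⟩
  obtain ⟨⟨i, hi, hloc⟩, -, -⟩ := hO
  have hch : ch Φ u ∈ B.O l := by
    rw [(B.ord l).mem _ (ch_ne_zero Φ u), B.w_ch, hu]
  obtain ⟨a, ha, b, hb, hb0, hbi, hab⟩ := hloc.2.2 _ hch
  have hwb : B.w l b = 0 := (B.ord l).basic.2.2.2.2.2.2 b hb0 (hloc.2.1 hb) hbi
  obtain ⟨s₁, hs₁⟩ := (mem_chart_iff hi).mp ha
  obtain ⟨s₂, hs₂⟩ := (mem_chart_iff hi).mp hb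
  have h1 := Vz_pow_le_Sec z (max s₁ s₂) (mul_pow_mem_of_le (le_max_left s₁ s₂) hs₁)
  have h2 := Vz_pow_le_Sec z (max s₁ s₂) (mul_pow_mem_of_le (le_max_right s₁ s₂) hs₂)
  obtain ⟨f, hf, hf'⟩ := (h.mem_sec_iff B).mp h1
  obtain ⟨g, hg, hg'⟩ := (h.mem_sec_iff B).mp h2
  have hfg : AddMonoidAlgebra.single u 1 * g = f := by
    apply h.Φ_inj
    rw [map_mul, ← hf, ← hg]
    change ch Φ u * _ = _
    rw [← mul_assoc, (eq_div_iff hb0).mp hab]
  have hg0 : g ≠ 0 := by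
    rintro rfl
    rw [map_zero] at hg
    exact mul_ne_zero hb0 (pow_ne_zero _ hi) hg
  obtain ⟨v, hv, hv1⟩ := B.min_eq l g hg0
  have hw : B.w l (Φ g) = - ((max s₁ s₂ : ℕ) * B.a l) := by
    rw [← hg, (B.ord l).mul _ _ hb0 (pow_ne_zero _ hi), hwb,
      (B.ord l).basic.2.2.2.1 _ _ hi, B.w_z hi hloc]
    ring
  refine ⟨max s₁ s₂, v, hg' v hv, ?_, hf' (u + v) ?_⟩
  · rw [hv1, hw]
    ring
  · rw [← hfg, AddMonoidAlgebra.coeff_single_mul_eq_mul_coeff (m₂ := v)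
      (fun m _ => add_right_inj u), one_mul]
    exact hv

end TOD
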