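import Pool.Agent.TD.A0
import Pool.Agent.TD.RC5
import Pool.Agent.TD.RC6
import Pool.Agent.TD.RC7
import Pool.Agent.TD.RC8
import Pool.Agent.TD.RD2
import Pool.Agent.TD.RZ6

universe u

namespace TOD

noncomputable section

section toric

variable {K L : Type u} [Field K] [Field L] [Algebra K L] {n : ℕ}

/-- [TD-Z7] Facets of the cone of a face: for tight `l ≠ l'` there is an element of the cone vanishing at `l`,
positive at `l'`.
Proof: otherwise every element `w` of the cone with `nn l w = 0` has `nn l' w = 0`. Let `nn l u = 0`; [TD-D2] gives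
`s, v`; adding a multiple of `u_l` of [TD-C6] to `v` we may assume `s = k m`; `w = v - m q` and `u + w` are in the cone with
`nn l = 0`; so `nn l' u = nn l' (u + w) - nn l' w = 0`. With `nn l u₁ = 1` ([TD-C8]): `nn l' = (nn l' u₁) • nn l`
(as `u - (nn l u) u₁` is in the kernel of `nn l`), and `nn l' u₁ = ± 1` by primitivity of `nn l'`, positive by [TD-Z6], so
`nn l' = nn l`, contradicting [TD-C7]. -/
theorem NTC.exists_facet_cone {J : Type} [Fintype J] {z : J → L}
    {Φ : AddMonoidAlgebra K (Fin n → ℤ) →ₐ[K] L} (h : NTC z n Φ) (B : BD z Φ) {q : Fin n → ℤ}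
    {k : ℕ} (hk : 0 < k) (hq : ∀ l, 0 ≤ B.nn l q + k * B.a l) {l l' : Fin B.r}
    (hl : B.nn l q + k * B.a l = 0) (hl' : B.nn l' q + k * B.a l' = 0) (hne : l ≠ l') :
    ∃ w ∈ faceM B.nn B.a q k, B.nn l w = 0 ∧ 0 < B.nn l' w := by
  by_contra hcon
  have hcon' : ∀ w ∈ faceM B.nn B.a q k, B.nn l w = 0 → B.nn l' w = 0 := by
    intro w hw hw0
    have h1 : 0 ≤ B.nn l' w := hw l' hl'
    rcases h1.eq_or_lt with h2 | h2
    · exact h2.symm
    · exact absurd ⟨w, hw, hw0, h2⟩ hcon
  obtain ⟨ul, hul1, hul2⟩ := h.exists_facet B l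
  have hk1 : 0 ≤ (k : ℤ) - 1 := by
    have : (1 : ℤ) ≤ k := by exact_mod_cast hk
    linarith
  -- the kernel of `nn l` is contained in the kernel of `nn l'`
  have hker : ∀ u, B.nn l u = 0 → B.nn l' u = 0 := by
    intro u hu
    obtain ⟨s, v, hv1, hv2, hv3⟩ := h.exists_shift_facet B l u hu
    have hs : (0 : ℤ) ≤ ((k : ℤ) - 1) * s := mul_nonneg hk1 (Int.natCast_nonneg s)
    set w : Fin n → ℤ := v + (((k : ℤ) - 1) * s) • ul - (s : ℤ) • q with hw
    have hval : ∀ l'', B.nn l'' w
        = B.nn l'' v + (((k : ℤ) - 1) * s) * B.nn l'' ul - s * B.nn l'' q := by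
      intro l''
      rw [hw, map_sub, map_add, map_zsmul, map_zsmul, smul_eq_mul, smul_eq_mul]
    have hval' : ∀ l'', B.nn l'' q + k * B.a l'' = 0 → B.nn l'' w
        = (B.nn l'' v + s * B.a l'') + (((k : ℤ) - 1) * s) * (B.nn l'' ul + B.a l'') := by
      intro l'' hl''
      rw [hval l'']
      have h1 : B.nn l'' q = - (k * B.a l'') := by linarith
      rw [h1]
      ring
    have hw1 : w ∈ faceM B.nn B.a q k := by
      intro l'' hl''
      rw [hval' l'' hl'']
      exact add_nonneg (hv1 l'') (mul_nonneg hs (hul2 l''))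
    have hw2 : B.nn l w = 0 := by
      rw [hval' l hl, hv2, hul1, mul_zero, add_zero]
    have huw1 : u + w ∈ faceM B.nn B.a q k := by
      intro l'' hl''
      rw [map_add, hval' l'' hl'']
      have h1 := hv3 l''
      rw [map_add] at h1
      have h2 := mul_nonneg hs (hul2 l'')
      linarith
    have huw2 : B.nn l (u + w) = 0 := by
      rw [map_add, hu, hw2, add_zero]
    have h3 := hcon' _ hw1 hw2
    have h4 := hcon' _ huw1 huw2
    rw [map_add, h3, add_zero] at h4
    exact h4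
  obtain ⟨u₁, hu₁⟩ := h.toTC.exists_nn_eq_one B l
  obtain ⟨u₂, hu₂⟩ := h.toTC.exists_nn_eq_one B l'
  have hprop : ∀ u, B.nn l' u = B.nn l u * B.nn l' u₁ := by
    intro u
    have h1 : B.nn l (u - B.nn l u • u₁) = 0 := by
      rw [map_sub, map_zsmul, hu₁, smul_eq_mul, mul_one, sub_self]
    have h2 := hker _ h1
    rw [map_sub, map_zsmul, smul_eq_mul] at h2
    linarith
  obtain ⟨w, hw⟩ := h.exists_pos B hk hq
  have hwl := hw l hl
  have hwl' := hw l' hl'
  rw [hprop w] at hwl'
  have hcpos : 0 < B.nn l' u₁ := pos_of_mul_pos_right hwl' hwl.le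
  have hc1 : B.nn l' u₁ = 1 := by
    have h1 := hprop u₂
    rw [hu₂] at h1
    exact Int.eq_one_of_mul_eq_one_left hcpos.le h1.symm
  have heq : B.nn l = B.nn l' := by
    refine AddMonoidHom.ext fun u => ?_
    rw [hprop u, hc1, mul_one]
  exact hne (h.toTC.nn_injective B heq)

end toric

end

end TOD
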