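import Pool.Agent.TD.A0
import Pool.Agent.TD.RC8
import Pool.Agent.TD.RX5
import Pool.Agent.TD.RZ5
import Pool.Agent.TD.RZ6
import Pool.Agent.TD.RZ7

universe u

namespace TOD

noncomputable section

section toric

variable {K L : Type u} [Field K] [Field L] [Algebra K L] {n : ℕ}

/-- [TD-Z8] The Delzant property at the lattice points of multiples of the polytope.
Proof: `τ = {l // nn l q + k a_l = 0}`, `φ u = (nn l u)_{l ∈ τ}`; [TD-X5] is `TanBound`, [TD-Z6], [TD-C8], [TD-Z7] are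
`h2`, `h3`, `h4` of [TD-Z5]. -/
theorem NTC.delzant_int [CharZero K] {J : Type} [Fintype J] {z : J → L}
    {Φ : AddMonoidAlgebra K (Fin n → ℤ) →ₐ[K] L} (h : NTC z n Φ) (B : BD z Φ) {q : Fin n → ℤ}
    {k : ℕ} (hk : 0 < k) (hq : ∀ l, 0 ≤ B.nn l q + k * B.a l) (v : Fin B.r → ℤ) :
    ∃ u, ∀ l, B.nn l q + k * B.a l = 0 → B.nn l u = v l := by
  classical
  let τ : Type := {l : Fin B.r // B.nn l q + k * B.a l = 0}
  let φ : (Fin n → ℤ) →+ (τ → ℤ) := AddMonoidHom.pi fun l : τ => B.nn l.1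
  have hφ : ∀ u (l : τ), φ u l = B.nn l.1 u := fun _ _ => rfl
  have h0 : ∀ u, φ u = 0 ↔ ∀ l, B.nn l q + k * B.a l = 0 → B.nn l u = 0 := by
    intro u
    constructor
    · intro hu l hl
      exact congrFun hu ⟨l, hl⟩
    · intro hu
      funext l
      exact hu l.1 l.2
  have hmem : ∀ u, u ∈ faceM B.nn B.a q k ↔ ∀ l : τ, 0 ≤ φ u l := by
    intro u
    constructor
    · intro hu l
      exact hu l.1 l.2
    · intro hu l hl
      exact hu ⟨l, hl⟩
  have h1 : TanBound K φ := by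
    intro e he1 he0 s D hD hlin
    refine h.card_le B hk hq e (fun u hu => he1 u ((h0 u).mpr hu))
      (fun u hu => he0 u (fun h' => hu ((h0 u).mp h'))) D ?_ ?_
    · intro i u hu v hv
      exact hD i u ((hmem u).mp hu) v ((hmem v).mp hv)
    · intro c hc
      exact hlin c fun u hu => hc u ((hmem u).mpr hu)
  have h2 : ∃ w, ∀ l, 0 < φ w l := by
    obtain ⟨w, hw⟩ := h.exists_pos B hk hq
    exact ⟨w, fun l => hw l.1 l.2⟩
  have h3 : ∀ l, ∃ w, φ w l = 1 := fun l => h.toTC.exists_nn_eq_one B l.1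
  have h4 : ∀ l l', l ≠ l' → ∃ w, (∀ l'', 0 ≤ φ w l'') ∧ φ w l = 0 ∧ 0 < φ w l' := by
    intro l l' hne
    obtain ⟨w, hw, hw1, hw2⟩ := h.exists_facet_cone B hk hq l.2 l'.2
      (fun he => hne (Subtype.ext he))
    exact ⟨w, (hmem w).mp hw, hw1, hw2⟩
  obtain ⟨u, hu⟩ := surjective_of_tanBound φ h1 h2 h3 h4 (fun l => v l.1)
  exact ⟨u, fun l hl => congrFun hu ⟨l, hl⟩⟩

end toric

end

end TOD
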