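import Pool.Agent.TD.A0
import Pool.Agent.TD.RC4
import Pool.Agent.TD.RC6
import Pool.Agent.TD.RS1
import Pool.Agent.TD.RD3
import Pool.Agent.TD.RZ8
import Pool.Agent.TD.RR2
import Pool.Agent.TD.RR3
import Pool.Agent.TD.RR4

universe u

namespace TOD

noncomputable section

/-- [TD-R5] The polytope of the polarisation `O(m₀)`: nonempty, bounded, all divisors are facets,
Delzant. ([TD-R4], [TD-R3] with [TD-D3], [TD-C6], [TD-R2] and [TD-Z8] for `k * m₀`; nonempty: a
character of some `z i ≠ 0`, [TD-C4] for `m = 1`, times `m₀`.) -/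
theorem NTC.polytope {K L : Type u} [Field K] [Field L] [Algebra K L] {n : ℕ} [IsAlgClosed K]
    [CharZero K] {J : Type} [Fintype J] {z : J → L}
    {Φ : AddMonoidAlgebra K (Fin n → ℤ) →ₐ[K] L} (h : NTC z n Φ) (B : BD z Φ) {m₀ : ℕ}
    (hm₀ : 0 < m₀) :
    (poly (latM B.nn) (fun l => m₀ * B.a l)).Nonempty ∧
    Bornology.IsBounded (poly (latM B.nn) (fun l => m₀ * B.a l)) ∧
    (∀ i, ∃ p ∈ poly (latM B.nn) (fun l => m₀ * B.a l), p i = 0) ∧
    ∀ p ∈ poly (latM B.nn) (fun l => m₀ * B.a l), ∀ v : Fin B.r → ℤ,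
      ∃ m ∈ latM B.nn, ∀ i, p i = 0 → m i = v i := by
  have key : ∀ u : Fin n → ℤ, (∀ l, 0 ≤ B.nn l u + B.a l) →
      (fun l => ((m₀ * (B.nn l u + B.a l) : ℤ) : ℝ)) ∈ poly (latM B.nn) (fun l => m₀ * B.a l) := by
    intro u hu
    rw [mem_poly_latM_iff]
    refine ⟨fun j => m₀ * u j, fun l => ?_, fun l => ?_⟩
    · rw [RR4_map_eq (B.nn l) u]
      push_cast
      rw [mul_add, Finset.mul_sum]
      congr 1
      refine Finset.sum_congr rfl fun j _ => ?_
      ring
    · have := mul_nonneg (Int.natCast_nonneg m₀) (hu l)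
      exact_mod_cast this
  refine ⟨?_, ?_, ?_, ?_⟩
  · obtain ⟨i, hi⟩ := h.z_ne
    have h1 : z i ∈ Sec K z 1 := by
      have h2 := Vz_pow_le_Sec (k := K) z 1
      rw [pow_one] at h2
      exact h2 (Submodule.subset_span ⟨i, rfl⟩)
    obtain ⟨f, hf, hf2⟩ := (h.mem_sec_iff B).1 h1
    obtain ⟨u, hu⟩ : ∃ u, f.coeff u ≠ 0 := by
      by_contra hcon
      push Not at hcon
      apply hi
      have : f = 0 := by
        ext u
        simpa using hcon u
      rw [hf, this, map_zero]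
    refine ⟨_, key u fun l => ?_⟩
    have := hf2 u hu l
    simpa using this
  · have h1 := bounded_of_pos B.nn (fun l => m₀ * B.a l) (fun u hu => h.eq_zero_of_nonneg B hu)
    have h2 : IsCompact (closure {x : Fin n → ℝ |
      ∀ l, 0 ≤ ∑ j, x j * (B.nn l (Pi.single j 1) : ℝ) + ((m₀ * B.a l : ℤ) : ℝ)}) :=
      h1.isCompact_closure
    have hcont : Continuous (fun (x : Fin n → ℝ) (l : Fin B.r) =>
        ∑ j, x j * (B.nn l (Pi.single j 1) : ℝ) + ((m₀ * B.a l : ℤ) : ℝ)) := by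
      fun_prop
    refine (h2.image hcont).isBounded.subset ?_
    intro p hp
    obtain ⟨x, hx, hp0⟩ := (mem_poly_latM_iff _ _ _).1 hp
    refine ⟨x, subset_closure fun l => ?_, funext fun l => (hx l).symm⟩
    have := hp0 l
    rw [hx l] at this
    exact this
  · intro l
    obtain ⟨u, hu, hu2⟩ := h.exists_facet B l
    refine ⟨_, key u hu2, ?_⟩
    rw [hu, mul_zero, Int.cast_zero]
  · intro p hp v
    obtain ⟨x, hx, hp0⟩ := (mem_poly_latM_iff _ _ _).1 hp
    obtain ⟨q, k, hk, hq, hq2⟩ := exists_lattice_point B.nn (fun l => m₀ * B.a l) x (fun l => by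
      rw [← hx l]
      exact hp0 l)
    obtain ⟨u, hu⟩ := h.delzant_int B (q := q) (k := k * m₀) (Nat.mul_pos hk hm₀) (fun l => by
      have := hq l
      push_cast
      rw [mul_assoc]
      exact this) v
    refine ⟨fun l => B.nn l u, ⟨u, fun l => rfl⟩, fun i hi => ?_⟩
    apply hu
    push_cast
    rw [mul_assoc]
    rw [hq2 i, ← hx i]
    exact hi

end

end TOD
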