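import Pool.Agent.TD.A0
import Pool.Agent.TD.RB10
import Pool.Agent.TD.RN4
import Pool.Agent.TD.RN5
import Pool.Agent.TD.RC4
import Pool.Agent.TD.RC5
import Pool.Agent.TD.RS1
import Pool.Agent.TD.RS5
import Pool.Agent.TD.RD5
import Pool.Agent.TD.RR5
import Pool.Agent.TD.RE1
import Pool.Agent.TD.RE2
import Pool.Agent.TD.RE3
import Pool.Agent.TD.RE4
import Pool.Agent.TD.RE5
import Pool.Agent.TD.RE6
import Pool.Agent.TD.RE7

universe u

namespace TOD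

noncomputable section

variable {R K κ L : Type u} [CommRing R] [Field K] [Algebra R K] [Field κ] [Algebra R κ]
  [Field L] [Algebra K L] {J : Type}

theorem RE8_chart (z : J → L) {c : L} (hc : c ≠ 0) (i : J) :
    chart K (fun j => c * z j) i = chart K z i := by
  have h1 : (fun j => c * z j / (c * z i)) = fun j => z j / z i :=
    funext fun j => mul_div_mul_left _ _ hc
  unfold chart
  rw [h1]

theorem RE8_sec {z : J → L} {c : L} (hc : c ≠ 0) {m : ℕ} {g : L} :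
    c ^ m * g ∈ Sec K (fun j => c * z j) m ↔ g ∈ Sec K z m := by
  rw [mem_Sec, mem_Sec]
  refine forall_congr' fun i => ?_
  have h1 : c ^ m * g / (c * z i) ^ m = g / z i ^ m := by
    rw [mul_pow, mul_div_mul_left _ _ (pow_ne_zero m hc)]
  rw [RE8_chart z hc i, h1]
  constructor
  · intro h hi
    exact h (mul_ne_zero hc hi)
  · intro h hi
    exact h (right_ne_zero_of_mul hi)

theorem RE8_Vz1 {z : J → L} {c : L} (hc : c ≠ 0) {x : L} (hx : x ∈ Vz K (fun j => c * z j)) :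
    c⁻¹ * x ∈ Vz K z := by
  refine Submodule.span_induction (p := fun x _ => c⁻¹ * x ∈ Vz K z) ?_ ?_ ?_ ?_ hx
  · rintro x ⟨j, rfl⟩
    show c⁻¹ * (c * z j) ∈ Vz K z
    rw [inv_mul_cancel_left₀ hc]
    exact Submodule.subset_span ⟨j, rfl⟩
  · rw [mul_zero]
    exact zero_mem _
  · intro x y _ _ hx hy
    rw [mul_add]
    exact add_mem hx hy
  · intro a x _ hx
    rw [mul_smul_comm]
    exact Submodule.smul_mem _ a hx

theorem RE8_Vz {z : J → L} {c : L} (hc : c ≠ 0) (m : ℕ) :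
    ∀ x ∈ Vz K (fun j => c * z j) ^ m, c⁻¹ ^ m * x ∈ Vz K z ^ m := by
  induction m with
  | zero =>
    intro x hx
    rw [pow_zero] at hx
    rw [pow_zero, pow_zero, one_mul]
    exact hx
  | succ m ih =>
    intro x hx
    rw [pow_succ] at hx
    rw [pow_succ (Vz K z) m]
    refine Submodule.mul_induction_on hx (fun a ha b hb => ?_) (fun a b ha hb => ?_)
    · have h1 := Submodule.mul_mem_mul (ih a ha) (RE8_Vz1 hc hb)
      have h2 : c⁻¹ ^ (m + 1) * (a * b) = c⁻¹ ^ m * a * (c⁻¹ * b) := by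
        rw [pow_succ]
        ring
      rw [h2]
      exact h1
    · rw [mul_add]
      exact add_mem ha hb

theorem RE8_le [IsAlgClosed K] [Fintype J] {z : J → L} (hz : ∃ i, z i ≠ 0) {c : L} (hc : c ≠ 0)
    {m₁ : ℕ} (hm₁ : ∀ m ≥ m₁, Sec K (fun j => c * z j) m = Vz K (fun j => c * z j) ^ m) (m : ℕ) :
    Sec K z ((m₁ + 1) * m) ≤ Vz K z ^ ((m₁ + 1) * m) := by
  intro g hg
  rcases Nat.eq_zero_or_pos m with h0 | h0
  · subst h0
    obtain ⟨a, ha⟩ := exists_eq_algebraMap_of_mem_Sec_zero hz (show g ∈ Sec K z 0 from hg)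
    rw [mul_zero, pow_zero, ha]
    exact Submodule.mem_one.2 ⟨a, rfl⟩
  · have h1 : m₁ ≤ (m₁ + 1) * m := by nlinarith
    have h2 := (RE8_sec hc).2 hg
    rw [hm₁ _ h1] at h2
    have h3 := RE8_Vz hc _ _ h2
    rw [inv_pow, inv_mul_cancel_left₀ (pow_ne_zero _ hc)] at h3
    exact h3

section RE8aux

variable [Fintype J] {t : R} {z : J → κ} {i₀ : J} {V : Subalgebra R κ} {ρ : V →+* L}
  (h : RC (K := K) t z i₀ V ρ) {n : ℕ} {Φ : AddMonoidAlgebra K (Fin n → ℤ) →ₐ[K] L} {c : L}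
  (hc : c ≠ 0) (hN : NTC (fun j => c * h.zbar j) n Φ) (B : BD (fun j => c * h.zbar j) Φ)

include h hc hN in
theorem RE8_ex (m : ℕ) (f : Sec R z m) : ∃ F : AddMonoidAlgebra K (Fin n → ℤ),
    ∃ hV : (f : κ) ∈ V, Φ F = c ^ m * ρ ⟨f, hV⟩ ∧
      ∀ u, F.coeff u ≠ 0 → ∀ l, 0 ≤ B.nn l u + m * B.a l := by
  obtain ⟨hV, h1⟩ := h.sec_restrict f.2
  obtain ⟨F, h2, h3⟩ := (hN.mem_sec_iff B).1 ((RE8_sec hc).2 h1)
  exact ⟨F, hV, h2.symm, h3⟩

/-- the function on the torus given by a section -/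
def RE8_F (m : ℕ) (f : Sec R z m) : AddMonoidAlgebra K (Fin n → ℤ) :=
  (RE8_ex h hc hN B m f).choose

theorem RE8_F_spec (m : ℕ) (f : Sec R z m) : ∃ hV : (f : κ) ∈ V,
    Φ (RE8_F h hc hN B m f) = c ^ m * ρ ⟨f, hV⟩ ∧
      ∀ u, (RE8_F h hc hN B m f).coeff u ≠ 0 → ∀ l, 0 ≤ B.nn l u + m * B.a l :=
  (RE8_ex h hc hN B m f).choose_spec

theorem RE8_F_eq (m : ℕ) (f : Sec R z m) (F : AddMonoidAlgebra K (Fin n → ℤ)) (hV : (f : κ) ∈ V)
    (hF : Φ F = c ^ m * ρ ⟨f, hV⟩) : RE8_F h hc hN B m f = F := by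
  obtain ⟨hV', h1, -⟩ := RE8_F_spec h hc hN B m f
  exact hN.Φ_inj (h1.trans hF.symm)

theorem RE8_F_add (m : ℕ) (f g : Sec R z m) :
    RE8_F h hc hN B m (f + g) = RE8_F h hc hN B m f + RE8_F h hc hN B m g := by
  obtain ⟨hf, h1, -⟩ := RE8_F_spec h hc hN B m f
  obtain ⟨hg, h2, -⟩ := RE8_F_spec h hc hN B m g
  refine RE8_F_eq h hc hN B m (f + g) _ (V.add_mem hf hg) ?_
  have h3 : ρ ⟨((f + g : Sec R z m) : κ), V.add_mem hf hg⟩ = ρ ⟨f, hf⟩ + ρ ⟨g, hg⟩ :=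
    map_add ρ ⟨f, hf⟩ ⟨g, hg⟩
  rw [map_add, h1, h2, h3, mul_add]

theorem RE8_F_smul (m : ℕ) (r : R) (f : Sec R z m) :
    RE8_F h hc hN B m (r • f) = algebraMap R K r • RE8_F h hc hN B m f := by
  obtain ⟨hf, h1, -⟩ := RE8_F_spec h hc hN B m f
  refine RE8_F_eq h hc hN B m (r • f) _ (V.smul_mem hf r) ?_
  have h3 : ρ ⟨((r • f : Sec R z m) : κ), V.smul_mem hf r⟩ =
      algebraMap K L (algebraMap R K r) * ρ ⟨f, hf⟩ := by
    rw [← h.ρ_alg r, ← map_mul]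
    congr 1
    apply Subtype.ext
    show r • (f : κ) = (algebraMap R V r : κ) * f
    rw [Algebra.smul_def]
    rfl
  rw [map_smul, h1, h3, Algebra.smul_def]
  ring

/-- the restriction of a section in Cox coordinates -/
def RE8_th (m : ℕ) : Sec R z m →ₗ[R] AddMonoidAlgebra K (Fin B.r → ℤ) where
  toFun f := coxMap K B.nn (fun l => m * B.a l) (RE8_F h hc hN B m f)
  map_add' f g := by rw [RE8_F_add, map_add]
  map_smul' r f := by
    rw [RE8_F_smul, map_smul, algebraMap_smul]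
    rfl

theorem RE8_th_apply (m : ℕ) (f : Sec R z m) : RE8_th h hc hN B m f =
    coxMap K B.nn (fun l => m * B.a l) (RE8_F h hc hN B m f) := rfl

theorem RE8_th_one : RE8_th h hc hN B 0 ⟨1, one_mem_Sec z⟩ = 1 := by
  have h1 : RE8_F h hc hN B 0 ⟨1, one_mem_Sec z⟩ = AddMonoidAlgebra.single 0 1 := by
    refine RE8_F_eq h hc hN B 0 _ _ V.one_mem ?_
    have h2 : ρ ⟨((⟨1, one_mem_Sec z⟩ : Sec R z 0) : κ), V.one_mem⟩ = 1 := map_one ρ
    rw [h2, ← AddMonoidAlgebra.one_def, map_one, pow_zero, mul_one]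
  rw [RE8_th_apply, h1, coxMap_single, AddMonoidAlgebra.one_def]
  congr 1
  funext l
  rw [map_zero, Nat.cast_zero, zero_mul, add_zero]
  rfl

theorem RE8_th_mul (m m' : ℕ) (f : Sec R z m) (g : Sec R z m')
    (hfg : (f : κ) * g ∈ Sec R z (m + m')) :
    RE8_th h hc hN B (m + m') ⟨f * g, hfg⟩ = RE8_th h hc hN B m f * RE8_th h hc hN B m' g := by
  obtain ⟨hf, h1, -⟩ := RE8_F_spec h hc hN B m f
  obtain ⟨hg, h2, -⟩ := RE8_F_spec h hc hN B m' g
  have h4 : RE8_F h hc hN B (m + m') ⟨f * g, hfg⟩ =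
      RE8_F h hc hN B m f * RE8_F h hc hN B m' g := by
    refine RE8_F_eq h hc hN B _ _ _ (V.mul_mem hf hg) ?_
    have h3 : ρ ⟨(f : κ) * g, V.mul_mem hf hg⟩ = ρ ⟨f, hf⟩ * ρ ⟨g, hg⟩ :=
      map_mul ρ ⟨f, hf⟩ ⟨g, hg⟩
    rw [map_mul, h1, h2, h3, pow_add]
    ring
  have h5 : (fun l => ((m + m' : ℕ) : ℤ) * B.a l) = fun l => (m * B.a l + m' * B.a l) := by
    funext l
    push_cast
    ring
  rw [RE8_th_apply, RE8_th_apply, RE8_th_apply, h4, h5, coxMap_mul]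

end RE8aux

/-- [TD-E8] Assembly: graded toric data. `c` and the normalised coordinates `c * zbar j` from [TD-N5],
`B` from [TD-B10], `m₀ > 0` with `Sec K (c zbar) m = Vz ^ m` for all `m ≥ m₀` ([TD-D5]; the same holds for `zbar`:
`Sec K (c zbar) m = c^m Sec K zbar m`), `H m = Sec R z (m₀ m)` ([TD-E5]; for `m = 0`: [TD-S5]),
`M = latM B.nn`, `a l = m₀ * B.a l`, `th m f = coxMap K B.nn (m₀ m a) (Φ⁻¹ (c^{m₀ m} ρ f))` ([TD-C4]); `th_ker`: [TD-E3],
injectivity; `th_surj`: [TD-C5], [TD-E4]; polytope: [TD-R5]. -/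
theorem RC.exists_TData [IsDomain R] [IsDiscreteValuationRing R]
    [IsAdicComplete (IsLocalRing.maximalIdeal R) R] {t : R} (ht : Irreducible t)
    [IsAlgClosed K] [CharZero K] [Fintype J]
    {z : J → κ} {i₀ : J} {V : Subalgebra R κ} {ρ : V →+* L}
    (h : RC (K := K) t z i₀ V ρ) (hRK : Function.Surjective (algebraMap R K))
    (ht0 : algebraMap R κ t ≠ 0) {n : ℕ} {Φ : AddMonoidAlgebra K (Fin n → ℤ) →ₐ[K] L}
    (hT : TC h.zbar n Φ) : Nonempty (TData R K κ t) := by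
  obtain ⟨c, hc, hN⟩ := hT.exists_NTC
  obtain ⟨B⟩ := hN.toTC.exists_BD
  obtain ⟨m₁, hm₁⟩ := hN.exists_sec_eq B
  have hle := RE8_le hT.z_ne hc hm₁
  have hm₀ : 0 < m₁ + 1 := Nat.succ_pos _
  obtain ⟨hp1, hp2, hp3, hp4⟩ := hN.polytope B hm₀
  have hinj : ∀ u, (∀ l, B.nn l u = 0) → u = 0 := fun u hu =>
    hN.eq_zero_of_nonneg B fun l => (hu l).ge
  refine ⟨{
    r := B.r
    M := latM B.nn
    a := fun l => ((m₁ + 1 : ℕ) : ℤ) * B.a l
    H := fun m => Sec R z ((m₁ + 1) * m)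
    H_fg := fun m => (h.sec_eq_forms ht hRK ht0 (hle m)).2
    one_mem := one_mem_Sec z
    mul_mem := fun {m m' f g} hf hg => by
      rw [mul_add]
      exact mul_mem_Sec hf hg
    frac := fun x => h.exists_quot hm₀ x
    th := fun m => RE8_th h hc hN B ((m₁ + 1) * m)
    th_one := RE8_th_one h hc hN B
    th_mul := fun m m' f g => ?_
    th_ker := fun m f hf => ?_
    th_supp := fun m f u hu => ?_
    th_surj := fun m u hu hu0 => ?_
    poly_nonempty := hp1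
    poly_bdd := hp2
    poly_zero := hp3
    delzant := hp4 }⟩
  · have key : ∀ (N : ℕ) (hN' : N = (m₁ + 1) * m + (m₁ + 1) * m') (hfg : (f : κ) * g ∈ Sec R z N),
        RE8_th h hc hN B N ⟨f * g, hfg⟩ =
          RE8_th h hc hN B ((m₁ + 1) * m) f * RE8_th h hc hN B ((m₁ + 1) * m') g := by
      intro N hN' hfg
      subst hN'
      exact RE8_th_mul h hc hN B _ _ f g hfg
    exact key _ (mul_add _ _ _) _
  · obtain ⟨hV, h1, -⟩ := RE8_F_spec h hc hN B _ f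
    have h2 : RE8_F h hc hN B ((m₁ + 1) * m) f = 0 :=
      coxMap_injective B.nn _ hinj (hf.trans (map_zero _).symm)
    rw [h2, map_zero] at h1
    have h3 : ρ ⟨f, hV⟩ = 0 := by
      rcases mul_eq_zero.1 h1.symm with h4 | h4
      · exact absurd h4 (pow_ne_zero _ hc)
      · exact h4
    obtain ⟨g, hg, hfg⟩ := h.sec_ker ht0 f.2 hV h3
    refine ⟨⟨g, hg⟩, Subtype.ext ?_⟩
    show (f : κ) = t • g
    rw [hfg, Algebra.smul_def]
  · obtain ⟨u', h1, h2⟩ := coxMap_coeff_ne_zero B.nn _ _ u hu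
    obtain ⟨-, -, h3⟩ := RE8_F_spec h hc hN B _ f
    refine ⟨⟨u', fun l => ?_⟩, fun l => ?_⟩
    · have h4 := h2 l
      show u l - (m • fun l => ((m₁ + 1 : ℕ) : ℤ) * B.a l) l = B.nn l u'
      rw [h4, Pi.smul_apply, nsmul_eq_mul]
      push_cast
      ring
    · rw [h2 l]
      exact h3 u' h1 l
  · obtain ⟨u', hu'⟩ := hu
    have h1 : ∀ l, u l = B.nn l u' + (((m₁ + 1) * m : ℕ) : ℤ) * B.a l := by
      intro l
      have h4 : u l - (m • fun l => ((m₁ + 1 : ℕ) : ℤ) * B.a l) l = B.nn l u' := hu' l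
      rw [Pi.smul_apply, nsmul_eq_mul] at h4
      push_cast at h4 ⊢
      linarith
    have h2 : ch Φ u' ∈ Sec K (fun j => c * h.zbar j) ((m₁ + 1) * m) := by
      rw [hN.ch_mem_sec_iff B]
      intro l
      have h3 := hu0 l
      rw [h1 l] at h3
      exact h3
    have h5 : c ^ ((m₁ + 1) * m) * ((c ^ ((m₁ + 1) * m))⁻¹ * ch Φ u') = ch Φ u' :=
      mul_inv_cancel_left₀ (pow_ne_zero _ hc) _
    have h6 : (c ^ ((m₁ + 1) * m))⁻¹ * ch Φ u' ∈ Sec K h.zbar ((m₁ + 1) * m) := by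
      rw [← RE8_sec hc, h5]
      exact h2
    obtain ⟨f, hf, hV, hρ⟩ := h.form_lift hRK (hle m h6)
    have hf' : f ∈ Sec R z ((m₁ + 1) * m) := Vz_pow_le_Sec z _ hf
    refine ⟨⟨f, hf'⟩, ?_⟩
    have h7 : RE8_F h hc hN B ((m₁ + 1) * m) ⟨f, hf'⟩ = AddMonoidAlgebra.single u' 1 := by
      refine RE8_F_eq h hc hN B _ ⟨f, hf'⟩ _ hV ?_
      have h8 : ρ ⟨((⟨f, hf'⟩ : Sec R z ((m₁ + 1) * m)) : κ), hV⟩ =
        (c ^ ((m₁ + 1) * m))⁻¹ * ch Φ u' := hρ
      rw [h8, h5]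
      rfl
    rw [RE8_th_apply, h7, coxMap_single]
    congr 1
    funext l
    exact (h1 l).symm

end

end TOD
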