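import Pool.Agent.TD.SD

open CategoryTheory Limits AlgebraicGeometry

universe u

namespace TOD

noncomputable section

variable {R K : Type u} [CommRing R] [Field K] [Algebra R K] {X X₀ : Scheme.{u}}
  {f : X ⟶ Spec (.of R)} {g : X₀ ⟶ X} {f₀ : X₀ ⟶ Spec (.of K)}

/-- [TS-I3] Every point specialises to a point of the special fibre (`f` is a closed map: the image of the
closure of `x` is closed and nonempty, so contains the closed point). -/
theorem exists_specializes [IsDomain R] [IsDiscreteValuationRing R] [IsProper f]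
    (h : IsPullback g f₀ f (Spec.map (CommRingCat.ofHom (algebraMap R K))))
    (hRK : Function.Surjective (algebraMap R K)) (x : X) : ∃ y ∈ Set.range g, x ⤳ y := by
  have hcl : IsClosed (f '' closure {x}) := f.isClosedMap _ isClosed_closure
  have hx : f x ∈ f '' closure {x} := ⟨x, subset_closure rfl, rfl⟩
  have hspec : f x ⤳ (IsLocalRing.closedPoint R : PrimeSpectrum R) :=
    IsLocalRing.specializes_closedPoint (R := R) _
  obtain ⟨y, hy, hfy⟩ := hspec.mem_closed hcl hx
  refine ⟨y, ?_, specializes_iff_mem_closure.mpr hy⟩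
  have hr1 : Set.range g = f ⁻¹' Set.range (Spec.map (CommRingCat.ofHom (algebraMap R K))) := by
    rw [← Scheme.Pullback.range_fst f (Spec.map (CommRingCat.ofHom (algebraMap R K)))]
    have e := h.isoPullback_hom_fst
    apply Set.Subset.antisymm
    · rintro _ ⟨z, rfl⟩
      refine ⟨h.isoPullback.hom z, ?_⟩
      rw [← Scheme.Hom.comp_apply, e]
    · rintro _ ⟨z, rfl⟩
      refine ⟨h.isoPullback.inv z, ?_⟩
      have e' := h.isoPullback_inv_fst
      rw [← Scheme.Hom.comp_apply, e']
  rw [hr1, Set.mem_preimage, hfy]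
  have hmax : (RingHom.ker (algebraMap R K)).IsMaximal := RingHom.ker_isMaximal_of_surjective _ hRK
  refine ⟨(⟨⊥, Ideal.isPrime_bot⟩ : PrimeSpectrum K), ?_⟩
  apply PrimeSpectrum.ext
  change Ideal.comap (algebraMap R K) ⊥ = IsLocalRing.maximalIdeal R
  exact IsLocalRing.eq_maximalIdeal hmax

end

end TOD
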