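import Pool.Agent.TD.SD

open CategoryTheory Limits AlgebraicGeometry

universe u

namespace TOD

noncomputable section

variable {R K : Type u} [CommRing R] [Field K] [Algebra R K] {X X₀ : Scheme.{u}}
  {f : X ⟶ Spec (.of R)} {g : X₀ ⟶ X} {f₀ : X₀ ⟶ Spec (.of K)}

theorem SI4_factor {B : Type u} [CommRing B] [IsLocalRing B] [IsNoetherianRing B] {t : B}
    (ht : t ∈ IsLocalRing.maximalIdeal B) {a : B} (ha : a ≠ 0) :
    ∃ (n : ℕ) (a' : B), a = t ^ n * a' ∧ a' ∉ Ideal.span {t} := by
  have hI : Ideal.span {t} ≠ ⊤ := by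
    intro h
    have h1 : Ideal.span {t} ≤ IsLocalRing.maximalIdeal B := by
      rw [Ideal.span_le]
      simpa using ht
    rw [h] at h1
    exact (IsLocalRing.maximalIdeal.isMaximal B).ne_top (top_le_iff.1 h1)
  have hk := Ideal.iInf_pow_eq_bot_of_isLocalRing (Ideal.span {t}) hI
  have hex : ∃ n, a ∉ (Ideal.span {t}) ^ n := by
    by_contra h
    push Not at h
    apply ha
    have : a ∈ (⨅ i : ℕ, (Ideal.span {t}) ^ i) := by
      rw [Ideal.mem_iInf]
      exact h
    rw [hk] at this
    exact this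
  classical
  have h1 := Nat.find_spec hex
  have h0 : Nat.find hex ≠ 0 := by
    intro h
    rw [h, pow_zero, Ideal.one_eq_top] at h1
    exact h1 trivial
  obtain ⟨n, hn⟩ := Nat.exists_eq_succ_of_ne_zero h0
  have h2 : a ∈ (Ideal.span {t}) ^ n := by
    by_contra h
    exact Nat.find_min hex (by omega) h
  rw [hn] at h1
  rw [Ideal.span_singleton_pow, Ideal.mem_span_singleton] at h1 h2
  obtain ⟨a', rfl⟩ := h2
  refine ⟨n, a', rfl, fun h => h1 ?_⟩
  obtain ⟨b, rfl⟩ := Ideal.mem_span_singleton.1 h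
  exact ⟨b, by rw [pow_succ]; ring⟩

/-- [TS-I4] Commutative algebra: a Noetherian local ring `B` with a nonzerodivisor `t` in the maximal ideal such that
`B / t` is a domain is a domain. (Krull: `⋂ t^n B = 0`. If `a b = 0` with `a, b ≠ 0`, write `a = t^i a'`, `b = t^j b'`,
`a', b' ∉ (t)`; then `a' b' = 0 ∈ (t)`.) -/
theorem isDomain_of_quot {B : Type u} [CommRing B] [IsLocalRing B] [IsNoetherianRing B] {t : B}
    (ht : t ∈ IsLocalRing.maximalIdeal B) (ht' : t ∈ nonZeroDivisors B)
    (hp : (Ideal.span {t}).IsPrime) : IsDomain B := by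
  have : NoZeroDivisors B := by
    refine ⟨fun {a b} hab => ?_⟩
    by_contra h
    push Not at h
    obtain ⟨ha, hb⟩ := h
    obtain ⟨i, a', rfl, ha'⟩ := SI4_factor ht ha
    obtain ⟨j, b', rfl, hb'⟩ := SI4_factor ht hb
    have h1 : (a' * b') * t ^ (i + j) = 0 := by
      rw [← hab, pow_add]
      ring
    have h2 : a' * b' = 0 := (mem_nonZeroDivisors_iff_right.1 (pow_mem ht' (i + j))) _ h1
    rcases hp.mem_or_mem (x := a') (y := b') (by rw [h2]; exact zero_mem _) with h | h
    · exact ha' h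
    · exact hb' h
  exact NoZeroDivisors.to_isDomain B

end

end TOD
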