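import Pool.Agent.TD.SD

open CategoryTheory Limits AlgebraicGeometry

universe u

namespace TOD

noncomputable section

variable {R K : Type u} [CommRing R] [Field K] [Algebra R K] {X X₀ : Scheme.{u}}
  {f : X ⟶ Spec (.of R)} {g : X₀ ⟶ X} {f₀ : X₀ ⟶ Spec (.of K)}

omit [Field K] [Algebra R K] in
theorem SI1_secHom (U : X.Opens) (r : R) :
    secHom f U r = (f.appLE ⊤ U le_top) ((Scheme.ΓSpecIso (.of R)).inv r) := rfl

theorem SI1_ker [IsDomain R] [IsDiscreteValuationRing R]
    (hRK : Function.Surjective (algebraMap R K)) {t : R} (ht : Irreducible t) (r : R) :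
    algebraMap R K r = 0 ↔ t ∣ r := by
  have h1 : (RingHom.ker (algebraMap R K)).IsMaximal :=
    RingHom.ker_isMaximal_of_surjective _ hRK
  have h2 := IsLocalRing.eq_maximalIdeal h1
  rw [← RingHom.mem_ker, h2, ht.maximalIdeal_eq, Ideal.mem_span_singleton]

/-- [TS-I1] Functions on the special fibre of an affine open set: restriction is surjective and its kernel is generated
by `t`. (`isIso_pushoutSection_of_isAffineOpen` for `US = ⊤`, `UT = ⊤`, `UX = U`: `Γ(X₀, g⁻¹U)` is the pushout of `Γ(X, U)` and `K` over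
`R`, and `K = R / t`; `Ideal.quotient`/tensor product, or directly with the universal property of the pushout.) -/
theorem app_surjective_ker [IsDomain R] [IsDiscreteValuationRing R]
    (h : IsPullback g f₀ f (Spec.map (CommRingCat.ofHom (algebraMap R K))))
    (hRK : Function.Surjective (algebraMap R K)) {t : R} (ht : Irreducible t) {U : X.Opens}
    (hU : IsAffineOpen U) :
    Function.Surjective (g.app U) ∧ ∀ s, g.app U s = 0 ↔ ∃ s', s = secHom f U t * s' := by
  have hci : IsClosedImmersion (Spec.map (CommRingCat.ofHom (algebraMap R K))) :=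
    IsClosedImmersion.spec_of_surjective _ hRK
  have hg : IsClosedImmersion g := MorphismProperty.of_isPullback h.flip hci
  have hsurj := g.app_surjective U hU
  refine ⟨hsurj, ?_⟩
  have e1 : U ≤ f ⁻¹ᵁ ⊤ := le_top
  have e2 : (⊤ : (Spec (.of K)).Opens) ≤
    (Spec.map (CommRingCat.ofHom (algebraMap R K))) ⁻¹ᵁ ⊤ := le_top
  have e3 : g ⁻¹ᵁ U = g ⁻¹ᵁ U ⊓ f₀ ⁻¹ᵁ ⊤ := by simp
  have hP := (isIso_pushoutSection_iff h e2 e1 e3).mp
    (isIso_pushoutSection_of_isAffineOpen h e2 e1 e3 (isAffineOpen_top _) (isAffineOpen_top _) hU)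
  have hgapp : ∀ s, g.appLE U (g ⁻¹ᵁ U) (by simp) s = g.app U s := by
    intro s
    rw [Scheme.Hom.app_eq_appLE]
  have h2 : ∀ r : R, (Spec.map (CommRingCat.ofHom (algebraMap R K))).appLE ⊤ ⊤ e2
      ((Scheme.ΓSpecIso (.of R)).inv r) = (Scheme.ΓSpecIso (.of K)).inv (algebraMap R K r) := by
    intro r
    have h3 := congrArg (fun φ => φ r)
      (Scheme.ΓSpecIso_inv_naturality (CommRingCat.ofHom (algebraMap R K)))
    have h4 : (Spec.map (CommRingCat.ofHom (algebraMap R K))).appTop =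
      (Spec.map (CommRingCat.ofHom (algebraMap R K))).appLE ⊤ ⊤ e2 := Scheme.Hom.app_eq_appLE _
    rw [h4] at h3
    exact h3.symm
  have hsq : ∀ r : R, g.app U (secHom f U r) = (f₀.appLE ⊤ (g ⁻¹ᵁ U) le_top)
      ((Scheme.ΓSpecIso (.of K)).inv (algebraMap R K r)) := by
    intro r
    have h1 := congrArg (fun φ => φ ((Scheme.ΓSpecIso (.of R)).inv r)) hP.w
    rw [← h2 r, ← hgapp]
    exact h1
  have ht0 : algebraMap R K t = 0 := (SI1_ker hRK ht t).2 dvd_rfl
  intro s
  constructor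
  · intro hs
    obtain ⟨J, hJ⟩ : ∃ J : Ideal Γ(X, U), J = Ideal.span {secHom f U t} := ⟨_, rfl⟩
    have hk : RingHom.ker (algebraMap R K) ≤
        RingHom.ker ((Ideal.Quotient.mk J).comp (secHom f U)) := by
      intro r hr
      obtain ⟨c, rfl⟩ := (SI1_ker hRK ht r).1 hr
      rw [RingHom.mem_ker, RingHom.comp_apply, map_mul, Ideal.Quotient.eq_zero_iff_mem, hJ]
      exact Ideal.mul_mem_right _ _ (Ideal.mem_span_singleton_self _)
    obtain ⟨kk, hkk⟩ : ∃ kk : K →+* (Γ(X, U) ⧸ J), ∀ r, kk (algebraMap R K r) =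
        Ideal.Quotient.mk J (secHom f U r) := by
      refine ⟨RingHom.liftOfSurjective (algebraMap R K) hRK
        ⟨(Ideal.Quotient.mk J).comp (secHom f U), hk⟩, fun r => ?_⟩
      exact RingHom.liftOfRightInverse_comp_apply _ _ _ _ r
    have hw : f.appLE ⊤ U e1 ≫ CommRingCat.ofHom (Ideal.Quotient.mk J) =
        (Spec.map (CommRingCat.ofHom (algebraMap R K))).appLE ⊤ ⊤ e2 ≫
          ((Scheme.ΓSpecIso (.of K)).hom ≫ CommRingCat.ofHom kk) := by
      apply CommRingCat.hom_ext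
      ext a
      obtain ⟨r, rfl⟩ : ∃ r, a = (Scheme.ΓSpecIso (.of R)).inv r :=
        ⟨(Scheme.ΓSpecIso (.of R)).hom a, by
          exact (Iso.hom_inv_id_apply (Scheme.ΓSpecIso (.of R)) a).symm⟩
      change Ideal.Quotient.mk J (secHom f U r) = kk ((Scheme.ΓSpecIso (.of K)).hom
        ((Spec.map (CommRingCat.ofHom (algebraMap R K))).appLE ⊤ ⊤ e2
          ((Scheme.ΓSpecIso (.of R)).inv r)))
      rw [h2 r, ← hkk]
      congr 1
      exact (Iso.inv_hom_id_apply (Scheme.ΓSpecIso (.of K)) (algebraMap R K r)).symm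
    have h5 := congrArg (fun φ => φ s) (hP.inl_desc (CommRingCat.ofHom (Ideal.Quotient.mk J))
      ((Scheme.ΓSpecIso (.of K)).hom ≫ CommRingCat.ofHom kk) hw)
    have h6 : Ideal.Quotient.mk J s = 0 := by
      have h7 : (hP.desc (CommRingCat.ofHom (Ideal.Quotient.mk J))
        ((Scheme.ΓSpecIso (.of K)).hom ≫ CommRingCat.ofHom kk) hw)
          (g.appLE U (g ⁻¹ᵁ U) (by simp) s) = Ideal.Quotient.mk J s := h5
      rw [← h7, hgapp, hs, map_zero]
    rw [Ideal.Quotient.eq_zero_iff_mem, hJ, Ideal.mem_span_singleton] at h6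
    exact h6
  · rintro ⟨s', rfl⟩
    rw [map_mul, hsq, ht0, map_zero, map_zero, zero_mul]

end

end TOD
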