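import Pool.Agent.TD.SD
import Pool.Agent.TD.SI1

open CategoryTheory Limits AlgebraicGeometry

universe u

namespace TOD

noncomputable section

variable {R K : Type u} [CommRing R] [Field K] [Algebra R K] {X X₀ : Scheme.{u}}
  {f : X ⟶ Spec (.of R)} {g : X₀ ⟶ X} {f₀ : X₀ ⟶ Spec (.of K)}

theorem SI5_germ {R : Type u} [CommRing R] {X : Scheme.{u}} (f : X ⟶ Spec (.of R)) (U : X.Opens)
    (x : X) (hx : x ∈ U) (t : R) :
    X.presheaf.germ U x hx (secHom f U t) = X.presheaf.germ ⊤ x trivial (secHom f ⊤ t) := by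
  have e1 := X.presheaf.germ_res_apply (homOfLE (le_top : U ≤ ⊤)) x hx
    (f.appTop ((Scheme.ΓSpecIso (.of R)).inv t))
  have e2 := X.presheaf.germ_res_apply (homOfLE (le_top : (⊤ : X.Opens) ≤ ⊤)) x trivial
    (f.appTop ((Scheme.ΓSpecIso (.of R)).inv t))
  exact e1.trans e2.symm

/-- [TS-I5] The local rings at points of the special fibre: the map to the local ring of the special fibre is surjective
with kernel generated by `t` (from [TS-I1] for affine neighbourhoods, germs). -/
theorem stalkMap_surjective_ker [IsDomain R] [IsDiscreteValuationRing R]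
    (h : IsPullback g f₀ f (Spec.map (CommRingCat.ofHom (algebraMap R K))))
    (hRK : Function.Surjective (algebraMap R K)) {t : R} (ht : Irreducible t) (y : X₀) :
    Function.Surjective (g.stalkMap y) ∧
      ∀ s, g.stalkMap y s = 0 ↔
        ∃ s', s = X.presheaf.germ ⊤ (g y) trivial (secHom f ⊤ t) * s' := by
  have hcl : IsClosedImmersion g := by
    have h1 : IsClosedImmersion (Spec.map (CommRingCat.ofHom (algebraMap R K))) :=
      IsClosedImmersion.spec_of_surjective _ hRK
    exact MorphismProperty.of_isPullback (P := @IsClosedImmersion) h.flip h1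
  refine ⟨g.stalkMap_surjective y, fun s => ⟨fun hs => ?_, ?_⟩⟩
  · obtain ⟨U, hU, s₀, rfl⟩ := X.presheaf.exists_germ_eq s
    rw [Scheme.Hom.germ_stalkMap_apply] at hs
    have hs' : X₀.presheaf.germ (g ⁻¹ᵁ U) y hU (g.app U s₀) =
        X₀.presheaf.germ (g ⁻¹ᵁ U) y hU 0 := hs.trans (map_zero _).symm
    obtain ⟨W, hyW, i1, i2, he⟩ := X₀.presheaf.germ_eq y hU hU _ _ hs'
    rw [map_zero] at he
    obtain ⟨W', hW'o, hW'⟩ := hcl.isClosedEmbedding.isInducing.isOpen_iff.mp W.isOpen
    have hgy : g y ∈ (⟨W', hW'o⟩ : X.Opens) := by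
      change y ∈ g ⁻¹' W'
      rw [hW']
      exact hyW
    obtain ⟨V, hV, hgV, hVle⟩ := exists_isAffineOpen_mem_and_subset
      (show g y ∈ U ⊓ (⟨W', hW'o⟩ : X.Opens) from ⟨hU, hgy⟩)
    have hVU : V ≤ U := fun z hz => (hVle hz).1
    have hgVW : g ⁻¹ᵁ V ≤ W := by
      intro z hz
      have h2 : g z ∈ W' := (hVle hz).2
      have h3 : z ∈ g ⁻¹' W' := h2
      rw [hW'] at h3
      exact h3
    have hzero : g.app V (X.presheaf.map (homOfLE hVU).op s₀) = 0 := by
      have h4 := congrArg (fun m => m.hom s₀) (g.naturality (homOfLE hVU).op)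
      have h5 : g.app V (X.presheaf.map (homOfLE hVU).op s₀) =
          X₀.presheaf.map ((TopologicalSpace.Opens.map g.base).map (homOfLE hVU)).op
            (g.app U s₀) := h4
      rw [h5]
      have h6 : X₀.presheaf.map ((TopologicalSpace.Opens.map g.base).map (homOfLE hVU)).op
            (g.app U s₀) = X₀.presheaf.map (homOfLE hgVW).op
              (X₀.presheaf.map i1.op (g.app U s₀)) := by
        have h7 : X₀.presheaf.map ((TopologicalSpace.Opens.map g.base).map (homOfLE hVU)).op =
            X₀.presheaf.map i1.op ≫ X₀.presheaf.map (homOfLE hgVW).op := by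
          rw [← Functor.map_comp]
          rfl
        exact congrArg (fun m => m.hom (g.app U s₀)) h7
      rw [h6, he, map_zero]
    obtain ⟨s', hs'⟩ := ((app_surjective_ker h hRK ht hV).2 _).mp hzero
    refine ⟨X.presheaf.germ V (g y) hgV s', ?_⟩
    rw [← SI5_germ f V (g y) hgV t, ← map_mul, ← hs']
    exact (X.presheaf.germ_res_apply (homOfLE hVU) (g y) hgV s₀).symm
  · rintro ⟨s', rfl⟩
    obtain ⟨V, hV, hgV, -⟩ := exists_isAffineOpen_mem_and_subset
      (show g y ∈ (⊤ : X.Opens) from trivial)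
    have h1 : g.app V (secHom f V t) = 0 :=
      ((app_surjective_ker h hRK ht hV).2 _).mpr ⟨1, (mul_one _).symm⟩
    rw [map_mul, ← SI5_germ f V (g y) hgV t, Scheme.Hom.germ_stalkMap_apply, h1, map_zero,
      zero_mul]

end

end TOD
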