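import Pool.Agent.TD.SD

open CategoryTheory Limits AlgebraicGeometry

universe u

namespace TOD

noncomputable section

variable {R K : Type u} [CommRing R] [Field K] [Algebra R K] {X X₀ : Scheme.{u}}
  {f : X ⟶ Spec (.of R)} {g : X₀ ⟶ X} {f₀ : X₀ ⟶ Spec (.of K)}

/-- [TS-I6] `X` is locally Noetherian (locally of finite type over a Noetherian ring), so its stalks are
Noetherian; `t` is a nonzerodivisor in the stalks (`f` flat: the stalk is a flat, so torsion free `R`-module). -/
theorem stalk_noetherian_nonZeroDivisor [IsDomain R] [IsDiscreteValuationRing R] [Flat f]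
    [LocallyOfFiniteType f] {t : R} (ht : t ≠ 0) (x : X) :
    IsNoetherianRing (X.presheaf.stalk x) ∧
      X.presheaf.germ ⊤ x trivial (secHom f ⊤ t) ∈ nonZeroDivisors (X.presheaf.stalk x) := by
  have hX : IsLocallyNoetherian X := LocallyOfFiniteType.isLocallyNoetherian f
  refine ⟨inferInstance, ?_⟩
  have hinj := germ_injective_of_isIntegral (Spec (.of R)) (f x) (U := ⊤) trivial
  have ht0 : (Spec (.of R)).presheaf.germ ⊤ (f x) trivial ((Scheme.ΓSpecIso (.of R)).inv.hom t) ≠ 0 := by
    intro h0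
    have h1 : (Scheme.ΓSpecIso (.of R)).inv.hom t = 0 := hinj (by rw [h0, map_zero])
    have h2 : (Scheme.ΓSpecIso (.of R)).hom.hom ((Scheme.ΓSpecIso (.of R)).inv.hom t) = t :=
      congrArg (fun m : CommRingCat.of R ⟶ CommRingCat.of R => m.hom t)
        (Scheme.ΓSpecIso (.of R)).inv_hom_id
    rw [h1, map_zero] at h2
    exact ht h2.symm
  have hgerm : X.presheaf.germ ⊤ x trivial (secHom f ⊤ t) =
      f.stalkMap x ((Spec (.of R)).presheaf.germ ⊤ (f x) trivial
        ((Scheme.ΓSpecIso (.of R)).inv.hom t)) := by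
    have h1 := Scheme.Hom.germ_stalkMap_apply f ⊤ x trivial ((Scheme.ΓSpecIso (.of R)).inv.hom t)
    have h2 := X.presheaf.germ_res_apply (homOfLE (le_top : (⊤ : X.Opens) ≤ ⊤)) x trivial
      (f.appTop ((Scheme.ΓSpecIso (.of R)).inv.hom t))
    exact h2.trans h1.symm
  rw [hgerm]
  have hfl : (f.stalkMap x).hom.Flat := Flat.stalkMap f x
  algebraize [(f.stalkMap x).hom]
  have hreg : IsSMulRegular ((Spec (.of R)).presheaf.stalk (f x))
      ((Spec (.of R)).presheaf.germ ⊤ (f x) trivial ((Scheme.ΓSpecIso (.of R)).inv.hom t)) := by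
    intro a b hab
    exact mul_left_cancel₀ ht0 hab
  have hreg2 : IsSMulRegular (X.presheaf.stalk x)
      ((Spec (.of R)).presheaf.germ ⊤ (f x) trivial ((Scheme.ΓSpecIso (.of R)).inv.hom t)) :=
    hreg.of_flat
  rw [mem_nonZeroDivisors_iff_right]
  intro b hb
  apply hreg2
  show (f.stalkMap x).hom _ * b = (f.stalkMap x).hom _ * 0
  rw [mul_zero, mul_comm]
  exact hb

end

end TOD
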