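import Pool.Agent.TD.SD
import Pool.Agent.TD.SI4
import Pool.Agent.TD.SI5
import Pool.Agent.TD.SI6

open CategoryTheory Limits AlgebraicGeometry

universe u

namespace TOD

noncomputable section

variable {R K : Type u} [CommRing R] [Field K] [Algebra R K] {X X₀ : Scheme.{u}}
  {f : X ⟶ Spec (.of R)} {g : X₀ ⟶ X} {f₀ : X₀ ⟶ Spec (.of K)}

/-- [TS-I7] The local rings at points of the special fibre are domains ([TS-I4], [TS-I5], [TS-I6]; the stalk of `X₀` is a
domain because `X₀` is integral; `t` is in the maximal ideal because its image in the local ring of `X₀` is zero). -/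
theorem isDomain_stalk [IsDomain R] [IsDiscreteValuationRing R] [Flat f]
    [LocallyOfFiniteType f] [IsIntegral X₀]
    (h : IsPullback g f₀ f (Spec.map (CommRingCat.ofHom (algebraMap R K))))
    (hRK : Function.Surjective (algebraMap R K)) (y : X₀) :
    IsDomain (X.presheaf.stalk (g y)) := by
  obtain ⟨t, ht⟩ := IsDiscreteValuationRing.exists_irreducible R
  obtain ⟨hsurj, hker⟩ := stalkMap_surjective_ker h hRK ht y
  obtain ⟨hN, hnz⟩ := stalk_noetherian_nonZeroDivisor (f := f) ht.ne_zero (g y)
  have : IsNoetherianRing (X.presheaf.stalk (g y)) := hN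
  set τ : X.presheaf.stalk (g y) := X.presheaf.germ ⊤ (g y) trivial (secHom f ⊤ t) with hτ
  let φ : X.presheaf.stalk (g y) →+* X₀.presheaf.stalk y := (g.stalkMap y).hom
  have hφ : ∀ s, φ s = 0 ↔ ∃ s', s = τ * s' := hker
  have hspan : Ideal.span {τ} = RingHom.ker φ := by
    ext s
    rw [Ideal.mem_span_singleton, RingHom.mem_ker, hφ]
    rfl
  have hdom : IsDomain (X₀.presheaf.stalk y) := inferInstance
  have hprime : (Ideal.span {τ}).IsPrime := by
    rw [hspan]
    exact RingHom.ker_isPrime φ
  have hmax : τ ∈ IsLocalRing.maximalIdeal (X.presheaf.stalk (g y)) := by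
    rw [IsLocalRing.mem_maximalIdeal, mem_nonunits_iff]
    intro hu
    have h1 : φ τ = 0 := (hφ τ).2 ⟨1, (mul_one τ).symm⟩
    have h2 := hu.map φ
    rw [h1] at h2
    exact not_isUnit_zero h2
  exact isDomain_of_quot hmax hnz hprime

end

end TOD
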