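import Pool.Agent.TD.SD
import Pool.Agent.TD.SI3
import Pool.Agent.TD.SI7

open CategoryTheory Limits AlgebraicGeometry

universe u

namespace TOD

noncomputable section

variable {R K : Type u} [CommRing R] [Field K] [Algebra R K] {X X₀ : Scheme.{u}}
  {f : X ⟶ Spec (.of R)} {g : X₀ ⟶ X} {f₀ : X₀ ⟶ Spec (.of K)}

theorem SI8_reduced {X : Scheme.{u}} {x y : X} (hxy : x ⤳ y)
    (hd : IsDomain (X.presheaf.stalk y)) : _root_.IsReduced (X.presheaf.stalk x) := by
  obtain ⟨V, hV, hyV, -⟩ := exists_isAffineOpen_mem_and_subset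
    (show y ∈ (⊤ : X.Opens) from trivial)
  have hxV : x ∈ V := hxy.mem_open V.isOpen hyV
  let inst1 : Algebra Γ(X, V) (X.presheaf.stalk x) := (X.presheaf.germ V x hxV).hom.toAlgebra
  have hloc : IsLocalization.AtPrime (X.presheaf.stalk x) (hV.primeIdealOf ⟨x, hxV⟩).asIdeal :=
    hV.isLocalization_stalk ⟨x, hxV⟩
  have hg : ∀ b : Γ(X, V), algebraMap Γ(X, V) (X.presheaf.stalk x) b =
      X.presheaf.germ V x hxV b := fun _ => rfl
  have hsp : ∀ b : Γ(X, V), X.presheaf.stalkSpecializes hxy (X.presheaf.germ V y hyV b) =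
      X.presheaf.germ V x hxV b := fun b => X.presheaf.germ_stalkSpecializes_apply hyV hxy b
  refine ⟨fun a ha => ?_⟩
  obtain ⟨n, hn⟩ := ha
  obtain ⟨⟨b, s⟩, hbs⟩ := IsLocalization.surj
    (hV.primeIdealOf ⟨x, hxV⟩).asIdeal.primeCompl a
  have hs : IsUnit (algebraMap Γ(X, V) (X.presheaf.stalk x) s) :=
    IsLocalization.map_units (X.presheaf.stalk x) s
  have h1 : algebraMap Γ(X, V) (X.presheaf.stalk x) (b ^ n) = 0 := by
    rw [map_pow]
    have h2 : a * algebraMap Γ(X, V) (X.presheaf.stalk x) s =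
        algebraMap Γ(X, V) (X.presheaf.stalk x) b := hbs
    rw [← h2, mul_pow, hn, zero_mul]
  obtain ⟨t, ht⟩ := (IsLocalization.map_eq_zero_iff
    (hV.primeIdealOf ⟨x, hxV⟩).asIdeal.primeCompl (X.presheaf.stalk x) (b ^ n)).mp h1
  have h3 : X.presheaf.germ V y hyV (t : Γ(X, V)) * (X.presheaf.germ V y hyV b) ^ n = 0 := by
    rw [← map_pow, ← map_mul, ht, map_zero]
  rcases mul_eq_zero.mp h3 with h4 | h4
  · exfalso
    have h5 : algebraMap Γ(X, V) (X.presheaf.stalk x) (t : Γ(X, V)) = 0 := by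
      rw [hg, ← hsp, h4, map_zero]
    have h6 : IsUnit (algebraMap Γ(X, V) (X.presheaf.stalk x) t) :=
      IsLocalization.map_units (X.presheaf.stalk x) t
    rw [h5] at h6
    exact not_isUnit_zero h6
  · have h5 : X.presheaf.germ V y hyV b = 0 := eq_zero_of_pow_eq_zero h4
    have h6 : algebraMap Γ(X, V) (X.presheaf.stalk x) b = 0 := by
      rw [hg, ← hsp, h5, map_zero]
    have h7 : a * algebraMap Γ(X, V) (X.presheaf.stalk x) s = 0 := by
      rw [← h6]
      exact hbs
    exact (hs.mul_left_eq_zero).mp h7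

theorem SI8_min {X : Scheme.{u}} (y : X) (hd : IsDomain (X.presheaf.stalk y)) :
    ∃ ξ : X, ξ ⤳ y ∧ ∀ x : X, x ⤳ y → ξ ⤳ x := by
  let b : Spec (X.presheaf.stalk y) := (⟨⊥, Ideal.isPrime_bot⟩ : PrimeSpectrum (X.presheaf.stalk y))
  have hb : ∀ p : Spec (X.presheaf.stalk y), b ⤳ p := by
    intro p
    exact (PrimeSpectrum.le_iff_specializes (⟨⊥, Ideal.isPrime_bot⟩ :
      PrimeSpectrum (X.presheaf.stalk y)) p).mp bot_le
  have hr := Scheme.range_fromSpecStalk (X := X) (x := y)
  have key : ∀ x : X, x ⤳ y → X.fromSpecStalk y b ⤳ x := by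
    intro x hx
    have h1 : x ∈ Set.range (X.fromSpecStalk y) := by
      rw [hr]
      exact hx
    obtain ⟨p, rfl⟩ := h1
    exact (hb p).map (X.fromSpecStalk y).continuous
  exact ⟨X.fromSpecStalk y b, key y specializes_rfl, key⟩

/-- [TS-I8] `X` is integral.
Proof: reduced: every `x` specialises to some `g y` ([TS-I3]), the stalk at `x` is a localisation of the stalk at `g y`
([TS-I7]) (or: `Scheme.isReduced_of_isReduced_stalk`; the stalk at `x` is the stalk at a point of
`Spec (stalk (g y))`). Irreducible: for `y : X₀` let `ξ_y` be the image of the generic point `⊥` under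
`X.fromSpecStalk (g y)`, whose range is the set of generizations of `g y` (`range_fromSpecStalk`); so `ξ_y ⤳ x` for every
`x ⤳ g y`. Let `η = g (genericPoint X₀) ⤳ g y`. Then `ξ_y ⤳ η`, so `ξ_η ⤳ ξ_y`; and `ξ_η ⤳ η ⤳ g y`, so `ξ_y ⤳ ξ_η`; so
`ξ_y = ξ_η` for all `y`, and `ξ_η ⤳ x` for all `x`. So all nonempty open sets contain `ξ_η`.
(`isIntegral_iff_irreducibleSpace_and_isReduced`; `X` is nonempty because `X₀` is.) -/
theorem isIntegral_total [IsDomain R] [IsDiscreteValuationRing R] [Flat f]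
    [LocallyOfFiniteType f] [IsProper f] [IsIntegral X₀]
    (h : IsPullback g f₀ f (Spec.map (CommRingCat.ofHom (algebraMap R K))))
    (hRK : Function.Surjective (algebraMap R K)) : IsIntegral X := by
  have hred : IsReduced X := by
    have : ∀ x : X, _root_.IsReduced (X.presheaf.stalk x) := by
      intro x
      obtain ⟨_, ⟨z, rfl⟩, hxz⟩ := exists_specializes h hRK x
      exact SI8_reduced hxz (isDomain_stalk h hRK z)
    exact isReduced_of_isReduced_stalk X
  have hirr : IrreducibleSpace X := by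
    choose ξ hξ1 hξ2 using fun z : X₀ => SI8_min (g z) (isDomain_stalk h hRK z)
    let γ : X₀ := genericPoint X₀
    have hγ : ∀ z : X₀, g γ ⤳ g z := fun z =>
      ((genericPoint_spec X₀).specializes (Set.mem_univ z)).map g.continuous
    have hall : ∀ x : X, ξ γ ⤳ x := by
      intro x
      obtain ⟨_, ⟨z, rfl⟩, hxz⟩ := exists_specializes h hRK x
      have h1 : ξ z ⤳ x := hξ2 z x hxz
      have h2 : ξ z ⤳ g γ := hξ2 z (g γ) (hγ z)
      exact (hξ2 γ (ξ z) h2).trans h1
    have hcl : closure {ξ γ} = (Set.univ : Set X) := by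
      rw [Set.eq_univ_iff_forall]
      exact fun x => specializes_iff_mem_closure.mp (hall x)
    rw [irreducibleSpace_def, Set.top_eq_univ, ← hcl]
    exact isIrreducible_singleton.closure
  exact (isIntegral_iff_irreducibleSpace_and_isReduced X).mpr ⟨hirr, hred⟩

end

end TOD
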