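import Pool.Agent.TD.SD
import Pool.Agent.TD.SI1

open CategoryTheory Limits AlgebraicGeometry

universe u

namespace TOD

noncomputable section

variable {R K : Type u} [CommRing R] [Field K] [Algebra R K] {X X₀ : Scheme.{u}}
  {f : X ⟶ Spec (.of R)} {g : X₀ ⟶ X} {f₀ : X₀ ⟶ Spec (.of K)}

theorem SI9_sec (h : IsPullback g f₀ f (Spec.map (CommRingCat.ofHom (algebraMap R K))))
    (U : X.Opens) (r : R) :
    g.app U (secHom f U r) = secHom f₀ (g ⁻¹ᵁ U) (algebraMap R K r) := by
  have key : ((Scheme.ΓSpecIso (.of R)).inv ≫ f.appTop ≫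
      X.presheaf.map (homOfLE (le_top : U ≤ ⊤)).op) ≫ g.app U =
      CommRingCat.ofHom (algebraMap R K) ≫ ((Scheme.ΓSpecIso (.of K)).inv ≫ f₀.appTop ≫
        X₀.presheaf.map (homOfLE (le_top : g ⁻¹ᵁ U ≤ ⊤)).op) := by
    have e1 : f.appTop ≫ g.appTop = (Spec.map (CommRingCat.ofHom (algebraMap R K))).appTop ≫ f₀.appTop := by
      rw [← Scheme.Hom.comp_appTop, ← Scheme.Hom.comp_appTop, h.w]
    rw [← Category.assoc (CommRingCat.ofHom (algebraMap R K)), Scheme.ΓSpecIso_inv_naturality,
      Category.assoc, Category.assoc, Category.assoc, g.naturality]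
    rw [← Category.assoc (Spec.map _).appTop, ← e1]
    rfl
  have := congrArg (fun φ => φ.hom r) key
  exact this

/-- [TS-I9] Base change of a projective atlas to the special fibre: affine because `g` is a closed immersion (affine
morphism), generated because restriction is surjective ([TS-I1]) and `K` is a quotient of `R`. -/
theorem Atlas.IsProj.pull_special [IsDomain R] [IsDiscreteValuationRing R] {N : ℕ}
    {A : Atlas X N} (hA : A.IsProj f)
    (h : IsPullback g f₀ f (Spec.map (CommRingCat.ofHom (algebraMap R K))))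
    (hRK : Function.Surjective (algebraMap R K)) : (A.pull g).IsProj f₀ := by
  have hc : IsClosedImmersion (Spec.map (CommRingCat.ofHom (algebraMap R K))) :=
    IsClosedImmersion.spec_of_surjective _ hRK
  have hg : IsClosedImmersion g := MorphismProperty.of_isPullback h.flip hc
  obtain ⟨t, ht⟩ := IsDiscreteValuationRing.exists_irreducible R
  refine ⟨fun i => (hA.aff i).preimage g, fun i x => ?_⟩
  obtain ⟨s, rfl⟩ := (app_surjective_ker h hRK ht (hA.aff i)).1 x
  have hle : Subring.closure (Set.range (secHom f (A.U i)) ∪ Set.range (A.z i)) ≤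
      (Subring.closure (Set.range (secHom f₀ (g ⁻¹ᵁ A.U i)) ∪
        Set.range ((A.pull g).z i))).comap (g.app (A.U i)).hom := by
    rw [Subring.closure_le]
    rintro _ (⟨r, rfl⟩ | ⟨j, rfl⟩)
    · refine Subring.subset_closure (Or.inl ⟨algebraMap R K r, ?_⟩)
      exact (SI9_sec h (A.U i) r).symm
    · exact Subring.subset_closure (Or.inr ⟨j, rfl⟩)
  exact hle (hA.gen i s)

end

end TOD
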