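import Pool.Agent.TD.SD

open CategoryTheory Limits AlgebraicGeometry

universe u

namespace TOD

noncomputable section

attribute [local instance] MvPolynomial.gradedAlgebra

/-- [TS-P1] The open sets `x_i ≠ 0` are affine (`Proj.isAffineOpen_basicOpen`) and cover `ℙ^N`
(`Proj.iSup_basicOpen_eq_top`, or: a point of `Proj` is a homogeneous prime ideal not containing the irrelevant
ideal; if it contains all the `x_i` it contains every homogeneous polynomial of positive degree). -/
theorem isAffineOpen_UP (N : ℕ) (i : Fin (N + 1)) : IsAffineOpen (UP.{u} N i) := by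
  exact Proj.isAffineOpen_basicOpen _ _ (MvPolynomial.isHomogeneous_X _ i) Nat.one_pos

theorem exists_mem_UP (N : ℕ) (x : PP.{u} N) : ∃ i, x ∈ UP N i := by
  have h := Proj.iSup_basicOpen_eq_top
    (MvPolynomial.homogeneousSubmodule (Fin (N + 1)) (ULift.{u} ℤ))
    (fun i : Fin (N + 1) => (MvPolynomial.X i : MvPolynomial (Fin (N + 1)) (ULift.{u} ℤ))) ?_
  · have hx : x ∈ ⨆ i : Fin (N + 1), UP.{u} N i := by
      have e : (⨆ i : Fin (N + 1), UP.{u} N i) = ⊤ := h
      rw [e]
      trivial
    exact TopologicalSpace.Opens.mem_iSup.mp hx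
  · intro p hp
    have hp' : GradedRing.proj (MvPolynomial.homogeneousSubmodule (Fin (N + 1)) (ULift.{u} ℤ)) 0 p = 0 :=
      (HomogeneousIdeal.mem_irrelevant_iff _ p).mp hp
    have h0 : MvPolynomial.homogeneousComponent 0 p = 0 := by
      rw [GradedRing.proj_apply] at hp'
      rw [← MvPolynomial.decomposition.decompose'_apply]
      exact hp'
    rw [MvPolynomial.homogeneousComponent_zero, MvPolynomial.C_eq_zero] at h0
    rw [← Set.image_univ, MvPolynomial.mem_ideal_span_X_image]
    intro m hm
    by_contra hne
    push Not at hne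
    have hm0 : m = 0 := by
      ext i
      exact hne i (Set.mem_univ i)
    rw [hm0, MvPolynomial.mem_support_iff] at hm
    exact hm h0

end

end TOD
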