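import Pool.Agent.TD.SD

open CategoryTheory Limits AlgebraicGeometry

universe u

namespace TOD

noncomputable section

attribute [local instance] MvPolynomial.gradedAlgebra

/-- auxiliary -/
theorem SP2_iso {A B : Type u} [CommRing A] [CommRing B] (e : A ≃+* B) (a : A) :
    IsUnit (e a) ↔ IsUnit a :=
  MulEquiv.isUnit_map e

/-- auxiliary -/
theorem SP2_unit (N : ℕ) (i j : Fin (N + 1))
    (x : ProjectiveSpectrum (MvPolynomial.homogeneousSubmodule (Fin (N + 1)) (ULift.{u} ℤ)))
    (hx : Submonoid.powers (MvPolynomial.X i) ≤ x.asHomogeneousIdeal.toIdeal.primeCompl) :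
    IsUnit (HomogeneousLocalization.mapId
      (MvPolynomial.homogeneousSubmodule (Fin (N + 1)) (ULift.{u} ℤ)) hx
          (HomogeneousLocalization.Away.mk
      (MvPolynomial.homogeneousSubmodule (Fin (N + 1)) (ULift.{u} ℤ)) (d := 1)
      (MvPolynomial.isHomogeneous_X _ i) 1 (MvPolynomial.X j) (MvPolynomial.isHomogeneous_X _ j))) ↔
      MvPolynomial.X j ∈ x.asHomogeneousIdeal.toIdeal.primeCompl := by
  rw [← HomogeneousLocalization.isUnit_iff_isUnit_val]
  have h2 : (HomogeneousLocalization.mapId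
      (MvPolynomial.homogeneousSubmodule (Fin (N + 1)) (ULift.{u} ℤ)) hx
          (HomogeneousLocalization.Away.mk
      (MvPolynomial.homogeneousSubmodule (Fin (N + 1)) (ULift.{u} ℤ)) (d := 1)
      (MvPolynomial.isHomogeneous_X _ i) 1 (MvPolynomial.X j)
      (MvPolynomial.isHomogeneous_X _ j))).val =
      Localization.mk (MvPolynomial.X j) ⟨MvPolynomial.X i ^ 1, hx ⟨1, rfl⟩⟩ := rfl
  rw [h2, Localization.mk_eq_mk', IsLocalization.AtPrime.isUnit_mk'_iff]

/-- auxiliary -/
theorem SP2_val (N : ℕ) (i j : Fin (N + 1)) (x : PP.{u} N) (hx : x ∈ UP N i) :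
    IsUnit ((PP.{u} N).presheaf.germ (UP N i) x hx (zP N i j)) ↔ x ∈ UP N j := by
  have h1 : (PP.{u} N).presheaf.germ (UP N i) x hx (zP N i j) =
      (Proj.stalkIso' (MvPolynomial.homogeneousSubmodule (Fin (N + 1)) (ULift.{u} ℤ)) x).symm
        (HomogeneousLocalization.mapId _ (Submonoid.powers_le.mpr hx)
          (HomogeneousLocalization.Away.mk
      (MvPolynomial.homogeneousSubmodule (Fin (N + 1)) (ULift.{u} ℤ)) (d := 1)
      (MvPolynomial.isHomogeneous_X _ i) 1 (MvPolynomial.X j) (MvPolynomial.isHomogeneous_X _ j))) := by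
    exact congrArg (fun q => q.hom (HomogeneousLocalization.Away.mk
      (MvPolynomial.homogeneousSubmodule (Fin (N + 1)) (ULift.{u} ℤ)) (d := 1)
      (MvPolynomial.isHomogeneous_X _ i) 1 (MvPolynomial.X j) (MvPolynomial.isHomogeneous_X _ j)))
      (ProjectiveSpectrum.Proj.awayToSection_germ
        (MvPolynomial.homogeneousSubmodule (Fin (N + 1)) (ULift.{u} ℤ)) (MvPolynomial.X i) x hx)
  rw [h1]
  exact (SP2_iso
    (Proj.stalkIso' (MvPolynomial.homogeneousSubmodule (Fin (N + 1)) (ULift.{u} ℤ)) x).symm _).trans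
    (SP2_unit N i j x (Submonoid.powers_le.mpr hx))

/-- [TS-P2] `x_i / x_i = 1`, and `x_j / x_i` is invertible exactly where `x_i ≠ 0` and `x_j ≠ 0`.
(`Proj.awayι_preimage_basicOpen`, `basicOpenIsoAway`, `Proj.basicOpen_mul`; or on stalks: the stalk of `Proj` at `x` is
the homogeneous localisation at the prime ideal `x`.) -/
theorem zP_self (N : ℕ) (i : Fin (N + 1)) : zP.{u} N i i = 1 := by
  have h : HomogeneousLocalization.Away.mk
      (MvPolynomial.homogeneousSubmodule (Fin (N + 1)) (ULift.{u} ℤ)) (d := 1)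
      (MvPolynomial.isHomogeneous_X _ i) 1 (MvPolynomial.X i)
      (MvPolynomial.isHomogeneous_X _ i) = 1 := by
    apply HomogeneousLocalization.val_injective
    rw [HomogeneousLocalization.Away.val_mk, HomogeneousLocalization.val_one]
    have hm : (MvPolynomial.X i : MvPolynomial (Fin (N + 1)) (ULift.{u} ℤ)) ∈
        Submonoid.powers (MvPolynomial.X i : MvPolynomial (Fin (N + 1)) (ULift.{u} ℤ)) :=
      Submonoid.mem_powers _
    have h3 : ∀ (hh : (MvPolynomial.X i : MvPolynomial (Fin (N + 1)) (ULift.{u} ℤ)) ^ 1 ∈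
        Submonoid.powers (MvPolynomial.X i : MvPolynomial (Fin (N + 1)) (ULift.{u} ℤ))),
        (⟨MvPolynomial.X i ^ 1, hh⟩ : Submonoid.powers
        (MvPolynomial.X i : MvPolynomial (Fin (N + 1)) (ULift.{u} ℤ))) =
        ⟨MvPolynomial.X i, hm⟩ := fun hh => Subtype.ext (pow_one _)
    rw [h3]
    exact Localization.mk_self ⟨MvPolynomial.X i, hm⟩
  unfold zP
  rw [h]
  exact map_one _

theorem basicOpen_zP (N : ℕ) (i j : Fin (N + 1)) :
    (PP.{u} N).basicOpen (zP N i j) = UP N i ⊓ UP N j := by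
  ext x
  constructor
  · intro h
    have hx : x ∈ UP N i := Scheme.basicOpen_le _ _ h
    exact ⟨hx, (SP2_val N i j x hx).1 ((Scheme.mem_basicOpen _ _ _ hx).1 h)⟩
  · rintro ⟨hx, hj⟩
    exact (Scheme.mem_basicOpen _ _ _ hx).2 ((SP2_val N i j x hx).2 hj)

end

end TOD
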