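import Pool.Agent.TD.SD

open CategoryTheory Limits AlgebraicGeometry

universe u

namespace TOD

noncomputable section

attribute [local instance] MvPolynomial.gradedAlgebra

/-- the grading -/
abbrev SP3_A (N : ℕ) : ℕ → Submodule (ULift.{u} ℤ) (MvPolynomial (Fin (N + 1)) (ULift.{u} ℤ)) :=
  MvPolynomial.homogeneousSubmodule (Fin (N + 1)) (ULift.{u} ℤ)

theorem SP3_val (N : ℕ) (i j : Fin (N + 1)) (x : PP.{u} N) (hi : x ∈ UP N i) :
    (Proj.stalkIso' (SP3_A.{u} N) x ((PP.{u} N).presheaf.germ (UP N i) x hi (zP N i j))).val =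
      Localization.mk (MvPolynomial.X j : MvPolynomial (Fin (N + 1)) (ULift.{u} ℤ))
        (⟨MvPolynomial.X i, hi⟩ : x.1.toIdeal.primeCompl) := by
  have h : Proj.stalkIso' (SP3_A.{u} N) x ((PP.{u} N).presheaf.germ (UP N i) x hi (zP N i j)) =
      HomogeneousLocalization.mapId (SP3_A.{u} N) (Submonoid.powers_le.mpr hi)
        (HomogeneousLocalization.Away.mk (SP3_A.{u} N) (d := 1)
          (MvPolynomial.isHomogeneous_X _ i) 1 (MvPolynomial.X j)
          (MvPolynomial.isHomogeneous_X _ j)) :=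
    Proj.stalkIso'_germ (SP3_A.{u} N) (UP N i) x hi (zP N i j)
  rw [h]
  have h2 : (HomogeneousLocalization.mapId (SP3_A.{u} N) (Submonoid.powers_le.mpr hi)
        (HomogeneousLocalization.Away.mk (SP3_A.{u} N) (d := 1)
          (MvPolynomial.isHomogeneous_X _ i) 1 (MvPolynomial.X j)
          (MvPolynomial.isHomogeneous_X _ j))).val =
      Localization.mk (MvPolynomial.X j : MvPolynomial (Fin (N + 1)) (ULift.{u} ℤ))
        (⟨MvPolynomial.X i ^ 1, by rw [pow_one]; exact hi⟩ : x.1.toIdeal.primeCompl) := rfl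
  rw [h2]
  congr 1
  exact Subtype.ext (pow_one _)

/-- [TS-P3] `(x_j / x_i) (x_k / x_j) = x_k / x_i` on stalks (`Proj.stalkIso`, the germ of `awayToSection` is
the canonical map of homogeneous localisations) or on the sections over `D_+(x_i x_j)`
(`Proj.awayMap_awayToSection`, `awayMap_mk`). -/
theorem zP_cocycle (N : ℕ) (i j k : Fin (N + 1)) (x : PP.{u} N) (hi : x ∈ UP N i)
    (hj : x ∈ UP N j) :
    (PP.{u} N).presheaf.germ (UP N i) x hi (zP N i j) *
      (PP.{u} N).presheaf.germ (UP N j) x hj (zP N j k) =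
        (PP.{u} N).presheaf.germ (UP N i) x hi (zP N i k) := by
  apply (Proj.stalkIso' (SP3_A.{u} N) x).injective
  apply HomogeneousLocalization.val_injective
  have h1 := SP3_val N i j x hi
  have h2 := SP3_val N j k x hj
  have h3 := SP3_val N i k x hi
  have h4 : (Proj.stalkIso' (SP3_A.{u} N) x ((PP.{u} N).presheaf.germ (UP N i) x hi (zP N i j) *
      (PP.{u} N).presheaf.germ (UP N j) x hj (zP N j k))) =
      (Proj.stalkIso' (SP3_A.{u} N) x ((PP.{u} N).presheaf.germ (UP N i) x hi (zP N i j))) *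
      (Proj.stalkIso' (SP3_A.{u} N) x ((PP.{u} N).presheaf.germ (UP N j) x hj (zP N j k))) :=
    map_mul _ _ _
  rw [h4, HomogeneousLocalization.val_mul, h1, h2, h3, Localization.mk_mul,
    Localization.mk_eq_mk_iff, Localization.r_iff_exists]
  refine ⟨1, ?_⟩
  rw [OneMemClass.coe_one, one_mul, one_mul]
  show (MvPolynomial.X i : MvPolynomial (Fin (N + 1)) (ULift.{u} ℤ)) *
    (MvPolynomial.X j * MvPolynomial.X k) =
    (MvPolynomial.X i * MvPolynomial.X j) * MvPolynomial.X k
  rw [mul_assoc]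

end

end TOD
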