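import Pool.Agent.TD.SD

open CategoryTheory Limits AlgebraicGeometry

universe u

namespace TOD

noncomputable section

attribute [local instance] MvPolynomial.gradedAlgebra

theorem SP4_scale {σ A L : Type*} [Fintype σ] [CommRing A] [CommRing L] (ψ : A →+* L)
    (g : σ → L) (t : L) {F : MvPolynomial σ A} {n : ℕ} (hF : F.IsHomogeneous n) :
    MvPolynomial.eval₂ ψ (fun j => g j * t) F = MvPolynomial.eval₂ ψ g F * t ^ n := by
  rw [MvPolynomial.eval₂_eq', MvPolynomial.eval₂_eq', Finset.sum_mul]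
  refine Finset.sum_congr rfl fun d hd => ?_
  have h1 : ∑ j, d j = n := by
    have h2 := hF (MvPolynomial.mem_support_iff.mp hd)
    rw [← h2, Finsupp.weight_apply, Finsupp.sum_fintype]
    · simp
    · simp
  have h3 : ∏ j, (g j * t) ^ d j = (∏ j, g j ^ d j) * t ^ n := by
    rw [← h1, ← Finset.prod_pow_eq_pow_sum, ← Finset.prod_mul_distrib]
    exact Finset.prod_congr rfl fun j _ => mul_pow _ _ _
  rw [h3, mul_assoc]

theorem SP4_uliftHom {S : Type*} [CommRing S] (φ : ULift.{u} ℤ →+* S)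
    (c : ULift.{u} ℤ) : φ c = ((c.down : ℤ) : S) := by
  have h1 : c = ((c.down : ℤ) : ULift.{u} ℤ) := by
    apply ULift.ext
    simp
  conv_lhs => rw [h1]
  exact map_intCast φ c.down

abbrev SP4_A (N : ℕ) : Type u := MvPolynomial (Fin (N + 1)) (ULift.{u} ℤ)

abbrev SP4_W (N : ℕ) (i : Fin (N + 1)) : Type u :=
  HomogeneousLocalization.Away
    (MvPolynomial.homogeneousSubmodule (Fin (N + 1)) (ULift.{u} ℤ)) (MvPolynomial.X i)

abbrev SP4_L (N : ℕ) (i : Fin (N + 1)) : Type u :=
  Localization (Submonoid.powers (MvPolynomial.X i : SP4_A.{u} N))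

def SP4_q (N : ℕ) (i j : Fin (N + 1)) : SP4_W.{u} N i :=
  HomogeneousLocalization.Away.mk
      (MvPolynomial.homogeneousSubmodule (Fin (N + 1)) (ULift.{u} ℤ)) (d := 1)
      (MvPolynomial.isHomogeneous_X _ i) 1 (MvPolynomial.X j)
      (MvPolynomial.isHomogeneous_X _ j)

theorem SP4_mk (N : ℕ) (i : Fin (N + 1)) (n : ℕ)
    (F : SP4_A.{u} N)
    (hF : F ∈ MvPolynomial.homogeneousSubmodule (Fin (N + 1)) (ULift.{u} ℤ) (n • 1))
    (φ : ULift.{u} ℤ →+* SP4_W.{u} N i) :
    HomogeneousLocalization.Away.mk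
      (MvPolynomial.homogeneousSubmodule (Fin (N + 1)) (ULift.{u} ℤ)) (d := 1)
      (MvPolynomial.isHomogeneous_X _ i) n F hF =
    MvPolynomial.eval₂ φ (fun j => SP4_q N i j) F := by
  let ι : SP4_W.{u} N i →+* SP4_L.{u} N i := algebraMap _ _
  let κ : SP4_A.{u} N →+* SP4_L.{u} N i := algebraMap _ _
  have hι : ∀ x, ι x = x.val := fun _ => rfl
  have hιi : Function.Injective ι := HomogeneousLocalization.val_injective _
  apply hιi
  rw [MvPolynomial.hom_eval₂]
  let s : Submonoid.powers (MvPolynomial.X i : SP4_A.{u} N) := ⟨MvPolynomial.X i, 1, pow_one _⟩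
  let t : SP4_L.{u} N i := Localization.mk 1 s
  have hκ : ∀ x, κ x = Localization.mk x 1 := fun x => (Localization.mk_algebraMap x).symm
  have e1 : ∀ j, ι (SP4_q N i j) = κ (MvPolynomial.X j) * t := by
    intro j
    have h1 : ι (SP4_q N i j) = Localization.mk (MvPolynomial.X j)
        ⟨(MvPolynomial.X i) ^ 1, by use 1⟩ := rfl
    rw [h1, hκ, Localization.mk_mul, mul_one, one_mul]
    congr 1
    exact Subtype.ext (pow_one _)
  have e2 : ι.comp φ = κ.comp MvPolynomial.C := by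
    refine RingHom.ext fun c => ?_
    rw [SP4_uliftHom, SP4_uliftHom]
  have e3 : (fun j => ι (SP4_q N i j)) = fun j => κ (MvPolynomial.X j) * t := funext e1
  have hF' : F.IsHomogeneous n := by
    have h := hF
    rw [smul_eq_mul, mul_one] at h
    exact h
  rw [e2, e3, SP4_scale _ _ _ hF', ← MvPolynomial.hom_eval₂, MvPolynomial.eval₂_eta]
  have h2 : ι (HomogeneousLocalization.Away.mk
      (MvPolynomial.homogeneousSubmodule (Fin (N + 1)) (ULift.{u} ℤ)) (d := 1)
      (MvPolynomial.isHomogeneous_X _ i) n F hF) = Localization.mk F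
        ⟨(MvPolynomial.X i) ^ n, by use n⟩ := rfl
  rw [h2, hκ, Localization.mk_pow, Localization.mk_mul, one_pow, mul_one, one_mul]
  congr 1

/-- [TS-P4] The functions on `x_i ≠ 0` are generated by the `x_j / x_i`: an element of the homogeneous localisation
is `F / x_i^d` (`Away.mk_surjective`), `F` homogeneous of degree `d`, a sum of terms `c ∏ x_j^{e_j}`, `∑ e_j = d`, and
`c ∏ x_j^{e_j} / x_i^d = c ∏ (x_j / x_i)^{e_j}` (`c : ULift ℤ` is an integer). Also `basicOpenIsoAway`: every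
section comes from the homogeneous localisation. -/
theorem mem_closure_zP (N : ℕ) (i : Fin (N + 1)) (x : Γ(PP.{u} N, UP N i)) :
    x ∈ Subring.closure (Set.range (zP N i)) := by
  let 𝒜 := MvPolynomial.homogeneousSubmodule (Fin (N + 1)) (ULift.{u} ℤ)
  let φ : ULift.{u} ℤ →+* SP4_W.{u} N i :=
    (Int.castRingHom (SP4_W.{u} N i)).comp (ULift.ringEquiv (R := ℤ)).toRingHom
  have hiso : IsIso (Proj.awayToSection 𝒜 (MvPolynomial.X i)) :=
    (Proj.basicOpenIsoAway 𝒜 (MvPolynomial.X i) (MvPolynomial.isHomogeneous_X _ i)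
      Nat.one_pos).isIso_hom
  obtain ⟨a, rfl⟩ := (ConcreteCategory.bijective_of_isIso
    (Proj.awayToSection 𝒜 (MvPolynomial.X i))).2 x
  obtain ⟨n, F, hF, rfl⟩ := HomogeneousLocalization.Away.mk_surjective 𝒜 (d := 1)
    (MvPolynomial.isHomogeneous_X _ i) a
  have h1 := SP4_mk N i n F hF φ
  let θ : SP4_W.{u} N i →+* Γ(PP.{u} N, UP N i) :=
    (Proj.awayToSection 𝒜 (MvPolynomial.X i)).hom
  have h2 := congrArg θ h1
  rw [MvPolynomial.hom_eval₂] at h2
  have h3 : MvPolynomial.eval₂ (θ.comp φ) (fun j => θ (SP4_q N i j)) F ∈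
      Subring.closure (Set.range (zP N i)) := by
    refine MvPolynomial.eval₂_mem (fun d _ => ?_) fun j => Subring.subset_closure ⟨j, rfl⟩
    rw [SP4_uliftHom]
    exact intCast_mem _ _
  rw [← h2] at h3
  exact h3

end

end TOD
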