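import Pool.Agent.TD.SD
import Pool.Agent.TD.SP1
import Pool.Agent.TD.SP2
import Pool.Agent.TD.SP3
import Pool.Agent.TD.SP4

open CategoryTheory Limits AlgebraicGeometry

universe u

namespace TOD

noncomputable section

attribute [local instance] MvPolynomial.gradedAlgebra

/-- The standard atlas of `ℙ^N`. -/
def atlasP (N : ℕ) : Atlas (PP.{u} N) N where
  U := UP N
  cover := exists_mem_UP N
  z := zP N
  basic := basicOpen_zP N
  z_self := zP_self N
  cocycle := zP_cocycle N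

theorem SP5_secHom {R : Type u} [CommRing R] {X : Scheme.{u}} (f : X ⟶ Spec (.of R)) (U : X.Opens) :
    secHom f U = ((Scheme.ΓSpecIso (.of R)).inv ≫ f.appLE ⊤ U le_top).hom := rfl

/-- the sections of projective space over `x_j ≠ 0` -/
theorem SP5_top {S P : Scheme.{u}} [IsAffine S] (N : ℕ) (q : P ⟶ PP.{u} N) (b : P ⟶ S)
    (H : IsPullback q b (terminal.from (PP.{u} N)) (terminal.from S)) (j : Fin (N + 1)) :
    Subring.closure (Set.range (q.app (UP N j)) ∪
      Set.range (b.appLE ⊤ (q ⁻¹ᵁ UP N j) le_top)) = ⊤ := by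
  have h1 : q ⁻¹ᵁ UP N j = q ⁻¹ᵁ UP N j ⊓ b ⁻¹ᵁ ⊤ := by simp
  have h2 := (isIso_pushoutSection_iff H (US := ⊤) (UT := ⊤) (UX := UP N j) le_top le_top h1).1
    (isIso_pushoutSection_of_isAffineOpen H _ _ h1 (isAffineOpen_top _) (isAffineOpen_top _)
      (isAffineOpen_UP N j))
  have h3 := CommRingCat.closure_range_union_range_eq_top_of_isPushout h2
  rw [Scheme.Hom.appLE_eq_app] at h3
  exact h3

theorem SP5_gen {R : Type u} [CommRing R] {X P : Scheme.{u}} {N : ℕ} (q : P ⟶ PP.{u} N)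
    (b : P ⟶ Spec (.of R)) (H : IsPullback q b (terminal.from (PP.{u} N)) (terminal.from _))
    (f : X ⟶ Spec (.of R)) (i : X ⟶ P) (hc : IsClosedImmersion i) (hi : i ≫ b = f)
    (j : Fin (N + 1)) :
    IsAffineOpen ((i ≫ q) ⁻¹ᵁ UP N j) ∧ ∀ x : Γ(X, (i ≫ q) ⁻¹ᵁ UP N j),
      x ∈ Subring.closure (Set.range (secHom f ((i ≫ q) ⁻¹ᵁ UP N j)) ∪
        Set.range fun k => (i ≫ q).app (UP N j) (zP N j k)) := by
  have ht : IsAffineHom (terminal.from (Spec (.of R))) := inferInstance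
  have hq : IsAffineHom q := MorphismProperty.of_isPullback (P := @IsAffineHom) H.flip ht
  refine ⟨(isAffineOpen_UP N j).preimage (i ≫ q), fun x => ?_⟩
  have haff' : IsAffineOpen (q ⁻¹ᵁ UP N j) := (isAffineOpen_UP N j).preimage q
  obtain ⟨y, hy⟩ := i.app_surjective (q ⁻¹ᵁ UP N j) haff' x
  have h1 := SP5_top (S := Spec (.of R)) N q b H j
  have h2 : y ∈ (⊤ : Subring Γ(P, q ⁻¹ᵁ UP N j)) := trivial
  rw [← h1] at h2
  rw [← hy]
  have h3 := (Subring.mem_map (f := (i.app (q ⁻¹ᵁ UP N j)).hom)).2 ⟨y, h2, rfl⟩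
  rw [RingHom.map_closure] at h3
  refine (Subring.closure_le.2 ?_) h3
  rintro _ ⟨a, ha | ha, rfl⟩
  · obtain ⟨a, rfl⟩ := ha
    have h4 := mem_closure_zP N j a
    have h5 := (Subring.mem_map (f := ((i ≫ q).app (UP N j)).hom)).2 ⟨a, h4, rfl⟩
    rw [RingHom.map_closure] at h5
    have h6 : (i.app (q ⁻¹ᵁ UP N j)).hom (q.app (UP N j) a) = ((i ≫ q).app (UP N j)).hom a := by
      rw [Scheme.Hom.comp_app]
      rfl
    rw [h6]
    refine (Subring.closure_mono ?_) h5
    rintro _ ⟨_, ⟨k, rfl⟩, rfl⟩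
    exact Or.inr ⟨k, rfl⟩
  · obtain ⟨r, rfl⟩ := ha
    refine Subring.subset_closure (Or.inl ⟨(Scheme.ΓSpecIso (.of R)).hom r, ?_⟩)
    rw [SP5_secHom]
    subst hi
    have h7 : b.appLE ⊤ (q ⁻¹ᵁ UP N j) le_top ≫ i.app (q ⁻¹ᵁ UP N j) =
        (i ≫ b).appLE ⊤ ((i ≫ q) ⁻¹ᵁ UP N j) le_top := by
      rw [← Scheme.Hom.appLE_eq_app, Scheme.Hom.appLE_comp_appLE]
      rfl
    have h8 := congrArg (fun φ => φ.hom r) h7
    simp only [CommRingCat.hom_comp, RingHom.comp_apply] at h8 ⊢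
    rw [h8]
    simp
    rfl

/-- [TS-P5] A closed immersion into `ℙ^N_R` gives a projective atlas.
Proof: `q = pullback.snd : PSpace N (Spec R) ⟶ PP N` is the base change of the affine morphism `Spec R ⟶ ⊤_` (terminal
object), so it is affine, and `i` is affine (closed immersion); so `(i ≫ q) ⁻¹ᵁ U` is affine for `U` affine. Generation:
`isIso_pushoutSection_of_isAffineOpen` (Mathlib, `Morphisms/Flat.lean`) for the pullback square
`PSpace N (Spec R)` and `US = ⊤`, `UT = ⊤`, `UX = UP N i`: the sections on `q ⁻¹ᵁ UP N i` are a pushout (tensor product) of `R` and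
`Γ(PP N, UP N i)`, so generated by the images of both; `i.app` is surjective on affine opens
(`Scheme.Hom.app_surjective`); [TS-P4]. -/
theorem isProj_of_closedImmersion {R : Type u} [CommRing R] {X : Scheme.{u}} {N : ℕ}
    (f : X ⟶ Spec (.of R)) (i : X ⟶ PSpace N (Spec (.of R))) [IsClosedImmersion i]
    (hi : i ≫ PSpace.toBase N (Spec (.of R)) = f) :
    ((atlasP N).pull (i ≫ pullback.snd (terminal.from (Spec (.of R))) (terminal.from (PP N)))).IsProj
      f := by
  have H : IsPullback (pullback.snd (terminal.from (Spec (.of R))) (terminal.from (PP.{u} N)))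
      (PSpace.toBase N (Spec (.of R))) (terminal.from (PP.{u} N)) (terminal.from _) :=
    (IsPullback.of_hasPullback _ _).flip
  have hc : IsClosedImmersion i := ‹_›
  exact ⟨fun j => (SP5_gen _ _ H f i hc hi j).1, fun j => (SP5_gen _ _ H f i hc hi j).2⟩

end

end TOD
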