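import Pool.Agent.TD.SD

open CategoryTheory Limits AlgebraicGeometry

universe u

namespace TOD

noncomputable section

attribute [local instance] MvPolynomial.gradedAlgebra

/-- projective space is functorial in the base -/
def SP6_map (n : ℕ) {S' S : Scheme.{u}} (f : S' ⟶ S) : PSpace n S' ⟶ PSpace n S :=
  pullback.lift (PSpace.toBase n S' ≫ f) (pullback.snd _ _) (terminal.hom_ext _ _)

theorem SP6_isPullback (n : ℕ) {S' S : Scheme.{u}} (f : S' ⟶ S) :
    IsPullback (SP6_map n f) (PSpace.toBase n S') (PSpace.toBase n S) f := by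
  have ht : IsPullback (pullback.snd (terminal.from S) (terminal.from (PP.{u} n)))
      (PSpace.toBase n S) (terminal.from (PP.{u} n)) (terminal.from S) :=
    (IsPullback.of_hasPullback _ _).flip
  have hs : IsPullback (SP6_map n f ≫ pullback.snd (terminal.from S) (terminal.from (PP.{u} n)))
      (PSpace.toBase n S') (terminal.from (PP.{u} n)) (f ≫ terminal.from S) := by
    have h1 : SP6_map n f ≫ pullback.snd (terminal.from S) (terminal.from (PP.{u} n)) =
        pullback.snd (terminal.from S') (terminal.from (PP.{u} n)) := pullback.lift_snd _ _ _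
    have h2 : f ≫ terminal.from S = terminal.from S' := terminal.hom_ext _ _
    rw [h1, h2]
    exact (IsPullback.of_hasPullback _ _).flip
  exact IsPullback.of_right hs (pullback.lift_fst _ _ _) ht

theorem SP6_aux {n : ℕ} {U U' V V' : Scheme.{u}} {a : V' ⟶ V} {b : V' ⟶ U'} {i : V ⟶ PSpace n U}
    {c : U' ⟶ U} (hi : IsClosedImmersion i) (h1 : IsPullback a b (i ≫ PSpace.toBase n U) c) :
    ∃ i' : V' ⟶ PSpace n U', IsClosedImmersion i' ∧ i' ≫ PSpace.toBase n U' = b := by
  have h2 := SP6_isPullback n c
  have h0 : (a ≫ i) ≫ PSpace.toBase n U = b ≫ c := by rw [Category.assoc]; exact h1.w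
  refine ⟨h2.lift (a ≫ i) b h0, ?_, h2.lift_snd _ _ _⟩
  have h3 : IsPullback a (h2.lift (a ≫ i) b h0) i (SP6_map n c) := by
    refine IsPullback.of_bot ?_ (h2.lift_fst _ _ _).symm h2
    rw [h2.lift_snd]
    exact h1
  exact MorphismProperty.of_isPullback (P := @IsClosedImmersion) h3 hi

/-- [TS-P6] Over a local ring a projective morphism is globally a closed immersion into a projective
space: the neighbourhood `U` of the closed point in the definition is everything
(`IsLocalRing.closedPoint`, `PrimeSpectrum`: an open set containing the closed point is `⊤`);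
replace `U.toScheme` by `Spec R` (`Scheme.topIso`, isomorphisms of pullbacks). -/
theorem IsProjective.exists_closedImmersion {R : Type u} [CommRing R] [IsLocalRing R]
    {X : Scheme.{u}} {f : X ⟶ Spec (.of R)} (hf : IsProjective f) :
    ∃ (N : ℕ) (i : X ⟶ PSpace N (Spec (.of R))), IsClosedImmersion i ∧
      i ≫ PSpace.toBase N (Spec (.of R)) = f := by
  obtain ⟨U, hU, n, i, hi, hif⟩ := hf (IsLocalRing.closedPoint R)
  have hU' : U = ⊤ := (IsLocalRing.closedPoint_mem_iff U).1 hU
  subst hU'
  have hp := isPullback_morphismRestrict f ⊤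
  have h1 : IsIso (⊤ : (Spec (CommRingCat.of R)).Opens).ι :=
    inferInstanceAs (IsIso (Scheme.topIso (Spec (CommRingCat.of R))).hom)
  have h2 : IsIso (f ⁻¹ᵁ (⊤ : (Spec (CommRingCat.of R)).Opens)).ι :=
    MorphismProperty.of_isPullback (P := MorphismProperty.isomorphisms Scheme) hp h1
  have h3 : IsPullback (inv (f ⁻¹ᵁ (⊤ : (Spec (CommRingCat.of R)).Opens)).ι) f
      (i ≫ PSpace.toBase n (⊤ : (Spec (CommRingCat.of R)).Opens).toScheme)
      (inv (⊤ : (Spec (CommRingCat.of R)).Opens).ι) := by
    rw [hif]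
    refine IsPullback.of_horiz_isIso ⟨?_⟩
    rw [IsIso.inv_comp_eq, ← Category.assoc, IsIso.eq_comp_inv]
    exact (morphismRestrict_ι f ⊤)
  obtain ⟨i', hi', h'⟩ := SP6_aux hi h3
  exact ⟨n, i', hi', h'⟩

end

end TOD
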