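import Pool.Agent.TD.SD

open CategoryTheory Limits AlgebraicGeometry

universe u

namespace TOD

noncomputable section

attribute [local instance] MvPolynomial.gradedAlgebra

/-- projective space is functorial in the base -/
def SP7_map (n : ℕ) {S' S : Scheme.{u}} (f : S' ⟶ S) : PSpace n S' ⟶ PSpace n S :=
  pullback.lift (PSpace.toBase n S' ≫ f) (pullback.snd _ _) (terminal.hom_ext _ _)

theorem SP7_isPullback (n : ℕ) {S' S : Scheme.{u}} (f : S' ⟶ S) :
    IsPullback (SP7_map n f) (PSpace.toBase n S') (PSpace.toBase n S) f := by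
  have ht : IsPullback (pullback.snd (terminal.from S) (terminal.from (PP.{u} n)))
      (PSpace.toBase n S) (terminal.from (PP.{u} n)) (terminal.from S) :=
    (IsPullback.of_hasPullback _ _).flip
  have hs : IsPullback (SP7_map n f ≫ pullback.snd (terminal.from S) (terminal.from (PP.{u} n)))
      (PSpace.toBase n S') (terminal.from (PP.{u} n)) (f ≫ terminal.from S) := by
    have h1 : SP7_map n f ≫ pullback.snd (terminal.from S) (terminal.from (PP.{u} n)) =
        pullback.snd (terminal.from S') (terminal.from (PP.{u} n)) := pullback.lift_snd _ _ _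
    have h2 : f ≫ terminal.from S = terminal.from S' := terminal.hom_ext _ _
    rw [h1, h2]
    exact (IsPullback.of_hasPullback _ _).flip
  exact IsPullback.of_right hs (pullback.lift_fst _ _ _) ht

theorem SP7_aux {n : ℕ} {U U' V V' : Scheme.{u}} {a : V' ⟶ V} {b : V' ⟶ U'} {i : V ⟶ PSpace n U}
    {c : U' ⟶ U} (hi : IsClosedImmersion i) (h1 : IsPullback a b (i ≫ PSpace.toBase n U) c) :
    ∃ i' : V' ⟶ PSpace n U', IsClosedImmersion i' ∧ i' ≫ PSpace.toBase n U' = b := by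
  have h2 := SP7_isPullback n c
  have h0 : (a ≫ i) ≫ PSpace.toBase n U = b ≫ c := by rw [Category.assoc]; exact h1.w
  refine ⟨h2.lift (a ≫ i) b h0, ?_, h2.lift_snd _ _ _⟩
  have h3 : IsPullback a (h2.lift (a ≫ i) b h0) i (SP7_map n c) := by
    refine IsPullback.of_bot ?_ (h2.lift_fst _ _ _).symm h2
    rw [h2.lift_snd]
    exact h1
  exact MorphismProperty.of_isPullback (P := @IsClosedImmersion) h3 hi

/-- [TS-P7] Projective morphisms are stable under base change.
Proof: for `s' : S'` take `U ∋ g s'` and `i` from the definition, `U' = g ⁻¹ᵁ U`. `π'⁻¹ U' → U'` is the base change of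
`π ∣_ U` along `g ∣_ U`; a closed immersion `π⁻¹ U → PSpace n U` over `U` gives by base change a closed immersion
`π'⁻¹ U' → PSpace n U ×_U U' = PSpace n U'`. -/
theorem IsProjective.baseChange {X S X' S' : Scheme.{u}} {π : X ⟶ S} (hπ : IsProjective π)
    {g' : X' ⟶ X} {π' : X' ⟶ S'} {g : S' ⟶ S} (h : IsPullback g' π' π g) :
    IsProjective π' := by
  intro s'
  obtain ⟨U, hU, n, i, hi, hiπ⟩ := hπ (g s')
  have hUY : π' ⁻¹ᵁ (g ⁻¹ᵁ U) = g' ⁻¹ᵁ (π ⁻¹ᵁ U) ⊓ π' ⁻¹ᵁ (g ⁻¹ᵁ U) := by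
    rw [← Scheme.Hom.comp_preimage, ← Scheme.Hom.comp_preimage, h.w, inf_idem]
  have h1 := Scheme.Hom.isPullback_resLE h (US := U) (UT := g ⁻¹ᵁ U) (UX := π ⁻¹ᵁ U)
    (UY := π' ⁻¹ᵁ (g ⁻¹ᵁ U)) le_rfl le_rfl hUY
  rw [Scheme.Hom.resLE_eq_morphismRestrict, Scheme.Hom.resLE_eq_morphismRestrict,
    Scheme.Hom.resLE_eq_morphismRestrict, ← hiπ] at h1
  obtain ⟨i', hi', h'⟩ := SP7_aux hi h1
  exact ⟨g ⁻¹ᵁ U, hU, n, i', hi', h'⟩

end

end TOD
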