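import Pool.Agent.TD.SD

open CategoryTheory Limits AlgebraicGeometry

universe u

namespace TOD

noncomputable section

variable {R : Type u} [CommRing R] {X : Scheme.{u}} (f : X ⟶ Spec (.of R)) [IsIntegral X]

/-- [TS-F2] The local ring at a point `x` of an affine open set `U` is a localisation of the ring of functions on
`U` (`IsAffineOpen.isLocalization_stalk`, `IsLocalization.AtPrime`; the stalk is a local ring and `FF.stalk f x` is an
isomorphism onto `FF.loc f x`). -/
theorem FF.isLocOf_loc {U : X.Opens} (hU : IsAffineOpen U) (h : genericPoint X ∈ U) {x : X}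
    (hx : x ∈ U) : IsLocOf (FF.sec f U h) (FF.loc f x) := by
  refine ⟨?_, ?_, ?_⟩
  · let φ : X.presheaf.stalk x →+* FF.loc f x :=
      (FF.stalk f x).codRestrict (FF.loc f x) (fun s => ⟨s, rfl⟩)
    refine IsLocalRing.of_surjective' φ ?_
    rintro ⟨y, s, hs⟩
    exact ⟨s, Subtype.ext hs⟩
  · rintro y ⟨s, hs⟩
    exact ⟨X.presheaf.germ U x hx s, by rw [← hs]; exact FF.stalk_germ f U x hx h s⟩
  · rintro y ⟨s, hs⟩
    let _ := X.presheaf.algebra_section_stalk (⟨x, hx⟩ : U)
    have _ := hU.isLocalization_stalk ⟨x, hx⟩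
    obtain ⟨⟨a, b⟩, hab⟩ := IsLocalization.surj (hU.primeIdealOf ⟨x, hx⟩).asIdeal.primeCompl s
    have hu : IsUnit (algebraMap Γ(X, U) (X.presheaf.stalk x) (b : Γ(X, U))) :=
      IsLocalization.map_units _ b
    have hgerm : ∀ c : Γ(X, U), FF.stalk f x (algebraMap Γ(X, U) (X.presheaf.stalk x) c) =
        FF.germ f U h c := fun c => FF.stalk_germ f U x hx h c
    obtain ⟨v, hv⟩ := hu.exists_right_inv
    have h1 : FF.germ f U h b * FF.stalk f x v = 1 := by
      rw [← hgerm, ← map_mul, hv, map_one]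
    have hb0 : FF.germ f U h b ≠ 0 := left_ne_zero_of_mul_eq_one h1
    refine ⟨FF.germ f U h a, ⟨a, rfl⟩, FF.germ f U h b, ⟨b, rfl⟩, hb0, ?_, ?_⟩
    · rw [← eq_inv_of_mul_eq_one_right h1]
      exact ⟨v, rfl⟩
    · rw [eq_div_iff hb0, ← hs, ← hgerm, ← hgerm, ← hab]
      exact (map_mul (FF.stalk f x) _ _).symm

end

end TOD
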