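import Pool.Agent.TD.SD

open CategoryTheory Limits AlgebraicGeometry

universe u

namespace TOD

noncomputable section

variable {R : Type u} [CommRing R] {X : Scheme.{u}} (f : X ⟶ Spec (.of R)) [IsIntegral X]

/-- [TS-F3] Conversely every localisation of the ring of functions on the affine open set `U` at a prime
ideal is the local ring of a point of `U`.
Proof: let `P` be the prime ideal of all `s ∈ Γ(X, U)` such that `(FF.germ f U h s)⁻¹ ∉ O` or `s = 0` (prime because `O` is a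
local ring), and `x ∈ U` the corresponding point (`IsAffineOpen.fromSpec`, `hU.primeIdealOf`,
`IsAffineOpen.isoSpec`). Both `O` and `FF.loc f x` are the set of the quotients `a / b`, `a, b` functions on `U`,
`b` not in `P`. -/
theorem FF.exists_eq_loc {U : X.Opens} (hU : IsAffineOpen U) (h : genericPoint X ∈ U)
    {O : Subalgebra R (FF f)} (hO : IsLocOf (FF.sec f U h) O) : ∃ x ∈ U, O = FF.loc f x := by
  obtain ⟨hloc, hAO, hfr⟩ := hO
  have hmem : ∀ s : Γ(X, U), FF.germ f U h s ∈ O := fun s => hAO ⟨s, rfl⟩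
  let ψ : Γ(X, U) →+* O := (FF.germ f U h).codRestrict O.toSubring hmem
  have hψ : ∀ s, ((ψ s : O) : FF f) = FF.germ f U h s := fun s => rfl
  let P : Ideal Γ(X, U) := (IsLocalRing.maximalIdeal O).comap ψ
  have hP : P.IsPrime := Ideal.comap_isPrime ψ _
  let y : PrimeSpectrum Γ(X, U) := ⟨P, hP⟩
  have hy : hU.fromSpec y ∈ U := by
    have h1 := hU.range_fromSpec
    have h2 : hU.fromSpec y ∈ (U : Set X) := by
      rw [← h1]
      exact ⟨y, rfl⟩
    exact h2
  have hunit : ∀ t : Γ(X, U), t ∉ P → FF.germ f U h t ≠ 0 ∧ (FF.germ f U h t)⁻¹ ∈ O := by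
    intro t ht
    have h1 : IsUnit (ψ t) := by
      by_contra h2
      exact ht ((IsLocalRing.mem_maximalIdeal _).2 h2)
    obtain ⟨u, hu⟩ := h1
    have h3 : FF.germ f U h t * ((↑u⁻¹ : O) : FF f) = 1 := by
      have h4 : (u : O) * (↑u⁻¹ : O) = 1 := u.mul_inv
      rw [hu] at h4
      exact congrArg Subtype.val h4
    have h5 : FF.germ f U h t ≠ 0 := left_ne_zero_of_mul_eq_one h3
    refine ⟨h5, ?_⟩
    rw [inv_eq_of_mul_eq_one_right h3]
    exact (↑u⁻¹ : O).2
  have hnot : ∀ t : Γ(X, U), FF.germ f U h t ≠ 0 → (FF.germ f U h t)⁻¹ ∈ O → t ∉ P := by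
    intro t ht1 ht2 ht3
    have h1 : ¬ IsUnit (ψ t) := (IsLocalRing.mem_maximalIdeal _).1 ht3
    apply h1
    refine IsUnit.of_mul_eq_one (⟨_, ht2⟩ : O) (Subtype.ext ?_)
    exact mul_inv_cancel₀ ht1
  letI := TopCat.Presheaf.algebra_section_stalk X.presheaf ⟨hU.fromSpec y, hy⟩
  have hl : IsLocalization.AtPrime (X.presheaf.stalk (hU.fromSpec y)) P :=
    hU.isLocalization_stalk' y hy
  refine ⟨hU.fromSpec y, hy, le_antisymm ?_ ?_⟩
  · intro z hz
    obtain ⟨a, ⟨s, hs⟩, b, ⟨t, ht⟩, hb, hb', hzab⟩ := hfr z hz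
    have htP : t ∉ P := by
      apply hnot
      · intro h0
        exact hb (ht.symm.trans h0)
      · have : FF.germ f U h t = b := ht
        rw [this]
        exact hb'
    have hu : IsUnit (X.presheaf.germ U (hU.fromSpec y) hy t) :=
      IsLocalization.map_units (X.presheaf.stalk (hU.fromSpec y)) (⟨t, htP⟩ : P.primeCompl)
    obtain ⟨v, hv⟩ := hu
    refine ⟨X.presheaf.germ U (hU.fromSpec y) hy s * (↑v⁻¹ : X.presheaf.stalk (hU.fromSpec y)), ?_⟩
    have h1 : FF.stalk f (hU.fromSpec y) (X.presheaf.germ U (hU.fromSpec y) hy s) = a := by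
      rw [FF.stalk_germ f U _ hy h]
      exact hs
    have h2 : FF.stalk f (hU.fromSpec y) (v : X.presheaf.stalk (hU.fromSpec y)) = b := by
      rw [hv, FF.stalk_germ f U _ hy h]
      exact ht
    have h3 : b * FF.stalk f (hU.fromSpec y) (↑v⁻¹ : X.presheaf.stalk (hU.fromSpec y)) = 1 := by
      rw [← h2, ← map_mul, v.mul_inv, map_one]
    change FF.stalk f (hU.fromSpec y) _ = z
    rw [map_mul, h1, hzab, div_eq_mul_inv, inv_eq_of_mul_eq_one_right h3]
  · rintro z ⟨w, hw⟩
    obtain ⟨⟨s, t⟩, hst⟩ := IsLocalization.surj P.primeCompl w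
    obtain ⟨h1, h2⟩ := hunit t.1 t.2
    have h3 : w * X.presheaf.germ U (hU.fromSpec y) hy t.1 =
        X.presheaf.germ U (hU.fromSpec y) hy s := hst
    have h4 := congrArg (FF.stalk f (hU.fromSpec y)) h3
    rw [map_mul, FF.stalk_germ f U _ hy h, FF.stalk_germ f U _ hy h] at h4
    have h5 : z = FF.germ f U h s * (FF.germ f U h t.1)⁻¹ := by
      rw [← h4, mul_assoc, mul_inv_cancel₀ h1, mul_one]
      exact hw.symm
    rw [h5]
    exact mul_mem (hmem s) h2

end

end TOD
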