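import Pool.Agent.TD.SD

open CategoryTheory Limits AlgebraicGeometry

universe u

namespace TOD

noncomputable section

variable {R : Type u} [CommRing R] {X : Scheme.{u}} (f : X ⟶ Spec (.of R)) [IsIntegral X]

/-- [TS-F4] The function field is the field of fractions of the ring of functions on an affine open set
(`functionField_isFractionRing_of_isAffineOpen`). -/
theorem FF.hasFrac_sec {U : X.Opens} (hU : IsAffineOpen U) (h : genericPoint X ∈ U) :
    HasFrac (FF.sec f U h) := by
  intro x
  have : Nonempty U := ⟨⟨genericPoint X, h⟩⟩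
  have hfr := functionField_isFractionRing_of_isAffineOpen (X := X) U hU
  obtain ⟨a, b, hb, he⟩ := IsFractionRing.div_surjective (A := Γ(X, U)) (K := X.functionField) x
  have hb0 : b ≠ 0 := nonZeroDivisors.ne_zero hb
  have e1 : ∀ c : Γ(X, U), algebraMap Γ(X, U) X.functionField c = FF.germ f U h c :=
    fun _ => rfl
  refine ⟨FF.germ f U h a, ⟨a, rfl⟩, FF.germ f U h b, ⟨b, rfl⟩, ?_, ?_⟩
  · intro h0
    apply hb0
    have h1 : algebraMap Γ(X, U) X.functionField b = 0 := h0
    exact (IsFractionRing.injective Γ(X, U) X.functionField) (h1.trans (map_zero _).symm)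
  · exact he.symm

end

end TOD
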