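import Pool.Agent.TD.SD

open CategoryTheory Limits AlgebraicGeometry

universe u

namespace TOD

noncomputable section

variable {R : Type u} [CommRing R] {X : Scheme.{u}} (f : X ⟶ Spec (.of R)) [IsIntegral X]

/-- [TS-F5] Coordinates of an atlas in the function field. (`A.z_self`; `A.basic i₀ i`: the germ of `z i₀ i` at the
generic point is a unit iff the generic point is in the basic open set; `A.cocycle i₀ i j` at the generic
point.) -/
theorem Atlas.zF_self {N : ℕ} (A : Atlas X N) (i₀ : Fin (N + 1)) (h₀ : genericPoint X ∈ A.U i₀) :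
    A.zF f i₀ h₀ i₀ = 1 := by
  rw [Atlas.zF, A.z_self, map_one]

theorem Atlas.zF_ne_zero_iff {N : ℕ} (A : Atlas X N) (i₀ : Fin (N + 1))
    (h₀ : genericPoint X ∈ A.U i₀) (i : Fin (N + 1)) :
    A.zF f i₀ h₀ i ≠ 0 ↔ genericPoint X ∈ A.U i := by
  have h1 := Scheme.mem_basicOpen X (A.z i₀ i) (genericPoint X) h₀
  rw [A.basic] at h1
  have h2 : A.zF f i₀ h₀ i ≠ 0 ↔ IsUnit (X.presheaf.germ (A.U i₀) (genericPoint X) h₀ (A.z i₀ i)) :=
    (isUnit_iff_ne_zero (G₀ := X.functionField)).symm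
  rw [h2, ← h1]
  exact ⟨fun h => h.2, fun h => ⟨h₀, h⟩⟩

theorem Atlas.germ_z {N : ℕ} (A : Atlas X N) (i₀ : Fin (N + 1)) (h₀ : genericPoint X ∈ A.U i₀)
    (i : Fin (N + 1)) (h : genericPoint X ∈ A.U i) (j : Fin (N + 1)) :
    FF.germ f (A.U i) h (A.z i j) = A.zF f i₀ h₀ j / A.zF f i₀ h₀ i := by
  have h1 : A.zF f i₀ h₀ i * FF.germ f (A.U i) h (A.z i j) = A.zF f i₀ h₀ j :=
    A.cocycle i₀ i j (genericPoint X) h₀ h
  rw [eq_div_iff ((A.zF_ne_zero_iff f i₀ h₀ i).2 h), mul_comm]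
  exact h1

end

end TOD
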