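import Pool.Agent.TD.SD
import Pool.Agent.TD.SF5

open CategoryTheory Limits AlgebraicGeometry

universe u

namespace TOD

noncomputable section

variable {R : Type u} [CommRing R] {X : Scheme.{u}} (f : X ⟶ Spec (.of R)) [IsIntegral X]

/-- [TS-F6] For a projective atlas the algebraic chart is the ring of functions on the open set `U i`
(`hA.gen`, [TS-F5], `FF.germ_secHom`; `Algebra.adjoin` versus `Subring.closure`). -/
theorem Atlas.chart_eq {N : ℕ} (A : Atlas X N) (hA : A.IsProj f) (i₀ : Fin (N + 1))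
    (h₀ : genericPoint X ∈ A.U i₀) (i : Fin (N + 1)) (h : genericPoint X ∈ A.U i) :
    chart R (A.zF f i₀ h₀) i = FF.sec f (A.U i) h := by
  have hz : ∀ j, A.zF f i₀ h₀ j / A.zF f i₀ h₀ i ∈ chart R (A.zF f i₀ h₀) i := fun j =>
    Algebra.subset_adjoin ⟨j, rfl⟩
  refine le_antisymm (Algebra.adjoin_le ?_) ?_
  · rintro _ ⟨j, rfl⟩
    exact ⟨A.z i j, A.germ_z f i₀ h₀ i h j⟩
  · rintro _ ⟨s, rfl⟩
    have hs := hA.gen i s
    have hle : Subring.closure (Set.range (secHom f (A.U i)) ∪ Set.range (A.z i)) ≤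
        (chart R (A.zF f i₀ h₀) i).toSubring.comap (FF.germ f (A.U i) h) := by
      rw [Subring.closure_le]
      rintro _ (⟨r, rfl⟩ | ⟨j, rfl⟩)
      · show FF.germ f (A.U i) h (secHom f (A.U i) r) ∈ chart R (A.zF f i₀ h₀) i
        rw [FF.germ_secHom]
        exact Subalgebra.algebraMap_mem _ r
      · show FF.germ f (A.U i) h (A.z i j) ∈ chart R (A.zF f i₀ h₀) i
        rw [A.germ_z f i₀ h₀ i h j]
        exact hz j
    exact hle hs

end

end TOD
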