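import Pool.Agent.TD.SD

open CategoryTheory Limits AlgebraicGeometry

universe u

namespace TOD

noncomputable section


variable {K : Type u} [Field K] {n : ℕ} {X : Scheme.{u}} {f : X ⟶ Spec (.of K)}

open TensorProduct in
/-- the comultiplication on `X^u` -/
theorem ST1_comul (u : Fin n → ℤ) :
    Bialgebra.comulAlgHom K (AddMonoidAlgebra K (Fin n → ℤ)) (AddMonoidAlgebra.single u 1) =
      AddMonoidAlgebra.single u 1 ⊗ₜ[K] AddMonoidAlgebra.single u 1 := by
  show Coalgebra.comul (R := K) (AddMonoidAlgebra.single u (1 : K)) = _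
  rw [AddMonoidAlgebra.comul_single]
  rfl

/-- the multiplication on two points given by ring homomorphisms -/
theorem ST1_lift {B : Type u} [CommRing B] [Algebra K B]
    (a b c : AddMonoidAlgebra K (Fin n → ℤ) →ₐ[K] B)
    (hc : ∀ u, c (AddMonoidAlgebra.single u 1) =
      a (AddMonoidAlgebra.single u 1) * b (AddMonoidAlgebra.single u 1))
    (h : Spec.map (CommRingCat.ofHom a.toRingHom) ≫ Torus.toBase K n =
      Spec.map (CommRingCat.ofHom b.toRingHom) ≫ Torus.toBase K n) :
    pullback.lift (Spec.map (CommRingCat.ofHom a.toRingHom))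
      (Spec.map (CommRingCat.ofHom b.toRingHom)) h ≫ Torus.mul K n =
      Spec.map (CommRingCat.ofHom c.toRingHom) := by
  have h1 : pullback.lift (Spec.map (CommRingCat.ofHom a.toRingHom))
      (Spec.map (CommRingCat.ofHom b.toRingHom)) h =
      Spec.map (CommRingCat.ofHom (Algebra.TensorProduct.lift a b
        (fun x y => Commute.all (a x) (b y))).toRingHom) ≫
      (pullbackSpecIso K (AddMonoidAlgebra K (Fin n → ℤ)) (AddMonoidAlgebra K (Fin n → ℤ))).inv := by
    apply pullback.hom_ext
    · rw [pullback.lift_fst, Category.assoc, pullbackSpecIso_inv_fst, ← Spec.map_comp,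
        ← CommRingCat.ofHom_comp]
      congr 2
      refine RingHom.ext (fun x => ?_)
      show a x = Algebra.TensorProduct.lift a b (fun x y => Commute.all (a x) (b y)) (x ⊗ₜ[K] 1)
      rw [Algebra.TensorProduct.lift_tmul, map_one, mul_one]
    · rw [pullback.lift_snd, Category.assoc, pullbackSpecIso_inv_snd, ← Spec.map_comp,
        ← CommRingCat.ofHom_comp]
      congr 2
      refine RingHom.ext (fun x => ?_)
      show b x = Algebra.TensorProduct.lift a b (fun x y => Commute.all (a x) (b y)) (1 ⊗ₜ[K] x)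
      rw [Algebra.TensorProduct.lift_tmul, map_one, one_mul]
  rw [h1, Torus.mul, Category.assoc, Iso.inv_hom_id_assoc, ← Spec.map_comp,
    ← CommRingCat.ofHom_comp]
  have h2 : (Algebra.TensorProduct.lift a b (fun x y => Commute.all (a x) (b y))).comp
      (Bialgebra.comulAlgHom K (AddMonoidAlgebra K (Fin n → ℤ))) = c := by
    refine AddMonoidAlgebra.algHom_ext ?_ (Subsingleton.elim _ _)
    intro u
    show Algebra.TensorProduct.lift a b (fun x y => Commute.all (a x) (b y)) (Bialgebra.comulAlgHom K (AddMonoidAlgebra K (Fin n → ℤ))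
      (AddMonoidAlgebra.single u 1)) = _
    rw [ST1_comul, Algebra.TensorProduct.lift_tmul, hc]
  rw [← h2]
  rfl

/-- [TS-T1] The multiplication of the torus on points given by ring homomorphisms: unit, product of two
`K`-points, product of the constant point `t` with the identity.
(`pullbackSpecIso`, `pullbackSpecIso_inv_fst`, `pullbackSpecIso_inv_snd`: for ring homomorphisms
`a, b : K[ℤⁿ] → B` over `K` the morphism `pullback.lift (Spec a) (Spec b)` composed with `(pullbackSpecIso ..).hom` is
`Spec` of `a ⊗ b`; compose with the comultiplication: `X^u ↦ X^u ⊗ X^u ↦ a (X^u) b (X^u)`. `Torus.one` is the point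
`1` because the counit maps `X^u` to `1`.) -/
theorem ptT_one : ptT (K := K) (n := n) 1 = Torus.one K n := by
  unfold ptT Torus.one
  congr 2
  have h2 : evPt (1 : Fin n → Kˣ) = Bialgebra.counitAlgHom K (AddMonoidAlgebra K (Fin n → ℤ)) := by
    refine AddMonoidAlgebra.algHom_ext ?_ (Subsingleton.elim _ _)
    intro u
    rw [evPt_single]
    show tpow 1 u = Coalgebra.counit (R := K) (AddMonoidAlgebra.single u (1 : K))
    rw [AddMonoidAlgebra.counit_single]
    simp [tpow]
  rw [h2]

theorem ptT_toBase (t : Fin n → Kˣ) : ptT t ≫ Torus.toBase K n = 𝟙 _ := by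
  rw [ptT, ← Spec.map_comp, ← CommRingCat.ofHom_comp]
  have h1 : (evPt t).toRingHom.comp (algebraMap K (AddMonoidAlgebra K (Fin n → ℤ))) =
      RingHom.id K := (evPt t).comp_algebraMap
  rw [h1]
  exact Spec.map_id _

theorem lift_ptT_mul (s t : Fin n → Kˣ) {Y : Scheme.{u}} (y : Y ⟶ Spec (.of K))
    (h : (y ≫ ptT s) ≫ Torus.toBase K n = (y ≫ ptT t) ≫ Torus.toBase K n) :
    pullback.lift (y ≫ ptT s) (y ≫ ptT t) h ≫ Torus.mul K n = y ≫ ptT (s * t) := by
  have h0 : ptT s ≫ Torus.toBase K n = ptT t ≫ Torus.toBase K n := by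
    rw [ptT_toBase, ptT_toBase]
  have h1 : pullback.lift (y ≫ ptT s) (y ≫ ptT t) h = y ≫ pullback.lift (ptT s) (ptT t) h0 := by
    apply pullback.hom_ext
    · rw [pullback.lift_fst, Category.assoc, pullback.lift_fst]
    · rw [pullback.lift_snd, Category.assoc, pullback.lift_snd]
  rw [h1, Category.assoc]
  congr 1
  refine ST1_lift (evPt s) (evPt t) (evPt (s * t)) ?_ h0
  intro u
  rw [evPt_single, evPt_single, evPt_single]
  simp [tpow, mul_zpow, Finset.prod_mul_distrib]

theorem lift_ptT_id_mul (t : Fin n → Kˣ)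
    (h : (Torus.toBase K n ≫ ptT t) ≫ Torus.toBase K n = 𝟙 _ ≫ Torus.toBase K n) :
    pullback.lift (Torus.toBase K n ≫ ptT t) (𝟙 (Torus K n)) h ≫ Torus.mul K n =
      Spec.map (CommRingCat.ofHom (trHom t).toRingHom) := by
  have e1 : Torus.toBase K n ≫ ptT t = Spec.map (CommRingCat.ofHom
      ((Algebra.ofId K (AddMonoidAlgebra K (Fin n → ℤ))).comp (evPt t)).toRingHom) := by
    rw [ptT, ← Spec.map_comp, ← CommRingCat.ofHom_comp]
    rfl
  have e2 : 𝟙 (Torus K n) = Spec.map (CommRingCat.ofHom
      (AlgHom.id K (AddMonoidAlgebra K (Fin n → ℤ))).toRingHom) := (Spec.map_id _).symm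
  have h0 : Spec.map (CommRingCat.ofHom
      ((Algebra.ofId K (AddMonoidAlgebra K (Fin n → ℤ))).comp (evPt t)).toRingHom) ≫
      Torus.toBase K n = Spec.map (CommRingCat.ofHom
      (AlgHom.id K (AddMonoidAlgebra K (Fin n → ℤ))).toRingHom) ≫ Torus.toBase K n := by
    rw [← e1, ← e2]
    exact h
  have h1 : pullback.lift (Torus.toBase K n ≫ ptT t) (𝟙 (Torus K n)) h =
      pullback.lift _ _ h0 := by
    apply pullback.hom_ext
    · rw [pullback.lift_fst, pullback.lift_fst, e1]
    · rw [pullback.lift_snd, pullback.lift_snd, e2]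
  rw [h1]
  refine ST1_lift _ _ (trHom t) ?_ h0
  intro u
  rw [trHom_single]
  show AddMonoidAlgebra.single u (tpow t u) =
    algebraMap K (AddMonoidAlgebra K (Fin n → ℤ)) (evPt t (AddMonoidAlgebra.single u 1)) *
      AddMonoidAlgebra.single u 1
  rw [evPt_single, ← Algebra.smul_def, AddMonoidAlgebra.smul_single, smul_eq_mul, mul_one]

end

end TOD
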