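import Pool.Agent.TD.SD

open CategoryTheory Limits AlgebraicGeometry

universe u

namespace TOD

noncomputable section

variable {R : Type u} [CommRing R]

/-- [TS-M1] The homomorphism of function fields on germs and on elements of local rings
(`Scheme.Hom.germ_stalkMap`, `stalkSpecializes_stalkMap`). -/
theorem FF.map_germ {X Y : Scheme.{u}} (f : X ⟶ Spec (.of R)) (f' : Y ⟶ Spec (.of R))
    [IsIntegral X] [IsIntegral Y] (p : X ⟶ Y) (hgp : p (genericPoint X) = genericPoint Y)
    (U : Y.Opens) (h : genericPoint Y ∈ U) (h' : genericPoint X ∈ p ⁻¹ᵁ U) (s : Γ(Y, U)) :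
    FF.map f f' p hgp (FF.germ f' U h s) = FF.germ f (p ⁻¹ᵁ U) h' (p.app U s) := by
  have h1 : (Y.presheaf.stalkSpecializes (specializes_of_eq hgp)).hom
      ((Y.presheaf.germ U (genericPoint Y) h).hom s) =
      (Y.presheaf.germ U (p (genericPoint X)) h').hom s :=
    Y.presheaf.germ_stalkSpecializes_apply h (specializes_of_eq hgp) s
  have h2 := Scheme.Hom.germ_stalkMap_apply p U (genericPoint X) h' s
  exact (congrArg (p.stalkMap (genericPoint X)).hom h1).trans h2

theorem FF.map_stalk {X Y : Scheme.{u}} (f : X ⟶ Spec (.of R)) (f' : Y ⟶ Spec (.of R))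
    [IsIntegral X] [IsIntegral Y] (p : X ⟶ Y) (hgp : p (genericPoint X) = genericPoint Y)
    (x : X) (s : Y.presheaf.stalk (p x)) :
    FF.map f f' p hgp (FF.stalk f' (p x) s) = FF.stalk f x (p.stalkMap x s) := by
  have hsp : p (genericPoint X) ⤳ p x :=
    ((genericPoint_spec X).specializes (Set.mem_univ x)).map p.continuous
  have h1 : (Y.presheaf.stalkSpecializes (specializes_of_eq hgp)).hom
      ((Y.presheaf.stalkSpecializes ((genericPoint_spec Y).specializes (Set.mem_univ (p x)))).hom s) =
      (Y.presheaf.stalkSpecializes hsp).hom s := by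
    have h := Y.presheaf.stalkSpecializes_comp (specializes_of_eq hgp)
      ((genericPoint_spec Y).specializes (Set.mem_univ (p x)))
    exact congrArg (fun m : Y.presheaf.stalk (p x) ⟶ Y.presheaf.stalk (p (genericPoint X)) =>
      m.hom s) h
  have h2 := Scheme.Hom.stalkSpecializes_stalkMap_apply p (genericPoint X) x
    ((genericPoint_spec X).specializes (Set.mem_univ x)) s
  exact (congrArg (p.stalkMap (genericPoint X)).hom h1).trans h2

end

end TOD
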