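import Pool.Agent.TD.SD
import Pool.Agent.TD.SM1

open CategoryTheory Limits AlgebraicGeometry

universe u

namespace TOD

noncomputable section

variable {R : Type u} [CommRing R]

/-- [TS-M2] For a morphism over `Spec R` it is a homomorphism of `R`-algebras
([TS-M1] for `U = ⊤`, `secHom`). -/
theorem FF.map_algebraMap {X Y : Scheme.{u}} (f : X ⟶ Spec (.of R)) (f' : Y ⟶ Spec (.of R))
    [IsIntegral X] [IsIntegral Y] (p : X ⟶ Y) (hgp : p (genericPoint X) = genericPoint Y)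
    (hp : p ≫ f' = f) (r : R) :
    FF.map f f' p hgp (algebraMap R (FF f') r) = algebraMap R (FF f) r := by
  subst hp
  have h1 : (genericPoint Y) ∈ (⊤ : Y.Opens) := trivial
  have h2 : (genericPoint X) ∈ p ⁻¹ᵁ (⊤ : Y.Opens) := trivial
  rw [← FF.germ_secHom f' ⊤ h1 r, FF.map_germ (p ≫ f') f' p hgp ⊤ h1 h2,
    ← FF.germ_secHom (p ≫ f') (p ⁻¹ᵁ ⊤) h2 r]
  congr 1
  have h3 : (Scheme.ΓSpecIso (.of R)).inv ≫ f'.appTop ≫
      Y.presheaf.map (homOfLE (le_top : (⊤ : Y.Opens) ≤ ⊤)).op ≫ p.app ⊤ =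
      (Scheme.ΓSpecIso (.of R)).inv ≫ (p ≫ f').appTop ≫
        X.presheaf.map (homOfLE (le_top : (p ⁻¹ᵁ (⊤ : Y.Opens)) ≤ ⊤)).op := by
    have e1 : (homOfLE (le_top : (⊤ : Y.Opens) ≤ ⊤)).op = 𝟙 _ := rfl
    have e2 : (homOfLE (le_top : (p ⁻¹ᵁ (⊤ : Y.Opens)) ≤ ⊤)).op = 𝟙 _ := rfl
    rw [e1, e2, Scheme.Hom.comp_appTop]
    simp
  exact congrArg (fun g => g.hom r) h3

end

end TOD
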