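import Pool.Agent.TD.SD

open CategoryTheory Limits AlgebraicGeometry

universe u

namespace TOD

noncomputable section

variable {R : Type u} [CommRing R]

theorem SM4_map_stalk {X Y : Scheme.{u}} (f : X ⟶ Spec (.of R)) (f' : Y ⟶ Spec (.of R))
    [IsIntegral X] [IsIntegral Y] (p : X ⟶ Y) (hgp : p (genericPoint X) = genericPoint Y)
    (x : X) (s : Y.presheaf.stalk (p x)) :
    FF.map f f' p hgp (FF.stalk f' (p x) s) = FF.stalk f x (p.stalkMap x s) := by
  have h1 : (Y.presheaf.stalkSpecializes ((genericPoint_spec Y).specializes (Set.mem_univ (p x))) ≫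
      (Y.presheaf.stalkSpecializes (specializes_of_eq hgp) ≫ p.stalkMap (genericPoint X))) =
      p.stalkMap x ≫ X.presheaf.stalkSpecializes
        ((genericPoint_spec X).specializes (Set.mem_univ x)) := by
    rw [← Category.assoc, TopCat.Presheaf.stalkSpecializes_comp]
    exact p.stalkSpecializes_stalkMap (genericPoint X) x _
  exact DFunLike.congr_fun (CommRingCat.hom_ext_iff.mp h1) s

theorem SM4_isIso {Y : Scheme.{u}} {x y : Y} (h : x = y) :
    IsIso (Y.presheaf.stalkSpecializes (specializes_of_eq h)) := by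
  subst h
  have : Y.presheaf.stalkSpecializes (specializes_of_eq (rfl : x = x)) = 𝟙 _ :=
    Y.presheaf.stalkSpecializes_refl x
  rw [this]
  infer_instance

/-- [TS-M4] For an open immersion `p` the homomorphism of function fields is bijective and identifies the
local rings at `p x` and at `x` (`stalkMap` of an open immersion is an isomorphism). -/
theorem FF.map_bijective {X Y : Scheme.{u}} (f : X ⟶ Spec (.of R)) (f' : Y ⟶ Spec (.of R))
    [IsIntegral X] [IsIntegral Y] (p : X ⟶ Y) [IsOpenImmersion p]
    (hgp : p (genericPoint X) = genericPoint Y) : Function.Bijective (FF.map f f' p hgp) := by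
  have h1 : IsIso (Y.presheaf.stalkSpecializes (specializes_of_eq hgp)) := SM4_isIso hgp
  have h2 : IsIso (Y.presheaf.stalkSpecializes (specializes_of_eq hgp) ≫
      p.stalkMap (genericPoint X)) := inferInstance
  exact ConcreteCategory.bijective_of_isIso
    (Y.presheaf.stalkSpecializes (specializes_of_eq hgp) ≫ p.stalkMap (genericPoint X))

theorem FF.map_mem_loc_iff {X Y : Scheme.{u}} (f : X ⟶ Spec (.of R)) (f' : Y ⟶ Spec (.of R))
    [IsIntegral X] [IsIntegral Y] (p : X ⟶ Y) [IsOpenImmersion p]
    (hgp : p (genericPoint X) = genericPoint Y) (x : X) (s : FF f') :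
    s ∈ FF.loc f' (p x) ↔ FF.map f f' p hgp s ∈ FF.loc f x := by
  constructor
  · rintro ⟨t, ht⟩
    refine ⟨p.stalkMap x t, ?_⟩
    rw [← SM4_map_stalk f f' p hgp x t]
    exact congrArg _ ht
  · rintro ⟨t, ht⟩
    obtain ⟨t', rfl⟩ := (ConcreteCategory.bijective_of_isIso (p.stalkMap x)).2 t
    refine ⟨t', (FF.map_bijective f f' p hgp).1 ?_⟩
    exact (SM4_map_stalk f f' p hgp x t').trans ht

end

end TOD
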