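import Pool.Agent.TD.SD

open CategoryTheory Limits AlgebraicGeometry

universe u

namespace TOD

noncomputable section

variable {K : Type u} [Field K] {n : ℕ} {X : Scheme.{u}} {f : X ⟶ Spec (.of K)}

/-- [TS-T3] The torus is integral; the inclusion maps its generic point to the generic point. -/
instance : IsIntegral (Torus K n) := by
  have hdom : IsDomain (CommRingCat.of (AddMonoidAlgebra K (Fin n → ℤ))) :=
    inferInstanceAs (IsDomain (AddMonoidAlgebra K (Fin n → ℤ)))
  infer_instance

theorem ToricStructure.j_genericPoint [IsIntegral X] (S : ToricStructure f n) :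
    S.j (genericPoint (Torus K n)) = genericPoint X := by
  have := S.isOpenImmersion_j
  exact genericPoint_eq_of_isOpenImmersion S.j

/-- `Φ` identifies Laurent polynomials with the functions on the torus, inside the function field
of the toric variety. -/
def IsTorusMap [IsIntegral X] (S : ToricStructure f n)
    (Φ : AddMonoidAlgebra K (Fin n → ℤ) →ₐ[K] FF f) : Prop :=
  ∀ a, FF.map (Torus.toBase K n) f S.j S.j_genericPoint (Φ a) =
    FF.germ (Torus.toBase K n) ⊤ trivial
      ((Scheme.ΓSpecIso (.of (AddMonoidAlgebra K (Fin n → ℤ)))).inv a)

end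

end TOD
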