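import Pool.Agent.TD.SD
import Pool.Agent.TD.SM1
import Pool.Agent.TD.SM2
import Pool.Agent.TD.SM4
import Pool.Agent.TD.ST3

open CategoryTheory Limits AlgebraicGeometry

universe u

namespace TOD

noncomputable section

variable {K : Type u} [Field K] {n : ℕ} {X : Scheme.{u}} {f : X ⟶ Spec (.of K)}

theorem ST4_germ_inj :
    Function.Injective (FF.germ (Torus.toBase K n) ⊤ trivial) := by
  have : Nonempty (⊤ : (Torus K n).Opens) := ⟨⟨genericPoint (Torus K n), trivial⟩⟩
  exact (Torus K n).germToFunctionField_injective ⊤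

theorem ST4_frac (x : FF (Torus.toBase K n)) :
    ∃ a b : Γ(Torus K n, ⊤), FF.germ (Torus.toBase K n) ⊤ trivial b ≠ 0 ∧
      x = FF.germ (Torus.toBase K n) ⊤ trivial a / FF.germ (Torus.toBase K n) ⊤ trivial b := by
  have : Nonempty (⊤ : (Torus K n).Opens) := ⟨⟨genericPoint (Torus K n), trivial⟩⟩
  have h1 := functionField_isFractionRing_of_isAffineOpen (Torus K n) ⊤ (isAffineOpen_top _)
  obtain ⟨a, b, hb, h⟩ := IsFractionRing.div_surjective (A := Γ(Torus K n, ⊤))
    (K := (Torus K n).functionField) x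
  refine ⟨a, b, ?_, h.symm⟩
  intro h0
  have h2 : b = 0 := ST4_germ_inj (by rw [h0, map_zero])
  exact nonZeroDivisors.ne_zero hb h2

theorem ST4_algebraMap (c : K) :
    FF.germ (Torus.toBase K n) ⊤ trivial
      ((Scheme.ΓSpecIso (.of (AddMonoidAlgebra K (Fin n → ℤ)))).inv
        (algebraMap K (AddMonoidAlgebra K (Fin n → ℤ)) c)) =
      algebraMap K (FF (Torus.toBase K n)) c := by
  have h3 := congrArg (fun φ => φ c) (Scheme.ΓSpecIso_inv_naturality
    (CommRingCat.ofHom (algebraMap K (AddMonoidAlgebra K (Fin n → ℤ)))))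
  exact congrArg (FF.germ (Torus.toBase K n) ⊤ trivial) h3

/-- [TS-T4] Existence and properties of `Φ`: `FF.map` is bijective for the open immersion `S.j` ([TS-M4]) and `K`-linear
([TS-M2]); the function field of `Spec A`, `A` a domain, is the field of fractions of `A`
(`functionField_isFractionRing_of_affine`, `IsFractionRing`). -/
theorem ToricStructure.exists_Φ [IsIntegral X] (S : ToricStructure f n) :
    ∃ Φ : AddMonoidAlgebra K (Fin n → ℤ) →ₐ[K] FF f, IsTorusMap S Φ ∧ Function.Injective Φ ∧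
      ∀ x, ∃ a b, Φ b ≠ 0 ∧ x = Φ a / Φ b := by
  have := S.isOpenImmersion_j
  have hbij := FF.map_bijective (Torus.toBase K n) f S.j S.j_genericPoint
  let e : FF f ≃+* FF (Torus.toBase K n) := RingEquiv.ofBijective _ hbij
  have he : ∀ x, FF.map (Torus.toBase K n) f S.j S.j_genericPoint x = e x := fun x => rfl
  let ψ : AddMonoidAlgebra K (Fin n → ℤ) →+* FF (Torus.toBase K n) :=
    (FF.germ (Torus.toBase K n) ⊤ trivial).comp
      (Scheme.ΓSpecIso (.of (AddMonoidAlgebra K (Fin n → ℤ)))).inv.hom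
  have hψ : ∀ a, ψ a = FF.germ (Torus.toBase K n) ⊤ trivial
      ((Scheme.ΓSpecIso (.of (AddMonoidAlgebra K (Fin n → ℤ)))).inv a) := fun a => rfl
  have hψi : Function.Injective ψ := by
    intro a b hab
    have h1 := ST4_germ_inj hab
    have h2 := congrArg (Scheme.ΓSpecIso (.of (AddMonoidAlgebra K (Fin n → ℤ)))).hom h1
    have h3 := fun c => Iso.inv_hom_id_apply
      (Scheme.ΓSpecIso (.of (AddMonoidAlgebra K (Fin n → ℤ)))) c
    exact (h3 a).symm.trans (h2.trans (h3 b))
  let Φ : AddMonoidAlgebra K (Fin n → ℤ) →ₐ[K] FF f :=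
    { (e.symm : FF (Torus.toBase K n) →+* FF f).comp ψ with
      commutes' := by
        intro c
        apply e.injective
        change e (e.symm (ψ (algebraMap K _ c))) = e (algebraMap K (FF f) c)
        rw [RingEquiv.apply_symm_apply, hψ, ST4_algebraMap, ← he,
          FF.map_algebraMap _ _ _ _ S.j_over] }
  have hΦ : ∀ a, Φ a = e.symm (ψ a) := fun a => rfl
  have hΦi : Function.Injective Φ := by
    intro a b hab
    rw [hΦ, hΦ] at hab
    exact hψi (e.symm.injective hab)
  refine ⟨Φ, fun a => ?_, hΦi, fun x => ?_⟩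
  · rw [he, hΦ, RingEquiv.apply_symm_apply, hψ]
  · obtain ⟨a, b, hb, h⟩ := ST4_frac (e x)
    have hs : ∀ c : Γ(Torus K n, ⊤), ∃ c', FF.germ (Torus.toBase K n) ⊤ trivial c = ψ c' := by
      intro c
      refine ⟨(Scheme.ΓSpecIso (.of (AddMonoidAlgebra K (Fin n → ℤ)))).hom c, ?_⟩
      rw [hψ]
      congr 1
      exact (Iso.hom_inv_id_apply
        (Scheme.ΓSpecIso (.of (AddMonoidAlgebra K (Fin n → ℤ)))) c).symm
    obtain ⟨a', ha'⟩ := hs a
    obtain ⟨b', hb'⟩ := hs b
    refine ⟨a', b', ?_, ?_⟩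
    · rw [hΦ]
      intro h0
      apply hb
      rw [hb']
      exact (map_eq_zero_iff e.symm e.symm.injective).1 h0
    · apply e.injective
      rw [h, ha', hb', map_div₀, hΦ, hΦ, RingEquiv.apply_symm_apply, RingEquiv.apply_symm_apply]

end

end TOD
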