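import Pool.Agent.TD.SD

open CategoryTheory Limits AlgebraicGeometry

universe u

namespace TOD

noncomputable section

variable {R : Type u} [CommRing R] {X : Scheme.{u}} (f : X ⟶ Spec (.of R)) [IsIntegral X]

/-- [TS-F1] Functions are determined by their germs at the generic point.
(Mathlib: `germ_injective_of_isIntegral`; for the stalk: `stalkFunctionFieldAlgebra` and
`IsFractionRing (X.presheaf.stalk x) X.functionField`, whose algebra map is `FF.stalk` up to unfolding, or
`stalkSpecializes` directly: `s = germ U x s'` for some `U`.) -/
theorem FF.germ_injective (U : X.Opens) (h : genericPoint X ∈ U) :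
    Function.Injective (FF.germ f U h) := by
  exact germ_injective_of_isIntegral X (genericPoint X) h

theorem FF.stalk_injective (x : X) : Function.Injective (FF.stalk f x) := by
  rw [injective_iff_map_eq_zero]
  intro s hs
  obtain ⟨U, hx, s', rfl⟩ := X.presheaf.exists_germ_eq s
  have h : genericPoint X ∈ U :=
    ((genericPoint_spec X).mem_open_set_iff U.isOpen).mpr ⟨x, trivial, hx⟩
  rw [FF.stalk_germ f U x hx h] at hs
  have h1 : s' = 0 := FF.germ_injective f U h (hs.trans (map_zero _).symm)
  rw [h1, map_zero]

end

end TOD
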