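import Pool.Agent.TD.SD
import Pool.Agent.TD.SF2
import Pool.Agent.TD.SM4
import Pool.Agent.TD.ST3
import Pool.Agent.TD.ST4

open CategoryTheory Limits AlgebraicGeometry

universe u

namespace TOD

noncomputable section

variable {K : Type u} [Field K] {n : ℕ} {X : Scheme.{u}} {f : X ⟶ Spec (.of K)}

/-- [TS-T5] Local rings at points of the torus: for the point `q` of the torus given by the prime ideal `Q`,
the local ring of `X` at `S.j q` is the localisation of `K[ℤⁿ]` at `Q`.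
([TS-M4]: `s ∈ FF.loc f (S.j q) ↔ FF.map s ∈ FF.loc (toBase) q`; [TS-F2] for the affine scheme `Torus K n`, `U = ⊤`, or directly
`StructureSheaf`: the stalk of `Spec A` at `Q` is `A_Q`.) -/
theorem IsTorusMap.mem_loc [IsIntegral X] {S : ToricStructure f n}
    {Φ : AddMonoidAlgebra K (Fin n → ℤ) →ₐ[K] FF f} (hΦ : IsTorusMap S Φ)
    (Q : Ideal (AddMonoidAlgebra K (Fin n → ℤ))) [hQ : Q.IsPrime] {s : FF f}
    (hs : s ∈ FF.loc f (S.j (⟨Q, hQ⟩ : PrimeSpectrum (AddMonoidAlgebra K (Fin n → ℤ))))) :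
    ∃ a b, b ∉ Q ∧ s = Φ a / Φ b := by
  have := S.isOpenImmersion_j
  let q : Torus K n := (⟨Q, hQ⟩ : PrimeSpectrum (AddMonoidAlgebra K (Fin n → ℤ)))
  have h1 := (FF.map_mem_loc_iff (Torus.toBase K n) f S.j S.j_genericPoint q s).1 hs
  obtain ⟨w, hw⟩ := h1
  have hU : IsAffineOpen (⊤ : (Torus K n).Opens) := isAffineOpen_top _
  let := TopCat.Presheaf.algebra_section_stalk (Torus K n).presheaf
    (⟨q, trivial⟩ : (⊤ : (Torus K n).Opens))
  have hl := hU.isLocalization_stalk ⟨q, trivial⟩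
  obtain ⟨⟨a', b'⟩, hab⟩ :=
    IsLocalization.surj (hU.primeIdealOf ⟨q, trivial⟩).asIdeal.primeCompl w
  have hu : IsUnit ((Torus K n).presheaf.germ ⊤ q trivial b'.1) :=
    IsLocalization.map_units ((Torus K n).presheaf.stalk q) b'
  have hab' : w * (Torus K n).presheaf.germ ⊤ q trivial b'.1 =
      (Torus K n).presheaf.germ ⊤ q trivial a' := hab
  obtain ⟨a, ha⟩ : ∃ a, (Scheme.ΓSpecIso (.of (AddMonoidAlgebra K (Fin n → ℤ)))).inv a = a' :=
    ⟨(Scheme.ΓSpecIso (.of (AddMonoidAlgebra K (Fin n → ℤ)))).hom a', by simp⟩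
  obtain ⟨b, hb⟩ : ∃ b, (Scheme.ΓSpecIso (.of (AddMonoidAlgebra K (Fin n → ℤ)))).inv b = b'.1 :=
    ⟨(Scheme.ΓSpecIso (.of (AddMonoidAlgebra K (Fin n → ℤ)))).hom b'.1, by simp⟩
  rw [← hb] at hu hab'
  rw [← ha] at hab'
  have hbQ : b ∉ Q := by
    have h2 : q ∈ (Torus K n).basicOpen
        ((Scheme.ΓSpecIso (.of (AddMonoidAlgebra K (Fin n → ℤ)))).inv b) :=
      ((Torus K n).mem_basicOpen (U := ⊤) _ q trivial).2 hu
    have h3 := basicOpen_eq_of_affine (R := .of (AddMonoidAlgebra K (Fin n → ℤ))) b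
    rw [h3] at h2
    exact h2
  have e1 := hΦ a
  have e2 := hΦ b
  rw [← FF.stalk_germ (Torus.toBase K n) ⊤ q trivial trivial] at e1 e2
  have hu2 : FF.stalk (Torus.toBase K n) q ((Torus K n).presheaf.germ ⊤ q trivial
      ((Scheme.ΓSpecIso (.of (AddMonoidAlgebra K (Fin n → ℤ)))).inv b)) ≠ 0 :=
    (hu.map (FF.stalk (Torus.toBase K n) q)).ne_zero
  have hb0 : Φ b ≠ 0 := by
    intro h0
    rw [h0, map_zero] at e2
    exact hu2 e2.symm
  refine ⟨a, b, hbQ, ?_⟩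
  rw [eq_div_iff hb0]
  apply (FF.map_bijective (Torus.toBase K n) f S.j S.j_genericPoint).1
  rw [map_mul, e1, e2, ← hab', map_mul]
  congr 1
  exact hw.symm

end

end TOD
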