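import Pool.Agent.TD.SD
import Pool.Agent.TD.SF1
import Pool.Agent.TD.SF5
import Pool.Agent.TD.SF7
import Pool.Agent.TD.ST3
import Pool.Agent.TD.ST4
import Pool.Agent.TD.ST5

open CategoryTheory Limits AlgebraicGeometry

universe u

namespace TOD

noncomputable section

variable {K : Type u} [Field K] {n : ℕ} {X : Scheme.{u}} {f : X ⟶ Spec (.of K)}

/-- [TS-T6] Every point of the torus lies in some chart (`TC.tmap`).
Proof: `x = S.j q` lies in some `A.U i`; the generic point too ([TS-F7]), so `zF i ≠ 0` ([TS-F5]), and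
`zF j / zF i = FF.germ (A.z i j) = FF.stalk x (germ_x (A.z i j)) ∈ FF.loc f x`; [TS-T5]. -/
theorem IsTorusMap.tmap [IsIntegral X] {S : ToricStructure f n}
    {Φ : AddMonoidAlgebra K (Fin n → ℤ) →ₐ[K] FF f} (hΦ : IsTorusMap S Φ) {N : ℕ} (A : Atlas X N)
    (i₀ : Fin (N + 1)) (h₀ : genericPoint X ∈ A.U i₀)
    (Q : Ideal (AddMonoidAlgebra K (Fin n → ℤ))) (hQ : Q.IsPrime) :
    ∃ i, A.zF f i₀ h₀ i ≠ 0 ∧
      ∀ j, ∃ a b, b ∉ Q ∧ A.zF f i₀ h₀ j / A.zF f i₀ h₀ i = Φ a / Φ b := by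
  let q : Torus K n := (⟨Q, hQ⟩ : PrimeSpectrum (AddMonoidAlgebra K (Fin n → ℤ)))
  obtain ⟨i, hi⟩ := A.cover (S.j q)
  have h : genericPoint X ∈ A.U i := genericPoint_mem hi
  refine ⟨i, (Atlas.zF_ne_zero_iff f A i₀ h₀ i).mpr h, fun j => ?_⟩
  have e : A.zF f i₀ h₀ j / A.zF f i₀ h₀ i =
      FF.stalk f (S.j q) (X.presheaf.germ (A.U i) (S.j q) hi (A.z i j)) := by
    rw [FF.stalk_germ f (A.U i) (S.j q) hi h, Atlas.germ_z f A i₀ h₀ i h j]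
  have hmem : A.zF f i₀ h₀ j / A.zF f i₀ h₀ i ∈ FF.loc f (S.j q) := by
    rw [e]
    exact ⟨_, rfl⟩
  exact hΦ.mem_loc Q hmem

end

end TOD
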