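import Pool.Agent.TD.SD

open CategoryTheory Limits AlgebraicGeometry

universe u

namespace TOD

noncomputable section

variable {R : Type u} [CommRing R]

theorem SM3_map_germ {X Y : Scheme.{u}} (f : X ⟶ Spec (.of R)) (f' : Y ⟶ Spec (.of R))
    [IsIntegral X] [IsIntegral Y] (p : X ⟶ Y) (hgp : p (genericPoint X) = genericPoint Y)
    (U : Y.Opens) (h : genericPoint Y ∈ U) (h' : genericPoint X ∈ p ⁻¹ᵁ U) (s : Γ(Y, U)) :
    FF.map f f' p hgp (FF.germ f' U h s) = FF.germ f (p ⁻¹ᵁ U) h' (p.app U s) := by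
  have h1 : (Y.presheaf.stalkSpecializes (specializes_of_eq hgp)).hom
      (Y.presheaf.germ U (genericPoint Y) h s) =
      Y.presheaf.germ U (p (genericPoint X)) h' s :=
    Y.presheaf.germ_stalkSpecializes_apply h (specializes_of_eq hgp) s
  have h2 := Scheme.Hom.germ_stalkMap_apply p U (genericPoint X) h' s
  exact (congrArg (fun y => (p.stalkMap (genericPoint X)).hom y) h1).trans h2

/-- [TS-M3] Functoriality. -/
theorem FF.map_comp {X Y Z : Scheme.{u}} (f : X ⟶ Spec (.of R)) (f' : Y ⟶ Spec (.of R))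
    (f'' : Z ⟶ Spec (.of R)) [IsIntegral X] [IsIntegral Y] [IsIntegral Z] (p : X ⟶ Y) (q : Y ⟶ Z)
    (hp : p (genericPoint X) = genericPoint Y) (hq : q (genericPoint Y) = genericPoint Z)
    (hpq : (p ≫ q) (genericPoint X) = genericPoint Z) (s : FF f'') :
    FF.map f f'' (p ≫ q) hpq s = FF.map f f' p hp (FF.map f' f'' q hq s) := by
  obtain ⟨U, h, s', hs⟩ := Z.presheaf.exists_germ_eq (x := genericPoint Z) s
  have hs' : s = FF.germ f'' U h s' := hs.symm
  have h1 : genericPoint Y ∈ q ⁻¹ᵁ U := by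
    change q (genericPoint Y) ∈ U
    rw [hq]
    exact h
  have h2 : genericPoint X ∈ p ⁻¹ᵁ (q ⁻¹ᵁ U) := by
    change p (genericPoint X) ∈ q ⁻¹ᵁ U
    rw [hp]
    exact h1
  rw [hs', SM3_map_germ f f'' (p ≫ q) hpq U h h2, SM3_map_germ f' f'' q hq U h h1,
    SM3_map_germ f f' p hp (q ⁻¹ᵁ U) h1 h2]
  congr 1

theorem FF.map_id {X : Scheme.{u}} (f : X ⟶ Spec (.of R)) [IsIntegral X]
    (h : (𝟙 X : X ⟶ X) (genericPoint X) = genericPoint X) (s : FF f) :
    FF.map f f (𝟙 X) h s = s := by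
  obtain ⟨U, h', s', hs⟩ := X.presheaf.exists_germ_eq (x := genericPoint X) s
  have hs' : s = FF.germ f U h' s' := hs.symm
  rw [hs', SM3_map_germ f f (𝟙 X) h U h' h']
  congr 1

end

end TOD
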