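import Pool.Agent.TD.SD
import Pool.Agent.TD.ST1

open CategoryTheory Limits AlgebraicGeometry

universe u

namespace TOD

noncomputable section

variable {K : Type u} [Field K] {n : ℕ} {X : Scheme.{u}} {f : X ⟶ Spec (.of K)}

theorem ST2_lift_congr {C : Type*} [Category C] {A B D Y : C} {p : A ⟶ D} {q : B ⟶ D}
    [HasPullback p q] {a a' : Y ⟶ A} {b b' : Y ⟶ B} (h : a ≫ p = b ≫ q) (h' : a' ≫ p = b' ≫ q)
    (ha : a = a') (hb : b = b') : pullback.lift a b h = pullback.lift a' b' h' := by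
  subst ha
  subst hb
  rfl

theorem ST2_base (t : Fin n → Kˣ) : (f ≫ ptT t) ≫ Torus.toBase K n = 𝟙 X ≫ f := by
  rw [Category.assoc, ptT_toBase, Category.comp_id, Category.id_comp]

/-- the translation morphism -/
def ST2_tr (S : ToricStructure f n) (t : Fin n → Kˣ) : X ⟶ X :=
  pullback.lift (f ≫ ptT t) (𝟙 X) (ST2_base t) ≫ S.act

theorem ST2_tr_over (S : ToricStructure f n) (t : Fin n → Kˣ) : ST2_tr S t ≫ f = f := by
  rw [ST2_tr, Category.assoc, S.act_over, pullback.lift_snd_assoc, Category.id_comp]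

theorem ST2_tr_one (S : ToricStructure f n) : ST2_tr S 1 = 𝟙 X := by
  rw [← S.one_act]
  refine congrArg (fun a => a ≫ S.act) (ST2_lift_congr _ _ ?_ rfl)
  rw [ptT_one]

theorem ST2_tr_comp (S : ToricStructure f n) (s t : Fin n → Kˣ) :
    ST2_tr S t ≫ ST2_tr S s = ST2_tr S (s * t) := by
  have hst : (f ≫ ptT s) ≫ Torus.toBase K n = (f ≫ ptT t) ≫ Torus.toBase K n :=
    (ST2_base s).trans (ST2_base t).symm
  have h₁ : (f ≫ ptT s) ≫ Torus.toBase K n =
      (pullback.lift (f ≫ ptT t) (𝟙 X) (ST2_base t) ≫ S.act) ≫ f := by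
    rw [ST2_base s, Category.id_comp]
    exact (ST2_tr_over S t).symm
  have h₂ : (pullback.lift (f ≫ ptT s) (f ≫ ptT t) hst ≫ Torus.mul K n) ≫ Torus.toBase K n =
      𝟙 X ≫ f := by
    rw [lift_ptT_mul s t f hst]
    exact ST2_base (s * t)
  have h3 := S.mul_act (f ≫ ptT s) (f ≫ ptT t) (𝟙 X) hst (ST2_base t) h₁ h₂
  have h4 : ST2_tr S (s * t) =
      pullback.lift (pullback.lift (f ≫ ptT s) (f ≫ ptT t) hst ≫ Torus.mul K n) (𝟙 X) h₂ ≫ S.act := by
    refine congrArg (fun a => a ≫ S.act) (ST2_lift_congr _ _ ?_ rfl)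
    rw [lift_ptT_mul s t f hst]
  rw [h4, ← h3]
  have h5 : ST2_tr S t ≫ pullback.lift (f ≫ ptT s) (𝟙 X) (ST2_base s) =
      pullback.lift (f ≫ ptT s) (pullback.lift (f ≫ ptT t) (𝟙 X) (ST2_base t) ≫ S.act) h₁ := by
    apply pullback.hom_ext
    · rw [Category.assoc, pullback.lift_fst, pullback.lift_fst, ← Category.assoc, ST2_tr_over]
    · rw [Category.assoc, pullback.lift_snd, pullback.lift_snd, Category.comp_id]
      rfl
  rw [← h5, Category.assoc]
  rfl

theorem ST2_j_tr (S : ToricStructure f n) (t : Fin n → Kˣ) :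
    S.j ≫ ST2_tr S t = Spec.map (CommRingCat.ofHom (trHom t).toRingHom) ≫ S.j := by
  have hst : (Torus.toBase K n ≫ ptT t) ≫ Torus.toBase K n = 𝟙 _ ≫ Torus.toBase K n := by
    rw [Category.assoc, ptT_toBase, Category.comp_id, Category.id_comp]
  have h : (Torus.toBase K n ≫ ptT t) ≫ Torus.toBase K n = (𝟙 _ ≫ S.j) ≫ f := by
    rw [hst, Category.assoc, S.j_over]
  have h3 := S.act_j (Torus.toBase K n ≫ ptT t) (𝟙 (Torus K n)) hst h
  rw [lift_ptT_id_mul t hst] at h3
  rw [← h3]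
  have h5 : S.j ≫ pullback.lift (f ≫ ptT t) (𝟙 X) (ST2_base t) =
      pullback.lift (Torus.toBase K n ≫ ptT t) (𝟙 _ ≫ S.j) h := by
    apply pullback.hom_ext
    · rw [Category.assoc, pullback.lift_fst, pullback.lift_fst, ← Category.assoc, S.j_over]
    · rw [Category.assoc, pullback.lift_snd, pullback.lift_snd, Category.comp_id,
        Category.id_comp]
  rw [← h5, Category.assoc]
  rfl

/-- [TS-T2] Translation by the `K`-point `t` of the torus is an automorphism of the toric variety, over `K`,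
extending the translation of the torus.
Proof: `α_t = pullback.lift (f ≫ ptT t) (𝟙 X) ≫ S.act`. [TS-T1]: `α_1 = 𝟙` (`S.one_act`), `α_s` after `α_t` is
`α_{s t}` (`S.mul_act` with `Y = X`; `S.act_over`), so `α_{t⁻¹}` is the inverse; `S.j ≫ α_t = trHom t ≫ S.j` by
`S.act_j` with `Y = Torus`, second point `𝟙`. -/
theorem ToricStructure.exists_translation (S : ToricStructure f n) (t : Fin n → Kˣ) :
    ∃ α : X ≅ X, α.hom ≫ f = f ∧
      S.j ≫ α.hom = Spec.map (CommRingCat.ofHom (trHom t).toRingHom) ≫ S.j := by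
  refine ⟨⟨ST2_tr S t, ST2_tr S t⁻¹, ?_, ?_⟩, ST2_tr_over S t, ST2_j_tr S t⟩
  · rw [ST2_tr_comp, inv_mul_cancel, ST2_tr_one]
  · rw [ST2_tr_comp, mul_inv_cancel, ST2_tr_one]

end

end TOD
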