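import Pool.Agent.TD.SD
import Pool.Agent.TD.SM1
import Pool.Agent.TD.SM2
import Pool.Agent.TD.SM3
import Pool.Agent.TD.SM4
import Pool.Agent.TD.ST2
import Pool.Agent.TD.ST3
import Pool.Agent.TD.ST4

open CategoryTheory Limits AlgebraicGeometry

universe u

namespace TOD

noncomputable section

variable {K : Type u} [Field K] {n : ℕ} {X : Scheme.{u}} {f : X ⟶ Spec (.of K)}

theorem ST7_congr {R : Type u} [CommRing R] {X Y : Scheme.{u}} (f : X ⟶ Spec (.of R))
    (f' : Y ⟶ Spec (.of R)) [IsIntegral X] [IsIntegral Y] {p p' : X ⟶ Y} (h : p = p')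
    (hp : p (genericPoint X) = genericPoint Y) (hp' : p' (genericPoint X) = genericPoint Y)
    (s : FF f') : FF.map f f' p hp s = FF.map f f' p' hp' s := by
  subst h
  rfl

/-- the translation acts on Laurent polynomials by `trHom` -/
theorem ST7_tr (t : Fin n → Kˣ)
    (hT : (Spec.map (CommRingCat.ofHom (trHom (K := K) t).toRingHom)) (genericPoint (Torus K n)) =
        genericPoint (Torus K n)) (a : AddMonoidAlgebra K (Fin n → ℤ)) :
    FF.map (Torus.toBase K n) (Torus.toBase K n)
      (Spec.map (CommRingCat.ofHom (trHom t).toRingHom)) hT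
      (FF.germ (Torus.toBase K n) ⊤ trivial
        ((Scheme.ΓSpecIso (.of (AddMonoidAlgebra K (Fin n → ℤ)))).inv a)) =
      FF.germ (Torus.toBase K n) ⊤ trivial
        ((Scheme.ΓSpecIso (.of (AddMonoidAlgebra K (Fin n → ℤ)))).inv (trHom t a)) := by
  rw [FF.map_germ (Torus.toBase K n) (Torus.toBase K n)
    (Spec.map (CommRingCat.ofHom (trHom t).toRingHom)) hT ⊤ trivial
    (show genericPoint (Torus K n) ∈
      (Spec.map (CommRingCat.ofHom (trHom (K := K) t).toRingHom)) ⁻¹ᵁ ⊤ from trivial)]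
  have h1 := Scheme.ΓSpecIso_inv_naturality (CommRingCat.ofHom (trHom (K := K) t).toRingHom)
  have h2 := congrArg (fun φ => φ.hom a) h1
  simp only [CommRingCat.hom_comp, RingHom.comp_apply] at h2
  exact congrArg (FF.germ (Torus.toBase K n) ⊤ trivial) h2.symm

/-- [TS-T7] Translations permute the local rings (`TC.inv`).
Proof: `α` from [TS-T2], `σ = FF.map f f α.hom _` (`α.hom` maps the generic point to the generic point: it is a
homeomorphism), a `K`-algebra automorphism ([TS-M2], [TS-M4]). `IsTrans`: apply the bijection `FF.map _ f S.j` to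
`σ (Φ a)` and use [TS-M3] for `S.j ≫ α.hom = trHom ≫ S.j` and [TS-M1], `trHom_single`. For `x : X` write
`x = α.hom y`; by [TS-M4] (an isomorphism is an open immersion) `s ∈ loc x ↔ σ s ∈ loc y`. -/
theorem IsTorusMap.exists_trans [IsIntegral X] {S : ToricStructure f n}
    {Φ : AddMonoidAlgebra K (Fin n → ℤ) →ₐ[K] FF f} (hΦ : IsTorusMap S Φ) (t : Fin n → Kˣ) :
    ∃ σ : FF f ≃ₐ[K] FF f, IsTrans Φ t σ ∧
      ∀ x : X, ∃ y : X, (FF.loc f x).map (σ : FF f →ₐ[K] FF f) = FF.loc f y := by
  obtain ⟨α, hα, hj⟩ := S.exists_translation t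
  have hgp : α.hom (genericPoint X) = genericPoint X := genericPoint_eq_of_isOpenImmersion α.hom
  let σ₀ : FF f →ₐ[K] FF f :=
    { FF.map f f α.hom hgp with commutes' := FF.map_algebraMap f f α.hom hgp hα }
  have hσ₀ : ∀ s, σ₀ s = FF.map f f α.hom hgp s := fun _ => rfl
  have hbij : Function.Bijective σ₀ := FF.map_bijective f f α.hom hgp
  let σ : FF f ≃ₐ[K] FF f := AlgEquiv.ofBijective σ₀ hbij
  have hσ : ∀ s, σ s = FF.map f f α.hom hgp s := fun _ => rfl
  refine ⟨σ, fun u => ?_, fun x => ⟨α.inv x, ?_⟩⟩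
  · have := S.isOpenImmersion_j
    have hT : (Spec.map (CommRingCat.ofHom (trHom t).toRingHom)) (genericPoint (Torus K n)) =
        genericPoint (Torus K n) := by
      have h1 := congrArg (fun p : Torus K n ⟶ X => p (genericPoint (Torus K n))) hj
      simp only [Scheme.Hom.comp_apply] at h1
      rw [S.j_genericPoint, hgp] at h1
      apply S.j.isOpenEmbedding.injective
      rw [S.j_genericPoint]
      exact h1.symm
    apply (FF.map_bijective (Torus.toBase K n) f S.j S.j_genericPoint).1
    have h2 : algebraMap K (FF f) (tpow t u) * ch Φ u =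
        Φ (trHom t (AddMonoidAlgebra.single u 1)) := by
      rw [trHom_single, ch, ← Algebra.smul_def, ← map_smul]
      simp
    rw [h2, hΦ, hσ, ← FF.map_comp (Torus.toBase K n) f f S.j α.hom S.j_genericPoint hgp
      (by rw [Scheme.Hom.comp_apply, S.j_genericPoint, hgp]),
      ST7_congr (Torus.toBase K n) f hj _ (by rw [Scheme.Hom.comp_apply, hT, S.j_genericPoint]),
      FF.map_comp (Torus.toBase K n) (Torus.toBase K n) f _ S.j hT S.j_genericPoint, ch, hΦ,
      ST7_tr]
  · have hx : α.hom (α.inv x) = x := by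
      rw [← Scheme.Hom.comp_apply, α.inv_hom_id]
      rfl
    ext s
    have h1 := fun s => FF.map_mem_loc_iff f f α.hom hgp (α.inv x) s
    rw [hx] at h1
    constructor
    · rintro ⟨r, hr, rfl⟩
      exact (h1 r).1 hr
    · intro hs
      obtain ⟨r, rfl⟩ := σ.surjective s
      exact ⟨r, (h1 r).2 hs, rfl⟩

end

end TOD
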