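import Pool.Agent.TD.SD

open CategoryTheory Limits AlgebraicGeometry

universe u

namespace TOD

noncomputable section

variable {K : Type u} [Field K] {n : ℕ} {X : Scheme.{u}} {f : X ⟶ Spec (.of K)}

theorem ST8_Gamma [IsIntegral X] (hn : ∀ x : X, IsIntegrallyClosed (X.presheaf.stalk x))
    {U : X.Opens} (hU : IsAffineOpen U) [Nonempty U] : IsIntegrallyClosed Γ(X, U) := by
  refine IsIntegrallyClosed.of_localization_maximal fun p _ hp => ?_
  let _ : Algebra Γ(X, U) (X.presheaf.stalk (hU.fromSpec ⟨p, hp.isPrime⟩)) :=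
    TopCat.Presheaf.algebra_section_stalk X.presheaf
      ⟨hU.fromSpec ⟨p, hp.isPrime⟩, (hU.isoSpec.inv _).2⟩
  have h1 : IsLocalization.AtPrime (X.presheaf.stalk (hU.fromSpec ⟨p, hp.isPrime⟩)) p :=
    hU.isLocalization_stalk' ⟨p, hp.isPrime⟩ (hU.isoSpec.inv _).2
  have h2 := hn (hU.fromSpec ⟨p, hp.isPrime⟩)
  exact h2.of_equiv (IsLocalization.algEquiv p.primeCompl
    (X.presheaf.stalk (hU.fromSpec ⟨p, hp.isPrime⟩)) (Localization.AtPrime p)).toRingEquiv

/-- [TS-T8] Functions on an affine open set of a normal scheme form an integrally closed ring.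
(`FF.sec f U h ≃+* Γ(X, U)`; `IsIntegrallyClosed` is a local property: Mathlib
`RingTheory/LocalProperties/IntegrallyClosed`, `IsIntegrallyClosed.of_localization_maximal`; the localisations of
`Γ(X, U)` at prime ideals are stalks of `X`, `IsAffineOpen.isLocalization_stalk`.) -/
theorem FF.isIntegrallyClosed_sec [IsIntegral X]
    (hn : ∀ x : X, IsIntegrallyClosed (X.presheaf.stalk x)) {U : X.Opens} (hU : IsAffineOpen U)
    (h : genericPoint X ∈ U) : IsIntegrallyClosed (FF.sec f U h) := by
  have : Nonempty U := ⟨⟨_, h⟩⟩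
  have h0 := ST8_Gamma hn hU
  let φ : Γ(X, U) →+* FF.sec f U h :=
    { toFun := fun s => ⟨FF.germ f U h s, ⟨s, rfl⟩⟩
      map_one' := Subtype.ext (map_one _)
      map_mul' := fun a b => Subtype.ext (map_mul _ a b)
      map_zero' := Subtype.ext (map_zero _)
      map_add' := fun a b => Subtype.ext (map_add _ a b) }
  have hφ : Function.Bijective φ := by
    constructor
    · intro a b hab
      have h1 : FF.germ f U h a = FF.germ f U h b := congrArg Subtype.val hab
      exact germ_injective_of_isIntegral X (genericPoint X) h h1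
    · rintro ⟨_, s, rfl⟩
      exact ⟨s, rfl⟩
  exact h0.of_equiv (RingEquiv.ofBijective φ hφ)

end

end TOD
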