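import Pool.Agent.TD.SD

open CategoryTheory Limits AlgebraicGeometry

universe u

namespace TOD

noncomputable section

variable {K : Type u} [Field K] {n : ℕ} {X : Scheme.{u}} {f : X ⟶ Spec (.of K)}

theorem ST9_secHom [Smooth f] {U : X.Opens} (hU : IsAffineOpen U) :
    (secHom f U).FormallySmooth := by
  have h1 : (f.appLE ⊤ U le_top).hom.FormallySmooth :=
    (f.smooth_appLE (isAffineOpen_top _) hU le_top).formallySmooth
  have h2 : (Scheme.ΓSpecIso (.of K)).inv.hom.FormallySmooth := by
    apply RingHom.FormallySmooth.of_bijective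
    exact (ConcreteCategory.bijective_of_isIso (Scheme.ΓSpecIso (.of K)).inv)
  exact RingHom.FormallySmooth.comp h2 h1

/-- [TS-T9] Functions on an affine open set of a smooth scheme over `K` form a formally smooth algebra.
(`Scheme.Hom.smooth_appLE` for `⊤` and `U`, `RingHom.Smooth`, `Algebra.Smooth`; transport along
`FF.sec f U h ≃+* Γ(X, U)` and `ΓSpecIso`: `Algebra.FormallySmooth.of_equiv`.) -/
theorem FF.formallySmooth_sec [IsIntegral X] [Smooth f] {U : X.Opens} (hU : IsAffineOpen U)
    (h : genericPoint X ∈ U) : Algebra.FormallySmooth K (FF.sec f U h) := by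
  let _ : Algebra K Γ(X, U) := (secHom f U).toAlgebra
  have h0 : Algebra.FormallySmooth K Γ(X, U) := (ST9_secHom (f := f) hU).toAlgebra
  let φ : Γ(X, U) →ₐ[K] FF.sec f U h :=
    { toFun := fun s => ⟨FF.germ f U h s, ⟨s, rfl⟩⟩
      map_one' := Subtype.ext (map_one _)
      map_mul' := fun a b => Subtype.ext (map_mul _ a b)
      map_zero' := Subtype.ext (map_zero _)
      map_add' := fun a b => Subtype.ext (map_add _ a b)
      commutes' := fun r => Subtype.ext (FF.germ_secHom f U h r) }
  have hφ : Function.Bijective φ := by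
    constructor
    · intro a b hab
      have h1 : FF.germ f U h a = FF.germ f U h b := congrArg Subtype.val hab
      exact germ_injective_of_isIntegral X (genericPoint X) h h1
    · rintro ⟨_, s, rfl⟩
      exact ⟨s, rfl⟩
  exact Algebra.FormallySmooth.of_equiv (AlgEquiv.ofBijective φ hφ)

end

end TOD
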