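import Pool.Agent.TD.SD
import Pool.Agent.TD.SF2
import Pool.Agent.TD.SF3
import Pool.Agent.TD.SF4
import Pool.Agent.TD.SF5
import Pool.Agent.TD.SF6
import Pool.Agent.TD.SF7
import Pool.Agent.TD.ST1
import Pool.Agent.TD.ST4
import Pool.Agent.TD.ST6
import Pool.Agent.TD.ST7
import Pool.Agent.TD.ST8
import Pool.Agent.TD.ST9

open CategoryTheory Limits AlgebraicGeometry

universe u

namespace TOD

noncomputable section

variable {K : Type u} [Field K] {n : ℕ} {X : Scheme.{u}} {f : X ⟶ Spec (.of K)}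

/-- [TS-T10] Assembly: a smooth projective toric variety gives toric chart data.
([TS-T4], [TS-T6], [TS-T7]; charts are `FF.sec` by [TS-F6], [TS-F5]; local rings of charts are `FF.loc f x`, `x ∈ A.U i`, by [TS-F2],
[TS-F3]; in `inv`: `y` lies in some `A.U i'`, `A.cover`, [TS-F7]; [TS-F4], [TS-T8], [TS-T9].) -/
theorem exists_TC [IsIntegral X] [Smooth f]
    (hn : ∀ x : X, IsIntegrallyClosed (X.presheaf.stalk x)) (S : ToricStructure f n)
    {N : ℕ} (A : Atlas X N) (hA : A.IsProj f) (i₀ : Fin (N + 1)) (h₀ : genericPoint X ∈ A.U i₀) :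
    ∃ Φ : AddMonoidAlgebra K (Fin n → ℤ) →ₐ[K] FF f, TC (A.zF f i₀ h₀) n Φ := by
  obtain ⟨Φ, hΦ, hinj, hfrac⟩ := S.exists_Φ
  have hz : ∀ i, A.zF f i₀ h₀ i ≠ 0 → genericPoint X ∈ A.U i := fun i hi =>
    (Atlas.zF_ne_zero_iff f A i₀ h₀ i).1 hi
  have hc : ∀ i (h : genericPoint X ∈ A.U i),
      chart K (A.zF f i₀ h₀) i = FF.sec f (A.U i) h := fun i h => Atlas.chart_eq f A hA i₀ h₀ i h
  refine ⟨Φ, ?_⟩
  exact
    { Φ_inj := hinj
      Φ_frac := hfrac
      z_ne := ⟨i₀, by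
        rw [Atlas.zF_self f A i₀ h₀]
        exact one_ne_zero⟩
      frac := fun i hi => by
        rw [hc i (hz i hi)]
        exact FF.hasFrac_sec f (hA.aff i) _
      normal := fun i hi => by
        rw [hc i (hz i hi)]
        exact FF.isIntegrallyClosed_sec hn (hA.aff i) _
      smooth := fun i hi => by
        rw [hc i (hz i hi)]
        exact FF.formallySmooth_sec (hA.aff i) _
      tmap := fun Q hQ => hΦ.tmap A i₀ h₀ Q hQ
      inv := fun t => by
        obtain ⟨σ, hσ, hloc⟩ := hΦ.exists_trans t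
        refine ⟨σ, hσ, fun i hi O hO => ?_⟩
        rw [hc i (hz i hi)] at hO
        obtain ⟨x, hx, rfl⟩ := FF.exists_eq_loc f (hA.aff i) _ hO
        obtain ⟨y, hy⟩ := hloc x
        obtain ⟨i', hi'⟩ := A.cover y
        have hg := genericPoint_mem hi'
        refine ⟨i', (Atlas.zF_ne_zero_iff f A i₀ h₀ i').2 hg, ?_⟩
        rw [hc i' hg, hy]
        exact FF.isLocOf_loc f (hA.aff i') hg hi' }

end

end TOD
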