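import Pool.Agent.TD.SD
import Pool.Agent.TD.SF1

open CategoryTheory Limits AlgebraicGeometry

universe u

namespace TOD

noncomputable section

variable {R K : Type u} [CommRing R] [Field K] [Algebra R K] {X X₀ : Scheme.{u}}
  {f : X ⟶ Spec (.of R)} {g : X₀ ⟶ X} {f₀ : X₀ ⟶ Spec (.of K)} [IsIntegral X] [IsIntegral X₀]

/-- [TS-V1] The residue map of the local ring at the generic point of the special fibre.
(`FF.stalk f x` is injective [TS-F1], so an isomorphism onto `FF.loc f x`; compose the inverse with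
`g.stalkMap (genericPoint X₀)`, whose target is `FF f₀` by definition.) -/
theorem exists_residue :
    ∃ ρ : FF.loc f (g (genericPoint X₀)) →+* FF f₀,
      ∀ s (hs : FF.stalk f (g (genericPoint X₀)) s ∈ FF.loc f (g (genericPoint X₀))),
        ρ ⟨_, hs⟩ = (g.stalkMap (genericPoint X₀) s : X₀.presheaf.stalk (genericPoint X₀)) := by
  let φ : X.presheaf.stalk (g (genericPoint X₀)) →+* FF.loc f (g (genericPoint X₀)) :=
    (FF.stalk f (g (genericPoint X₀))).codRestrict (FF.loc f (g (genericPoint X₀))) fun s => ⟨s, rfl⟩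
  have hφ : Function.Bijective φ := by
    constructor
    · intro a b hab
      exact FF.stalk_injective f _ (congrArg Subtype.val hab)
    · rintro ⟨_, ⟨s, rfl⟩⟩
      exact ⟨s, rfl⟩
  let e := RingEquiv.ofBijective φ hφ
  refine ⟨(g.stalkMap (genericPoint X₀)).hom.comp e.symm.toRingHom, fun s hs => ?_⟩
  have : e.symm ⟨_, hs⟩ = s := by
    rw [RingEquiv.symm_apply_eq]
    rfl
  show (g.stalkMap (genericPoint X₀)).hom (e.symm ⟨_, hs⟩) = _
  rw [this]

end

end TOD
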