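import Pool.Agent.TD.SD
import Pool.Agent.TD.SF1

open CategoryTheory Limits AlgebraicGeometry

universe u

namespace TOD

noncomputable section

variable {R K : Type u} [CommRing R] [Field K] [Algebra R K] {X X₀ : Scheme.{u}}
  {f : X ⟶ Spec (.of R)} {g : X₀ ⟶ X} {f₀ : X₀ ⟶ Spec (.of K)} [IsIntegral X] [IsIntegral X₀]

/-- [TS-V2] The residue map on functions: restrict to the special fibre. (Write `FF.germ f U h s = FF.stalk f _ (germ s)`,
`FF.stalk_germ`, and use `Scheme.Hom.germ_stalkMap_apply`.) -/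
theorem IsResidue.germ {ρ : FF.loc f (g (genericPoint X₀)) →+* FF f₀} (hρ : IsResidue f f₀ g ρ)
    {U : X.Opens} (hη : g (genericPoint X₀) ∈ U) (h : genericPoint X ∈ U) (s : Γ(X, U))
    (hs : FF.germ f U h s ∈ FF.loc f (g (genericPoint X₀))) :
    ρ ⟨_, hs⟩ = FF.germ f₀ (g ⁻¹ᵁ U) hη (g.app U s) := by
  have e : FF.germ f U h s = FF.stalk f (g (genericPoint X₀))
      (X.presheaf.germ U (g (genericPoint X₀)) hη s) :=
    (FF.stalk_germ f U (g (genericPoint X₀)) hη h s).symm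
  have hs' : FF.stalk f (g (genericPoint X₀)) (X.presheaf.germ U (g (genericPoint X₀)) hη s) ∈
      FF.loc f (g (genericPoint X₀)) := ⟨_, rfl⟩
  have h1 : (⟨FF.germ f U h s, hs⟩ : FF.loc f (g (genericPoint X₀))) = ⟨_, hs'⟩ :=
    Subtype.ext e
  rw [h1]
  refine (hρ _ hs').trans ?_
  exact Scheme.Hom.germ_stalkMap_apply g U (genericPoint X₀) hη s

end

end TOD
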