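import Pool.Agent.TD.SD
import Pool.Agent.TD.SF1
import Pool.Agent.TD.SV2

open CategoryTheory Limits AlgebraicGeometry

universe u

namespace TOD

noncomputable section

variable {R K : Type u} [CommRing R] [Field K] [Algebra R K] {X X₀ : Scheme.{u}}
  {f : X ⟶ Spec (.of R)} {g : X₀ ⟶ X} {f₀ : X₀ ⟶ Spec (.of K)} [IsIntegral X] [IsIntegral X₀]

omit [AlgebraicGeometry.IsIntegral X] [AlgebraicGeometry.IsIntegral X₀] in
theorem SV3_secHom (h : g ≫ f = f₀ ≫ Spec.map (CommRingCat.ofHom (Algebra.algebraMap R K))) (r : R) :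
    g.app ⊤ (secHom f ⊤ r) = secHom f₀ ⊤ (Algebra.algebraMap R K r) := by
  have h1 : (Scheme.ΓSpecIso (.of R)).inv ≫ f.appTop ≫ g.appTop =
      CommRingCat.ofHom (Algebra.algebraMap R K) ≫ (Scheme.ΓSpecIso (.of K)).inv ≫ f₀.appTop := by
    rw [← Scheme.Hom.comp_appTop, h, Scheme.Hom.comp_appTop,
      Scheme.ΓSpecIso_inv_naturality_assoc]
  have h2 := congrArg (fun φ => φ.hom r) h1
  have h3 : ∀ (Y : Scheme.{u}) (s : Γ(Y, ⊤)),
      Y.presheaf.map (homOfLE (le_top : (⊤ : Y.Opens) ≤ ⊤)).op s = s := by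
    intro Y s
    have : (homOfLE (le_top : (⊤ : Y.Opens) ≤ ⊤)).op = 𝟙 _ := Subsingleton.elim _ _
    rw [this, Y.presheaf.map_id]
    rfl
  have h4 : secHom f ⊤ r = f.appTop ((Scheme.ΓSpecIso (.of R)).inv r) := h3 X _
  have h5 : secHom f₀ ⊤ (Algebra.algebraMap R K r) =
      f₀.appTop ((Scheme.ΓSpecIso (.of K)).inv (Algebra.algebraMap R K r)) := h3 X₀ _
  rw [h4, h5]
  exact h2

/-- [TS-V3] Compatibility with the base rings ([TS-V2] for `U = ⊤`, `FF.germ_secHom`; `h.w`). -/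
theorem IsResidue.algebraMap {ρ : FF.loc f (g (genericPoint X₀)) →+* FF f₀}
    (hρ : IsResidue f f₀ g ρ)
    (h : IsPullback g f₀ f (Spec.map (CommRingCat.ofHom (algebraMap R K)))) (r : R) :
    ρ (algebraMap R (FF.loc f (g (genericPoint X₀))) r) =
      algebraMap K (FF f₀) (algebraMap R K r) := by
  have h1 : Algebra.algebraMap R (FF f) r = FF.germ f ⊤ trivial (secHom f ⊤ r) :=
    (FF.germ_secHom f ⊤ trivial r).symm
  have hs : FF.germ f ⊤ trivial (secHom f ⊤ r) ∈ FF.loc f (g (genericPoint X₀)) := by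
    rw [← h1]
    exact Subalgebra.algebraMap_mem _ r
  have h2 : Algebra.algebraMap R (FF.loc f (g (genericPoint X₀))) r =
      ⟨FF.germ f ⊤ trivial (secHom f ⊤ r), hs⟩ := Subtype.ext h1
  rw [h2, hρ.germ (U := ⊤) trivial trivial (secHom f ⊤ r) hs, SV3_secHom h.w r]
  exact FF.germ_secHom f₀ ⊤ trivial _

end

end TOD
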