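import Pool.Agent.TD.SD
import Pool.Agent.TD.SI5
import Pool.Agent.TD.SI6

open CategoryTheory Limits AlgebraicGeometry

universe u

namespace TOD

noncomputable section

variable {R K : Type u} [CommRing R] [Field K] [Algebra R K] {X X₀ : Scheme.{u}}
  {f : X ⟶ Spec (.of R)} {g : X₀ ⟶ X} {f₀ : X₀ ⟶ Spec (.of K)} [IsIntegral X] [IsIntegral X₀]

/-- [TS-V4] The local ring at the generic point of the special fibre is separated (Krull intersection theorem: it is a
Noetherian local domain [TS-I6] and `t` is in its maximal ideal [TS-I5]). -/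
theorem loc_separated [IsDomain R] [IsDiscreteValuationRing R] [Flat f] [LocallyOfFiniteType f]
    (h : IsPullback g f₀ f (Spec.map (CommRingCat.ofHom (algebraMap R K))))
    (hRK : Function.Surjective (algebraMap R K)) {t : R} (ht : Irreducible t) (x : FF f)
    (hx : ∀ n : ℕ, ∃ y ∈ FF.loc f (g (genericPoint X₀)), x = algebraMap R (FF f) t ^ n * y) :
    x = 0 := by
  classical
  have hinj : Function.Injective (FF.stalk f (g (genericPoint X₀))) :=
    IsFractionRing.injective (X.presheaf.stalk (g (genericPoint X₀))) X.functionField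
  set τ := X.presheaf.germ ⊤ (g (genericPoint X₀)) trivial (secHom f ⊤ t) with hτ
  have hst : FF.stalk f (g (genericPoint X₀)) τ = algebraMap R (FF f) t := by
    rw [hτ, FF.stalk_germ f ⊤ _ trivial trivial, FF.germ_secHom]
  obtain ⟨hN, -⟩ := stalk_noetherian_nonZeroDivisor (f := f) ht.ne_zero (g (genericPoint X₀))
  have hnu : ¬ IsUnit τ := by
    intro hu
    have h1 := ((stalkMap_surjective_ker h hRK ht (genericPoint X₀)).2 τ).2 ⟨1, (mul_one _).symm⟩
    have h2 := hu.map (g.stalkMap (genericPoint X₀)).hom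
    rw [show (g.stalkMap (genericPoint X₀)).hom τ = 0 from h1] at h2
    exact not_isUnit_zero h2
  have hI : Ideal.span {τ} ≠ ⊤ := by
    rw [Ne, Ideal.span_singleton_eq_top]
    exact hnu
  obtain ⟨y, ⟨s, hs⟩, hy⟩ := hx 0
  have hxs : x = FF.stalk f (g (genericPoint X₀)) s := by
    rw [hy, pow_zero, one_mul]
    exact hs.symm
  have hmem : ∀ n : ℕ, s ∈ Ideal.span {τ} ^ n := by
    intro n
    obtain ⟨y, ⟨s', hs'⟩, hy⟩ := hx n
    have h3 : s = τ ^ n * s' := by
      apply hinj
      rw [map_mul, map_pow, hst, ← hxs, hy]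
      exact congrArg (fun z => algebraMap R (FF f) t ^ n * z) hs'.symm
    rw [h3, Ideal.span_singleton_pow]
    exact Ideal.mul_mem_right _ _ (Ideal.mem_span_singleton_self _)
  have hs0 : s = 0 := by
    have h4 : s ∈ (⨅ i : ℕ, Ideal.span {τ} ^ i) := by
      rw [Ideal.mem_iInf]
      exact hmem
    rw [Ideal.iInf_pow_eq_bot_of_isLocalRing _ hI] at h4
    exact h4
  rw [hxs, hs0, map_zero]

end

end TOD
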