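import Pool.Agent.TD.SD

open CategoryTheory Limits AlgebraicGeometry

universe u

namespace TOD

noncomputable section

variable {R K : Type u} [CommRing R] [Field K] [Algebra R K] {X X₀ : Scheme.{u}}
  {f : X ⟶ Spec (.of R)} {g : X₀ ⟶ X} {f₀ : X₀ ⟶ Spec (.of K)} [IsIntegral X] [IsIntegral X₀]

/-- [TS-V5] Elements with nonzero residue are units (`stalkMap` is a local homomorphism and its target is a
field). -/
theorem IsResidue.inv_mem {ρ : FF.loc f (g (genericPoint X₀)) →+* FF f₀}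
    (hρ : IsResidue f f₀ g ρ) (x : FF.loc f (g (genericPoint X₀))) (hx : ρ x ≠ 0) :
    (x : FF f)⁻¹ ∈ FF.loc f (g (genericPoint X₀)) := by
  obtain ⟨s, hs⟩ := x.2
  have hs' : FF.stalk f (g (genericPoint X₀)) s = (x : FF f) := hs
  have h1 := hρ s ⟨s, rfl⟩
  have hx' : x = ⟨FF.stalk f (g (genericPoint X₀)) s, ⟨s, rfl⟩⟩ := Subtype.ext hs'.symm
  have h2 : (g.stalkMap (genericPoint X₀) s : X₀.functionField) ≠ 0 := by
    intro h0
    apply hx
    rw [hx', h1]
    exact h0
  have h3 : IsUnit (g.stalkMap (genericPoint X₀) s) := h2.isUnit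
  have h4 : IsUnit s := isUnit_of_map_unit (g.stalkMap (genericPoint X₀)).hom s h3
  obtain ⟨v, rfl⟩ := h4
  refine ⟨(↑v⁻¹ : X.presheaf.stalk (g (genericPoint X₀))), ?_⟩
  change FF.stalk f (g (genericPoint X₀)) _ = _
  apply eq_inv_of_mul_eq_one_left
  rw [← hs', ← map_mul, v.inv_mul, map_one]

end

end TOD
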