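import Pool.Agent.TD.SD
import Pool.Agent.TD.SF1
import Pool.Agent.TD.SI1
import Pool.Agent.TD.SV2

open CategoryTheory Limits AlgebraicGeometry

universe u

namespace TOD

noncomputable section

variable {R K : Type u} [CommRing R] [Field K] [Algebra R K] {X X₀ : Scheme.{u}}
  {f : X ⟶ Spec (.of R)} {g : X₀ ⟶ X} {f₀ : X₀ ⟶ Spec (.of K)} [IsIntegral X] [IsIntegral X₀]

/-- [TS-V6] For an affine open set `U` meeting the special fibre the kernel of the residue map on functions on `U` is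
generated by `t` ([TS-V2], injectivity of `FF.germ` [TS-F1] on `X₀`, [TS-I1]). -/
theorem IsResidue.ker_sec [IsDomain R] [IsDiscreteValuationRing R]
    {ρ : FF.loc f (g (genericPoint X₀)) →+* FF f₀} (hρ : IsResidue f f₀ g ρ)
    (h : IsPullback g f₀ f (Spec.map (CommRingCat.ofHom (algebraMap R K))))
    (hRK : Function.Surjective (algebraMap R K)) {t : R} (ht : Irreducible t) {U : X.Opens}
    (hU : IsAffineOpen U) (hη : g (genericPoint X₀) ∈ U) (hgp : genericPoint X ∈ U)
    (x : FF.loc f (g (genericPoint X₀))) (hxU : (x : FF f) ∈ FF.sec f U hgp) (hx : ρ x = 0) :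
    ∃ y ∈ FF.sec f U hgp, (x : FF f) = algebraMap R (FF f) t * y := by
  obtain ⟨x, hxl⟩ := x
  obtain ⟨s, hs⟩ := hxU
  change FF.germ f U hgp s = x at hs
  subst hs
  rw [hρ.germ hη hgp s hxl] at hx
  have h1 : g.app U s = 0 := FF.germ_injective f₀ (g ⁻¹ᵁ U) hη (by rw [hx, map_zero])
  obtain ⟨s', hs'⟩ := ((app_surjective_ker h hRK ht hU).2 s).1 h1
  refine ⟨FF.germ f U hgp s', ⟨s', rfl⟩, ?_⟩
  change FF.germ f U hgp s = _
  rw [hs', map_mul, FF.germ_secHom]

end

end TOD
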