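import Pool.Agent.TD.SD
import Pool.Agent.TD.SI1

open CategoryTheory Limits AlgebraicGeometry

universe u

namespace TOD

noncomputable section

variable {R K : Type u} [CommRing R] [Field K] [Algebra R K] {X X₀ : Scheme.{u}}
  {f : X ⟶ Spec (.of R)} {g : X₀ ⟶ X} {f₀ : X₀ ⟶ Spec (.of K)} [IsIntegral X] [IsIntegral X₀]

/-- [TS-V7] For an affine open set `U` not containing the generic point of the special fibre (so `g ⁻¹ᵁ U = ⊥`), `t` is a
unit in the ring of functions on `U` ([TS-I1] for `s = 1`: `Γ(X₀, ⊥)` is the zero ring). -/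
theorem inv_mem_sec [IsDomain R] [IsDiscreteValuationRing R]
    (h : IsPullback g f₀ f (Spec.map (CommRingCat.ofHom (algebraMap R K))))
    (hRK : Function.Surjective (algebraMap R K)) {t : R} (ht : Irreducible t) {U : X.Opens}
    (hU : IsAffineOpen U) (hη : g (genericPoint X₀) ∉ U) (hgp : genericPoint X ∈ U) :
    (algebraMap R (FF f) t)⁻¹ ∈ FF.sec f U hgp := by
  have hbot : g ⁻¹ᵁ U = ⊥ := by
    rw [eq_bot_iff]
    intro x hx
    exact absurd (((genericPoint_spec X₀).mem_open_set_iff (g ⁻¹ᵁ U).isOpen).mpr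
      ⟨x, Set.mem_univ x, hx⟩) hη
  have hsub : Subsingleton Γ(X₀, g ⁻¹ᵁ U) := by
    rw [hbot]
    infer_instance
  obtain ⟨s', hs'⟩ := ((app_surjective_ker h hRK ht hU).2 1).1 (Subsingleton.elim _ _)
  have h1 := congrArg (FF.germ f U hgp) hs'
  rw [map_one, map_mul, FF.germ_secHom] at h1
  rw [← eq_inv_of_mul_eq_one_right h1.symm]
  exact ⟨s', rfl⟩

end

end TOD
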