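import Pool.Agent.TD.SD
import Pool.Agent.TD.SF4
import Pool.Agent.TD.SF5
import Pool.Agent.TD.SF6
import Pool.Agent.TD.SF7
import Pool.Agent.TD.SV1
import Pool.Agent.TD.SV2
import Pool.Agent.TD.SV3
import Pool.Agent.TD.SV4
import Pool.Agent.TD.SV5
import Pool.Agent.TD.SV6
import Pool.Agent.TD.SV7

open CategoryTheory Limits AlgebraicGeometry

universe u

namespace TOD

noncomputable section

variable {R K : Type u} [CommRing R] [Field K] [Algebra R K] {X X₀ : Scheme.{u}}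
  {f : X ⟶ Spec (.of R)} {g : X₀ ⟶ X} {f₀ : X₀ ⟶ Spec (.of K)} [IsIntegral X] [IsIntegral X₀]

omit [AlgebraicGeometry.IsIntegral X₀] in
theorem SV8_mem_loc {x : X} {U : X.Opens} (hx : x ∈ U) (h : genericPoint X ∈ U)
    (s : Γ(X, U)) : FF.germ f U h s ∈ FF.loc f x :=
  ⟨X.presheaf.germ U x hx s, FF.stalk_germ f U x hx h s⟩

/-- [TS-V8] Assembly: relative chart data, and the coordinates of the special fibre are the restrictions.
([TS-V1]-[TS-V7]; `z_mem`: `zF j` is the germ of `A.z i₀ j`, defined at `η`; for `i`: `ρ (zF i) ≠ 0` iff `η ∈ A.U i` by `A.basic` and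
[TS-F5] for `A.pull g`; the charts are `FF.sec` by [TS-F6] when `genericPoint X ∈ A.U i` iff `zF i ≠ 0` [TS-F5]; `frac`: [TS-F4],
[TS-F6], `z i₀ = 1`.) -/
theorem exists_RC [IsDomain R] [IsDiscreteValuationRing R] [Flat f] [LocallyOfFiniteType f]
    (h : IsPullback g f₀ f (Spec.map (CommRingCat.ofHom (algebraMap R K))))
    (hRK : Function.Surjective (algebraMap R K)) {t : R} (ht : Irreducible t) {N : ℕ}
    (A : Atlas X N) (hA : A.IsProj f) (i₀ : Fin (N + 1)) (hη : g (genericPoint X₀) ∈ A.U i₀)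
    (h₀ : genericPoint X ∈ A.U i₀) (h₀' : genericPoint X₀ ∈ (A.pull g).U i₀) :
    ∃ (ρ : FF.loc f (g (genericPoint X₀)) →+* FF f₀)
      (hRC : RC (K := K) t (A.zF f i₀ h₀) i₀ (FF.loc f (g (genericPoint X₀))) ρ),
      hRC.zbar = (A.pull g).zF f₀ i₀ h₀' := by
  obtain ⟨ρ, hρ⟩ := exists_residue (f := f) (g := g) (f₀ := f₀)
  have hρ : IsResidue f f₀ g ρ := hρ
  have hz : ∀ j, A.zF f i₀ h₀ j ∈ FF.loc f (g (genericPoint X₀)) := fun j =>
    SV8_mem_loc hη h₀ (A.z i₀ j)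
  have hzbar : ∀ j, ρ ⟨A.zF f i₀ h₀ j, hz j⟩ = (A.pull g).zF f₀ i₀ h₀' j := fun j =>
    hρ.germ hη h₀ (A.z i₀ j) (hz j)
  have hmem : ∀ i, ρ ⟨A.zF f i₀ h₀ i, hz i⟩ ≠ 0 ↔ g (genericPoint X₀) ∈ A.U i := by
    intro i
    rw [hzbar, Atlas.zF_ne_zero_iff]
    exact Iff.rfl
  have hRC : RC (K := K) t (A.zF f i₀ h₀) i₀ (FF.loc f (g (genericPoint X₀))) ρ :=
    { ρ_alg := fun r => hρ.algebraMap h r
      sep := fun x hx => loc_separated h hRK ht x hx
      loc := fun x hx => hρ.inv_mem x hx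
      z_mem := hz
      z_one := A.zF_self f i₀ h₀
      frac := by
        rw [A.chart_eq f hA i₀ h₀ i₀ h₀]
        exact FF.hasFrac_sec f (hA.aff i₀) h₀
      kerA := by
        intro i x hi hx h0
        have hηi : g (genericPoint X₀) ∈ A.U i := (hmem i).1 hi
        have hgi : genericPoint X ∈ A.U i := genericPoint_mem hηi
        rw [A.chart_eq f hA i₀ h₀ i hgi] at hx ⊢
        exact hρ.ker_sec h hRK ht (hA.aff i) hηi hgi x hx h0
      unitA := by
        intro i hi h0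
        have hgi : genericPoint X ∈ A.U i := (A.zF_ne_zero_iff f i₀ h₀ i).1 hi
        have hηi : g (genericPoint X₀) ∉ A.U i := fun h1 => (hmem i).2 h1 h0
        rw [A.chart_eq f hA i₀ h₀ i hgi]
        exact inv_mem_sec h hRK ht (hA.aff i) hηi hgi }
  exact ⟨ρ, hRC, funext hzbar⟩

end

end TOD
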