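import Pool.Agent.TD.SD
import Pool.Agent.TD.SI6

open CategoryTheory Limits AlgebraicGeometry

universe u

namespace TOD

noncomputable section

variable {R K : Type u} [CommRing R] [Field K] [Algebra R K] {X X₀ : Scheme.{u}}
  {f : X ⟶ Spec (.of R)} {g : X₀ ⟶ X} {f₀ : X₀ ⟶ Spec (.of K)} [IsIntegral X] [IsIntegral X₀]

/-- [TS-V9] The base ring embeds into the function field (`f` flat: `t` is a nonzerodivisor in the stalks [TS-I6], so
`algebraMap t ≠ 0`, and every nonzero element of `R` is a unit times a power of `t`). -/
theorem algebraMap_injective [IsDomain R] [IsDiscreteValuationRing R] [Flat f]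
    [LocallyOfFiniteType f] : Function.Injective (algebraMap R (FF f)) := by
  rw [injective_iff_map_eq_zero]
  intro r hr
  by_contra h0
  have h1 := (stalk_noetherian_nonZeroDivisor (f := f) h0 (genericPoint X)).2
  have h2 : X.presheaf.germ ⊤ (genericPoint X) trivial (secHom f ⊤ r) ≠ 0 :=
    nonZeroDivisors.ne_zero h1
  rw [← FF.germ_secHom f ⊤ trivial r] at hr
  exact h2 hr

end

end TOD
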