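import Pool.Agent.TD.SD
import Pool.Agent.TORE.Adapt
import Pool.Agent.TOR.C9
import Pool.Agent.TD.RE8
import Pool.Agent.TD.SP5
import Pool.Agent.TD.SP6
import Pool.Agent.TD.SP7
import Pool.Agent.TD.SP8
import Pool.Agent.TD.SI8
import Pool.Agent.TD.SI9
import Pool.Agent.TD.SV8
import Pool.Agent.TD.SV9
import Pool.Agent.TD.ST10

/-!
[TOR] MP_e511d7_ag: interfaces of the blocks and assembly of the final theorem.
-/

open CategoryTheory Limits AlgebraicGeometry

universe u

namespace TOD

noncomputable section

/-- Block ABC (helper37): graded toric data force the field to be purely transcendental. -/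
theorem core {R K κ : Type u} [CommRing R] [IsDomain R] [IsDiscreteValuationRing R]
    [IsAdicComplete (IsLocalRing.maximalIdeal R) R] [Field K] [IsAlgClosed K] [CharZero K]
    [Algebra R K] (hRK : Function.Surjective (algebraMap R K)) [Field κ] [Algebra R κ]
    (hinj : Function.Injective (algebraMap R κ)) {t : R} (ht : Irreducible t)
    (D : TData R K κ t) : IsPurelyTranscendental R κ :=
  Pool.Agent.TOR.core_TD hRK hinj ht D

/-- Block D (helper76): a smooth projective family over a complete discrete valuation ring with toric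
special fibre gives graded toric data. -/
theorem toric {R K : Type u} [CommRing R] [IsDomain R] [IsDiscreteValuationRing R]
    [IsAdicComplete (IsLocalRing.maximalIdeal R) R] [Field K] [IsAlgClosed K] [CharZero K]
    [Algebra R K] (hRK : Function.Surjective (algebraMap R K)) {t : R} (ht : Irreducible t)
    {X X₀ : Scheme.{u}} (f : X ⟶ Spec (.of R)) [Smooth f] (hproj : IsProjective f)
    (g : X₀ ⟶ X) (f₀ : X₀ ⟶ Spec (.of K))
    (h : IsPullback g f₀ f (Spec.map (CommRingCat.ofHom (algebraMap R K))))
    (hT : IsSmoothProjectiveToric f₀) :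
    ∃ _ : IsIntegral X, Function.Injective (algebraMap R (FF f)) ∧
      Nonempty (TData R K (FF f) t) := by
  have := hT.integral
  have := hT.smooth
  have := hproj.isProper
  obtain ⟨N, i, hi, hif⟩ := hproj.exists_closedImmersion
  have hA := isProj_of_closedImmersion f i hif
  set A : Atlas X N := (atlasP N).pull
    (i ≫ pullback.snd (terminal.from (Spec (.of R))) (terminal.from (PP N))) with hAdef
  have hX : IsIntegral X := isIntegral_total h hRK
  obtain ⟨i₀, hη⟩ := A.cover (g (genericPoint X₀))
  have h₀ : genericPoint X ∈ A.U i₀ := genericPoint_mem hη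
  obtain ⟨ρ, hRC, hz⟩ := exists_RC h hRK ht A hA i₀ hη h₀ hη
  obtain ⟨n, ⟨S⟩⟩ := hT.toric
  obtain ⟨Φ, hTC⟩ := exists_TC hT.normal S (A.pull g) (hA.pull_special h hRK) i₀ hη
  rw [← hz] at hTC
  have hinj := algebraMap_injective (f := f)
  refine ⟨hX, hinj, hRC.exists_TData ht hRK ?_ hTC⟩
  intro h0
  exact ht.ne_zero (hinj (h0.trans (map_zero _).symm))

/-- Main theorem, first form: a dense open subset of the base. -/
theorem main {k : Type u} [Field k] [CharZero k] {S X : Scheme.{u}} [IrreducibleSpace S]
    (p : S ⟶ Spec (.of k)) [LocallyOfFiniteType p]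
    (π : X ⟶ S) [Smooth π] (hπ : IsProjective π) {K : Type u} [Field K] [IsAlgClosed K]
    (s : Spec (.of K) ⟶ S) {X₀ : Scheme.{u}} (g₀ : X₀ ⟶ X) (f₀ : X₀ ⟶ Spec (.of K))
    (h₀ : IsPullback g₀ f₀ π s) (hT : IsSmoothProjectiveToric f₀) :
    ∃ U : S.Opens, Dense (U : Set S) ∧ ∀ (K : Type u) [Field K] [IsAlgClosed K]
      (s : Spec (.of K) ⟶ S), Set.range s ⊆ U → IsRational (pullback.snd π s) := by
  obtain ⟨R, _, _, _, _, _, g, hRK, hs, hg⟩ := Pool.Agent.TORE.tod_arc p s
  have hπp := hπ.isProper
  -- characteristic zero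
  have hcK : CharZero K := by
    let φ : k →+* K := (Spec.preimage (s ≫ p)).hom
    exact charZero_of_injective_ringHom φ.injective
  obtain ⟨t, ht⟩ := IsDiscreteValuationRing.exists_irreducible R
  -- the family over `R`
  let Y := pullback π g
  let f : Y ⟶ Spec (.of R) := pullback.snd π g
  have hY : IsPullback (pullback.fst π g) f π g := IsPullback.of_hasPullback π g
  have hfproj : IsProjective f := hπ.baseChange hY
  -- the special fibre
  subst hs
  let g0 : X₀ ⟶ Y :=
    pullback.lift g₀ (f₀ ≫ Spec.map (CommRingCat.ofHom (algebraMap R K))) (by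
      rw [h₀.w, Category.assoc])
  have h1 : IsPullback g0 f₀ f (Spec.map (CommRingCat.ofHom (algebraMap R K))) := by
    have e1 : g0 ≫ pullback.fst π g = g₀ := pullback.lift_fst _ _ _
    have e2 : g0 ≫ f = f₀ ≫ Spec.map (CommRingCat.ofHom (algebraMap R K)) :=
      pullback.lift_snd _ _ _
    refine IsPullback.of_right (t := hY) ?_ e2
    rw [e1]
    exact h₀
  obtain ⟨hint, hinj, ⟨D⟩⟩ := toric hRK ht f hfproj g0 _ h1 hT
  have hcore : IsPurelyTranscendental R (FF f) := core hRK hinj ht D
  exact Pool.Agent.TORE.tod_spread p π g hg (pullback.fst π g) f hY hcore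

end

end TOD
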