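import Pool.Agent.TD.Final

/-!
[TOR] MP_e511d7_ag: the open set can be chosen to contain all the toric points.
-/

open CategoryTheory Limits AlgebraicGeometry TopologicalSpace

universe u

namespace TOD

noncomputable section

/-- A morphism from the spectrum of a field into `S` with image in the closed set `Z` factors through
the reduced induced subscheme. -/
theorem exists_lift_reduced {S Y : Scheme.{u}} [IsReduced Y] (Z : Closeds S)
    (s : Y ⟶ S) [QuasiCompact s] (hs : Set.range s ⊆ Z) :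
    ∃ s' : Y ⟶ (Scheme.IdealSheafData.vanishingIdeal Z).subscheme,
      s' ≫ (Scheme.IdealSheafData.vanishingIdeal Z).subschemeι = s := by
  have h1 : s.ker.support ≤ Z := by
    intro x hx
    have h2 : (s.ker.support : Set S) = closure (Set.range s) := s.support_ker
    have h3 : x ∈ closure (Set.range s) := h2 ▸ hx
    exact Z.isClosed.closure_subset_iff.mpr hs h3
  have h4 : s.ker.radical = s.ker := by
    ext U : 2
    change (s.ker.ideal U).radical = s.ker.ideal U
    rw [Scheme.Hom.ker_apply]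
    refine le_antisymm ?_ Ideal.le_radical
    rintro a ⟨n, hn⟩
    rw [RingHom.mem_ker, map_pow] at hn
    exact IsReduced.eq_zero _ ⟨n, hn⟩
  have h5 : (Scheme.IdealSheafData.vanishingIdeal Z).subschemeι.ker ≤ s.ker := by
    rw [Scheme.IdealSheafData.ker_subschemeι, ← h4, ← Scheme.IdealSheafData.vanishingIdeal_support]
    exact Scheme.IdealSheafData.vanishingIdeal_antimono h1
  exact ⟨IsClosedImmersion.lift _ s h5, IsClosedImmersion.lift_fac _ s h5⟩

/-- All geometric fibres over the point `x` are rational. -/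
def GoodPt {S X : Scheme.{u}} (π : X ⟶ S) (x : S) : Prop :=
  ∀ (K : Type u) [Field K] [IsAlgClosed K] (s : Spec (.of K) ⟶ S), x ∈ Set.range s →
    IsRational (pullback.snd π s)

theorem spec_field_point {K : Type u} [Field K] (x y : Spec (.of K)) : x = y :=
  Subsingleton.elim (α := PrimeSpectrum K) x y

/-- A geometric point with toric fibre on an irreducible closed subscheme: the main theorem for
the restricted family. -/
theorem exists_open_good_aux {k : Type u} [Field k] [CharZero k]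
    {S X : Scheme.{u}} (p : S ⟶ Spec (.of k)) [LocallyOfFiniteType p]
    (π : X ⟶ S) [Smooth π] (hπ : IsProjective π) {Z : Scheme.{u}} (ι : Z ⟶ S)
    [IsClosedImmersion ι] [IrreducibleSpace Z]
    (hlift : ∀ (L : Type u) [Field L] (s : Spec (.of L) ⟶ S), Set.range s ⊆ Set.range ι →
      ∃ s' : Spec (.of L) ⟶ Z, s' ≫ ι = s)
    {K : Type u} [Field K] [IsAlgClosed K] (s : Spec (.of K) ⟶ Z) {X₀ : Scheme.{u}}
    (g₀ : X₀ ⟶ X) (f₀ : X₀ ⟶ Spec (.of K)) (h0 : IsPullback g₀ f₀ π (s ≫ ι))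
    (hs : IsSmoothProjectiveToric f₀) :
    ∃ U : S.Opens, ((U : Set S) ∩ Set.range ι).Nonempty ∧
      ∀ x ∈ (U : Set S) ∩ Set.range ι, GoodPt π x := by
  have hemb : Topology.IsClosedEmbedding ι := ι.isClosedEmbedding
  have hX : IsPullback (pullback.fst π ι) (pullback.snd π ι) π ι := IsPullback.of_hasPullback π ι
  have hπ' : IsProjective (pullback.snd π ι) := hπ.baseChange hX
  let g0 : X₀ ⟶ pullback π ι :=
    pullback.lift g₀ (f₀ ≫ s) (by
      rw [h0.w, Category.assoc])
  have h1 : IsPullback g0 f₀ (pullback.snd π ι) s := by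
    have e1 : g0 ≫ pullback.fst π ι = g₀ := pullback.lift_fst _ _ _
    have e2 : g0 ≫ pullback.snd π ι = f₀ ≫ s := pullback.lift_snd _ _ _
    refine IsPullback.of_right (t := hX) ?_ e2
    rw [e1]
    exact h0
  obtain ⟨U', hU', hrat⟩ := main (ι ≫ p) (pullback.snd π ι) hπ' s g0 _ h1 hs
  obtain ⟨V, hV, hVU⟩ := hemb.isInducing.isOpen_iff.mp U'.isOpen
  have hmem : ∀ y : Z, ι y ∈ V ↔ y ∈ U' := by
    intro y
    have : y ∈ (ι ⁻¹' V) ↔ y ∈ (U' : Set Z) := by rw [hVU]
    exact this
  refine ⟨⟨V, hV⟩, ?_, ?_⟩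
  · obtain ⟨y, hy⟩ := hU'.nonempty
    exact ⟨ι y, (hmem y).2 hy, ⟨y, rfl⟩⟩
  · rintro x ⟨hxV, hxZ⟩ K₂ _ _ s₂ hx
    have hs₂ : Set.range s₂ ⊆ Set.range ι := by
      rintro _ ⟨b, rfl⟩
      obtain ⟨a, rfl⟩ := hx
      rw [spec_field_point b a]
      exact hxZ
    obtain ⟨s₃, rfl⟩ := hlift K₂ s₂ hs₂
    have h3 : Set.range s₃ ⊆ U' := by
      rintro _ ⟨b, rfl⟩
      obtain ⟨a, ha⟩ := hx
      rw [spec_field_point b a]
      refine (hmem _).1 ?_
      rw [← Scheme.Hom.comp_apply, ha]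
      exact hxV
    have h4 := hrat K₂ s₃ h3
    have h2 : IsPullback (pullback.fst (pullback.snd π ι) s₃ ≫ pullback.fst π ι)
        (pullback.snd (pullback.snd π ι) s₃) π (s₃ ≫ ι) :=
      (IsPullback.of_hasPullback (pullback.snd π ι) s₃).paste_horiz hX
    exact h4.of_iso h2.isoPullback.symm (by simp [h2.isoPullback_inv_snd])

/-- A geometric point with toric fibre in an irreducible closed subset `Z`: there are good points in
an open subset of `Z`. -/
theorem exists_open_good {k : Type u} [Field k] [CharZero k]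
    {S X : Scheme.{u}} (p : S ⟶ Spec (.of k)) [LocallyOfFiniteType p]
    (π : X ⟶ S) [Smooth π] (hπ : IsProjective π)
    {K : Type u} [Field K] [IsAlgClosed K] (s : Spec (.of K) ⟶ S) {X₀ : Scheme.{u}}
    (g₀ : X₀ ⟶ X) (f₀ : X₀ ⟶ Spec (.of K)) (h0 : IsPullback g₀ f₀ π s)
    (hs : IsSmoothProjectiveToric f₀) (Z : Closeds S)
    (hZ : IsIrreducible (Z : Set S)) (hsZ : Set.range s ⊆ Z) :
    ∃ U : S.Opens, ((U : Set S) ∩ Z).Nonempty ∧ ∀ x ∈ (U : Set S) ∩ Z, GoodPt π x := by
  obtain ⟨s', rfl⟩ := exists_lift_reduced Z s hsZ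
  have hrange : Set.range (Scheme.IdealSheafData.vanishingIdeal Z).subschemeι = Z := by
    rw [Scheme.IdealSheafData.range_subschemeι]
    rfl
  have hirr : IrreducibleSpace (Scheme.IdealSheafData.vanishingIdeal Z).subscheme :=
    Subtype.irreducibleSpace hZ
  have h := exists_open_good_aux p π hπ (Scheme.IdealSheafData.vanishingIdeal Z).subschemeι
    (fun L _ s h => exists_lift_reduced Z s (by rw [← hrange]; exact h)) s' g₀ f₀ h0 hs
  rw [hrange] at h
  exact h

/-- Noetherian induction. -/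
theorem exists_nbhd {k : Type u} [Field k] [CharZero k]
    {S X : Scheme.{u}} (p : S ⟶ Spec (.of k)) [LocallyOfFiniteType p] [NoetherianSpace S]
    (π : X ⟶ S) [Smooth π] (hπ : IsProjective π)
    {K : Type u} [Field K] [IsAlgClosed K] (s : Spec (.of K) ⟶ S) {X₀ : Scheme.{u}}
    (g₀ : X₀ ⟶ X) (f₀ : X₀ ⟶ Spec (.of K)) (h0 : IsPullback g₀ f₀ π s)
    (hs : IsSmoothProjectiveToric f₀) (F : Closeds S) :
    ∃ W : S.Opens, Set.range s ⊆ W ∧ ∀ x ∈ (W : Set S) ∩ F, GoodPt π x := by
  induction F using WellFoundedLT.induction with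
  | ind F ih =>
    by_cases hsF : Set.range s ⊆ F
    swap
    · -- `F` does not contain the point
      refine ⟨⟨(F : Set S)ᶜ, F.isClosed.isOpen_compl⟩, ?_, ?_⟩
      · rintro _ ⟨b, rfl⟩ hb
        apply hsF
        rintro _ ⟨a, rfl⟩
        rw [spec_field_point a b]
        exact hb
      · rintro x ⟨hx, hx'⟩
        exact absurd hx' hx
    by_cases hF : IsIrreducible (F : Set S)
    · obtain ⟨U, hUne, hU⟩ := exists_open_good p π hπ s g₀ f₀ h0 hs F hF hsF
      let F' : Closeds S := ⟨(F : Set S) \ U, F.isClosed.sdiff U.isOpen⟩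
      have hlt : F' < F := by
        refine lt_of_le_of_ne (fun x hx => hx.1) ?_
        rintro he
        obtain ⟨x, hxU, hxF⟩ := hUne
        have : x ∈ F' := by rw [he]; exact hxF
        exact this.2 hxU
      obtain ⟨W, hsW, hW⟩ := ih F' hlt
      refine ⟨W, hsW, ?_⟩
      rintro x ⟨hxW, hxF⟩
      by_cases hxU : x ∈ U
      · exact hU x ⟨hxU, hxF⟩
      · exact hW x ⟨hxW, ⟨hxF, hxU⟩⟩
    · -- reducible
      have hne : (F : Set S).Nonempty := by
        obtain ⟨b⟩ : Nonempty (Spec (.of K)) := inferInstance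
        exact ⟨s b, hsF ⟨b, rfl⟩⟩
      have h1 : ¬ IsPreirreducible (F : Set S) := fun h => hF ⟨hne, h⟩
      rw [isPreirreducible_iff_isClosed_union_isClosed] at h1
      push Not at h1
      obtain ⟨Z₁, Z₂, hZ₁, hZ₂, hcov, hn1, hn2⟩ := h1
      let F₁ : Closeds S := ⟨(F : Set S) ∩ Z₁, F.isClosed.inter hZ₁⟩
      let F₂ : Closeds S := ⟨(F : Set S) ∩ Z₂, F.isClosed.inter hZ₂⟩
      have hlt1 : F₁ < F := by
        refine lt_of_le_of_ne (fun x hx => hx.1) ?_
        intro he
        apply hn1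
        intro x hx
        have : x ∈ F₁ := by rw [he]; exact hx
        exact this.2
      have hlt2 : F₂ < F := by
        refine lt_of_le_of_ne (fun x hx => hx.1) ?_
        intro he
        apply hn2
        intro x hx
        have : x ∈ F₂ := by rw [he]; exact hx
        exact this.2
      obtain ⟨W₁, hs1, hW₁⟩ := ih F₁ hlt1
      obtain ⟨W₂, hs2, hW₂⟩ := ih F₂ hlt2
      refine ⟨W₁ ⊓ W₂, fun x hx => ⟨hs1 hx, hs2 hx⟩, ?_⟩
      rintro x ⟨⟨hx1, hx2⟩, hxF⟩
      rcases hcov hxF with h | h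
      · exact hW₁ x ⟨hx1, hxF, h⟩
      · exact hW₂ x ⟨hx2, hxF, h⟩

end

end TOD
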