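import Pool.Agent.TD.Defs
import Pool.Agent.TD.A0
import Pool.Agent.TD.FF

/-!
[TOR] block D, scheme part: definitions.
-/

open CategoryTheory Limits AlgebraicGeometry

universe u

namespace TOD

noncomputable section

/-- The ring homomorphism `R → Γ(X, U)` for a scheme `X` over `Spec R`. -/
def secHom {R : Type u} [CommRing R] {X : Scheme.{u}} (f : X ⟶ Spec (.of R)) (U : X.Opens) :
    R →+* Γ(X, U) :=
  ((Scheme.ΓSpecIso (.of R)).inv ≫ f.appTop ≫ X.presheaf.map (homOfLE (le_top : U ≤ ⊤)).op).hom

/-- An atlas of homogeneous coordinates `x_0, …, x_N` on a scheme: `U i` is the open set `x_i ≠ 0` and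
`z i j = x_j / x_i` on it. (The same thing as a morphism to `ℙ^N`.) -/
structure Atlas (X : Scheme.{u}) (N : ℕ) where
  U : Fin (N + 1) → X.Opens
  cover : ∀ x : X, ∃ i, x ∈ U i
  z : ∀ i : Fin (N + 1), Fin (N + 1) → Γ(X, U i)
  basic : ∀ i j, X.basicOpen (z i j) = U i ⊓ U j
  z_self : ∀ i, z i i = 1
  cocycle : ∀ (i j k : Fin (N + 1)) (x : X) (hi : x ∈ U i) (hj : x ∈ U j),
    X.presheaf.germ (U i) x hi (z i j) * X.presheaf.germ (U j) x hj (z j k) =
      X.presheaf.germ (U i) x hi (z i k)

/-- The atlas is projective over `Spec R`: the `U i` are affine and their rings of functions are generated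
over `R` by the `x_j / x_i`. (The same thing as a closed immersion into `ℙ^N_R`.) -/
structure Atlas.IsProj {X : Scheme.{u}} {N : ℕ} (A : Atlas X N) {R : Type u} [CommRing R]
    (f : X ⟶ Spec (.of R)) : Prop where
  aff : ∀ i, IsAffineOpen (A.U i)
  gen : ∀ i (x : Γ(X, A.U i)),
    x ∈ Subring.closure (Set.range (secHom f (A.U i)) ∪ Set.range (A.z i))

/-- Pullback of an atlas. -/
def Atlas.pull {X Y : Scheme.{u}} {N : ℕ} (A : Atlas Y N) (p : X ⟶ Y) : Atlas X N where
  U i := p ⁻¹ᵁ A.U i
  cover x := A.cover (p x)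
  z i j := p.app (A.U i) (A.z i j)
  basic i j := by
    rw [← Scheme.preimage_basicOpen, A.basic]
    rfl
  z_self i := by rw [A.z_self, map_one]
  cocycle i j k x hi hj := by
    have h := congrArg (p.stalkMap x) (A.cocycle i j k (p x) hi hj)
    rw [map_mul, Scheme.Hom.germ_stalkMap_apply, Scheme.Hom.germ_stalkMap_apply,
      Scheme.Hom.germ_stalkMap_apply] at h
    exact h

section FF

variable {R : Type u} [CommRing R] {X : Scheme.{u}} (f : X ⟶ Spec (.of R)) [IsIntegral X]

/-- The function field of an integral scheme `f : X ⟶ Spec R`, as an `R`-algebra. -/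
def FF (_ : X ⟶ Spec (.of R)) : Type u := X.functionField

instance : Field (FF f) := inferInstanceAs (Field X.functionField)

instance : Algebra R (FF f) := (toFF f).toAlgebra

/-- The germ at the generic point of a section over `U`. -/
def FF.germ (U : X.Opens) (h : genericPoint X ∈ U) : Γ(X, U) →+* FF f :=
  (X.presheaf.germ U (genericPoint X) h).hom

/-- The inclusion of the local ring at `x` into the function field. -/
def FF.stalk (x : X) : X.presheaf.stalk x →+* FF f :=
  (X.presheaf.stalkSpecializes ((genericPoint_spec X).specializes (Set.mem_univ x))).hom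

theorem FF.stalk_germ (U : X.Opens) (x : X) (hx : x ∈ U) (h : genericPoint X ∈ U) (s : Γ(X, U)) :
    FF.stalk f x (X.presheaf.germ U x hx s) = FF.germ f U h s :=
  X.presheaf.germ_stalkSpecializes_apply hx
    ((genericPoint_spec X).specializes (Set.mem_univ x)) s

theorem FF.germ_secHom (U : X.Opens) (h : genericPoint X ∈ U) (r : R) :
    FF.germ f U h (secHom f U r) = algebraMap R (FF f) r :=
  X.presheaf.germ_res_apply (homOfLE (le_top : U ≤ ⊤)) (genericPoint X) h
    (f.appTop ((Scheme.ΓSpecIso (.of R)).inv r))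

/-- The ring of functions on `U`, as an `R`-subalgebra of the function field. -/
def FF.sec (U : X.Opens) (h : genericPoint X ∈ U) : Subalgebra R (FF f) where
  toSubsemiring := (FF.germ f U h).range.toSubsemiring
  algebraMap_mem' r := ⟨secHom f U r, FF.germ_secHom f U h r⟩

/-- The local ring at `x`, as an `R`-subalgebra of the function field. -/
def FF.loc (x : X) : Subalgebra R (FF f) where
  toSubsemiring := (FF.stalk f x).range.toSubsemiring
  algebraMap_mem' r := ⟨X.presheaf.germ ⊤ x trivial (secHom f ⊤ r), by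
    rw [FF.stalk_germ f ⊤ x trivial trivial, FF.germ_secHom]⟩

/-- The homogeneous coordinates of an atlas as elements of the function field, normalised by
`x_{i₀} = 1`. -/
def Atlas.zF {N : ℕ} (A : Atlas X N) (f : X ⟶ Spec (.of R)) (i₀ : Fin (N + 1))
    (h₀ : genericPoint X ∈ A.U i₀) (j : Fin (N + 1)) : FF f :=
  FF.germ f (A.U i₀) h₀ (A.z i₀ j)

end FF

/-- The homomorphism of function fields of a morphism `p : X ⟶ Y` of integral schemes over `Spec R`
which maps the generic point to the generic point. -/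
def FF.map {R : Type u} [CommRing R] {X Y : Scheme.{u}} (f : X ⟶ Spec (.of R))
    (f' : Y ⟶ Spec (.of R)) [IsIntegral X] [IsIntegral Y] (p : X ⟶ Y)
    (hgp : p (genericPoint X) = genericPoint Y) : FF f' →+* FF f :=
  (Y.presheaf.stalkSpecializes (specializes_of_eq hgp) ≫ p.stalkMap (genericPoint X)).hom

/-- Evaluation of Laurent polynomials at the point `t` of the torus. -/
def evPt {K : Type u} [Field K] {n : ℕ} (t : Fin n → Kˣ) :
    AddMonoidAlgebra K (Fin n → ℤ) →ₐ[K] K :=
  AddMonoidAlgebra.lift K K (Fin n → ℤ)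
    { toFun := fun u => tpow t u.toAdd
      map_one' := by simp [tpow]
      map_mul' := by
        intro u v
        simp [tpow, zpow_add, Finset.prod_mul_distrib] }

/-- Translation of Laurent polynomials by the point `t` of the torus: `X^u ↦ t^u X^u`. -/
def trHom {K : Type u} [Field K] {n : ℕ} (t : Fin n → Kˣ) :
    AddMonoidAlgebra K (Fin n → ℤ) →ₐ[K] AddMonoidAlgebra K (Fin n → ℤ) :=
  AddMonoidAlgebra.lift K (AddMonoidAlgebra K (Fin n → ℤ)) (Fin n → ℤ)
    { toFun := fun u => AddMonoidAlgebra.single u.toAdd (tpow t u.toAdd)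
      map_one' := by simp [tpow, AddMonoidAlgebra.one_def]
      map_mul' := by
        intro u v
        rw [AddMonoidAlgebra.single_mul_single]
        simp [tpow, zpow_add, Finset.prod_mul_distrib] }

theorem trHom_single {K : Type u} [Field K] {n : ℕ} (t : Fin n → Kˣ) (u : Fin n → ℤ) :
    trHom t (AddMonoidAlgebra.single u 1) = AddMonoidAlgebra.single u (tpow t u) := by
  simp [trHom]

theorem evPt_single {K : Type u} [Field K] {n : ℕ} (t : Fin n → Kˣ) (u : Fin n → ℤ) :
    evPt t (AddMonoidAlgebra.single u 1) = tpow t u := by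
  simp [evPt]

/-- The `K`-point of the torus with coordinates `t`. -/
def ptT {K : Type u} [Field K] {n : ℕ} (t : Fin n → Kˣ) : Spec (.of K) ⟶ Torus K n :=
  Spec.map (CommRingCat.ofHom (evPt t).toRingHom)

instance {K : Type u} [Field K] {n : ℕ} : IsDomain (AddMonoidAlgebra K (Fin n → ℤ)) :=
  inferInstance

/-- `ρ` is the residue map of the local ring of `X` at the generic point of the special fibre `X₀`. -/
def IsResidue {R K : Type u} [CommRing R] [Field K] {X X₀ : Scheme.{u}} [IsIntegral X]
    [IsIntegral X₀] (f : X ⟶ Spec (.of R)) (f₀ : X₀ ⟶ Spec (.of K)) (g : X₀ ⟶ X)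
    (ρ : FF.loc f (g (genericPoint X₀)) →+* FF f₀) : Prop :=
  ∀ s (hs : FF.stalk f (g (genericPoint X₀)) s ∈ FF.loc f (g (genericPoint X₀))),
    ρ ⟨_, hs⟩ = (g.stalkMap (genericPoint X₀) s : X₀.presheaf.stalk (genericPoint X₀))

attribute [local instance] MvPolynomial.gradedAlgebra

/-- `ℙ^N` over `ℤ`. -/
abbrev PP (N : ℕ) : Scheme.{u} :=
  Proj (MvPolynomial.homogeneousSubmodule (Fin (N + 1)) (ULift.{u} ℤ))

/-- The open set `x_i ≠ 0` of `ℙ^N`. -/
abbrev UP (N : ℕ) (i : Fin (N + 1)) : (PP.{u} N).Opens :=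
  Proj.basicOpen (MvPolynomial.homogeneousSubmodule (Fin (N + 1)) (ULift.{u} ℤ))
    (MvPolynomial.X i)

/-- The function `x_j / x_i` on it. -/
def zP (N : ℕ) (i j : Fin (N + 1)) : Γ(PP.{u} N, UP N i) :=
  Proj.awayToSection (MvPolynomial.homogeneousSubmodule (Fin (N + 1)) (ULift.{u} ℤ))
    (MvPolynomial.X i) (HomogeneousLocalization.Away.mk
      (MvPolynomial.homogeneousSubmodule (Fin (N + 1)) (ULift.{u} ℤ)) (d := 1)
      (MvPolynomial.isHomogeneous_X _ i) 1 (MvPolynomial.X j) (MvPolynomial.isHomogeneous_X _ j))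

end

end TOD
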